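import Pool.Agent.W_cd7020_h81b.RDefs

/-!
# Contiguous parts
-/

set_option autoImplicit false

namespace Pool.Agent.W_cd7020_h81b

open Finset Pool.Agent.W_cd7020_h81

variable {V : Type*} [DecidableEq V]

omit [DecidableEq V] in
/-- The position of `b` is determined. -/
theorem BlkA_uniq (X X' Y Y' : List V) (b : V) (h1 : b ∉ X) (h2 : b ∉ X')
    (h : X ++ b :: Y = X' ++ b :: Y') : X = X' ∧ Y = Y' := by
  induction X generalizing X' with
  | nil =>
    cases X' with
    | nil => simpa using h
    | cons x X' =>
      rw [List.nil_append, List.cons_append, List.cons.injEq] at h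
      exact absurd (h.1 ▸ List.mem_cons_self) h2
  | cons x X ih =>
    cases X' with
    | nil =>
      rw [List.nil_append, List.cons_append, List.cons.injEq] at h
      exact absurd (h.1 ▸ List.mem_cons_self) h1
    | cons x' X' =>
      rw [List.cons_append, List.cons_append, List.cons.injEq] at h
      rw [List.mem_cons, not_or] at h1 h2
      obtain ⟨h3, h4⟩ := ih X' h1.2 h2.2 h.2
      exact ⟨by rw [h.1, h3], h4⟩

/-- The neighbours of `b` in a list without repetition. -/
theorem BlkA_nb (X Y : List V) (a b : V) (hP : (X ++ b :: Y).Nodup)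
    (h : s(a, b) ∈ pe (X ++ b :: Y)) : (∃ X', X = X' ++ [a]) ∨ ∃ Y', Y = a :: Y' := by
  obtain ⟨l₁, u, w, l₂, h1, h2⟩ := (mem_pe _ _).1 h
  have hbX : b ∉ X := by
    intro hb
    have := (List.nodup_append.1 hP).2.2 b hb b (by simp)
    exact this rfl
  rcases Sym2.eq_iff.1 h2 with ⟨rfl, rfl⟩ | ⟨rfl, rfl⟩
  · left
    refine ⟨l₁, ?_⟩
    have h3 : X ++ b :: Y = (l₁ ++ [a]) ++ b :: l₂ := by rw [h1]; simp
    have hb' : b ∉ l₁ ++ [a] := by
      intro hb
      rw [h3] at hP
      have := (List.nodup_append.1 hP).2.2 b hb b (by simp)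
      exact this rfl
    exact BlkA_uniq X (l₁ ++ [a]) Y l₂ b hbX hb' h3 |>.1
  · right
    refine ⟨l₂, ?_⟩
    have hb' : b ∉ l₁ := by
      intro hb
      rw [h1] at hP
      have := (List.nodup_append.1 hP).2.2 b hb b (by simp)
      exact this rfl
    exact BlkA_uniq X l₁ Y (a :: l₂) b hbX hb' h1 |>.2

/-- If all consecutive pairs of `C` are consecutive pairs of `P`, then `C` or its reverse is a
contiguous part of `P` (both without repetition). Induction on `C` from the right: if `C ++ [b]`
with `C = C' ++ [a]` and `P = A ++ C ++ D`, then `b` is next to `a` in `P`, and it is not the vertex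
before `a` (if `C'` is not empty that vertex is in `C'`; if `C'` is empty both orders are
possible). -/
theorem infix_of_pe (P C : List V) (hP : P.Nodup) (hC : C.Nodup) (hne : C ≠ [])
    (hmem : ∀ v ∈ C, v ∈ P) (h : ∀ e ∈ pe C, e ∈ pe P) :
    (∃ A D, P = A ++ C ++ D) ∨ ∃ A D, P = A ++ C.reverse ++ D := by
  induction C with
  | nil => exact absurd rfl hne
  | cons a C' ih =>
    cases C' with
    | nil =>
      left
      obtain ⟨A, D, hAD⟩ := List.append_of_mem (hmem a (by simp))
      exact ⟨A, D, by rw [hAD]; simp⟩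
    | cons b C'' =>
      have hab : s(a, b) ∈ pe P := h _ (by rw [pe_cons_cons]; simp)
      have hC2 := List.nodup_cons.1 hC
      rcases ih hC2.2 (by simp) (fun v hv => hmem v (List.mem_cons_of_mem _ hv))
        (fun e he => h e (by rw [pe_cons_cons]; exact List.mem_cons_of_mem _ he)) with
        ⟨A, D, hAD⟩ | ⟨A, D, hAD⟩
      · have h3 : P = A ++ b :: (C'' ++ D) := by rw [hAD]; simp
        rw [h3] at hab hP
        rcases BlkA_nb _ _ a b hP hab with ⟨X', hX⟩ | ⟨Y', hY⟩
        · left
          exact ⟨X', D, by rw [h3, hX]; simp⟩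
        · cases C'' with
          | nil =>
            right
            rw [List.nil_append] at hY
            exact ⟨A, Y', by rw [h3, hY]; simp⟩
          | cons c C'' =>
            exfalso
            rw [List.cons_append, List.cons.injEq] at hY
            apply hC2.1
            rw [← hY.1]
            simp
      · have h3 : P = (A ++ C''.reverse) ++ b :: D := by rw [hAD]; simp
        rw [h3] at hab hP
        rcases BlkA_nb _ _ a b hP hab with ⟨X', hX⟩ | ⟨Y', hY⟩
        · cases C'' with
          | nil =>
            left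
            rw [List.reverse_nil, List.append_nil] at hX
            exact ⟨X', D, by rw [h3, hX]; simp⟩
          | cons c C'' =>
            exfalso
            rw [List.reverse_cons, ← List.append_assoc] at hX
            have h4 := (List.append_inj' hX rfl).2
            rw [List.cons.injEq] at h4
            apply hC2.1
            rw [← h4.1]
            simp
        · right
          exact ⟨A, Y', by rw [h3, hY]; simp⟩

omit [DecidableEq V] in
/-- The case that the first part begins before the second. -/
theorem BlkA_two (C C' A D A' D' a' : List V) (hC' : C' ≠ [])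
    (h : A ++ C ++ D = A' ++ C' ++ D') (hd : ∀ v ∈ C, v ∉ C')
    (h1 : A' = A ++ a') (h2 : C ++ D = a' ++ (C' ++ D')) :
    ∃ X Y Z, A ++ C ++ D = X ++ C ++ Y ++ C' ++ Z := by
  rcases List.append_eq_append_iff.1 h2 with ⟨x, hx, hx'⟩ | ⟨x, hx, hx'⟩
  · exact ⟨A, x, D', by rw [hx']; simp⟩
  · cases x with
    | nil =>
      rw [List.append_nil] at hx
      rw [List.nil_append] at hx'
      exact ⟨A, [], D', by rw [← hx']; simp⟩
    | cons z x =>
      obtain ⟨w, m, rfl⟩ := List.exists_cons_of_ne_nil hC'
      rw [List.cons_append, List.cons_append, List.cons.injEq] at hx'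
      exact absurd (by rw [hx'.1]; simp) (hd z (by rw [hx]; simp))

/-- Two disjoint nonempty contiguous parts of a list without repetition. -/
theorem two_infix (P C C' A D A' D' : List V) (hP : P.Nodup) (hC : C ≠ []) (hC' : C' ≠ [])
    (h : P = A ++ C ++ D) (h' : P = A' ++ C' ++ D') (hd : ∀ v ∈ C, v ∉ C') :
    (∃ X Y Z, P = X ++ C ++ Y ++ C' ++ Z) ∨ ∃ X Y Z, P = X ++ C' ++ Y ++ C ++ Z := by
  have h0 : A ++ (C ++ D) = A' ++ (C' ++ D') := by
    rw [← List.append_assoc, ← List.append_assoc, ← h, h']
  rcases List.append_eq_append_iff.1 h0 with ⟨x, hx, hx'⟩ | ⟨x, hx, hx'⟩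
  · left
    rw [h]
    exact BlkA_two C C' A D A' D' x hC' (by rw [← h, h']) hd hx hx'
  · right
    rw [h']
    exact BlkA_two C' C A' D' A D x hC (by rw [← h, h']) (fun v hv hv' => hd v hv' hv) hx hx'

end Pool.Agent.W_cd7020_h81b
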