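import Pool.Agent.W_cd7020_h81b.RDefs

/-!
# Blocks
-/

set_option autoImplicit false

namespace Pool.Agent.W_cd7020_h81b

open Finset Pool.Agent.W_cd7020_h81

variable {V : Type*} [DecidableEq V]

/-- Blocks are parts of the list; different blocks are disjoint; lengths. -/
theorem blk_length (Q : List V) (s N i : ℕ) (hN : N * s ≤ Q.length) (hi : i < N) :
    (blk Q s i).length = s := by
  have h1 : (i + 1) * s ≤ N * s := Nat.mul_le_mul_right s hi
  have h2 : (i + 1) * s = i * s + s := by ring
  unfold blk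
  rw [List.length_take, List.length_drop]
  omega

theorem blk_pe (Q : List V) (s i : ℕ) (e : Sym2 V) (he : e ∈ pe (blk Q s i)) : e ∈ pe Q := by
  have h1 : e ∈ pe (Q.drop (i * s)) := by
    rw [← List.take_append_drop s (Q.drop (i * s))]
    exact mem_pe_left _ _ _ he
  rw [← List.take_append_drop (i * s) Q]
  exact mem_pe_right _ _ _ h1

theorem blk_mem (Q : List V) (s i : ℕ) (v : V) (hv : v ∈ blk Q s i) : v ∈ Q := by
  exact List.mem_of_mem_drop (List.mem_of_mem_take hv)

theorem blk_nodup (Q : List V) (hQ : Q.Nodup) (s i : ℕ) : (blk Q s i).Nodup := by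
  exact hQ.sublist ((List.take_sublist _ _).trans (List.drop_sublist _ _))

theorem BlkB_aux (Q : List V) (hQ : Q.Nodup) (s i i' : ℕ) (h : i < i') (v : V)
    (hv : v ∈ blk Q s i) : v ∉ blk Q s i' := by
  intro hv'
  have h1 : v ∈ Q.drop (i' * s) := List.mem_of_mem_take hv'
  have h2 : v ∈ Q.take (i' * s) := by
    unfold blk at hv
    rw [List.take_drop] at hv
    have h3 := List.mem_of_mem_drop hv
    have h4 : (i + 1) * s ≤ i' * s := Nat.mul_le_mul_right s h
    have h5 : i * s + s ≤ i' * s := by
      rw [add_mul, one_mul] at h4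
      exact h4
    exact (List.take_subset_take_left _ h5) h3
  have h6 : (Q.take (i' * s)).Disjoint (Q.drop (i' * s)) := by
    rw [← List.take_append_drop (i' * s) Q] at hQ
    exact List.disjoint_of_nodup_append hQ
  exact h6 h2 h1

theorem blk_disj (Q : List V) (hQ : Q.Nodup) (s i i' : ℕ) (h : i ≠ i') (v : V)
    (hv : v ∈ blk Q s i) : v ∉ blk Q s i' := by
  rcases lt_or_gt_of_ne h with h1 | h1
  · exact BlkB_aux Q hQ s i i' h1 v hv
  · intro hv'
    exact BlkB_aux Q hQ s i' i h1 v hv' hv

end Pool.Agent.W_cd7020_h81b
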