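import Pool.Agent.W_cd7020_h81b.BlkA
import Pool.Agent.W_cd7020_h81b.BlkB

/-!
# Two unbroken blocks
-/

set_option autoImplicit false

namespace Pool.Agent.W_cd7020_h81b

open Finset Pool.Agent.W_cd7020_h81

variable {V : Type*} [DecidableEq V]

/-- If at most `l` pairs of `Q` are not pairs of `P` and there are `N ≥ l + 2` blocks of length
`s ≥ 1`, then two blocks are not broken: every lost pair is in at most one block (two vertices of
one block). Then `infix_of_pe` and `two_infix`; the order of the two blocks is chosen such that the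
first one is `i`. -/
theorem two_blocks (Q P : List V) (hQ : Q.Nodup) (hP : P.Perm Q) (l N s : ℕ) (hs : 1 ≤ s)
    (hN : N * s ≤ Q.length) (hl : l + 2 ≤ N)
    (hlost : ((pe Q).toFinset \ (pe P).toFinset).card ≤ l) :
    ∃ i i', i < N ∧ i' < N ∧ i ≠ i' ∧ ∃ C C' A M D : List V,
      (C = blk Q s i ∨ C = (blk Q s i).reverse) ∧
      (C' = blk Q s i' ∨ C' = (blk Q s i').reverse) ∧
      P = (A ++ C) ++ M ++ (C' ++ D) := by
  classical
  have hPn : P.Nodup := hP.nodup_iff.2 hQ
  have hB : ((range N).filter (fun i => ¬ ∀ e ∈ pe (blk Q s i), e ∈ pe P)).card ≤ l := by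
    refine le_trans ?_ hlost
    have hch : ∀ i ∈ (range N).filter (fun i => ¬ ∀ e ∈ pe (blk Q s i), e ∈ pe P),
        ∃ e, e ∈ pe (blk Q s i) ∧ e ∉ pe P := by
      intro i hi
      have h1 := (Finset.mem_filter.1 hi).2
      push Not at h1
      exact h1
    have hQl : 0 < Q.length := by nlinarith
    haveI : Nonempty (Sym2 V) := ⟨s(Q[0], Q[0])⟩
    choose! f hf using hch
    refine Finset.card_le_card_of_injOn f ?_ ?_
    · intro i hi
      have h1 := hf i hi
      have h2 : f i ∈ (pe Q).toFinset \ (pe P).toFinset := by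
        rw [Finset.mem_sdiff, List.mem_toFinset, List.mem_toFinset]
        exact ⟨blk_pe Q s i _ h1.1, h1.2⟩
      exact h2
    · intro i hi j hj hij
      by_contra hne
      have h1 := (hf i hi).1
      have h2 := (hf j hj).1
      rw [← hij] at h2
      obtain ⟨a, ha⟩ : ∃ a, a ∈ f i :=
        Sym2.ind (f := fun e => ∃ a, a ∈ e) (fun a b => ⟨a, Sym2.mem_mk_left a b⟩) (f i)
      exact blk_disj Q hQ s i j hne a (Pe_mem _ _ h1 a ha) (Pe_mem _ _ h2 a ha)
  have hU : 1 < ((range N).filter (fun i => ∀ e ∈ pe (blk Q s i), e ∈ pe P)).card := by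
    have h1 := Finset.card_filter_add_card_filter_not (s := range N)
      (fun i => ∀ e ∈ pe (blk Q s i), e ∈ pe P)
    rw [Finset.card_range] at h1
    omega
  obtain ⟨i, hi, i', hi', hne⟩ := Finset.one_lt_card.1 hU
  rw [Finset.mem_filter, Finset.mem_range] at hi hi'
  have key : ∀ j < N, (∀ e ∈ pe (blk Q s j), e ∈ pe P) → ∃ C A D : List V,
      (C = blk Q s j ∨ C = (blk Q s j).reverse) ∧ C ≠ [] ∧ (∀ v, v ∈ C ↔ v ∈ blk Q s j) ∧
      P = A ++ C ++ D := by
    intro j hj hje
    have hne : blk Q s j ≠ [] := by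
      intro h0
      have h1 := blk_length Q s N j hN hj
      rw [h0, List.length_nil] at h1
      omega
    rcases infix_of_pe P (blk Q s j) hPn (blk_nodup Q hQ s j) hne
      (fun v hv => hP.mem_iff.2 (blk_mem Q s j v hv)) hje with ⟨A, D, h⟩ | ⟨A, D, h⟩
    · exact ⟨_, A, D, Or.inl rfl, hne, fun v => Iff.rfl, h⟩
    · refine ⟨_, A, D, Or.inr rfl, ?_, fun v => List.mem_reverse, h⟩
      rwa [Ne, List.reverse_eq_nil_iff]
  obtain ⟨C, A, D, hC1, hC2, hC3, hC4⟩ := key i hi.1 hi.2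
  obtain ⟨C', A', D', hC1', hC2', hC3', hC4'⟩ := key i' hi'.1 hi'.2
  have hd : ∀ v ∈ C, v ∉ C' := by
    intro v hv hv'
    exact blk_disj Q hQ s i i' hne v ((hC3 v).1 hv) ((hC3' v).1 hv')
  rcases two_infix P C C' A D A' D' hPn hC2 hC2' hC4 hC4' hd with ⟨X, Y, Z, h⟩ | ⟨X, Y, Z, h⟩
  · refine ⟨i, i', hi.1, hi'.1, hne, C, C', X, Y, Z, hC1, hC1', ?_⟩
    rw [h]
    simp only [List.append_assoc]
  · refine ⟨i', i, hi'.1, hi.1, Ne.symm hne, C', C, X, Y, Z, hC1', hC1, ?_⟩
    rw [h]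
    simp only [List.append_assoc]

end Pool.Agent.W_cd7020_h81b
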