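import Pool.Agent.W_cd7020_h81b.CloO

/-!
# Many closings
-/

set_option autoImplicit false

namespace Pool.Agent.W_cd7020_h81b

open Finset Pool.Agent.W_cd7020_h81

variable {V κ : Type*} [DecidableEq V] [DecidableEq κ] [Fintype V]

/-- Iteration of `close_one`, induction on `q`. -/
theorem close_many (col : Sym2 V → κ) (hcol : Proper col) (Q : Finset κ)
    (P : Prm (Fintype.card V)) (V' : Finset V) (hV' : V'.card ≤ P.v) (U : Finset V)
    (hV'U : univ \ V' ⊆ U) (B : Fin 5 → Finset κ) (hB : BP col Q V' P.kB P.a₁ B) (G : Finset κ)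
    (q C : ℕ) (E : Finset (Sym2 V)) (hE : Cyc U E) (hq : E.card + q = U.card) (hr : Rb col E)
    (hc : ∀ i, (B i ∩ (cE col E ∪ G)).card ≤ C * P.J)
    (hC : C + q ≤ 45 * P.M * P.T + 3) :
    ∃ E', Cyc U E' ∧ E'.card = U.card ∧ Rb col E' ∧
      (∀ e ∈ E', e ∈ E ∨ ∃ i, col e ∈ B i ∧ col e ∉ G) ∧
      ∀ i, (B i ∩ (cE col E' ∪ G)).card ≤ (C + q) * P.J := by
  induction q generalizing C E with
  | zero =>
    refine ⟨E, hE, by omega, hr, fun e he => Or.inl he, fun i => ?_⟩
    simpa using hc i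
  | succ q ih =>
    have hlt : E.card < U.card := by omega
    have hc' : ∀ i, (B i ∩ (cE col E ∪ G)).card ≤ (45 * P.M * P.T + 3) * P.J := fun i =>
      (hc i).trans (Nat.mul_le_mul_right _ (by omega))
    obtain ⟨E₁, hE₁, hcard₁, hr₁, hcov₁, hcc₁⟩ :=
      close_one col hcol Q P V' hV' U hV'U B hB G E hE hlt hr hc'
    have hc₁ : ∀ i, (B i ∩ (cE col E₁ ∪ G)).card ≤ (C + 1) * P.J := fun i => by
      have h1 := hcc₁ i
      have h2 := hc i
      rw [Nat.add_mul, Nat.one_mul]
      omega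
    obtain ⟨E', hE', hcard', hr', hcov', hcc'⟩ :=
      ih (C + 1) E₁ hE₁ (by omega) hr₁ hc₁ (by omega)
    refine ⟨E', hE', hcard', hr', fun e he => ?_, fun i => ?_⟩
    · rcases hcov' e he with h | h
      · exact hcov₁ e h
      · exact Or.inr h
    · have h := hcc' i
      have h3 : C + 1 + q = C + (q + 1) := by omega
      rw [h3] at h
      exact h

end Pool.Agent.W_cd7020_h81b
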