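import Pool.Agent.W_cd7020_h81b.CombA

/-!
# The combined set is rainbow
-/

set_option autoImplicit false

namespace Pool.Agent.W_cd7020_h81b

open Finset Pool.Agent.W_cd7020_h81

variable {V κ : Type*} [DecidableEq V] [DecidableEq κ]

/-- Rainbow: the colours of `F₁'` are colours of `onl P₁ F` or in `B₁`, the colours of `F₂'` are
colours of `onl P₂ F` or in `B₂`, the colours of `F` are not in `B₁ ∪ B₂`, and `B₁`, `B₂` are
disjoint. -/
theorem combine_rb (col : Sym2 V → κ) (B₁ B₂ : Finset κ) (P₁ P₂ : List V)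
    (F F₁' F₂' : Finset (Sym2 V)) (hd : ∀ e ∈ pe P₁, e ∉ pe P₂) (hF : Rb col F)
    (hF₁ : Rb col F₁') (hF₂ : Rb col F₂') (hc₁ : ∀ e ∈ F₁', e ∉ onl P₁ F → col e ∈ B₁)
    (hc₂ : ∀ e ∈ F₂', e ∉ onl P₂ F → col e ∈ B₂) (hB₁ : ∀ e ∈ F, col e ∉ B₁)
    (hB₂ : ∀ e ∈ F, col e ∉ B₂) (hBB : Disjoint B₁ B₂) :
    Rb col (F₁' ∪ (F \ (onl P₁ F ∪ onl P₂ F)) ∪ F₂') := by
  have hsub : ∀ P : List V, ∀ e, e ∈ onl P F → e ∈ F ∧ e ∈ pe P := by
    intro P e he
    exact Finset.mem_filter.1 he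
  -- a common colour of an edge of `F₁'` and an edge of the middle part
  have hA : ∀ (P : List V) (F' : Finset (Sym2 V)) (B : Finset κ),
      (∀ e ∈ F', e ∉ onl P F → col e ∈ B) → (∀ e ∈ F, col e ∉ B) →
      ∀ a ∈ F', ∀ b ∈ F, b ∉ onl P F → col a = col b → a = b := by
    intro P F' B hc hB a ha b hb hbP hab
    by_cases hao : a ∈ onl P F
    · exact hF a (hsub P a hao).1 b hb hab
    · exfalso
      apply hB b hb
      rw [← hab]
      exact hc a ha hao
  have hBA : ∀ a ∈ F₁', ∀ b ∈ F₂', col a = col b → a = b := by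
    intro a ha b hb hab
    by_cases hao : a ∈ onl P₁ F
    · by_cases hbo : b ∈ onl P₂ F
      · exact hF a (hsub _ a hao).1 b (hsub _ b hbo).1 hab
      · exfalso
        apply hB₂ a (hsub _ a hao).1
        rw [hab]
        exact hc₂ b hb hbo
    · by_cases hbo : b ∈ onl P₂ F
      · exfalso
        apply hB₁ b (hsub _ b hbo).1
        rw [← hab]
        exact hc₁ a ha hao
      · exfalso
        have h1 := hc₁ a ha hao
        have h2 := hc₂ b hb hbo
        rw [hab] at h1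
        exact Finset.disjoint_left.1 hBB h1 h2
  have hmid : ∀ e, e ∈ F \ (onl P₁ F ∪ onl P₂ F) → e ∈ F ∧ e ∉ onl P₁ F ∧ e ∉ onl P₂ F := by
    intro e he
    rw [Finset.mem_sdiff, Finset.mem_union, not_or] at he
    exact ⟨he.1, he.2.1, he.2.2⟩
  intro a ha b hb hab
  rw [Finset.mem_union, Finset.mem_union] at ha hb
  rcases ha with (ha | ha) | ha <;> rcases hb with (hb | hb) | hb
  · exact hF₁ a ha b hb hab
  · exact hA P₁ F₁' B₁ hc₁ hB₁ a ha b (hmid b hb).1 (hmid b hb).2.1 hab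
  · exact hBA a ha b hb hab
  · exact (hA P₁ F₁' B₁ hc₁ hB₁ b hb a (hmid a ha).1 (hmid a ha).2.1 hab.symm).symm
  · exact hF a (hmid a ha).1 b (hmid b hb).1 hab
  · exact (hA P₂ F₂' B₂ hc₂ hB₂ b hb a (hmid a ha).1 (hmid a ha).2.2 hab.symm).symm
  · exact (hBA b hb a ha hab.symm).symm
  · exact hA P₂ F₂' B₂ hc₂ hB₂ a ha b (hmid b hb).1 (hmid b hb).2.2 hab
  · exact hF₂ a ha b hb hab

end Pool.Agent.W_cd7020_h81b
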