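import Pool.Agent.W_cd7020_h81b.ClosG
import Pool.Agent.W_cd7020_h81b.CombB

/-!
# The last part of the closing lemma
-/

set_option autoImplicit false

namespace Pool.Agent.W_cd7020_h81b

open Finset Pool.Agent.W_cd7020_h81

variable {V κ : Type*} [DecidableEq V] [DecidableEq κ] [Fintype V]

omit [DecidableEq κ] [Fintype V] in
theorem ClosE_disj (P₁ M P₂ : List V) (hnd : (P₁ ++ M ++ P₂).Nodup) :
    ∀ e ∈ pe P₁, e ∉ pe P₂ := by
  intro e he he'
  have h1 := (List.nodup_append.1 hnd).2.2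
  have hex : ∃ v, v ∈ e := by
    induction e using Sym2.ind with
    | _ a b => exact ⟨a, Sym2.mem_mk_left a b⟩
  obtain ⟨v, hv⟩ := hex
  exact h1 v (List.mem_append_left _ (Pe_mem _ _ he v hv)) v (Pe_mem _ _ he' v hv) rfl

omit [Fintype V] in
theorem ClosE_comb (col : Sym2 V → κ) (U : Finset V) (E : Finset (Sym2 V))
    (B : Fin 5 → Finset κ) (J : ℕ) (hBE : ∀ i, ∀ e ∈ E, col e ∉ B i)
    (hBB : ∀ i j, i ≠ j → Disjoint (B i) (B j))
    (F : Finset (Sym2 V)) (P₁ M P₂ : List V) (h₁ : P₁ ≠ []) (h₂ : P₂ ≠ [])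
    (hnd : (P₁ ++ M ++ P₂).Nodup) (hU : ∀ v, v ∈ P₁ ++ M ++ P₂ ↔ v ∈ U)
    (hF : ∀ e ∈ F, e ∈ pe (P₁ ++ M ++ P₂)) (hFr : Rb col F)
    (hFc : ∀ e ∈ F, e ∉ E → col e ∈ B 0 ∨ col e ∈ B 1)
    (hF0 : ∀ i, (F.filter (fun e => col e ∈ B i)).card ≤ J)
    (P₁' P₂' : List V) (F₁' F₂' : Finset (Sym2 V)) (hp₁ : P₁'.Perm P₁) (hp₂ : P₂'.Perm P₂)
    (hl : P₁'.getLast? = P₁.getLast?) (hh : P₂'.head? = P₂.head?)
    (hF₁ : ∀ e ∈ F₁', e ∈ pe P₁') (hF₂ : ∀ e ∈ F₂', e ∈ pe P₂')
    (hr₁ : Rb col F₁') (hr₂ : Rb col F₂')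
    (hc₁ : ∀ e ∈ F₁', e ∉ onl P₁ F → col e ∈ B 2)
    (hc₂ : ∀ e ∈ F₂', e ∉ onl P₂ F → col e ∈ B 3)
    (hf₁ : (F₁' \ onl P₁ F).card ≤ J) (hf₂ : (F₂' \ onl P₂ F).card ≤ J) :
    ∃ E₀ : Finset (Sym2 V), (P₁' ++ M ++ P₂').Nodup ∧ (∀ v, v ∈ P₁' ++ M ++ P₂' ↔ v ∈ U) ∧
      (∀ e ∈ E₀, e ∈ pe (P₁' ++ M ++ P₂')) ∧
      E₀.card + (onl P₁ F).card + (onl P₂ F).card = F₁'.card + F.card + F₂'.card ∧
      Rb col E₀ ∧ (∀ e ∈ E₀, col e ∉ B 4) ∧ (∀ e ∈ E₀, e ∉ E → ∃ i, col e ∈ B i) ∧
      ∀ i, (E₀.filter (fun e => col e ∈ B i)).card ≤ J := by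
  have hdis : ∀ i j, i ≠ j → ∀ c, c ∈ B i → c ∉ B j := fun i j hij c hc =>
    Finset.disjoint_left.1 (hBB i j hij) hc
  have hFB : ∀ i, i ≠ 0 → i ≠ 1 → ∀ e ∈ F, col e ∉ B i := by
    intro i hi0 hi1 e he hce
    by_cases heE : e ∈ E
    · exact hBE i e heE hce
    · rcases hFc e he heE with h | h
      · exact hdis 0 i (Ne.symm hi0) _ h hce
      · exact hdis 1 i (Ne.symm hi1) _ h hce
  obtain ⟨c1, c2, c3⟩ := combine P₁ M P₂ P₁' P₂' F F₁' F₂' h₁ h₂ hnd hF hp₁ hp₂ hl hh hF₁ hF₂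
  have c4 := combine_rb col (B 2) (B 3) P₁ P₂ F F₁' F₂' (ClosE_disj P₁ M P₂ hnd) hFr hr₁ hr₂
    hc₁ hc₂ (hFB 2 (by decide) (by decide)) (hFB 3 (by decide) (by decide))
    (hBB 2 3 (by decide))
  obtain ⟨E₀, hE₀⟩ : ∃ E₀, E₀ = F₁' ∪ (F \ (onl P₁ F ∪ onl P₂ F)) ∪ F₂' := ⟨_, rfl⟩
  rw [← hE₀] at c2 c3 c4
  have hcase : ∀ e ∈ E₀, e ∈ F ∨ (e ∈ F₁' \ onl P₁ F ∧ col e ∈ B 2) ∨
      (e ∈ F₂' \ onl P₂ F ∧ col e ∈ B 3) := by
    intro e he
    rw [hE₀, Finset.mem_union, Finset.mem_union] at he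
    rcases he with (h | h) | h
    · by_cases ho : e ∈ onl P₁ F
      · exact Or.inl (Finset.mem_filter.1 ho).1
      · exact Or.inr (Or.inl ⟨Finset.mem_sdiff.2 ⟨h, ho⟩, hc₁ e h ho⟩)
    · exact Or.inl (Finset.mem_sdiff.1 h).1
    · by_cases ho : e ∈ onl P₂ F
      · exact Or.inl (Finset.mem_filter.1 ho).1
      · exact Or.inr (Or.inr ⟨Finset.mem_sdiff.2 ⟨h, ho⟩, hc₂ e h ho⟩)
  refine ⟨E₀, c1.nodup_iff.2 hnd, fun v => (c1.mem_iff).trans (hU v), c2, c3, c4, ?_, ?_, ?_⟩
  · intro e he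
    rcases hcase e he with h | h | h
    · exact hFB 4 (by decide) (by decide) e h
    · exact hdis 2 4 (by decide) _ h.2
    · exact hdis 3 4 (by decide) _ h.2
  · intro e he heE
    rcases hcase e he with h | h | h
    · rcases hFc e h heE with h' | h'
      · exact ⟨0, h'⟩
      · exact ⟨1, h'⟩
    · exact ⟨2, h.2⟩
    · exact ⟨3, h.2⟩
  · intro i
    by_cases hi2 : i = 2
    · subst hi2
      refine (Finset.card_le_card ?_).trans hf₁
      intro e he
      rw [Finset.mem_filter] at he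
      rcases hcase e he.1 with h | h | h
      · exact absurd he.2 (hFB 2 (by decide) (by decide) e h)
      · exact h.1
      · exact absurd he.2 (hdis 3 2 (by decide) _ h.2)
    · by_cases hi3 : i = 3
      · subst hi3
        refine (Finset.card_le_card ?_).trans hf₂
        intro e he
        rw [Finset.mem_filter] at he
        rcases hcase e he.1 with h | h | h
        · exact absurd he.2 (hFB 3 (by decide) (by decide) e h)
        · exact absurd he.2 (hdis 2 3 (by decide) _ h.2)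
        · exact h.1
      · refine (Finset.card_le_card ?_).trans (hF0 i)
        intro e he
        rw [Finset.mem_filter] at he
        rcases hcase e he.1 with h | h | h
        · exact Finset.mem_filter.2 ⟨h, he.2⟩
        · exact absurd he.2 (hdis 2 i (Ne.symm hi2) _ h.2)
        · exact absurd he.2 (hdis 3 i (Ne.symm hi3) _ h.2)

theorem ClosE_mix (col : Sym2 V → κ) (B : Finset κ) (a : ℝ) (ha : 0 ≤ a) (hB : Mix col B a)
    (T₂ T₃ : Finset V) (k₂ k₃ d : ℕ) (hn : 0 < Fintype.card V) (h2 : 0 < k₂) (h3 : 0 < k₃)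
    (hT₂ : (d : ℝ) * Fintype.card V ≤ 4 * k₂ * T₂.card)
    (hT₃ : (d : ℝ) * Fintype.card V ≤ 4 * k₃ * T₃.card)
    (hk : 0 < B.card)
    (hf₂ : 4 * a * k₂ < d * B.card) (hf₃ : 4 * a * k₃ < d * B.card) :
    ∃ x ∈ T₂, ∃ y ∈ T₃, x ≠ y ∧ col s(x, y) ∈ B := by
  by_contra hcon
  have h0 : eB col B T₂ T₃ = 0 := by
    unfold eB
    rw [Finset.card_eq_zero, Finset.filter_eq_empty_iff]
    rintro ⟨x, y⟩ hp ⟨h4, h5⟩
    rw [Finset.mem_product] at hp
    exact hcon ⟨x, hp.1, y, hp.2, h4, h5⟩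
  have hm := hB T₂ T₃
  rw [h0] at hm
  have hn' : (0 : ℝ) < Fintype.card V := by exact_mod_cast hn
  have h2' : (0 : ℝ) < k₂ := by exact_mod_cast h2
  have h3' : (0 : ℝ) < k₃ := by exact_mod_cast h3
  have hk' : (0 : ℝ) < B.card := by exact_mod_cast hk
  obtain ⟨n, hnn⟩ : ∃ n : ℝ, n = Fintype.card V := ⟨_, rfl⟩
  obtain ⟨X, hX⟩ : ∃ X : ℝ, X = T₂.card := ⟨_, rfl⟩
  obtain ⟨Y, hY⟩ : ∃ Y : ℝ, Y = T₃.card := ⟨_, rfl⟩
  obtain ⟨k, hkk⟩ : ∃ k : ℝ, k = B.card := ⟨_, rfl⟩
  rw [← hnn, ← hX] at hT₂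
  rw [← hnn, ← hY] at hT₃
  rw [← hnn, ← hX, ← hY, ← hkk] at hm
  rw [← hnn] at hn'
  rw [← hkk] at hk' hf₂ hf₃
  have e2 : a * n < X * k := by
    have : 4 * k₂ * (a * n) < 4 * k₂ * (X * k) := by
      calc 4 * k₂ * (a * n) = (4 * a * k₂) * n := by ring
        _ < (d * k) * n := mul_lt_mul_of_pos_right hf₂ hn'
        _ = (d * n) * k := by ring
        _ ≤ (4 * k₂ * X) * k := mul_le_mul_of_nonneg_right hT₂ hk'.le
        _ = 4 * k₂ * (X * k) := by ring
    exact lt_of_mul_lt_mul_left this (by positivity)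
  have e3 : a * n < Y * k := by
    have : 4 * k₃ * (a * n) < 4 * k₃ * (Y * k) := by
      calc 4 * k₃ * (a * n) = (4 * a * k₃) * n := by ring
        _ < (d * k) * n := mul_lt_mul_of_pos_right hf₃ hn'
        _ = (d * n) * k := by ring
        _ ≤ (4 * k₃ * Y) * k := mul_le_mul_of_nonneg_right hT₃ hk'.le
        _ = 4 * k₃ * (Y * k) := by ring
    exact lt_of_mul_lt_mul_left this (by positivity)
  have han : 0 ≤ a * n := mul_nonneg ha hn'.le
  have hXk : 0 < X * k := lt_of_le_of_lt han e2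
  have hYk : 0 < Y * k := lt_of_le_of_lt han e3
  have hX0 : 0 < X := pos_of_mul_pos_left hXk hk'.le
  have hY0 : 0 < Y := pos_of_mul_pos_left hYk hk'.le
  have hXY : 0 < X * Y := mul_pos hX0 hY0
  obtain ⟨t, ht⟩ : ∃ t : ℝ, t = Real.sqrt (X * Y) := ⟨_, rfl⟩
  have ht0 : 0 < t := by
    rw [ht]
    exact Real.sqrt_pos.2 hXY
  have htt : t * t = X * Y := by
    rw [ht]
    exact Real.mul_self_sqrt hXY.le
  rw [← ht] at hm
  have h5 : k / n * (X * Y) ≤ a * t := by
    have h6 := (abs_le.1 hm).1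
    have h7 : ((0 : ℕ) : ℝ) = 0 := Nat.cast_zero
    rw [h7] at h6
    linarith
  have h6 : k * t ≤ a * n := by
    rw [← htt] at h5
    have h7 : (k / n * t) * t ≤ a * t := by
      calc (k / n * t) * t = k / n * (t * t) := by ring
        _ ≤ a * t := h5
    have h8 : k / n * t ≤ a := le_of_mul_le_mul_right h7 ht0
    have h9 := mul_le_mul_of_nonneg_right h8 hn'.le
    have h10 : k / n * t * n = k * t := by
      field_simp
    rw [h10] at h9
    exact h9
  have h7 : (a * n) * (a * n) < (X * k) * (Y * k) := mul_lt_mul'' e2 e3 han han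
  have h8 : (k * t) * (k * t) ≤ (a * n) * (a * n) :=
    mul_le_mul h6 h6 (by positivity) han
  have h9 : (k * t) * (k * t) = (X * k) * (Y * k) := by
    calc (k * t) * (k * t) = k * k * (t * t) := by ring
      _ = (X * k) * (Y * k) := by rw [htt]; ring
  rw [h9] at h8
  exact absurd (lt_of_lt_of_le h7 h8) (lt_irrefl _)

/-- The situation after the rotations with `B 0` and `B 1`: the list `P = (A ++ C) ++ M ++ (C' ++ D)`
with the set `F` of edges, `|F| = |E|`. The first vertex of `A ++ C` is not in `X₂`, the last vertex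
of `C' ++ D` is not in `X₃`. Apply `seg_expand` to `A ++ C` with `B 2` and `onl (A ++ C) F`, and to
`(C' ++ D).reverse = D.reverse ++ C'.reverse` with `B 3` (`coreY_reverse`, `mem_pe_reverse`). An
improvement on one side gives `Goal` by `combine` and `combine_rb` (with nothing changed on the
other side; `F₂' = onl ..`). Otherwise there are sets `T₂`, `T₃` with `|T| ≥ d n / (4 |B|)`, and by the
mixing property of `B 4` (`a n / |B 4| < √(|T₂| |T₃|)`, `hfin`) there are `x ∈ T₂`, `y ∈ T₃`, `x ≠ y`,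
`col s(x, y) ∈ B 4`. The list `P₁' ++ M ++ P₂'.reverse` starts with `x` and ends with `y`; the
combined set with `s(y, x)` added is contained in the cyclic pairs (`ce_eq`), so `Goal` holds. The
new edges: `F \ E` (colours in `B 0` and `B 1`, at most `J` each), at most `J` with colours in `B 2`,
at most `J` in `B 3` and one in `B 4`. -/
theorem close_end (col : Sym2 V → κ) (hcol : Proper col) (U : Finset V) (E : Finset (Sym2 V))
    (B : Fin 5 → Finset κ) (a : ℝ) (ha : 0 ≤ a) (hmix : ∀ i, Mix col (B i) a) (J d : ℕ)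
    (hJ1 : 1 ≤ J) (hJ : Fintype.card V ≤ 2 ^ J) (hBE : ∀ i, ∀ e ∈ E, col e ∉ B i)
    (hBB : ∀ i j, i ≠ j → Disjoint (B i) (B j))
    (F : Finset (Sym2 V)) (A C M C' D : List V) (hC : C ≠ []) (hC' : C' ≠ [])
    (hnd : ((A ++ C) ++ M ++ (C' ++ D)).Nodup)
    (hU : ∀ v, v ∈ (A ++ C) ++ M ++ (C' ++ D) ↔ v ∈ U)
    (hF : ∀ e ∈ F, e ∈ pe ((A ++ C) ++ M ++ (C' ++ D))) (hFE : F.card = E.card)
    (hFr : Rb col F) (hFc : ∀ e ∈ F, e ∉ E → col e ∈ B 0 ∨ col e ∈ B 1)
    (hF0 : ∀ i, (F.filter (fun e => col e ∈ B i)).card ≤ J)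
    (X₂ X₃ : Finset V)
    (hX₂ : ∀ x, x ∉ X₂ → d + 2 * J ≤
      ((coreY C X₂).filter (fun y => y ≠ x ∧ col s(x, y) ∈ B 2)).card)
    (hX₃ : ∀ x, x ∉ X₃ → d + 2 * J ≤
      ((coreY C' X₃).filter (fun y => y ≠ x ∧ col s(x, y) ∈ B 3)).card)
    (x₀ y₀ : V) (hx₀ : (A ++ C).head? = some x₀) (hx₀X : x₀ ∉ X₂)
    (hy₀ : (C' ++ D).getLast? = some y₀) (hy₀X : y₀ ∉ X₃)
    (hd1 : 1 ≤ d) (had : 4 * a ≤ d) (hdB : ∀ i, d ≤ (B i).card)
    (hfin : ∀ i j, 4 * a * (B i).card < d * (B j).card) :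
    Goal col U E B J := by
  have hdis : ∀ i j, i ≠ j → ∀ c, c ∈ B i → c ∉ B j := fun i j hij c hc =>
    Finset.disjoint_left.1 (hBB i j hij) hc
  have hFB : ∀ i, i ≠ 0 → i ≠ 1 → ∀ e ∈ F, col e ∉ B i := by
    intro i hi0 hi1 e he hce
    by_cases heE : e ∈ E
    · exact hBE i e heE hce
    · rcases hFc e he heE with h | h
      · exact hdis 0 i (Ne.symm hi0) _ h hce
      · exact hdis 1 i (Ne.symm hi1) _ h hce
  have h₁ : A ++ C ≠ [] := by
    intro h
    exact hC (List.append_eq_nil_iff.1 h).2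
  have h₂ : C' ++ D ≠ [] := by
    intro h
    exact hC' (List.append_eq_nil_iff.1 h).1
  have hnd1 : (A ++ C).Nodup := (List.nodup_append.1 (List.nodup_append.1 hnd).1).1
  have hnd2 : (C' ++ D).Nodup := (List.nodup_append.1 hnd).2.1
  have hrev : D.reverse ++ C'.reverse = (C' ++ D).reverse := List.reverse_append.symm
  have hr₁ : Rb col (onl (A ++ C) F) := fun e he e' he' h =>
    hFr e (Finset.mem_filter.1 he).1 e' (Finset.mem_filter.1 he').1 h
  have hr₂ : Rb col (onl (C' ++ D) F) := fun e he e' he' h =>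
    hFr e (Finset.mem_filter.1 he).1 e' (Finset.mem_filter.1 he').1 h
  have hz : ∀ G : Finset (Sym2 V), (G \ G).card ≤ J := by
    intro G
    rw [Finset.sdiff_self, Finset.card_empty]
    exact Nat.zero_le _
  have key := ClosE_comb col U E B J hBE hBB F (A ++ C) M (C' ++ D) h₁ h₂ hnd hU hF hFr hFc hF0
  rcases seg_expand col hcol (B 2) a ha (hmix 2) A C hnd1 (onl (A ++ C) F)
    (fun e he => (Finset.mem_filter.1 he).2) hr₁
    (fun e he => hFB 2 (by decide) (by decide) e (Finset.mem_filter.1 he).1) J d hJ X₂ hX₂ x₀ hx₀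
    hx₀X hd1 had (hdB 2) with hs | ⟨T₂, hT₂, hR₂⟩
  · obtain ⟨P', F', hp, hl, hre, hca, hrb, hco, hfe⟩ := hs
    obtain ⟨E₀, k1, k2, k3, k4, k5, -, k7, k8⟩ := key P' (C' ++ D) F' (onl (C' ++ D) F) hp
      (List.Perm.refl _) hl rfl hre (fun e he => (Finset.mem_filter.1 he).2) hrb hr₂ hco
      (fun e he he' => absurd he he') hfe (hz _)
    exact ⟨E₀, ⟨_, k1, k2, fun e he => pe_sub_ce _ _ (k3 e he)⟩, by omega, k5, k7, k8⟩
  · rcases seg_expand col hcol (B 3) a ha (hmix 3) D.reverse C'.reverse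
      (by rw [hrev]; exact List.nodup_reverse.2 hnd2) (onl (C' ++ D) F)
      (fun e he => by
        rw [hrev, mem_pe_reverse]
        exact (Finset.mem_filter.1 he).2) hr₂
      (fun e he => hFB 3 (by decide) (by decide) e (Finset.mem_filter.1 he).1) J d hJ X₃
      (by rw [coreY_reverse]; exact hX₃) y₀
      (by rw [hrev, List.head?_reverse]; exact hy₀)
      hy₀X hd1 had (hdB 3) with hs | ⟨T₃, hT₃, hR₃⟩
    · obtain ⟨P', F', hp, hl, hre, hca, hrb, hco, hfe⟩ := hs
      rw [hrev] at hp hl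
      obtain ⟨E₀, k1, k2, k3, k4, k5, -, k7, k8⟩ := key (A ++ C) P'.reverse (onl (A ++ C) F) F'
        (List.Perm.refl _) ((List.reverse_perm P').trans (hp.trans (List.reverse_perm _))) rfl
        (by rw [List.head?_reverse, hl, List.getLast?_reverse])
        (fun e he => (Finset.mem_filter.1 he).2)
        (fun e he => (mem_pe_reverse P' e).2 (hre e he)) hr₁ hrb
        (fun e he he' => absurd he he') hco (hz _) hfe
      exact ⟨E₀, ⟨_, k1, k2, fun e he => pe_sub_ce _ _ (k3 e he)⟩, by omega, k5, k7, k8⟩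
    · have hn : 0 < Fintype.card V := Fintype.card_pos_iff.2 ⟨x₀⟩
      have hBp : ∀ i, 0 < (B i).card := fun i => lt_of_lt_of_le hd1 (hdB i)
      obtain ⟨x, hx, y, hy, hxy, hcxy⟩ := ClosE_mix col (B 4) a ha (hmix 4) T₂ T₃ (B 2).card
        (B 3).card d hn (hBp 2) (hBp 3) hT₂ hT₃ (hBp 4) (hfin 2 4) (hfin 3 4)
      obtain ⟨P', F', hP', hxh⟩ := hR₂ x hx
      obtain ⟨R, G', hR, hyh⟩ := hR₃ y hy
      have hRp := hR.perm
      have hRl := hR.last
      rw [hrev] at hRp hRl
      obtain ⟨E₀, k1, k2, k3, k4, k5, k6, k7, k8⟩ := key P' R.reverse F' G' hP'.perm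
        ((List.reverse_perm R).trans (hRp.trans (List.reverse_perm _))) hP'.last
        (by rw [List.head?_reverse, hRl, List.getLast?_reverse])
        hP'.real (fun e he => (mem_pe_reverse R e).2 (hR.real e he)) hP'.rb hR.rb
        hP'.cols hR.cols hP'.few hR.few
      have hcyx : col s(y, x) ∈ B 4 := by
        rw [Sym2.eq_swap]
        exact hcxy
      have hnot : s(y, x) ∉ E₀ := fun h => k6 _ h hcyx
      have hne : P' ++ M ++ R.reverse ≠ [] := by
        intro h
        have h5 := (List.append_eq_nil_iff.1 (List.append_eq_nil_iff.1 h).1).1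
        rw [h5] at hxh
        exact absurd hxh (by simp)
      have hPne : P' ≠ [] := by
        rintro rfl
        exact absurd hxh (by simp)
      have hRne : R ≠ [] := by
        rintro rfl
        exact absurd hyh (by simp)
      have hhead : (P' ++ M ++ R.reverse).head hne = x := by
        have h5 : (P' ++ M ++ R.reverse).head? = some x := by
          rw [List.append_assoc, List.head?_append, hxh]
          rfl
        rw [List.head?_eq_some_head hne] at h5
        exact Option.some_injective _ h5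
      have hlast : (P' ++ M ++ R.reverse).getLast hne = y := by
        have h5 : (P' ++ M ++ R.reverse).getLast? = some y := by
          rw [List.getLast?_append, List.getLast?_reverse, hyh]
          rfl
        rw [List.getLast?_eq_some_getLast hne] at h5
        exact Option.some_injective _ h5
      refine ⟨insert s(y, x) E₀, ⟨P' ++ M ++ R.reverse, k1, k2, ?_⟩, ?_, ?_, ?_, ?_⟩
      · intro e he
        rw [ce_eq _ hne, hhead, hlast, List.mem_append, List.mem_singleton]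
        rcases Finset.mem_insert.1 he with h | h
        · exact Or.inr h
        · exact Or.inl (k3 e h)
      · rw [Finset.card_insert_of_notMem hnot]
        have h5 := hP'.card
        have h6 := hR.card
        omega
      · intro e he e' he' hee
        rcases Finset.mem_insert.1 he with h | h
        · rcases Finset.mem_insert.1 he' with h' | h'
          · rw [h, h']
          · exfalso
            apply k6 e' h'
            rw [← hee, h]
            exact hcyx
        · rcases Finset.mem_insert.1 he' with h' | h'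
          · exfalso
            apply k6 e h
            rw [hee, h']
            exact hcyx
          · exact k5 e h e' h' hee
      · intro e he heE
        rcases Finset.mem_insert.1 he with h | h
        · exact ⟨4, by rw [h]; exact hcyx⟩
        · exact k7 e h heE
      · intro i
        by_cases hi : i = 4
        · subst hi
          have h5 : (insert s(y, x) E₀).filter (fun e => col e ∈ B 4) ⊆ {s(y, x)} := by
            intro e he
            rw [Finset.mem_filter] at he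
            rw [Finset.mem_singleton]
            rcases Finset.mem_insert.1 he.1 with h | h
            · exact h
            · exact absurd he.2 (k6 e h)
          refine (Finset.card_le_card h5).trans ?_
          rw [Finset.card_singleton]
          exact hJ1
        · refine (Finset.card_le_card ?_).trans (k8 i)
          intro e he
          rw [Finset.mem_filter] at he
          rcases Finset.mem_insert.1 he.1 with h | h
          · exfalso
            rw [h] at he
            exact hdis 4 i (Ne.symm hi) _ hcyx he.2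
          · exact Finset.mem_filter.2 ⟨h, he.2⟩

end Pool.Agent.W_cd7020_h81b
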