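import Pool.Agent.W_cd7020_h81b.ClosT
import Pool.Agent.W_cd7020_h81b.ClosE
import Pool.Agent.W_cd7020_h81b.BlkC

/-!
# The closing lemma
-/

set_option autoImplicit false

namespace Pool.Agent.W_cd7020_h81b

open Finset Pool.Agent.W_cd7020_h81

variable {V κ : Type*} [DecidableEq V] [DecidableEq κ] [Fintype V]

/-- The numbers of the closing lemma. -/
theorem Clos_num (n u J k N s x₀ d : ℕ) (hJ1 : 1 ≤ J) (hJn : 10 ^ 6 * J ^ 2 ≤ n)
    (hU : n ≤ 2 * u) (hkJ : 10 ^ 4 * J ^ 2 ≤ k) (hN : N = 2 * J + 2) (hs : s = u / N)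
    (hx : x₀ = n / (1000 * J)) (hd : d = k / (160 * J)) :
    N * s ≤ u ∧ n ≤ 10 * J * s ∧ 4 * x₀ + 8 ≤ s ∧ 1000 * J * x₀ ≤ n ∧ n ≤ 2000 * J * x₀ ∧
      160 * J * d ≤ k ∧ k ≤ 320 * J * d ∧ 1 ≤ d ∧ 16 * (N * x₀) < n := by
  have hJ2 : J ≤ J ^ 2 := by nlinarith
  have hNpos : 0 < N := by omega
  have h1 : N * s ≤ u := by rw [hs]; exact Nat.mul_div_le u N
  have h2 : u < N * (s + 1) := by rw [hs]; exact Nat.lt_mul_div_succ u hNpos
  have hN4 : N ≤ 4 * J := by omega
  have h3 : n ≤ 8 * J * s + 8 * J := by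
    have h4 : N * (s + 1) ≤ 4 * J * (s + 1) := Nat.mul_le_mul_right _ hN4
    nlinarith
  have h5 : n ≤ 10 * J * s := by nlinarith
  have h6 : 1000 * J * x₀ ≤ n := by rw [hx]; exact Nat.mul_div_le n (1000 * J)
  have h7 : n < 1000 * J * (x₀ + 1) := by
    rw [hx]; exact Nat.lt_mul_div_succ n (by omega)
  have h8 : n ≤ 2000 * J * x₀ := by nlinarith
  have h9 : 160 * J * d ≤ k := by rw [hd]; exact Nat.mul_div_le k (160 * J)
  have h10 : k < 160 * J * (d + 1) := by
    rw [hd]; exact Nat.lt_mul_div_succ k (by omega)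
  have h11 : k ≤ 320 * J * d := by nlinarith
  have h12 : 1 ≤ d := by
    by_contra h
    have : d = 0 := by omega
    rw [this] at h11
    nlinarith
  have h13 : 4 * x₀ + 8 ≤ s := by
    have h14 : 10 * J * (4 * x₀ + 8) ≤ 10 * J * s := by nlinarith
    exact Nat.le_of_mul_le_mul_left h14 (by omega)
  have h15 : 16 * (N * x₀) < n := by
    have h16 : N * x₀ ≤ 4 * J * x₀ := Nat.mul_le_mul_right _ hN4
    nlinarith
  exact ⟨h1, h5, h13, h6, h8, h9, h11, h12, h15⟩

/-- `core_exists` with the numbers of the closing lemma. -/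
theorem Clos_core (col : Sym2 V → κ) (B : Finset κ) (a : ℝ) (ha : 0 ≤ a) (hB : Mix col B a)
    (C : List V) (hC : C.Nodup) (J k s x₀ d : ℕ) (hJ1 : 1 ≤ J) (hCs : C.length = s)
    (hk : k ≤ B.card) (hkJ : 10 ^ 4 * J ^ 2 ≤ k) (hak : 10 ^ 4 * J * a ≤ k)
    (h1 : Fintype.card V ≤ 10 * J * s) (h2 : 4 * x₀ + 8 ≤ s)
    (h3 : Fintype.card V ≤ 2000 * J * x₀) (h4 : 160 * J * d ≤ k) :
    ∃ X : Finset V, X.card ≤ x₀ ∧ ∀ x, x ∉ X →
      d + 2 * J ≤ ((coreY C X).filter (fun y => y ≠ x ∧ col s(x, y) ∈ B)).card := by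
  have hJ2 : J ≤ J ^ 2 := by nlinarith
  have hk1 : 1 ≤ B.card := by nlinarith
  refine core_exists col B a ha hB C hC (d + 2 * J) x₀ hk1 (by rw [hCs]; exact h2) ?_ ?_
  · rw [hCs]
    have e1 : 80 * J * (d + 2 * J) ≤ k := by nlinarith
    calc 4 * Fintype.card V * (d + 2 * J) ≤ 4 * (10 * J * s) * (d + 2 * J) := by gcongr
      _ = s * (40 * J * (d + 2 * J)) := by ring
      _ ≤ s * k := Nat.mul_le_mul_left _ (by nlinarith)
      _ = k * s := by ring
      _ ≤ B.card * s := Nat.mul_le_mul_right _ hk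
  · rw [hCs]
    have hJr : (1 : ℝ) ≤ J := by exact_mod_cast hJ1
    have e1 : (Fintype.card V : ℝ) ≤ 10 * J * s := by exact_mod_cast h1
    have e3 : (Fintype.card V : ℝ) ≤ 2000 * J * x₀ := by exact_mod_cast h3
    have ek : (k : ℝ) ≤ B.card := by exact_mod_cast hk
    set n : ℝ := (Fintype.card V : ℝ) with hn
    have hn0 : 0 ≤ n := Nat.cast_nonneg _
    have hs0 : (0 : ℝ) ≤ s := Nat.cast_nonneg _
    have hx0 : (0 : ℝ) ≤ x₀ := Nat.cast_nonneg _
    have hk0 : (0 : ℝ) ≤ k := Nat.cast_nonneg _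
    have e4 : n * n ≤ (10 * J * s) * (2000 * J * x₀) := mul_le_mul e1 e3 hn0 (by positivity)
    have e5 : (10 ^ 4 * J * a) ^ 2 ≤ (k : ℝ) ^ 2 := pow_le_pow_left₀ (by positivity) hak 2
    have e6 : (k : ℝ) ^ 2 ≤ (B.card : ℝ) ^ 2 := pow_le_pow_left₀ hk0 ek 2
    have e7 : 8 * a ^ 2 * n ^ 2 ≤ 160000 * (J * a) ^ 2 * (x₀ * s) := by
      have := mul_le_mul_of_nonneg_left e4 (show 0 ≤ 8 * a ^ 2 by positivity)
      calc 8 * a ^ 2 * n ^ 2 = 8 * a ^ 2 * (n * n) := by ring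
        _ ≤ 8 * a ^ 2 * ((10 * J * s) * (2000 * J * x₀)) := this
        _ = 160000 * (J * a) ^ 2 * (x₀ * s) := by ring
    have e8 : 160000 * (J * a) ^ 2 ≤ (k : ℝ) ^ 2 := by nlinarith [sq_nonneg (J * a)]
    calc 8 * a ^ 2 * n ^ 2 ≤ 160000 * (J * a) ^ 2 * (x₀ * s) := e7
      _ ≤ (k : ℝ) ^ 2 * (x₀ * s) := mul_le_mul_of_nonneg_right e8 (by positivity)
      _ ≤ (B.card : ℝ) ^ 2 * (x₀ * s) := mul_le_mul_of_nonneg_right e6 (by positivity)
      _ = x₀ * (B.card : ℝ) ^ 2 * s := by ring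

/-- The closing lemma. `n = card V`, `|U| ≥ n / 2`, `N = 2 J + 2` blocks of length
`s = |U| / N ≥ n / (10 J)` in the list `Q` of `LF U E` (`Cyc.lf`). Let `k` be a lower bound of the
`|B i|` (and `2 k` an upper bound), `d = k / (160 J)` (natural division). By `core_exists` there are for
every block `C` sets `X₂ C` (for `B 2`) and `X₃ C` (for `B 3`) with at most `x₀ = n / (1000 J)`
elements such that all other vertices have at least `d + 2 J` joined vertices in `coreY`. (Check: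
`4 n (d + 2 J) ≤ k s` since `d + 2 J ≤ k / (80 J)`; `8 a² n² ≤ x₀ k² s` since `a ≤ k / (10 ^ 4 J)`
and `n ≥ 10 ^ 6 J ^ 2`; `4 x₀ + 8 ≤ s`.) The unions over the blocks `Bad₂`, `Bad₃` have at most
`(2 J + 2) n / (1000 J) < n / 16` elements. Use `two_phases`, `two_blocks`, `close_end` (if the first
of the two blocks is `i` use `X₂` for it and `X₃` for the other one). -/
theorem closing (col : Sym2 V → κ) (hcol : Proper col) (U : Finset V) (E : Finset (Sym2 V))
    (hE : Cyc U E) (hlt : E.card < U.card) (hr : Rb col E) (B : Fin 5 → Finset κ) (a : ℝ)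
    (ha : 0 ≤ a) (hmix : ∀ i, Mix col (B i) a) (J k : ℕ) (hJ1 : 1 ≤ J)
    (hJ : Fintype.card V ≤ 2 ^ J) (hJn : 10 ^ 6 * J ^ 2 ≤ Fintype.card V)
    (hU : Fintype.card V ≤ 2 * U.card) (hBE : ∀ i, ∀ e ∈ E, col e ∉ B i)
    (hBB : ∀ i j, i ≠ j → Disjoint (B i) (B j))
    (hdeg : ∀ i, ∀ x ∈ U,
      3 * (B i).card ≤ 4 * (U.filter (fun y => y ≠ x ∧ col s(x, y) ∈ B i)).card)
    (hk : ∀ i, k ≤ (B i).card ∧ (B i).card ≤ 2 * k) (hkJ : 10 ^ 4 * J ^ 2 ≤ k)
    (hak : 10 ^ 4 * J * a ≤ k) :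
    Goal col U E B J := by
  classical
  obtain ⟨hNs, h1, h2, h3, h4, h5, h6, h7, h8⟩ := Clos_num (Fintype.card V) U.card J k (2 * J + 2)
    (U.card / (2 * J + 2)) (Fintype.card V / (1000 * J)) (k / (160 * J)) hJ1 hJn hU hkJ rfl rfl
    rfl rfl
  set N := 2 * J + 2 with hNdef
  set s := U.card / N with hsdef
  set x₀ := Fintype.card V / (1000 * J) with hx₀def
  set d := k / (160 * J) with hddef
  have hJ2 : J ≤ J ^ 2 := by nlinarith
  obtain ⟨Q, hQ, hQU, hEQ⟩ := hE.lf hlt (by nlinarith)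
  have hQl : Q.length = U.card := LFa_length hQ hQU
  have hs1 : 1 ≤ s := by omega
  have hne : Q ≠ [] := by
    rintro rfl
    rw [List.length_nil] at hQl
    nlinarith
  have hbl : ∀ i, i < N → (blk Q s i).length = s := fun i hi =>
    blk_length Q s N i (by rw [hQl]; exact hNs) hi
  have hcore : ∀ j : Fin 5, ∀ i, ∃ X : Finset V, i < N → (X.card ≤ x₀ ∧ ∀ x, x ∉ X →
      d + 2 * J ≤ ((coreY (blk Q s i) X).filter (fun y => y ≠ x ∧ col s(x, y) ∈ B j)).card) := by
    intro j i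
    by_cases hi : i < N
    · obtain ⟨X, hX⟩ := Clos_core col (B j) a ha (hmix j) (blk Q s i) (blk_nodup Q hQ s i) J k s x₀
        d hJ1 (hbl i hi) (hk j).1 hkJ hak h1 h2 h4 h5
      exact ⟨X, fun _ => hX⟩
    · exact ⟨∅, fun h => absurd h hi⟩
  choose X hX using hcore
  have hBadc : ∀ j, 16 * ((range N).biUnion (X j)).card < Fintype.card V := by
    intro j
    have e1 : ((range N).biUnion (X j)).card ≤ N * x₀ := by
      refine Finset.card_biUnion_le.trans ?_
      calc ∑ i ∈ range N, (X j i).card ≤ ∑ _i ∈ range N, x₀ :=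
            Finset.sum_le_sum fun i hi => (hX j i (Finset.mem_range.1 hi)).1
        _ = N * x₀ := by rw [Finset.sum_const, Finset.card_range, smul_eq_mul]
    omega
  have hkk : ∀ i, 16 * J ≤ (B i).card := fun i => by
    have := (hk i).1
    nlinarith
  have hJr : (1 : ℝ) ≤ J := by exact_mod_cast hJ1
  have haJ : 10 ^ 4 * a ≤ k := by
    refine le_trans ?_ hak
    nlinarith
  have hakk : ∀ i, 16 * a ≤ (B i).card := fun i => by
    have e1 : (k : ℝ) ≤ (B i).card := by exact_mod_cast (hk i).1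
    linarith
  rcases two_phases col hcol U E Q hQ hQU hne hEQ hr B a ha hmix J hJ1 hJ hBE hBB hdeg hkk hakk
      ((range N).biUnion (X 2)) ((range N).biUnion (X 3)) (hBadc 2) (hBadc 3) with hG | hG
  · exact hG
  obtain ⟨P, F, u₀, v₀, hPQ, hFP, hFE, hFr, hFc, hF0, hlost, hu, huB, hv, hvB⟩ := hG
  obtain ⟨i, i', hi, hi', hii, C, C', A, M, D, hC, hC', hP⟩ := two_blocks Q P hQ hPQ (2 * J) N s
    hs1 (by rw [hQl]; exact hNs) le_rfl hlost
  have hCl : C.length = s := by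
    rcases hC with h | h <;> rw [h]
    · exact hbl i hi
    · rw [List.length_reverse]; exact hbl i hi
  have hCl' : C'.length = s := by
    rcases hC' with h | h <;> rw [h]
    · exact hbl i' hi'
    · rw [List.length_reverse]; exact hbl i' hi'
  have hCne : C ≠ [] := by
    rintro rfl
    rw [List.length_nil] at hCl
    omega
  have hCne' : C' ≠ [] := by
    rintro rfl
    rw [List.length_nil] at hCl'
    omega
  have hcoreC : ∀ Z, coreY C Z = coreY (blk Q s i) Z := by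
    intro Z
    rcases hC with h | h <;> rw [h]
    exact coreY_reverse _ _
  have hcoreC' : ∀ Z, coreY C' Z = coreY (blk Q s i') Z := by
    intro Z
    rcases hC' with h | h <;> rw [h]
    exact coreY_reverse _ _
  have hu' : (A ++ C).head? = some u₀ := by
    rw [hP] at hu
    rw [List.append_assoc, List.head?_append_of_ne_nil _ (by simp [hCne])] at hu
    exact hu
  have hv' : (C' ++ D).getLast? = some v₀ := by
    rw [hP] at hv
    rw [List.getLast?_append_of_ne_nil _ (by simp [hCne'])] at hv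
    exact hv
  have huX : u₀ ∉ X 2 i := fun h =>
    huB (Finset.mem_biUnion.2 ⟨i, Finset.mem_range.2 hi, h⟩)
  have hvX : v₀ ∉ X 3 i' := fun h =>
    hvB (Finset.mem_biUnion.2 ⟨i', Finset.mem_range.2 hi', h⟩)
  have hkr : (k : ℝ) ≤ 320 * J * d := by exact_mod_cast h6
  have hd0 : (1 : ℝ) ≤ d := by exact_mod_cast h7
  have h8a : 8 * a < d := by
    have e1 : 10 ^ 4 * J * a ≤ 320 * J * d := hak.trans hkr
    have e2 : J * (10 ^ 4 * a) ≤ J * (320 * d) := by linarith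
    have e3 : 10 ^ 4 * a ≤ 320 * (d : ℝ) := le_of_mul_le_mul_left e2 (by linarith)
    linarith
  have hkpos : (0 : ℝ) < k := by
    have : 0 < k := by nlinarith
    exact_mod_cast this
  refine close_end col hcol U E B a ha hmix J d hJ1 hJ hBE hBB F A C M C' D hCne hCne' ?_ ?_ ?_ hFE
    hFr hFc hF0 (X 2 i) (X 3 i') ?_ ?_ u₀ v₀ hu' huX hv' hvX h7 ?_ ?_ ?_
  · rw [← hP]
    exact hPQ.nodup_iff.2 hQ
  · intro v
    rw [← hP, hPQ.mem_iff]
    exact hQU v
  · intro e he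
    rw [← hP]
    exact hFP e he
  · intro x hx
    rw [hcoreC]
    exact (hX 2 i hi).2 x hx
  · intro x hx
    rw [hcoreC']
    exact (hX 3 i' hi').2 x hx
  · linarith
  · intro j
    have e1 := (hk j).1
    nlinarith
  · intro i j
    have e1 : ((B i).card : ℝ) ≤ 2 * k := by exact_mod_cast (hk i).2
    have e2 : (k : ℝ) ≤ (B j).card := by exact_mod_cast (hk j).1
    calc 4 * a * (B i).card ≤ 4 * a * (2 * k) := mul_le_mul_of_nonneg_left e1 (by positivity)
      _ = 8 * a * k := by ring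
      _ < d * k := mul_lt_mul_of_pos_right h8a hkpos
      _ ≤ d * (B j).card := mul_le_mul_of_nonneg_left e2 (by positivity)

end Pool.Agent.W_cd7020_h81b
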