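import Pool.Agent.W_cd7020_h81b.FDefs
import Pool.Agent.W_cd7020_h81b.Clos

/-!
# One closing with forbidden colours
-/

set_option autoImplicit false

namespace Pool.Agent.W_cd7020_h81b

open Finset Pool.Agent.W_cd7020_h81

variable {V κ : Type*} [DecidableEq V] [DecidableEq κ] [Fintype V]

/-- One closing with forbidden colours `G`: `closing` with the pools `B i \ (G ∪ cE E)`, from which at
most `D = (45 M T + 3) J` colours are missing (`NB_del`, `NB_mix`), `k = (kB + 1) / 2`,
`a = a₁ + 2 D + 1`. The degree condition: by `par_count` the number of `y ∈ U` is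
the number of colours of `B i \ (G ∪ cE E)` with a partner of `x` in `U`; the others are bad at `x`
(`univ \ V' ⊆ U`), at most `kB / 16`. -/
theorem close_one (col : Sym2 V → κ) (hcol : Proper col) (Q : Finset κ)
    (P : Prm (Fintype.card V)) (V' : Finset V) (hV' : V'.card ≤ P.v) (U : Finset V)
    (hV'U : univ \ V' ⊆ U) (B : Fin 5 → Finset κ) (hB : BP col Q V' P.kB P.a₁ B) (G : Finset κ)
    (E : Finset (Sym2 V)) (hE : Cyc U E) (hlt : E.card < U.card) (hr : Rb col E)
    (hc : ∀ i, (B i ∩ (cE col E ∪ G)).card ≤ (45 * P.M * P.T + 3) * P.J) :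
    ∃ E', Cyc U E' ∧ E'.card = E.card + 1 ∧ Rb col E' ∧
      (∀ e ∈ E', e ∈ E ∨ ∃ i, col e ∈ B i ∧ col e ∉ G) ∧
      ∀ i, (B i ∩ (cE col E' ∪ G)).card ≤ (B i ∩ (cE col E ∪ G)).card + P.J := by
  classical
  set S : Finset κ := cE col E ∪ G with hS
  set D : ℕ := (45 * P.M * P.T + 3) * P.J with hD
  set B' : Fin 5 → Finset κ := fun i => B i \ S with hB'
  have hkB : P.kB = P.T * P.u := rfl
  have hsub : ∀ i, B' i ⊆ B i := fun i => sdiff_subset
  have hsplit : ∀ i, (B' i).card + (B i ∩ S).card = P.kB := by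
    intro i
    rw [← hB.card i]
    exact card_sdiff_add_card_inter (B i) S
  have h4D : 4 * D ≤ P.kB := P.hB4
  have hJ1 : 1 ≤ P.J := P.J1
  have hJJ : 1 ≤ P.J ^ 2 := Nat.one_le_pow _ _ hJ1
  have hbig : 2 * 10 ^ 4 * P.J ^ 2 ≤ P.kB := P.hBJ
  have hdel : ∀ i, (B i \ B' i).card ≤ D := by
    intro i
    have h1 : B i \ B' i ⊆ B i ∩ S := by
      intro c hc
      rw [mem_sdiff, hB', mem_sdiff] at hc
      rw [mem_inter]
      refine ⟨hc.1, ?_⟩
      by_contra hcS
      exact hc.2 ⟨hc.1, hcS⟩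
    exact (card_le_card h1).trans (hc i)
  set k : ℕ := (P.kB + 1) / 2 with hk
  have hcardV : (6 : ℝ) ≤ (Fintype.card V : ℝ) := by exact_mod_cast P.n3
  have ha1 : 0 ≤ P.a₁ := by
    refine div_nonneg (add_nonneg (Real.log_nonneg ?_) (mul_nonneg (Nat.cast_nonneg _) P.δ0))
      P.lam0.le
    linarith
  have hkBn : P.kB ≤ Fintype.card V := by
    have h1 := P.hAn
    have h2 := P.tu
    have h3 : P.u ≤ P.t + P.m + 1 := by omega
    calc P.kB = P.T * P.u := rfl
      _ ≤ P.T * (P.t + P.m + 1) := Nat.mul_le_mul_left _ h3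
      _ ≤ _ := h1
  have hmix : ∀ i, Mix col (B' i) (P.a₁ + 2 * D + 1) := by
    intro i
    refine NB_mix col (B' i) (P.a₁ + 2 * D) ?_ ?_
    · exact NB_del col hcol (B i) (B' i) P.a₁ D (hB.norm i) (hsub i) (hdel i)
    · have h1 := hsplit i
      omega
  have hU : Fintype.card V ≤ 2 * U.card := by
    have h1 : (univ \ V').card ≤ U.card := card_le_card hV'U
    have h2 : (univ \ V').card = Fintype.card V - V'.card := by
      rw [card_sdiff_of_subset (subset_univ _), card_univ]
    have h3 := P.vn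
    omega
  have hBE : ∀ i, ∀ e ∈ E, col e ∉ B' i := by
    intro i e he hcon
    rw [hB', mem_sdiff] at hcon
    exact hcon.2 (mem_union_left _ (mem_image_of_mem _ he))
  have hBB : ∀ i j, i ≠ j → Disjoint (B' i) (B' j) := fun i j hij =>
    disjoint_of_subset_left (hsub i) (disjoint_of_subset_right (hsub j) (hB.disj i j hij))
  have hdeg : ∀ i, ∀ x ∈ U,
      3 * (B' i).card ≤ 4 * (U.filter (fun y => y ≠ x ∧ col s(x, y) ∈ B' i)).card := by
    intro i x hx
    rw [par_count col hcol (B' i) x U]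
    have h1 : (B' i).card ≤ ((B' i).filter (fun k => par col k x ≠ x ∧ par col k x ∈ U)).card +
        cntB col V' (B i) x := by
      have h2 : B' i ⊆ (B' i).filter (fun k => par col k x ≠ x ∧ par col k x ∈ U) ∪
          (B i).filter (fun k => par col k x = x ∨ par col k x ∈ V') := by
        intro c hcc
        rw [mem_union, mem_filter, mem_filter]
        by_cases h3 : par col c x = x
        · exact Or.inr ⟨hsub i hcc, Or.inl h3⟩
        · by_cases h4 : par col c x ∈ U
          · exact Or.inl ⟨hcc, h3, h4⟩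
          · refine Or.inr ⟨hsub i hcc, Or.inr ?_⟩
            by_contra h5
            exact h4 (hV'U (mem_sdiff.2 ⟨mem_univ _, h5⟩))
      exact (card_le_card h2).trans (card_union_le _ _)
    have h3 := hB.deg i x
    have h4 := hsplit i
    have h5 := hc i
    omega
  have hk2 : ∀ i, k ≤ (B' i).card ∧ (B' i).card ≤ 2 * k := by
    intro i
    have h4 := hsplit i
    have h5 := hc i
    constructor <;> omega
  have hkJ : 10 ^ 4 * P.J ^ 2 ≤ k := by omega
  have hak : 10 ^ 4 * (P.J : ℝ) * (P.a₁ + 2 * D + 1) ≤ (k : ℝ) := by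
    have h1 := P.hBa
    have h2 : (P.kB : ℝ) ≤ 2 * (k : ℝ) := by
      have : P.kB ≤ 2 * k := by omega
      exact_mod_cast this
    have h3 : (P.kB : ℝ) = (P.T : ℝ) * P.u := by
      rw [hkB]
      push_cast
      ring
    have h4 : (D : ℝ) = (45 * P.M * P.T + 3) * P.J := by
      rw [hD]
      push_cast
      ring
    have h5 : P.a₁ = (Real.log (40 * (Fintype.card V : ℝ)) + P.T * P.δ) / P.lam := rfl
    rw [h4, h5]
    linarith
  obtain ⟨E', hc1, hc2, hc3, hc4, hc5⟩ := closing col hcol U E hE hlt hr B' (P.a₁ + 2 * D + 1)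
    (by positivity) hmix P.J k hJ1 P.Jn P.JJ hU hBE hBB hdeg hk2 hkJ hak
  refine ⟨E', hc1, hc2, hc3, ?_, ?_⟩
  · intro e he
    by_cases heE : e ∈ E
    · exact Or.inl heE
    · obtain ⟨i, hi⟩ := hc4 e he heE
      rw [hB', mem_sdiff, hS, mem_union, not_or] at hi
      exact Or.inr ⟨i, hi.1, hi.2.2⟩
  · intro i
    have h1 : B i ∩ (cE col E' ∪ G) ⊆
        (B i ∩ S) ∪ (E'.filter (fun e => col e ∈ B' i)).image col := by
      intro c hcc
      rw [mem_inter, mem_union] at hcc
      by_cases hcS : c ∈ S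
      · exact mem_union_left _ (mem_inter.2 ⟨hcc.1, hcS⟩)
      · have h2 : c ∉ G := fun h => hcS (mem_union_right _ h)
        have h3 : c ∈ cE col E' := hcc.2.resolve_right h2
        obtain ⟨e, he, hec⟩ := mem_image.1 h3
        refine mem_union_right _ (mem_image.2 ⟨e, mem_filter.2 ⟨he, ?_⟩, hec⟩)
        rw [hec]
        exact mem_sdiff.2 ⟨hcc.1, hcS⟩
    calc (B i ∩ (cE col E' ∪ G)).card ≤
          ((B i ∩ S) ∪ (E'.filter (fun e => col e ∈ B' i)).image col).card := card_le_card h1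
      _ ≤ (B i ∩ S).card + ((E'.filter (fun e => col e ∈ B' i)).image col).card :=
          card_union_le _ _
      _ ≤ (B i ∩ S).card + P.J :=
          Nat.add_le_add_left (card_image_le.trans (hc5 i)) _

end Pool.Agent.W_cd7020_h81b
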