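import Pool.Agent.W_cd7020_h81b.RotX

/-!
# Unrestricted rotations
-/

set_option autoImplicit false

namespace Pool.Agent.W_cd7020_h81b

open Finset Pool.Agent.W_cd7020_h81

variable {V κ : Type*} [DecidableEq V] [DecidableEq κ] [Fintype V]

/-- Unrestricted rotations: `rot_expand` with `Gd = Y = U` and `d' = |B| / 2` (natural division).
`d' + 2 J ≤ 3/4 |B|`. The result is an improvement or a set `X` of first vertices with
`16 |X| ≥ n` (`4 |B| |X| ≥ d' n`, `4 d' ≥ |B|`). -/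
theorem free_expand (col : Sym2 V → κ) (hcol : Proper col) (U : Finset V) (B : Finset κ) (a : ℝ)
    (ha : 0 ≤ a) (hB : Mix col B a) (P₀ : List V) (F₀ : Finset (Sym2 V)) (hP₀ : P₀.Nodup)
    (hPU : ∀ v, v ∈ P₀ ↔ v ∈ U) (hne : P₀ ≠ [])
    (hF : ∀ e ∈ F₀, e ∈ pe P₀) (hFr : Rb col F₀) (hFB : ∀ e ∈ F₀, col e ∉ B) (J : ℕ)
    (hJ1 : 1 ≤ J) (hJ : Fintype.card V ≤ 2 ^ J)
    (hdeg : ∀ x ∈ U, 3 * B.card ≤ 4 * (U.filter (fun y => y ≠ x ∧ col s(x, y) ∈ B)).card)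
    (hk : 16 * J ≤ B.card) (hak : 16 * a ≤ B.card) :
    Suc col B P₀ F₀ J ∨
      ∃ X : Finset V, Fintype.card V ≤ 16 * X.card ∧
        ∀ x ∈ X, x ∈ U ∧ ∃ P F, Rot col B P₀ F₀ J P F ∧ P.head? = some x := by
  obtain ⟨x₀, hx₀⟩ : ∃ x₀, P₀.head? = some x₀ := by
    cases P₀ with
    | nil => exact absurd rfl hne
    | cons x l => exact ⟨x, rfl⟩
  have hx₀P : x₀ ∈ P₀ := List.mem_of_mem_head? hx₀
  have hB16 : 16 ≤ B.card := by omega
  have hBR : (16 : ℝ) ≤ B.card := by exact_mod_cast hB16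
  have hd4 : B.card ≤ 4 * (B.card / 2) := by omega
  have hd4R : (B.card : ℝ) ≤ 4 * ((B.card / 2 : ℕ) : ℝ) := by exact_mod_cast hd4
  rcases rot_expand col hcol B a ha hB P₀ F₀ hP₀ hF hFr hFB J (B.card / 2) hJ U U x₀ hx₀
    ((hPU x₀).1 hx₀P) (fun y hy => (hPU y).2 hy)
    (fun y _ x hx => (hPU x).1 (Pe_mem P₀ _ hx x (Sym2.mem_mk_left x y)))
    (fun x hx => by
      have h1 := hdeg x hx
      omega)
    (by omega) (by linarith) (by omega) with h | ⟨X, hX1, hX2⟩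
  · exact Or.inl h
  · refine Or.inr ⟨X, ?_, hX2⟩
    have h1 : (B.card : ℝ) * Fintype.card V ≤ (B.card : ℝ) * (16 * X.card) := by
      have h2 : (B.card : ℝ) * Fintype.card V ≤ 4 * ((B.card / 2 : ℕ) : ℝ) * Fintype.card V :=
        mul_le_mul_of_nonneg_right hd4R (by positivity)
      linarith
    have h3 : (Fintype.card V : ℝ) ≤ 16 * X.card := le_of_mul_le_mul_left h1 (by linarith)
    exact_mod_cast h3

end Pool.Agent.W_cd7020_h81b
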