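import Pool.Agent.W_cd7020_h81b.CoreA

/-!
# Vertices from which one can rotate inside a block
-/

set_option autoImplicit false

namespace Pool.Agent.W_cd7020_h81b

open Finset Pool.Agent.W_cd7020_h81

variable {V κ : Type*} [DecidableEq V] [DecidableEq κ] [Fintype V]

theorem CoreB_sub (C : List V) (X : Finset V) (x : V) :
    coreY C (insert x X) ⊆ coreY C X := by
  intro y hy
  unfold coreY at hy ⊢
  rw [mem_filter] at hy ⊢
  exact ⟨hy.1, fun e he hye z hz hzy hzX => hy.2 e he hye z hz hzy (mem_insert_of_mem hzX)⟩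

theorem CoreB_ins (col : Sym2 V → κ) (B : Finset κ) (X Y Y' : Finset V) (hY : Y' ⊆ Y) (x : V) :
    eB col B (insert x X) Y' ≤
      eB col B X Y + (Y.filter (fun y => y ≠ x ∧ col s(x, y) ∈ B)).card := by
  unfold eB
  have h : ((insert x X ×ˢ Y').filter (fun p => p.1 ≠ p.2 ∧ col s(p.1, p.2) ∈ B)) ⊆
      ((X ×ˢ Y).filter (fun p => p.1 ≠ p.2 ∧ col s(p.1, p.2) ∈ B)) ∪
        ((Y.filter (fun y => y ≠ x ∧ col s(x, y) ∈ B)).image (fun y => (x, y))) := by
    rintro ⟨u, v⟩ hp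
    rw [mem_filter, mem_product, mem_insert] at hp
    obtain ⟨⟨h1, h2⟩, h3, h4⟩ := hp
    rw [mem_union]
    rcases h1 with h1 | h1
    · right
      have h1' : u = x := h1
      subst h1'
      exact mem_image.2 ⟨v, mem_filter.2 ⟨hY h2, fun h => h3 h.symm, h4⟩, rfl⟩
    · left
      exact mem_filter.2 ⟨mem_product.2 ⟨h1, hY h2⟩, h3, h4⟩
  exact (card_le_card h).trans ((card_union_le _ _).trans (Nat.add_le_add_left card_image_le _))

/-- The numerical estimate. -/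
theorem CoreB_num (n k c d x₀ xX y : ℕ) (a e : ℝ) (hn : 0 < n) (hk : 1 ≤ k)
    (hc : 4 * x₀ + 8 ≤ c) (hd : 4 * n * d ≤ k * c)
    (hx₀ : 8 * a ^ 2 * (n : ℝ) ^ 2 ≤ x₀ * (k : ℝ) ^ 2 * c) (hx : 0 < xX) (hy : c ≤ 2 * y)
    (hm : |e - (k : ℝ) / (n : ℝ) * ((xX : ℝ) * (y : ℝ))| ≤ a * Real.sqrt ((xX : ℝ) * (y : ℝ)))
    (he : e ≤ d * xX) : xX ≤ x₀ := by
  have hnr : (0 : ℝ) < n := by exact_mod_cast hn
  have hkr : (1 : ℝ) ≤ k := by exact_mod_cast hk
  have hcr : (8 : ℝ) ≤ c := by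
    have : 8 ≤ c := by omega
    exact_mod_cast this
  have hyr : (c : ℝ) ≤ 2 * y := by exact_mod_cast hy
  have hxr : (0 : ℝ) < xX := by exact_mod_cast hx
  have hdr : 4 * (n : ℝ) * d ≤ k * c := by exact_mod_cast hd
  have hy0 : (0 : ℝ) < y := by linarith
  set A : ℝ := (xX : ℝ) * y with hA
  have hA0 : 0 < A := mul_pos hxr hy0
  set s : ℝ := Real.sqrt A with hs
  have hs0 : 0 < s := Real.sqrt_pos.2 hA0
  have hsA : s * s = A := Real.mul_self_sqrt hA0.le
  have h1 : (k : ℝ) / n * A - a * s ≤ e := by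
    have := (abs_le.1 hm).1
    linarith
  have h2 : (k : ℝ) * A ≤ 2 * n * (a * s) := by
    have h3 : (k : ℝ) / n * A - a * s ≤ d * xX := h1.trans he
    have h4 : (n : ℝ) * ((k : ℝ) / n * A - a * s) ≤ n * (d * xX) :=
      mul_le_mul_of_nonneg_left h3 hnr.le
    have h5 : (n : ℝ) * ((k : ℝ) / n * A - a * s) = k * A - n * (a * s) := by
      field_simp
    have h6 : 2 * (n * (d * (xX : ℝ))) ≤ k * A := by
      have h7 : 4 * (n : ℝ) * d ≤ k * (2 * y) :=
        hdr.trans (mul_le_mul_of_nonneg_left hyr (by linarith))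
      have h8 := mul_le_mul_of_nonneg_right h7 hxr.le
      rw [hA]
      nlinarith
    rw [h5] at h4
    linarith
  have h3 : (k : ℝ) * s ≤ 2 * n * a := by
    have h4 : (k : ℝ) * s * s ≤ 2 * n * a * s := by
      rw [mul_assoc, hsA]
      linarith
    exact le_of_mul_le_mul_right h4 hs0
  have h4 : (k : ℝ) ^ 2 * A ≤ 4 * (n : ℝ) ^ 2 * a ^ 2 := by
    have h5 : ((k : ℝ) * s) ^ 2 ≤ (2 * n * a) ^ 2 := by
      apply pow_le_pow_left₀ _ h3
      positivity
    have h6 : ((k : ℝ) * s) ^ 2 = (k : ℝ) ^ 2 * A := by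
      rw [← hsA]
      ring
    rw [h6] at h5
    linarith [h5, (by ring : (2 * (n : ℝ) * a) ^ 2 = 4 * (n : ℝ) ^ 2 * a ^ 2)]
  have h5 : (xX : ℝ) * ((k : ℝ) ^ 2 * c) ≤ x₀ * ((k : ℝ) ^ 2 * c) := by
    have h6 : (xX : ℝ) * ((k : ℝ) ^ 2 * c) ≤ 2 * ((k : ℝ) ^ 2 * A) := by
      rw [hA]
      have h7 := mul_le_mul_of_nonneg_left hyr (by positivity : (0 : ℝ) ≤ xX * (k : ℝ) ^ 2)
      nlinarith
    linarith
  have h6 : (xX : ℝ) ≤ x₀ := le_of_mul_le_mul_right h5 (by positivity)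
  exact_mod_cast h6

/-- There is a small set `X` such that every vertex outside `X` has at least `d` vertices of
`coreY C X` joined in a colour of `B`. Let `c = C.length`, `k = B.card`.
If `eB X (coreY C X) ≤ d |X|` and `1 ≤ |X| ≤ x₀ + 1`, then `|coreY| ≥ c / 2` (`hc`), and by the mixing
property `k/n |X| |coreY| - a √(|X| |coreY|) ≤ d |X| ≤ k/(2n) |X| |coreY|`, so
`|X| ≤ 4 a² n² / (k² |coreY|) ≤ 8 a² n² / (k² c) ≤ x₀`.
Let `X` have maximal cardinality among the sets with `|X| ≤ x₀ + 1` and `eB X (coreY C X) ≤ d |X|`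
(the empty set is one). Then `|X| ≤ x₀`. If `x ∉ X` had fewer than `d` joined vertices in
`coreY C X`, then `insert x X` would be another such set, because `coreY` gets smaller. -/
theorem core_exists (col : Sym2 V → κ) (B : Finset κ) (a : ℝ) (ha : 0 ≤ a) (hB : Mix col B a)
    (C : List V) (hC : C.Nodup) (d x₀ : ℕ) (hk : 1 ≤ B.card)
    (hc : 4 * x₀ + 8 ≤ C.length)
    (hd : 4 * Fintype.card V * d ≤ B.card * C.length)
    (hx₀ : 8 * a ^ 2 * (Fintype.card V : ℝ) ^ 2 ≤ x₀ * (B.card : ℝ) ^ 2 * C.length) :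
    ∃ X : Finset V, X.card ≤ x₀ ∧ ∀ x, x ∉ X →
      d ≤ ((coreY C X).filter (fun y => y ≠ x ∧ col s(x, y) ∈ B)).card := by
  classical
  let S : Finset (Finset V) := univ.filter
    (fun X => X.card ≤ x₀ + 1 ∧ eB col B X (coreY C X) ≤ d * X.card)
  have hS : S.Nonempty := by
    refine ⟨∅, mem_filter.2 ⟨mem_univ _, by simp, ?_⟩⟩
    simp [eB]
  obtain ⟨X, hX, hmax⟩ := exists_max_image S card hS
  obtain ⟨-, hX1, hX2⟩ := mem_filter.1 hX
  have hXx : X.card ≤ x₀ := by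
    rcases Nat.eq_zero_or_pos X.card with h0 | h0
    · omega
    · have hcY := coreY_card C hC X
      have hn : 0 < Fintype.card V := by
        obtain ⟨v, _⟩ := card_pos.1 h0
        exact Fintype.card_pos_iff.2 ⟨v⟩
      refine CoreB_num (Fintype.card V) B.card C.length d x₀ X.card (coreY C X).card a
        (eB col B X (coreY C X)) hn hk hc hd hx₀ h0 (by omega) (hB X (coreY C X)) ?_
      exact_mod_cast hX2
  refine ⟨X, hXx, fun x hx => ?_⟩
  by_contra hlt
  rw [not_le] at hlt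
  have hmem : insert x X ∈ S := by
    refine mem_filter.2 ⟨mem_univ _, ?_, ?_⟩
    · rw [card_insert_of_notMem hx]
      omega
    · have h1 := CoreB_ins col B X (coreY C X) (coreY C (insert x X)) (CoreB_sub C X x) x
      rw [card_insert_of_notMem hx, mul_add, mul_one]
      omega
  have h2 := hmax _ hmem
  rw [card_insert_of_notMem hx] at h2
  omega

end Pool.Agent.W_cd7020_h81b
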