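import Pool.Agent.W_cd7020_h81b.RotX
import Pool.Agent.W_cd7020_h81b.CoreB

/-!
# Rotations inside a block
-/

set_option autoImplicit false

namespace Pool.Agent.W_cd7020_h81b

open Finset Pool.Agent.W_cd7020_h81

variable {V κ : Type*} [DecidableEq V] [DecidableEq κ] [Fintype V]

/-- What the closing lemma produces from `E`: one more edge, at most `j` new edges with colours in
`B i`. -/
def Goal (col : Sym2 V → κ) (U : Finset V) (E : Finset (Sym2 V)) (B : Fin 5 → Finset κ) (j : ℕ) :
    Prop :=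
  ∃ E', Cyc U E' ∧ E'.card = E.card + 1 ∧ Rb col E' ∧ (∀ e ∈ E', e ∉ E → ∃ i, col e ∈ B i) ∧
    ∀ i, (E'.filter (fun e => col e ∈ B i)).card ≤ j

/-- A block and a good set. For every block `C` (a list) let `X C` be a set such that every vertex
outside `X C` has at least `d + 2 J` vertices of `coreY C (X C)` joined in a colour of `B`. If the
first vertex of `A ++ C` is not in `X C`, then rotations inside `C` give an improvement on `A ++ C`
or many first vertices. This is `rot_expand` with `P₀ = A ++ C`, `Gd = univ \ X C`,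
`Y = coreY C (X C)` (`coreY_nbr`, `coreY_sub`). -/
theorem seg_expand (col : Sym2 V → κ) (hcol : Proper col) (B : Finset κ) (a : ℝ) (ha : 0 ≤ a)
    (hB : Mix col B a) (A C : List V) (hP : (A ++ C).Nodup) (F₀ : Finset (Sym2 V))
    (hF : ∀ e ∈ F₀, e ∈ pe (A ++ C)) (hFr : Rb col F₀) (hFB : ∀ e ∈ F₀, col e ∉ B) (J d : ℕ)
    (hJ : Fintype.card V ≤ 2 ^ J) (X : Finset V)
    (hX : ∀ x, x ∉ X → d + 2 * J ≤
      ((coreY C X).filter (fun y => y ≠ x ∧ col s(x, y) ∈ B)).card)
    (x₀ : V) (hx₀ : (A ++ C).head? = some x₀) (hx₀X : x₀ ∉ X)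
    (hd1 : 1 ≤ d) (had : 4 * a ≤ d) (hdB : d ≤ B.card) :
    Suc col B (A ++ C) F₀ J ∨
      ∃ T : Finset V, (d : ℝ) * Fintype.card V ≤ 4 * B.card * T.card ∧
        ∀ x ∈ T, ∃ P F, Rot col B (A ++ C) F₀ J P F ∧ P.head? = some x := by
  rcases rot_expand col hcol B a ha hB (A ++ C) F₀ hP hF hFr hFB J d hJ (Finset.univ \ X)
    (coreY C X) x₀ hx₀ (by simp [hx₀X])
    (fun y hy => List.mem_append_right A (coreY_sub C X y hy))
    (fun y hy x hxy => by
      have h := coreY_nbr A C [] (by rw [List.append_nil]; exact hP) X y x hy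
        (by rw [List.append_nil]; exact hxy)
      simp [h])
    (fun x hx => hX x (by simpa using hx)) hd1 had hdB with h | ⟨T, hT, h⟩
  · exact Or.inl h
  · exact Or.inr ⟨T, hT, fun x hx => (h x hx).2⟩

end Pool.Agent.W_cd7020_h81b
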