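import Pool.Agent.W_cd7020_h81b.ClosF
import Pool.Agent.W_cd7020_h81b.ClosG

/-!
# The first two phases
-/

set_option autoImplicit false

namespace Pool.Agent.W_cd7020_h81b

open Finset Pool.Agent.W_cd7020_h81

variable {V κ : Type*} [DecidableEq V] [DecidableEq κ] [Fintype V]

/-- The first two phases. Let `Q` be the list of `LF U E` and `Bad₂`, `Bad₃` two sets with
`16 |Bad| < n`. Rotate the last vertex: `free_expand` for `Q.reverse` with `B 0`; choose a reachable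
list whose first vertex is not in `Bad₃`; call its reverse `Q₁` and the edges `F₁`. Then
`free_expand` for `Q₁`, `F₁` with `B 1` (the colours of `F₁` are not in `B 1`), choose a first vertex
not in `Bad₂`. Lost pairs: at most `2 J` (`mem_pe_reverse`). -/
theorem two_phases (col : Sym2 V → κ) (hcol : Proper col) (U : Finset V) (E : Finset (Sym2 V))
    (Q : List V) (hQ : Q.Nodup) (hQU : ∀ v, v ∈ Q ↔ v ∈ U) (hne : Q ≠ [])
    (hEQ : ∀ e ∈ E, e ∈ pe Q) (hr : Rb col E) (B : Fin 5 → Finset κ) (a : ℝ) (ha : 0 ≤ a)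
    (hmix : ∀ i, Mix col (B i) a) (J : ℕ) (hJ1 : 1 ≤ J) (hJ : Fintype.card V ≤ 2 ^ J)
    (hBE : ∀ i, ∀ e ∈ E, col e ∉ B i) (hBB : ∀ i j, i ≠ j → Disjoint (B i) (B j))
    (hdeg : ∀ i, ∀ x ∈ U,
      3 * (B i).card ≤ 4 * (U.filter (fun y => y ≠ x ∧ col s(x, y) ∈ B i)).card)
    (hk : ∀ i, 16 * J ≤ (B i).card) (hak : ∀ i, 16 * a ≤ (B i).card)
    (Bad₂ Bad₃ : Finset V) (hB₂ : 16 * Bad₂.card < Fintype.card V)
    (hB₃ : 16 * Bad₃.card < Fintype.card V) :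
    Goal col U E B J ∨
      ∃ P F x₀ y₀, P.Perm Q ∧ (∀ e ∈ F, e ∈ pe P) ∧ F.card = E.card ∧ Rb col F ∧
        (∀ e ∈ F, e ∉ E → col e ∈ B 0 ∨ col e ∈ B 1) ∧
        (∀ i, (F.filter (fun e => col e ∈ B i)).card ≤ J) ∧
        ((pe Q).toFinset \ (pe P).toFinset).card ≤ 2 * J ∧
        P.head? = some x₀ ∧ x₀ ∉ Bad₂ ∧ P.getLast? = some y₀ ∧ y₀ ∉ Bad₃ := by
  have hpick : ∀ X Bad : Finset V, Fintype.card V ≤ 16 * X.card →
      16 * Bad.card < Fintype.card V → ∃ x ∈ X, x ∉ Bad := by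
    intro X Bad h1 h2
    by_contra hcon
    push Not at hcon
    have := Finset.card_le_card (fun x hx => hcon x hx : X ⊆ Bad)
    omega
  have hQr : Q.reverse.Nodup := List.nodup_reverse.2 hQ
  have hdisj : ∀ i j, i ≠ j → ∀ k, k ∈ B i → k ∉ B j := fun i j hij k hki hkj =>
    Finset.disjoint_left.1 (hBB i j hij) hki hkj
  rcases free_expand col hcol U (B 0) a ha (hmix 0) Q.reverse E hQr
      (fun v => by rw [List.mem_reverse]; exact hQU v) (by simpa using hne)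
      (fun e he => (mem_pe_reverse Q e).2 (hEQ e he)) hr (hBE 0) J hJ1 hJ (hdeg 0) (hk 0) (hak 0)
    with hs | ⟨X, hX, hXr⟩
  · left
    obtain ⟨P, F, hPp, -, hFP, hFc, hFr, hFB, hFf⟩ := hs
    refine ⟨F, ⟨P, hPp.nodup_iff.2 hQr, fun v => ?_, fun e he => pe_sub_ce P e (hFP e he)⟩, hFc, hFr,
      fun e he hne => ⟨0, hFB e he hne⟩, fun i => ?_⟩
    · rw [hPp.mem_iff, List.mem_reverse]
      exact hQU v
    · refine (Finset.card_le_card ?_).trans hFf
      intro e he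
      obtain ⟨he1, he2⟩ := Finset.mem_filter.1 he
      exact Finset.mem_sdiff.2 ⟨he1, fun h => hBE i e h he2⟩
  obtain ⟨y₀, hy₀X, hy₀B⟩ := hpick X Bad₃ hX hB₃
  obtain ⟨-, P₁, F₁, hR₁, hh₁⟩ := hXr y₀ hy₀X
  have hP₁ : P₁.Nodup := hR₁.perm.nodup_iff.2 hQr
  have hQ₁ : P₁.reverse.Nodup := List.nodup_reverse.2 hP₁
  have hQ₁U : ∀ v, v ∈ P₁.reverse ↔ v ∈ U := by
    intro v
    rw [List.mem_reverse, hR₁.perm.mem_iff, List.mem_reverse]
    exact hQU v
  have hQ₁ne : P₁.reverse ≠ [] := by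
    intro h
    rw [List.reverse_eq_nil_iff] at h
    rw [h] at hh₁
    simp at hh₁
  have hF₁B : ∀ i, i ≠ 0 → ∀ e ∈ F₁, col e ∉ B i := by
    intro i hi e he
    by_cases h : e ∈ E
    · exact hBE i e h
    · exact hdisj 0 i (Ne.symm hi) _ (hR₁.cols e he h)
  have hcount : ∀ (F : Finset (Sym2 V)), (∀ e ∈ F, e ∉ F₁ → col e ∈ B 1) → (F \ F₁).card ≤ J →
      ∀ i, (F.filter (fun e => col e ∈ B i)).card ≤ J := by
    intro F hF1 hF2 i
    by_cases hi : i = 0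
    · subst hi
      refine (Finset.card_le_card ?_).trans hR₁.few
      intro e he
      obtain ⟨he1, he2⟩ := Finset.mem_filter.1 he
      refine Finset.mem_sdiff.2 ⟨?_, fun h => hBE 0 e h he2⟩
      by_contra h
      exact hdisj 0 1 (by decide) _ he2 (hF1 e he1 h)
    · refine (Finset.card_le_card ?_).trans hF2
      intro e he
      obtain ⟨he1, he2⟩ := Finset.mem_filter.1 he
      exact Finset.mem_sdiff.2 ⟨he1, fun h => hF₁B i hi e h he2⟩
  have hcols : ∀ (F : Finset (Sym2 V)), (∀ e ∈ F, e ∉ F₁ → col e ∈ B 1) →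
      ∀ e ∈ F, e ∉ E → col e ∈ B 0 ∨ col e ∈ B 1 := by
    intro F hF1 e he hne
    by_cases h : e ∈ F₁
    · exact Or.inl (hR₁.cols e h hne)
    · exact Or.inr (hF1 e he h)
  rcases free_expand col hcol U (B 1) a ha (hmix 1) P₁.reverse F₁ hQ₁ hQ₁U hQ₁ne
      (fun e he => (mem_pe_reverse P₁ e).2 (hR₁.real e he)) hR₁.rb (hF₁B 1 (by decide)) J hJ1 hJ
      (hdeg 1) (hk 1) (hak 1)
    with hs | ⟨X', hX', hXr'⟩
  · left
    obtain ⟨P, F, hPp, -, hFP, hFc, hFr, hFB, hFf⟩ := hs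
    refine ⟨F, ⟨P, hPp.nodup_iff.2 hQ₁, fun v => ?_, fun e he => pe_sub_ce P e (hFP e he)⟩, ?_, hFr,
      fun e he hne => ?_, hcount F hFB hFf⟩
    · rw [hPp.mem_iff]
      exact hQ₁U v
    · rw [hFc, hR₁.card]
    · rcases hcols F hFB e he hne with h | h
      · exact ⟨0, h⟩
      · exact ⟨1, h⟩
  obtain ⟨x₀, hx₀X, hx₀B⟩ := hpick X' Bad₂ hX' hB₂
  obtain ⟨-, P₂, F₂, hR₂, hh₂⟩ := hXr' x₀ hx₀X
  right
  refine ⟨P₂, F₂, x₀, y₀, ?_, hR₂.real, ?_, hR₂.rb, hcols F₂ hR₂.cols, hcount F₂ hR₂.cols hR₂.few,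
    ?_, hh₂, hx₀B, ?_, hy₀B⟩
  · exact hR₂.perm.trans ((List.reverse_perm P₁).trans (hR₁.perm.trans (List.reverse_perm Q)))
  · rw [hR₂.card, hR₁.card]
  · have hsub : (pe Q).toFinset \ (pe P₂).toFinset ⊆
        ((pe Q.reverse).toFinset \ (pe P₁).toFinset) ∪
          ((pe P₁.reverse).toFinset \ (pe P₂).toFinset) := by
      intro e he
      rw [Finset.mem_sdiff, List.mem_toFinset, List.mem_toFinset] at he
      rw [Finset.mem_union, Finset.mem_sdiff, Finset.mem_sdiff, List.mem_toFinset,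
        List.mem_toFinset, List.mem_toFinset, List.mem_toFinset, mem_pe_reverse, mem_pe_reverse]
      by_cases h : e ∈ pe P₁
      · exact Or.inr ⟨h, he.2⟩
      · exact Or.inl ⟨he.1, h⟩
    have h1 := Finset.card_le_card hsub
    have h2 := Finset.card_union_le ((pe Q.reverse).toFinset \ (pe P₁).toFinset)
      ((pe P₁.reverse).toFinset \ (pe P₂).toFinset)
    have h3 := hR₁.lost
    have h4 := hR₂.lost
    omega
  · rw [hR₂.last, List.getLast?_reverse, hh₁]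

end Pool.Agent.W_cd7020_h81b
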