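import Pool.Agent.W_cd7020_h81b.Par

/-!
# Bilinear forms
-/

set_option autoImplicit false

namespace Pool.Agent.W_cd7020_h81b

open Finset Pool.Agent.W_cd7020_h81

variable {V κ : Type*} [DecidableEq V] [DecidableEq κ] [Fintype V]

/-- Cauchy-Schwarz. -/
theorem sum_mul_le_nr (f g : V → ℝ) : |∑ x, f x * g x| ≤ nr f * nr g := by
  unfold nr
  rw [← Real.sqrt_mul (Finset.sum_nonneg (fun i _ => sq_nonneg _))]
  apply Real.abs_le_sqrt
  exact Finset.sum_mul_sq_le_sq_mul_sq Finset.univ f g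

theorem nr_sq (f : V → ℝ) : nr f ^ 2 = ∑ x, f x ^ 2 := by
  unfold nr
  exact Real.sq_sqrt (Finset.sum_nonneg (fun i _ => sq_nonneg _))

theorem qf_add (A B : Matrix V V ℝ) (f g : V → ℝ) : qf (A + B) f g = qf A f g + qf B f g := by
  unfold qf
  rw [← Finset.sum_add_distrib]
  refine Finset.sum_congr rfl (fun x _ => ?_)
  rw [← Finset.sum_add_distrib]
  refine Finset.sum_congr rfl (fun y _ => ?_)
  rw [Matrix.add_apply]
  ring

theorem qf_sub (A B : Matrix V V ℝ) (f g : V → ℝ) : qf (A - B) f g = qf A f g - qf B f g := by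
  unfold qf
  rw [← Finset.sum_sub_distrib]
  refine Finset.sum_congr rfl (fun x _ => ?_)
  rw [← Finset.sum_sub_distrib]
  refine Finset.sum_congr rfl (fun y _ => ?_)
  rw [Matrix.sub_apply]
  ring

theorem qf_smul (r : ℝ) (A : Matrix V V ℝ) (f g : V → ℝ) : qf (r • A) f g = r * qf A f g := by
  unfold qf
  rw [Finset.mul_sum]
  refine Finset.sum_congr rfl (fun x _ => ?_)
  rw [Finset.mul_sum]
  refine Finset.sum_congr rfl (fun y _ => ?_)
  rw [Matrix.smul_apply, smul_eq_mul]
  ring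

theorem qf_sum {ι : Type*} (I : Finset ι) (A : ι → Matrix V V ℝ) (f g : V → ℝ) :
    qf (∑ i ∈ I, A i) f g = ∑ i ∈ I, qf (A i) f g := by
  classical
  induction I using Finset.induction_on with
  | empty => simp [qf]
  | insert a s ha ih => rw [Finset.sum_insert ha, Finset.sum_insert ha, qf_add, ih]

end Pool.Agent.W_cd7020_h81b
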