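import Pool.Agent.W_cd7020_h81b.ColY

/-!
# Norms of sets of colours
-/

set_option autoImplicit false

namespace Pool.Agent.W_cd7020_h81b

open Finset Pool.Agent.W_cd7020_h81

variable {V κ : Type*} [DecidableEq V] [DecidableEq κ] [Fintype V]

omit [DecidableEq V] in
private theorem ColB_nr_nonneg (f : V → ℝ) : 0 ≤ nr f := Real.sqrt_nonneg _

/-- Removing at most `D` colours changes the norm by at most `2 D` (`YM_qf`). -/
theorem NB_del (col : Sym2 V → κ) (hcol : Proper col) (B B' : Finset κ) (a : ℝ) (D : ℕ)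
    (hB : NB col B a) (hsub : B' ⊆ B) (hD : (B \ B').card ≤ D) : NB col B' (a + 2 * D) := by
  intro f g
  have h1 : SM col B = SM col B' + ∑ k ∈ B \ B', YM col k := by
    unfold SM
    rw [add_comm]
    exact (Finset.sum_sdiff hsub).symm
  have h2 : qf (SM col B) f g = qf (SM col B') f g + ∑ k ∈ B \ B', qf (YM col k) f g := by
    rw [h1, qf_add, qf_sum]
  have h3 : |∑ k ∈ B \ B', qf (YM col k) f g| ≤ 2 * D * nr f * nr g := by
    have hf := ColB_nr_nonneg f
    have hg := ColB_nr_nonneg g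
    calc |∑ k ∈ B \ B', qf (YM col k) f g| ≤ ∑ k ∈ B \ B', |qf (YM col k) f g| :=
          Finset.abs_sum_le_sum_abs _ _
      _ ≤ ∑ k ∈ B \ B', 2 * nr f * nr g := Finset.sum_le_sum fun k _ => YM_qf col hcol k f g
      _ = (B \ B').card * (2 * nr f * nr g) := by rw [Finset.sum_const, nsmul_eq_mul]
      _ ≤ D * (2 * nr f * nr g) := by
          apply mul_le_mul_of_nonneg_right _ (by positivity)
          exact_mod_cast hD
      _ = 2 * D * nr f * nr g := by ring
  have h4 : qf (SM col B') f g = qf (SM col B) f g - ∑ k ∈ B \ B', qf (YM col k) f g := by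
    rw [h2]; ring
  rw [h4]
  calc |qf (SM col B) f g - ∑ k ∈ B \ B', qf (YM col k) f g|
      ≤ |qf (SM col B) f g| + |∑ k ∈ B \ B', qf (YM col k) f g| := abs_sub _ _
    _ ≤ a * nr f * nr g + 2 * D * nr f * nr g := add_le_add (hB f g) h3
    _ = (a + 2 * D) * nr f * nr g := by ring

theorem NB_mono (col : Sym2 V → κ) (B : Finset κ) (a b : ℝ) (hB : NB col B a) (hab : a ≤ b) :
    NB col B b := by
  intro f g
  refine (hB f g).trans ?_
  exact mul_le_mul_of_nonneg_right (mul_le_mul_of_nonneg_right hab (ColB_nr_nonneg f))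
    (ColB_nr_nonneg g)

private theorem ColB_nr_ind (X : Finset V) :
    nr (fun x => if x ∈ X then (1 : ℝ) else 0) = Real.sqrt X.card := by
  unfold nr
  congr 1
  have : ∀ x : V, (if x ∈ X then (1 : ℝ) else 0) ^ 2 = if x ∈ X then 1 else 0 := by
    intro x; split_ifs <;> norm_num
  simp only [this]
  rw [Finset.sum_ite_mem, Finset.univ_inter, Finset.sum_const, nsmul_eq_mul, mul_one]

private theorem ColB_qf_ind (A : Matrix V V ℝ) (X Y : Finset V) :
    qf A (fun x => if x ∈ X then (1 : ℝ) else 0) (fun x => if x ∈ Y then (1 : ℝ) else 0) =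
      ∑ x ∈ X, ∑ y ∈ Y, A x y := by
  unfold qf
  have h1 : ∀ x : V, ∑ y, (if x ∈ X then (1 : ℝ) else 0) * A x y * (if y ∈ Y then (1 : ℝ) else 0) =
      if x ∈ X then ∑ y ∈ Y, A x y else 0 := by
    intro x
    have h2 : ∀ y : V, (if x ∈ X then (1 : ℝ) else 0) * A x y * (if y ∈ Y then (1 : ℝ) else 0) =
        if y ∈ Y then (if x ∈ X then (1 : ℝ) else 0) * A x y else 0 := by
      intro y; split_ifs <;> simp
    simp only [h2]
    rw [Finset.sum_ite_mem, Finset.univ_inter]
    split_ifs <;> simp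
  simp only [h1]
  rw [Finset.sum_ite_mem, Finset.univ_inter]

private theorem ColB_sum_YM (col : Sym2 V → κ) (B : Finset κ) (x y : V) :
    SM col B x y = (if x ≠ y ∧ col s(x, y) ∈ B then 1 else 0) -
      (B.card : ℝ) / (Fintype.card V : ℝ) * (if x = y then 0 else 1) := by
  unfold SM
  rw [Matrix.sum_apply]
  unfold YM
  rw [Finset.sum_sub_distrib]
  congr 1
  · by_cases hxy : x = y
    · simp [hxy]
    · simp only [ne_eq, hxy, not_false_eq_true, true_and]
      rw [Finset.sum_ite_eq]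
  · rw [Finset.sum_const, nsmul_eq_mul]
    split_ifs
    · simp
    · ring

/-- `NB` with `f = 1_X`, `g = 1_Y`: `qf (SM B) 1_X 1_Y = eB B X Y - |B|/n (|X| |Y| - |X ∩ Y|)`, and
`|B|/n |X ∩ Y| ≤ √(|X| |Y|)`. -/
theorem NB_mix (col : Sym2 V → κ) (B : Finset κ) (a : ℝ) (hB : NB col B a)
    (hn : B.card ≤ Fintype.card V) : Mix col B (a + 1) := by
  intro X Y
  have h1 := hB (fun x => if x ∈ X then (1 : ℝ) else 0) (fun x => if x ∈ Y then (1 : ℝ) else 0)
  rw [ColB_nr_ind, ColB_nr_ind, ColB_qf_ind] at h1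
  have h2 : ∑ x ∈ X, ∑ y ∈ Y, SM col B x y = (eB col B X Y : ℝ) -
      (B.card : ℝ) / (Fintype.card V : ℝ) * ((X.card : ℝ) * Y.card - (X ∩ Y).card) := by
    simp only [ColB_sum_YM, Finset.sum_sub_distrib]
    congr 1
    · unfold eB
      rw [← Finset.sum_product', Finset.sum_boole]
    · have h3 : ∀ x y : V, (if x = y then (0 : ℝ) else 1) = 1 - if x = y then 1 else 0 := by
        intro x y; split_ifs <;> norm_num
      simp only [← Finset.mul_sum]
      congr 1
      simp only [h3, Finset.sum_sub_distrib, Finset.sum_const, nsmul_eq_mul, mul_one,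
        Finset.sum_ite_eq]
      rw [Finset.sum_ite_mem, Finset.sum_const, nsmul_eq_mul, mul_one]
  rw [h2] at h1
  have hq0 : 0 ≤ (B.card : ℝ) / (Fintype.card V : ℝ) := by positivity
  have hq1 : (B.card : ℝ) / (Fintype.card V : ℝ) ≤ 1 := by
    apply div_le_one_of_le₀
    · exact_mod_cast hn
    · positivity
  set q := (B.card : ℝ) / (Fintype.card V : ℝ) with hq
  have h5 : ((X ∩ Y).card : ℝ) ≤ Real.sqrt ((X.card : ℝ) * (Y.card : ℝ)) := by
    apply Real.le_sqrt_of_sq_le
    have hx : ((X ∩ Y).card : ℝ) ≤ X.card := by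
      exact_mod_cast Finset.card_le_card Finset.inter_subset_left
    have hy : ((X ∩ Y).card : ℝ) ≤ Y.card := by
      exact_mod_cast Finset.card_le_card Finset.inter_subset_right
    rw [sq]
    exact mul_le_mul hx hy (by positivity) (by positivity)
  have h6 : Real.sqrt ((X.card : ℝ) * (Y.card : ℝ)) = Real.sqrt X.card * Real.sqrt Y.card :=
    Real.sqrt_mul (by positivity) _
  have h7 : q * ((X ∩ Y).card : ℝ) ≤ Real.sqrt ((X.card : ℝ) * (Y.card : ℝ)) := by
    have : q * ((X ∩ Y).card : ℝ) ≤ 1 * ((X ∩ Y).card : ℝ) :=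
      mul_le_mul_of_nonneg_right hq1 (by positivity)
    linarith
  have h8 : 0 ≤ q * ((X ∩ Y).card : ℝ) := by positivity
  have h9 : a * Real.sqrt X.card * Real.sqrt Y.card =
      a * Real.sqrt ((X.card : ℝ) * (Y.card : ℝ)) := by rw [h6]; ring
  rw [h9] at h1
  rw [abs_le] at h1 ⊢
  constructor
  · nlinarith [h1.1, h1.2]
  · nlinarith [h1.1, h1.2]

end Pool.Agent.W_cd7020_h81b
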