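import Pool.Agent.W_cd7020_h81b.ColY

/-!
# The matrix of almost all colours
-/

set_option autoImplicit false

namespace Pool.Agent.W_cd7020_h81b

open Finset Pool.Agent.W_cd7020_h81

variable {V κ : Type*} [DecidableEq V] [DecidableEq κ] [Fintype V]

theorem ColF_entry (col : Sym2 V → κ) (B : Finset κ) (x y : V) :
    SM col B x y = (if x ≠ y ∧ col s(x, y) ∈ B then 1 else 0) -
      (B.card : ℝ) / (Fintype.card V : ℝ) * (if x = y then 0 else 1) := by
  unfold SM
  rw [Matrix.sum_apply]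
  unfold YM
  rw [Finset.sum_sub_distrib]
  congr 1
  · by_cases hxy : x = y
    · simp [hxy]
    · simp only [ne_eq, hxy, not_false_eq_true, true_and]
      rw [Finset.sum_ite_eq]
  · rw [Finset.sum_const, nsmul_eq_mul]
    split_ifs
    · simp
    · ring

theorem ColF_row (col : Sym2 V → κ) (hcol : Proper col) (S : Finset κ) (μ : ℕ)
    (hS : S.card ≤ Fintype.card V)
    (hμ : ∀ x, (S.filter (fun k => par col k x = x)).card ≤ μ) (x : V) :
    ∑ y, |SM col S x y| ≤ 2 * ((Fintype.card V : ℝ) - S.card) + μ := by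
  have hn : 0 < (Fintype.card V : ℝ) := by
    have : 0 < Fintype.card V := Fintype.card_pos_iff.2 ⟨x⟩
    exact_mod_cast this
  have hSr : (S.card : ℝ) ≤ (Fintype.card V : ℝ) := by exact_mod_cast hS
  have hq : (S.card : ℝ) / (Fintype.card V : ℝ) ≤ 1 := (div_le_one hn).2 hSr
  have h1 : ∀ y, |SM col S x y| ≤ (1 - (S.card : ℝ) / (Fintype.card V : ℝ)) +
      (if y ≠ x ∧ col s(x, y) ∉ S then (1 : ℝ) else 0) := by
    intro y
    rw [ColF_entry]
    by_cases hxy : x = y
    · subst hxy
      simp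
      exact hq
    · have hyx : y ≠ x := fun h => hxy h.symm
      by_cases hc : col s(x, y) ∈ S
      · rw [if_pos ⟨hxy, hc⟩, if_neg hxy, if_neg (fun h => h.2 hc), abs_of_nonneg] <;> linarith
      · rw [if_neg (fun h => hc h.2), if_neg hxy, if_pos ⟨hyx, hc⟩]
        have h0 : 0 ≤ (S.card : ℝ) / (Fintype.card V : ℝ) := by positivity
        rw [abs_le]
        constructor <;> linarith
  have h2 : ((Finset.univ.filter (fun y => y ≠ x ∧ col s(x, y) ∉ S)).card : ℝ) ≤
      (Fintype.card V : ℝ) - S.card + μ := by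
    have h3 := par_count col hcol S x Finset.univ
    have h4 : (S.filter (fun k => par col k x = x)).card +
        (S.filter (fun k => par col k x ≠ x ∧ par col k x ∈ (Finset.univ : Finset V))).card
          = S.card := by
      rw [← Finset.card_filter_add_card_filter_not (s := S) (fun k => par col k x = x)]
      congr 2
      ext k
      simp
    have h5 : (Finset.univ.filter (fun y => y ≠ x ∧ col s(x, y) ∉ S)).card +
        (Finset.univ.filter (fun y => y ≠ x ∧ col s(x, y) ∈ S)).card ≤ Fintype.card V := by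
      rw [← Finset.card_union_of_disjoint]
      · exact Finset.card_le_univ _
      · rw [Finset.disjoint_left]
        intro y hy hy'
        exact (Finset.mem_filter.1 hy).2.2 (Finset.mem_filter.1 hy').2.2
    have h6 := hμ x
    have h7 : (Finset.univ.filter (fun y => y ≠ x ∧ col s(x, y) ∉ S)).card + S.card ≤
        Fintype.card V + μ := by omega
    have h8 : ((Finset.univ.filter (fun y => y ≠ x ∧ col s(x, y) ∉ S)).card : ℝ) + S.card ≤
        (Fintype.card V : ℝ) + μ := by exact_mod_cast h7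
    linarith
  calc ∑ y, |SM col S x y| ≤ ∑ y, ((1 - (S.card : ℝ) / (Fintype.card V : ℝ)) +
      (if y ≠ x ∧ col s(x, y) ∉ S then (1 : ℝ) else 0)) := Finset.sum_le_sum (fun y _ => h1 y)
    _ = ((Fintype.card V : ℝ) - S.card) +
        ((Finset.univ.filter (fun y => y ≠ x ∧ col s(x, y) ∉ S)).card : ℝ) := by
        rw [Finset.sum_add_distrib, Finset.sum_boole, Finset.sum_const, Finset.card_univ,
          nsmul_eq_mul]
        congr 1
        field_simp
    _ ≤ 2 * ((Fintype.card V : ℝ) - S.card) + μ := by linarith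

/-- If `S` is a set of `n₀ ≤ n` colours and every vertex misses at most `μ` colours of `S`, then
`|⟨v, SM S v⟩| ≤ (2 (n - n₀) + μ) ‖v‖ ^ 2`.
The entries for `x ≠ y` are `(1 - n₀/n) - [col s(x,y) ∉ S]`. The first part gives at most
`(1 - n₀/n) |(∑ v) ^ 2 - ∑ v ^ 2| ≤ (n - n₀) ‖v‖ ^ 2`. The second part is at most
`∑ x, v x ^ 2 * #{y ≠ x | col s(x, y) ∉ S}` (`|v x v y| ≤ (v x ^ 2 + v y ^ 2) / 2`, symmetry) and
`#{y ≠ x | col s(x, y) ∉ S} = n - 1 - #{k ∈ S | par k x ≠ x} ≤ n - n₀ + μ` (`par_count` with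
`Y = univ`). -/
theorem full_qf (col : Sym2 V → κ) (hcol : Proper col) (S : Finset κ) (μ : ℕ)
    (hS : S.card ≤ Fintype.card V)
    (hμ : ∀ x, (S.filter (fun k => par col k x = x)).card ≤ μ) (v : V → ℝ) :
    |qf (SM col S) v v| ≤ (2 * ((Fintype.card V : ℝ) - S.card) + μ) * ∑ x, v x ^ 2 := by
  have hsymm : ∀ x y, SM col S x y = SM col S y x := by
    intro x y
    have h3 := congrFun (congrFun (SM_herm col S) y) x
    rw [Matrix.conjTranspose_apply, star_trivial] at h3
    exact h3
  have h1 : ∀ x y, |v x * SM col S x y * v y| ≤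
      |SM col S x y| * v x ^ 2 / 2 + |SM col S x y| * v y ^ 2 / 2 := by
    intro x y
    have h2 : |v x * SM col S x y * v y| = |SM col S x y| * (|v x| * |v y|) := by
      rw [abs_mul, abs_mul]; ring
    have h3 : |v x| * |v y| ≤ v x ^ 2 / 2 + v y ^ 2 / 2 := by
      have := sq_nonneg (|v x| - |v y|)
      rw [← sq_abs (v x), ← sq_abs (v y)]
      nlinarith
    rw [h2]
    have h4 := mul_le_mul_of_nonneg_left h3 (abs_nonneg (SM col S x y))
    linarith
  have h2 : ∑ x, ∑ y, |SM col S x y| * v x ^ 2 / 2 = ∑ x, v x ^ 2 / 2 * ∑ y, |SM col S x y| := by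
    refine Finset.sum_congr rfl (fun x _ => ?_)
    rw [Finset.mul_sum]
    exact Finset.sum_congr rfl (fun y _ => by ring)
  have h3 : ∑ x, ∑ y, |SM col S x y| * v y ^ 2 / 2 = ∑ x, v x ^ 2 / 2 * ∑ y, |SM col S x y| := by
    rw [Finset.sum_comm]
    refine Finset.sum_congr rfl (fun x _ => ?_)
    rw [Finset.mul_sum]
    exact Finset.sum_congr rfl (fun y _ => by rw [hsymm y x]; ring)
  have h4 : ∑ x, v x ^ 2 / 2 * ∑ y, |SM col S x y| ≤
      ∑ x, v x ^ 2 / 2 * (2 * ((Fintype.card V : ℝ) - S.card) + μ) :=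
    Finset.sum_le_sum (fun x _ => mul_le_mul_of_nonneg_left
      (ColF_row col hcol S μ hS hμ x) (by positivity))
  calc |qf (SM col S) v v| ≤ ∑ x, ∑ y, |v x * SM col S x y * v y| := by
        unfold qf
        refine (Finset.abs_sum_le_sum_abs _ _).trans ?_
        exact Finset.sum_le_sum (fun x _ => Finset.abs_sum_le_sum_abs _ _)
    _ ≤ ∑ x, ∑ y, (|SM col S x y| * v x ^ 2 / 2 + |SM col S x y| * v y ^ 2 / 2) :=
        Finset.sum_le_sum (fun x _ => Finset.sum_le_sum (fun y _ => h1 x y))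
    _ = ∑ x, v x ^ 2 / 2 * ∑ y, |SM col S x y| + ∑ x, v x ^ 2 / 2 * ∑ y, |SM col S x y| := by
        simp only [Finset.sum_add_distrib]
        rw [h2, h3]
    _ ≤ ∑ x, v x ^ 2 / 2 * (2 * ((Fintype.card V : ℝ) - S.card) + μ) +
        ∑ x, v x ^ 2 / 2 * (2 * ((Fintype.card V : ℝ) - S.card) + μ) := add_le_add h4 h4
    _ = (2 * ((Fintype.card V : ℝ) - S.card) + μ) * ∑ x, v x ^ 2 := by
        rw [← Finset.sum_add_distrib, Finset.mul_sum]
        exact Finset.sum_congr rfl (fun x _ => by ring)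

end Pool.Agent.W_cd7020_h81b
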