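import Pool.Agent.W_cd7020_h81b.ColA

/-!
# The matrices of colours
-/

set_option autoImplicit false

namespace Pool.Agent.W_cd7020_h81b

open Finset Pool.Agent.W_cd7020_h81

variable {V κ : Type*} [DecidableEq V] [DecidableEq κ] [Fintype V]

omit [DecidableEq V] [Fintype V] in
theorem ColY_sum_herm {ι : Type*} (I : Finset ι) (A : ι → Matrix V V ℝ)
    (h : ∀ i ∈ I, (A i).IsHermitian) : (∑ i ∈ I, A i).IsHermitian := by
  classical
  induction I using Finset.induction_on with
  | empty => rw [Finset.sum_empty]; exact Matrix.isHermitian_zero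
  | insert a s ha ih =>
    rw [Finset.sum_insert ha]
    exact (h a (Finset.mem_insert_self a s)).add
      (ih (fun i hi => h i (Finset.mem_insert_of_mem hi)))

omit [DecidableEq V] in
/-- The Schur test. -/
theorem ColY_schur (A : Matrix V V ℝ) (R : ℝ) (hR : 0 ≤ R) (hrow : ∀ a, ∑ y, |A a y| ≤ R)
    (hcl : ∀ y, ∑ a, |A a y| ≤ R) (v : V → ℝ) :
    ∑ a, (A.mulVec v a) ^ 2 ≤ R ^ 2 * ∑ a, v a ^ 2 := by
  have h1 : ∀ a, (A.mulVec v a) ^ 2 ≤ R * ∑ y, |A a y| * v y ^ 2 := by
    intro a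
    have h2 : (A.mulVec v a) ^ 2 ≤ (∑ y, |A a y|) * ∑ y, |A a y| * v y ^ 2 := by
      have h3 : A.mulVec v a = ∑ y, A a y * v y := rfl
      rw [h3]
      have h4 : |∑ y, A a y * v y| ≤ ∑ y, Real.sqrt |A a y| * (Real.sqrt |A a y| * |v y|) := by
        refine (Finset.abs_sum_le_sum_abs _ _).trans (le_of_eq ?_)
        refine Finset.sum_congr rfl (fun y _ => ?_)
        rw [abs_mul, ← mul_assoc, Real.mul_self_sqrt (abs_nonneg _)]
      have h5 := Finset.sum_mul_sq_le_sq_mul_sq Finset.univ (fun y => Real.sqrt |A a y|)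
        (fun y => Real.sqrt |A a y| * |v y|)
      have h6 : (∑ y, A a y * v y) ^ 2 ≤
          (∑ y, Real.sqrt |A a y| * (Real.sqrt |A a y| * |v y|)) ^ 2 := by
        rw [← sq_abs (∑ y, A a y * v y)]
        exact pow_le_pow_left₀ (abs_nonneg _) h4 2
      refine h6.trans (h5.trans (le_of_eq ?_))
      congr 1
      · refine Finset.sum_congr rfl (fun y _ => ?_)
        exact Real.sq_sqrt (abs_nonneg _)
      · refine Finset.sum_congr rfl (fun y _ => ?_)
        rw [mul_pow, Real.sq_sqrt (abs_nonneg _), sq_abs]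
    refine h2.trans ?_
    exact mul_le_mul_of_nonneg_right (hrow a)
      (Finset.sum_nonneg (fun y _ => mul_nonneg (abs_nonneg _) (sq_nonneg _)))
  calc ∑ a, (A.mulVec v a) ^ 2 ≤ ∑ a, R * ∑ y, |A a y| * v y ^ 2 :=
        Finset.sum_le_sum (fun a _ => h1 a)
    _ = R * ∑ y, (∑ a, |A a y|) * v y ^ 2 := by
        rw [← Finset.mul_sum, Finset.sum_comm]
        congr 1
        refine Finset.sum_congr rfl (fun y _ => ?_)
        rw [Finset.sum_mul]
    _ ≤ R * ∑ y, R * v y ^ 2 := by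
        refine mul_le_mul_of_nonneg_left (Finset.sum_le_sum (fun y _ => ?_)) hR
        exact mul_le_mul_of_nonneg_right (hcl y) (sq_nonneg _)
    _ = R ^ 2 * ∑ a, v a ^ 2 := by
        rw [← Finset.mul_sum]
        ring

theorem ColY_row (col : Sym2 V → κ) (hcol : Proper col) (k : κ) (a : V) :
    ∑ y, |YM col k a y| ≤ 2 := by
  have hn : 0 < (Fintype.card V : ℝ) := by
    have : 0 < Fintype.card V := Fintype.card_pos_iff.2 ⟨a⟩
    exact_mod_cast this
  have h1 : ∀ y, |YM col k a y| ≤ (if a ≠ y ∧ col s(a, y) = k then (1 : ℝ) else 0) +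
      1 / (Fintype.card V : ℝ) := by
    intro y
    have h2 : 0 < 1 / (Fintype.card V : ℝ) := by positivity
    unfold YM
    refine (abs_sub _ _).trans ?_
    split_ifs
    · simp
    · rw [abs_of_pos h2]; simp
    · simp
    · rw [abs_of_pos h2]; simp
  have h3 : ∑ y, (if a ≠ y ∧ col s(a, y) = k then (1 : ℝ) else 0) ≤ 1 := by
    rw [Finset.sum_boole]
    have h4 : (Finset.univ.filter (fun y => a ≠ y ∧ col s(a, y) = k)).card ≤ 1 := by
      rw [Finset.card_le_one]
      intro y hy z hz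
      by_contra hyz
      have hy' := (Finset.mem_filter.1 hy).2
      have hz' := (Finset.mem_filter.1 hz).2
      exact hcol a y z hy'.1 hz'.1 hyz (hy'.2.trans hz'.2.symm)
    exact_mod_cast h4
  calc ∑ y, |YM col k a y| ≤ ∑ y, ((if a ≠ y ∧ col s(a, y) = k then (1 : ℝ) else 0) +
        1 / (Fintype.card V : ℝ)) := Finset.sum_le_sum (fun y _ => h1 y)
    _ = ∑ y, (if a ≠ y ∧ col s(a, y) = k then (1 : ℝ) else 0) + 1 := by
        rw [Finset.sum_add_distrib]
        congr 1
        rw [Finset.sum_const, Finset.card_univ, nsmul_eq_mul]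
        field_simp
    _ ≤ 2 := by linarith

theorem YM_herm (col : Sym2 V → κ) (k : κ) : (YM col k).IsHermitian := by
  have hsymm : ∀ x y, YM col k x y = YM col k y x := by
    intro x y
    unfold YM
    have h1 : (x ≠ y ∧ col s(x, y) = k) ↔ (y ≠ x ∧ col s(y, x) = k) := by
      rw [Sym2.eq_swap, ne_comm]
    have h2 : (x = y) ↔ (y = x) := eq_comm
    rw [if_congr h1 rfl rfl, if_congr h2 rfl rfl]
  ext x y
  rw [Matrix.conjTranspose_apply, star_trivial]
  exact hsymm y x

theorem SM_herm (col : Sym2 V → κ) (B : Finset κ) : (SM col B).IsHermitian := by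
  unfold SM
  exact ColY_sum_herm B (fun k => YM col k) (fun k _ => YM_herm col k)

theorem sumYM_herm {ι : Type*} (col : Sym2 V → κ) (I : Finset ι) (c : ι → κ) :
    (∑ i ∈ I, YM col (c i)).IsHermitian := by
  exact ColY_sum_herm I (fun i => YM col (c i)) (fun i _ => YM_herm col (c i))

/-- `YM col k = M - P` where `M` is the matrix of the partial permutation `par col k`
(`‖M v‖ ≤ ‖v‖`: `(M v) x = v (par x)` or `0`) and `P v = (1/n) (∑ v - v)`, also with norm at most
`‖v‖` (`‖P v‖ ^ 2 = ((n-2) (∑ v) ^ 2 + ∑ v ^ 2) / n ^ 2`, Cauchy-Schwarz). -/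
theorem YM_norm (col : Sym2 V → κ) (hcol : Proper col) (k : κ) (v : V → ℝ) :
    ∑ a, ((YM col k).mulVec v a) ^ 2 ≤ 4 * ∑ a, v a ^ 2 := by
  have h := ColY_schur (YM col k) 2 (by norm_num) (fun a => ColY_row col hcol k a)
    (fun y => by
      have h1 := ColY_row col hcol k y
      have h2 : ∀ a, YM col k a y = YM col k y a := by
        intro a
        have h3 := congrFun (congrFun (YM_herm col k) y) a
        rw [Matrix.conjTranspose_apply, star_trivial] at h3
        exact h3
      rw [Finset.sum_congr rfl (fun a _ => by rw [h2 a])]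
      exact h1) v
  linarith

/-- Triangle inequality (or `(∑ i ∈ I, t i) ^ 2 ≤ |I| ∑ t i ^ 2`). -/
theorem sumYM_norm {ι : Type*} (col : Sym2 V → κ) (hcol : Proper col) (I : Finset ι) (c : ι → κ)
    (v : V → ℝ) :
    ∑ a, ((∑ i ∈ I, YM col (c i)).mulVec v a) ^ 2 ≤ (2 * (I.card : ℝ)) ^ 2 * ∑ a, v a ^ 2 := by
  have hs : ∀ a y, (∑ i ∈ I, YM col (c i)) a y = (∑ i ∈ I, YM col (c i)) y a := by
    intro a y
    have h3 := congrFun (congrFun (sumYM_herm col I c) y) a
    rw [Matrix.conjTranspose_apply, star_trivial] at h3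
    exact h3
  have hrow : ∀ a, ∑ y, |(∑ i ∈ I, YM col (c i)) a y| ≤ 2 * (I.card : ℝ) := by
    intro a
    calc ∑ y, |(∑ i ∈ I, YM col (c i)) a y| ≤ ∑ y, ∑ i ∈ I, |YM col (c i) a y| := by
          refine Finset.sum_le_sum (fun y _ => ?_)
          rw [Matrix.sum_apply]
          exact Finset.abs_sum_le_sum_abs _ _
      _ = ∑ i ∈ I, ∑ y, |YM col (c i) a y| := Finset.sum_comm
      _ ≤ ∑ _i ∈ I, (2 : ℝ) := Finset.sum_le_sum (fun i _ => ColY_row col hcol (c i) a)
      _ = 2 * (I.card : ℝ) := by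
          rw [Finset.sum_const, nsmul_eq_mul]
          ring
  exact ColY_schur _ _ (by positivity) hrow (fun y => by
    rw [Finset.sum_congr rfl (fun a _ => by rw [hs a y])]
    exact hrow y) v

/-- From `YM_norm` and Cauchy-Schwarz. -/
theorem YM_qf (col : Sym2 V → κ) (hcol : Proper col) (k : κ) (f g : V → ℝ) :
    |qf (YM col k) f g| ≤ 2 * nr f * nr g := by
  have h1 : qf (YM col k) f g = ∑ x, f x * (YM col k).mulVec g x := by
    unfold qf
    refine Finset.sum_congr rfl (fun x _ => ?_)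
    rw [Matrix.mulVec, dotProduct, Finset.mul_sum]
    refine Finset.sum_congr rfl (fun y _ => ?_)
    ring
  rw [h1]
  have h2 := sum_mul_le_nr f ((YM col k).mulVec g)
  have h3 : nr ((YM col k).mulVec g) ≤ 2 * nr g := by
    have h4 := YM_norm col hcol k g
    unfold nr
    have h5 : (2 : ℝ) * Real.sqrt (∑ x, g x ^ 2) = Real.sqrt (4 * ∑ x, g x ^ 2) := by
      rw [Real.sqrt_mul (by norm_num : (0 : ℝ) ≤ 4)]
      congr 1
      rw [show (4 : ℝ) = 2 ^ 2 by norm_num, Real.sqrt_sq (by norm_num)]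
    rw [h5]
    exact Real.sqrt_le_sqrt h4
  have h4 : 0 ≤ nr f := Real.sqrt_nonneg _
  calc |∑ x, f x * (YM col k).mulVec g x| ≤ nr f * nr ((YM col k).mulVec g) := h2
    _ ≤ nr f * (2 * nr g) := mul_le_mul_of_nonneg_left h3 h4
    _ = 2 * nr f * nr g := by ring

end Pool.Agent.W_cd7020_h81b
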