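import Pool.Agent.W_cd7020_h81b.RDefs

/-!
# Combining changes at both ends of a list
-/

set_option autoImplicit false

namespace Pool.Agent.W_cd7020_h81b

open Finset Pool.Agent.W_cd7020_h81

variable {V κ : Type*} [DecidableEq V] [DecidableEq κ]

/-- The part of `F` on the list `P`. -/
def onl (P : List V) (F : Finset (Sym2 V)) : Finset (Sym2 V) := F.filter (fun e => e ∈ pe P)

theorem CombA_aux (b : V) (m : List V) (e : Sym2 V) (M : List V) : ∀ (L : List V) (a : V),
    e ∈ pe (L ++ a :: (M ++ b :: m)) ↔ e ∈ pe (L ++ [a]) ∨ e ∈ pe (b :: m) ∨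
      e ∈ pe (a :: (M ++ [b])) := by
  induction M with
  | nil =>
    intro L a
    have h1 : pe (a :: ([] ++ [b])) = [s(a, b)] := rfl
    rw [List.nil_append, pe_append, h1, List.mem_append, List.mem_cons, List.mem_singleton]
    constructor
    · rintro (h | h | h)
      · exact Or.inl h
      · exact Or.inr (Or.inr h)
      · exact Or.inr (Or.inl h)
    · rintro (h | h | h)
      · exact Or.inl h
      · exact Or.inr (Or.inr h)
      · exact Or.inr (Or.inl h)
  | cons c M ih =>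
    intro L a
    have h1 : pe (a :: (c :: M ++ [b])) = s(a, c) :: pe (c :: (M ++ [b])) := rfl
    have h2 := ih [] c
    have h3 : pe ([] ++ [c]) = [] := rfl
    rw [h3, List.nil_append] at h2
    have h4 : L ++ a :: (c :: M ++ b :: m) = L ++ a :: c :: (M ++ b :: m) := rfl
    rw [h4, pe_append, h1, List.mem_append, List.mem_cons, h2, List.mem_cons]
    constructor
    · rintro (h | h | h | h | h)
      · exact Or.inl h
      · exact Or.inr (Or.inr (Or.inl h))
      · exact absurd h List.not_mem_nil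
      · exact Or.inr (Or.inl h)
      · exact Or.inr (Or.inr (Or.inr h))
    · rintro (h | h | h | h)
      · exact Or.inl h
      · exact Or.inr (Or.inr (Or.inr (Or.inl h)))
      · exact Or.inr (Or.inl h)
      · exact Or.inr (Or.inr (Or.inr (Or.inr h)))

/-- Pairs of a list without repetition in three parts (`pe_append'`). -/
theorem pe_three (P₁ M P₂ : List V) (h₁ : P₁ ≠ []) (h₂ : P₂ ≠ []) (e : Sym2 V) :
    e ∈ pe (P₁ ++ M ++ P₂) ↔ e ∈ pe P₁ ∨ e ∈ pe P₂ ∨
      e ∈ pe (P₁.getLast h₁ :: M ++ [P₂.head h₂]) := by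
  obtain ⟨b, m, rfl⟩ := List.exists_cons_of_ne_nil h₂
  obtain ⟨L, a, rfl⟩ : ∃ L a, P₁ = L ++ [a] :=
    ⟨P₁.dropLast, P₁.getLast h₁, (List.dropLast_append_getLast h₁).symm⟩
  have h3 : L ++ [a] ++ M ++ b :: m = L ++ a :: (M ++ b :: m) := by simp
  have h4 : (L ++ [a]).getLast h₁ = a := by simp
  have h5 : (b :: m).head h₂ = b := rfl
  rw [h3, h4, h5]
  exact CombA_aux b m e M L a

/-- Replace `P₁` by `P₁'` (same elements, same last vertex) and `P₂` by `P₂'` (same elements, same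
first vertex), and the edges on them by `F₁'`, `F₂'`. The edges of the new set are pairs of the new
list by `pe_three`. For the cardinality: edges of `F₁'` have both ends in `P₁`, edges of `F₂'` have
both ends in `P₂`, and the other edges `F \ (onl P₁ F ∪ onl P₂ F)` are pairs of
`P₁.getLast :: M ++ [P₂.head]`, which do not have both ends in `P₁` or both in `P₂`. -/
theorem combine (P₁ M P₂ P₁' P₂' : List V) (F F₁' F₂' : Finset (Sym2 V)) (h₁ : P₁ ≠ [])
    (h₂ : P₂ ≠ []) (hnd : (P₁ ++ M ++ P₂).Nodup) (hF : ∀ e ∈ F, e ∈ pe (P₁ ++ M ++ P₂))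
    (hp₁ : P₁'.Perm P₁) (hp₂ : P₂'.Perm P₂) (hl : P₁'.getLast? = P₁.getLast?)
    (hh : P₂'.head? = P₂.head?) (hF₁ : ∀ e ∈ F₁', e ∈ pe P₁') (hF₂ : ∀ e ∈ F₂', e ∈ pe P₂') :
    (P₁' ++ M ++ P₂').Perm (P₁ ++ M ++ P₂) ∧
    (∀ e ∈ F₁' ∪ (F \ (onl P₁ F ∪ onl P₂ F)) ∪ F₂', e ∈ pe (P₁' ++ M ++ P₂')) ∧
    (F₁' ∪ (F \ (onl P₁ F ∪ onl P₂ F)) ∪ F₂').card + (onl P₁ F).card + (onl P₂ F).card =
      F₁'.card + F.card + F₂'.card := by
  have h₁' : P₁' ≠ [] := by
    rintro rfl
    exact h₁ (List.nil_perm.1 hp₁)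
  have h₂' : P₂' ≠ [] := by
    rintro rfl
    exact h₂ (List.nil_perm.1 hp₂)
  have hl' : P₁'.getLast h₁' = P₁.getLast h₁ := by
    rw [List.getLast?_eq_some_getLast h₁', List.getLast?_eq_some_getLast h₁] at hl
    exact Option.some_injective _ hl
  have hh' : P₂'.head h₂' = P₂.head h₂ := by
    rw [List.head?_eq_some_head h₂', List.head?_eq_some_head h₂] at hh
    exact Option.some_injective _ hh
  have hR : ∀ e ∈ F \ (onl P₁ F ∪ onl P₂ F),
      e ∈ pe (P₁.getLast h₁ :: M ++ [P₂.head h₂]) := by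
    intro e he
    rw [Finset.mem_sdiff, Finset.mem_union, onl, onl, Finset.mem_filter, Finset.mem_filter] at he
    rcases (pe_three P₁ M P₂ h₁ h₂ e).1 (hF e he.1) with h | h | h
    · exact absurd (Or.inl ⟨he.1, h⟩) he.2
    · exact absurd (Or.inr ⟨he.1, h⟩) he.2
    · exact h
  -- disjointness of the vertex sets
  have hnd' := hnd
  rw [List.nodup_append] at hnd'
  obtain ⟨hndA, -, hdA⟩ := hnd'
  rw [List.nodup_append] at hndA
  obtain ⟨-, -, hdB⟩ := hndA
  have d12 : ∀ v, v ∈ P₁ → v ∈ P₂ → False := fun v h1 h2 =>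
    hdA v (List.mem_append_left _ h1) v h2 rfl
  have d1M : ∀ v, v ∈ P₁ → v ∈ M → False := fun v h1 h2 => hdB v h1 v h2 rfl
  have d2M : ∀ v, v ∈ P₂ → v ∈ M → False := fun v h1 h2 =>
    hdA v (List.mem_append_right _ h2) v h1 rfl
  have hT : (P₁.getLast h₁ :: M ++ [P₂.head h₂]).Nodup := by
    refine List.Nodup.sublist ?_ hnd
    have s1 : [P₁.getLast h₁].Sublist P₁ := List.singleton_sublist.2 (List.getLast_mem h₁)
    have s2 : [P₂.head h₂].Sublist P₂ := List.singleton_sublist.2 (List.head_mem h₂)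
    exact (s1.append (List.Sublist.refl M)).append s2
  have hT1 : ∀ v, v ∈ P₁.getLast h₁ :: M ++ [P₂.head h₂] → v ∈ P₁ → v = P₁.getLast h₁ := by
    intro v hv hv1
    rw [List.cons_append, List.mem_cons, List.mem_append, List.mem_singleton] at hv
    rcases hv with h | h | h
    · exact h
    · exact (d1M v hv1 h).elim
    · exact (d12 v hv1 (h ▸ List.head_mem h₂)).elim
  have hT2 : ∀ v, v ∈ P₁.getLast h₁ :: M ++ [P₂.head h₂] → v ∈ P₂ → v = P₂.head h₂ := by
    intro v hv hv2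
    rw [List.cons_append, List.mem_cons, List.mem_append, List.mem_singleton] at hv
    rcases hv with h | h | h
    · exact (d12 v (h ▸ List.getLast_mem h₁) hv2).elim
    · exact (d2M v hv2 h).elim
    · exact h
  have e1 : ∀ e ∈ F₁', ∀ v ∈ e, v ∈ P₁ := fun e he v hv => hp₁.subset (Pe_mem _ _ (hF₁ e he) v hv)
  have e2 : ∀ e ∈ F₂', ∀ v ∈ e, v ∈ P₂ := fun e he v hv => hp₂.subset (Pe_mem _ _ (hF₂ e he) v hv)
  have o1 : ∀ e ∈ onl P₁ F, ∀ v ∈ e, v ∈ P₁ := by
    intro e he v hv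
    rw [onl, Finset.mem_filter] at he
    exact Pe_mem _ _ he.2 v hv
  have o2 : ∀ e ∈ onl P₂ F, ∀ v ∈ e, v ∈ P₂ := by
    intro e he v hv
    rw [onl, Finset.mem_filter] at he
    exact Pe_mem _ _ he.2 v hv
  have hex : ∀ e : Sym2 V, ∃ v, v ∈ e := by
    intro e
    induction e using Sym2.ind with
    | _ a b => exact ⟨a, Sym2.mem_mk_left a b⟩
  have D1 : Disjoint F₁' (F \ (onl P₁ F ∪ onl P₂ F)) := by
    rw [Finset.disjoint_left]
    intro e he he'
    obtain ⟨a, b, hab, ha, hb, rfl⟩ := pe_ne _ hT e (hR e he')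
    exact hab ((hT1 a ha (e1 _ he a (Sym2.mem_mk_left a b))).trans
      (hT1 b hb (e1 _ he b (Sym2.mem_mk_right a b))).symm)
  have D2 : Disjoint (F \ (onl P₁ F ∪ onl P₂ F)) F₂' := by
    rw [Finset.disjoint_left]
    intro e he' he
    obtain ⟨a, b, hab, ha, hb, rfl⟩ := pe_ne _ hT e (hR e he')
    exact hab ((hT2 a ha (e2 _ he a (Sym2.mem_mk_left a b))).trans
      (hT2 b hb (e2 _ he b (Sym2.mem_mk_right a b))).symm)
  have D3 : Disjoint F₁' F₂' := by
    rw [Finset.disjoint_left]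
    intro e he he'
    obtain ⟨v, hv⟩ := hex e
    exact d12 v (e1 e he v hv) (e2 e he' v hv)
  have D4 : Disjoint (onl P₁ F) (onl P₂ F) := by
    rw [Finset.disjoint_left]
    intro e he he'
    obtain ⟨v, hv⟩ := hex e
    exact d12 v (o1 e he v hv) (o2 e he' v hv)
  refine ⟨(hp₁.append (List.Perm.refl M)).append hp₂, ?_, ?_⟩
  · intro e he
    rw [pe_three P₁' M P₂' h₁' h₂' e, hl', hh']
    rw [Finset.mem_union, Finset.mem_union] at he
    rcases he with (h | h) | h
    · exact Or.inl (hF₁ e h)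
    · exact Or.inr (Or.inr (hR e h))
    · exact Or.inr (Or.inl (hF₂ e h))
  · rw [Finset.card_union_of_disjoint (Finset.disjoint_union_left.2 ⟨D3, D2⟩),
      Finset.card_union_of_disjoint D1]
    have hsub : onl P₁ F ∪ onl P₂ F ⊆ F :=
      Finset.union_subset (Finset.filter_subset _ _) (Finset.filter_subset _ _)
    have h1 := Finset.card_sdiff_add_card_eq_card hsub
    rw [Finset.card_union_of_disjoint D4] at h1
    omega

end Pool.Agent.W_cd7020_h81b
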