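import Pool.Agent.W_cd7020_h81b.RDefs

/-!
# The inner vertices of a block: simple facts
-/

set_option autoImplicit false

namespace Pool.Agent.W_cd7020_h81b

open Finset Pool.Agent.W_cd7020_h81

variable {V κ : Type*} [DecidableEq V] [DecidableEq κ] [Fintype V]

/-- The inner vertices of the block `C` whose neighbours in `C` are not in `X`. -/
def coreY (C : List V) (X : Finset V) : Finset V :=
  (inner C).toFinset.filter (fun y => ∀ e ∈ pe C, y ∈ e → ∀ x ∈ e, x ≠ y → x ∉ X)

theorem CoreA_inner (C : List V) (y : V) (hy : y ∈ inner C) :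
    ∃ k, ∃ h : k + 2 < C.length, C[k + 1] = y := by
  obtain ⟨k, hk, hky⟩ := List.getElem_of_mem hy
  have h1 : (inner C).length = C.length - 1 - 1 := by
    unfold inner
    rw [List.length_dropLast, List.length_tail]
  refine ⟨k, by omega, ?_⟩
  rw [← hky]
  unfold inner
  rw [List.getElem_dropLast, List.getElem_tail]

/-- Every element of `X` excludes at most two vertices (`pe_deg`), and the first and last vertices
are not inner. -/
theorem coreY_card (C : List V) (hC : C.Nodup) (X : Finset V) :
    C.length ≤ (coreY C X).card + 2 * X.card + 2 := by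
  have h1 : ((inner C).toFinset).card = C.length - 1 - 1 := by
    have h2 : (inner C).Nodup := (hC.sublist (List.tail_sublist C)).sublist
      (List.dropLast_sublist _)
    rw [List.toFinset_card_of_nodup h2]
    unfold inner
    rw [List.length_dropLast, List.length_tail]
  have h2 : (inner C).toFinset ⊆ coreY C X ∪ X.biUnion (fun x =>
      (inner C).toFinset.filter (fun y => y ≠ x ∧ s(x, y) ∈ pe C)) := by
    intro y hy
    rw [Finset.mem_union]
    by_cases hc : ∀ e ∈ pe C, y ∈ e → ∀ x ∈ e, x ≠ y → x ∉ X
    · left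
      exact Finset.mem_filter.2 ⟨hy, hc⟩
    · right
      push Not at hc
      obtain ⟨e, he, hye, x, hxe, hxy, hxX⟩ := hc
      rw [Finset.mem_biUnion]
      refine ⟨x, hxX, Finset.mem_filter.2 ⟨hy, hxy.symm, ?_⟩⟩
      rw [← (Sym2.mem_and_mem_iff hxy).1 ⟨hxe, hye⟩]
      exact he
  have h3 : (X.biUnion (fun x =>
      (inner C).toFinset.filter (fun y => y ≠ x ∧ s(x, y) ∈ pe C))).card ≤ X.card * 2 := by
    refine Finset.card_biUnion_le_card_mul _ _ 2 fun x _ => ?_
    refine le_trans ?_ (pe_deg C hC x)
    refine Finset.card_le_card_of_injOn (fun y => s(x, y)) ?_ ?_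
    · intro y hy
      have hy2 := (Finset.mem_filter.1 hy).2
      exact Finset.mem_filter.2 ⟨List.mem_toFinset.2 hy2.2, Sym2.mem_mk_left x y⟩
    · intro y _ y' _ h
      exact Sym2.congr_right.1 h
  have h4 := Finset.card_le_card h2
  have h5 := Finset.card_union_le (coreY C X) (X.biUnion (fun x =>
      (inner C).toFinset.filter (fun y => y ≠ x ∧ s(x, y) ∈ pe C)))
  omega

/-- An inner vertex `y` of the block `C` has the same neighbours in `pe (A ++ C ++ D)` (no
repetitions) as in `pe C`, so for `y ∈ coreY C X` they are not in `X`. -/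
theorem coreY_nbr (A C D : List V) (h : (A ++ C ++ D).Nodup) (X : Finset V) (y x : V)
    (hy : y ∈ coreY C X) (hx : s(x, y) ∈ pe (A ++ C ++ D)) : x ∉ X := by
  obtain ⟨hy1, hy2⟩ := Finset.mem_filter.1 hy
  obtain ⟨k, hk, hky⟩ := CoreA_inner C y (List.mem_toFinset.1 hy1)
  have hC : C.Nodup := (List.nodup_append.1 (List.nodup_append.1 h).1).2.1
  have hget : ∀ n, ∀ hn : n < C.length, ∀ hn' : A.length + n < (A ++ C ++ D).length,
      (A ++ C ++ D)[A.length + n] = C[n] := by
    intro n hn hn'
    rw [List.getElem_append_left (by rw [List.length_append]; omega),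
      List.getElem_append_right (by omega)]
    congr 1
    omega
  have hlen : A.length + C.length ≤ (A ++ C ++ D).length := by
    rw [List.length_append, List.length_append]
    omega
  obtain ⟨i, hi, hxi⟩ := (mem_pe_iff _ _).1 hx
  rcases Sym2.eq_iff.1 hxi with ⟨ha, hb⟩ | ⟨ha, hb⟩
  · have h1 : A.length + (k + 1) = i + 1 := by
      refine (h.getElem_inj_iff (hi := by omega) (hj := by omega)).1 ?_
      rw [hget (k + 1) (by omega) (by omega), hky, hb]
    have h2 : x = C[k] := by
      rw [ha, ← hget k (by omega) (by omega)]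
      congr 1
      omega
    refine hy2 s(x, y) ?_ (Sym2.mem_mk_right x y) x (Sym2.mem_mk_left x y) ?_
    · rw [mem_pe_iff]
      exact ⟨k, by omega, by rw [h2, hky]⟩
    · rw [h2, ← hky]
      intro h3
      have h4 := (hC.getElem_inj_iff).1 h3
      omega
  · have h1 : A.length + (k + 1) = i := by
      refine (h.getElem_inj_iff (hi := by omega) (hj := by omega)).1 ?_
      rw [hget (k + 1) (by omega) (by omega), hky, hb]
    have h2 : x = C[k + 2] := by
      rw [ha, ← hget (k + 2) (by omega) (by omega)]
      congr 1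
      omega
    refine hy2 s(x, y) ?_ (Sym2.mem_mk_right x y) x (Sym2.mem_mk_left x y) ?_
    · rw [mem_pe_iff]
      refine ⟨k + 1, by omega, ?_⟩
      rw [h2, hky]
      exact Sym2.eq_swap
    · rw [h2, ← hky]
      intro h3
      have h4 := (hC.getElem_inj_iff).1 h3
      omega

/-- The same for the reversed block. -/
theorem coreY_reverse (C : List V) (X : Finset V) : coreY C.reverse X = coreY C X := by
  have h1 : inner C.reverse = (inner C).reverse := by
    unfold inner
    rw [List.tail_reverse, List.dropLast_reverse, List.tail_dropLast]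
  unfold coreY
  rw [h1, List.toFinset_reverse]
  refine Finset.filter_congr fun y _ => ?_
  refine forall_congr' fun e => ?_
  rw [mem_pe_reverse]

theorem coreY_sub (C : List V) (X : Finset V) (y : V) (hy : y ∈ coreY C X) : y ∈ C := by
  obtain ⟨k, hk, hky⟩ := CoreA_inner C y (List.mem_toFinset.1 (Finset.mem_filter.1 hy).1)
  rw [← hky]
  exact List.getElem_mem _

end Pool.Agent.W_cd7020_h81b
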