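import Pool.Agent.W_cd7020_h81b.SelI

/-!
# The start and the end of an epoch
-/

set_option autoImplicit false

namespace Pool.Agent.W_cd7020_h81b

open Finset Pool.Agent.W_cd7020_h81

variable {V κ : Type*} [DecidableEq V] [DecidableEq κ] [Fintype V]

/-- The start of an epoch: `A i = ∅`, `C = M T`. `pot (SM R) ≤ n exp (lam a₁)` by `pot_le`
(`nr f ^ 2 = ∑ f ^ 2`), `pot 0 = n` (`pot_zero`, `SM ∅ = 0`), `cntB = 0`; `Phi ≤ 13`. -/
theorem mid_start (col : Sym2 V → κ) (Q : Finset κ) (P : Prm (Fintype.card V)) (V' U : Finset V)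
    (E : Finset (Sym2 V)) (R : Finset κ) (B : Fin 5 → Finset κ)
    (hS : State col Q V' P U E R B) : Mid col Q V' P U B 0 E R (fun _ => ∅) (P.M * P.T) := by
  have hn : (0 : ℝ) < Fintype.card V := by
    have := P.n3
    have h2 : (6 : ℝ) ≤ (Fintype.card V : ℝ) := by exact_mod_cast this
    linarith
  refine ⟨hS.cyc, hS.card, hS.rb, hS.cols, hS.Rsub, ?_, hS.RE, hS.RB, ?_, ?_, ?_, ?_, ?_, ?_, ?_⟩
  · rw [hS.Rcard]
    omega
  · intro i
    exact Finset.empty_subset _
  · intro i
    simp
  · intro i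
    exact Finset.disjoint_empty_left _
  · intro i
    exact Finset.disjoint_empty_left _
  · intro i j _
    exact Finset.disjoint_empty_left _
  · intro i
    have h1 : (univ : Finset (Fin 6)).biUnion (fun _ => (∅ : Finset κ)) = ∅ := by
      ext k
      simp
    rw [h1, Finset.union_empty]
    exact hS.count i
  · have hpR : pot (SM col R) P.lam / (Fintype.card V * Real.exp (P.lam * P.a₁)) ≤ 1 := by
      rw [div_le_one (by positivity)]
      refine pot_le _ (SM_herm col R) _ _ P.lam0.le (fun v => ?_)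
      have h1 := hS.Rnorm v v
      rwa [mul_assoc, ← pow_two, nr_sq] at h1
    have hSM0 : SM col (∅ : Finset κ) = 0 := by
      unfold SM
      simp
    have h2 : ∑ _i : Fin 6, pot (SM col (∅ : Finset κ)) P.lam / (Fintype.card V : ℝ) = 6 := by
      rw [hSM0, pot_zero, div_self hn.ne']
      simp
    have h3 : ∑ _i : Fin 6, (∑ x : V, Real.exp (P.lam * cntB col V' (∅ : Finset κ) x)) /
        (Fintype.card V : ℝ) = 6 := by
      have h4 : ∀ x : V, Real.exp (P.lam * cntB col V' (∅ : Finset κ) x) = 1 := by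
        intro x
        unfold cntB
        simp
      simp only [h4]
      have h5 : (∑ _x : V, (1 : ℝ)) / (Fintype.card V : ℝ) = 1 := by
        rw [Finset.sum_const, Finset.card_univ, nsmul_eq_mul, mul_one, div_self hn.ne']
      rw [h5]
      simp
    have hPhi : Phi col V' P R (fun _ => ∅) ≤ 13 := by
      unfold Phi
      rw [h2, h3]
      linarith
    have hC : ((P.M * P.T : ℕ) : ℝ) / (3 * P.M * P.T : ℝ) = 1 / 3 := by
      have hM : (P.M : ℝ) ≠ 0 := by
        have := P.M1
        positivity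
      have hT : (P.T : ℝ) ≠ 0 := by
        have := P.T1
        positivity
      push_cast
      field_simp
    rw [pow_zero, div_one, hC]
    simp only [Nat.cast_zero, zero_div, add_zero]
    linarith

theorem EpA_one_le {V κ : Type*} [DecidableEq V] [DecidableEq κ] [Fintype V]
    (col : Sym2 V → κ) (Q : Finset κ) (P : Prm (Fintype.card V)) (V' U : Finset V)
    (B : Fin 5 → Finset κ) (E : Finset (Sym2 V)) (R : Finset κ)
    (A : Fin 6 → Finset κ) (C : ℕ) (hM : Mid col Q V' P U B P.T E R A C) :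
    Phi col V' P R A ≤ 15 * (1 + P.δ) ^ P.T := by
  have hT : (0 : ℝ) < P.T := by
    have := P.T1
    positivity
  have hM0 : (0 : ℝ) < P.M := by
    have := P.M1
    positivity
  have hd : (0 : ℝ) < (1 + P.δ) ^ P.T := by
    have := P.δ0
    positivity
  have h1 := hM.phi
  rw [div_self hT.ne'] at h1
  have h2 : (0 : ℝ) ≤ C / (3 * P.M * P.T : ℝ) := by positivity
  have h3 : Phi col V' P R A / (1 + P.δ) ^ P.T ≤ 15 := by linarith
  rwa [div_le_iff₀ hd] at h3

theorem EpA_log {n : ℕ} (P : Prm n) :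
    Real.log (30 * n * (1 + P.δ) ^ P.T) / P.lam ≤ P.a₁ := by
  have hn : (0 : ℝ) < n := by
    have := P.n3
    have h2 : (6 : ℝ) ≤ (n : ℝ) := by exact_mod_cast this
    linarith
  have hd : (0 : ℝ) < 1 + P.δ := by
    have := P.δ0
    linarith
  unfold Prm.a₁
  refine div_le_div_of_nonneg_right ?_ P.lam0.le
  rw [Real.log_mul (by positivity) (by positivity), Real.log_pow]
  have h1 : Real.log (30 * n) ≤ Real.log (40 * n) :=
    Real.log_le_log (by positivity) (by linarith)
  have h2 : Real.log (1 + P.δ) ≤ P.δ := by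
    have := Real.log_le_sub_one_of_pos hd
    linarith
  have h3 : (P.T : ℝ) * Real.log (1 + P.δ) ≤ P.T * P.δ :=
    mul_le_mul_of_nonneg_left h2 (Nat.cast_nonneg _)
  linarith

/-- The new pools at the end are good: `pot (SM (A i)) ≤ 15 (1 + δ) ^ T n`, so `norm_of_pot` gives
`NB (A i) a₁`; `exp (lam cntB) ≤ 15 (1 + δ) ^ T n`, so `16 cntB ≤ 16 a₁ ≤ kB` (`hBd`). -/
theorem mid_pools (col : Sym2 V → κ) (Q : Finset κ) (P : Prm (Fintype.card V)) (V' U : Finset V)
    (B : Fin 5 → Finset κ) (E : Finset (Sym2 V)) (R : Finset κ)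
    (A : Fin 6 → Finset κ) (C : ℕ) (hM : Mid col Q V' P U B P.T E R A C) :
    NB col (A 0) P.a₁ ∧ BP col Q V' P.kB P.a₁ (fun i => A i.succ) := by
  have hn : (0 : ℝ) < Fintype.card V := by
    have := P.n3
    have h2 : (6 : ℝ) ≤ (Fintype.card V : ℝ) := by exact_mod_cast this
    linarith
  have hd : (0 : ℝ) < (1 + P.δ) ^ P.T := by
    have := P.δ0
    positivity
  have hPhi := EpA_one_le col Q P V' U B E R A C hM
  have e1 : (0 : ℝ) ≤ pot (SM col R) P.lam / (Fintype.card V * Real.exp (P.lam * P.a₁)) :=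
    div_nonneg (pot_pos _ _) (by positivity)
  have e2 : ∀ i ∈ (univ : Finset (Fin 6)), (0 : ℝ) ≤ pot (SM col (A i)) P.lam / Fintype.card V :=
    fun i _ => div_nonneg (pot_pos _ _) hn.le
  have e3 : ∀ i ∈ (univ : Finset (Fin 6)),
      (0 : ℝ) ≤ (∑ x, Real.exp (P.lam * cntB col V' (A i) x)) / Fintype.card V :=
    fun i _ => div_nonneg (Finset.sum_nonneg fun x _ => (Real.exp_pos _).le) hn.le
  have e4 := Finset.sum_nonneg e2
  have e5 := Finset.sum_nonneg e3
  have hlog := EpA_log P
  -- the norms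
  have hnb : ∀ i, NB col (A i) P.a₁ := by
    intro i f g
    have h1 : pot (SM col (A i)) P.lam / Fintype.card V ≤ 15 * (1 + P.δ) ^ P.T := by
      have h2 := Finset.single_le_sum e2 (Finset.mem_univ i)
      unfold Phi at hPhi
      linarith
    have h2 : pot (SM col (A i)) P.lam ≤ 15 * (1 + P.δ) ^ P.T * Fintype.card V := by
      rwa [div_le_iff₀ hn] at h1
    have h3 := norm_of_pot _ (SM_herm col (A i)) P.lam _ P.lam0 h2 f g
    have h4 : (2 * (15 * (1 + P.δ) ^ P.T * Fintype.card V) : ℝ) =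
        30 * (Fintype.card V : ℝ) * (1 + P.δ) ^ P.T := by ring
    rw [h4] at h3
    refine h3.trans ?_
    refine mul_le_mul_of_nonneg_right (mul_le_mul_of_nonneg_right hlog ?_) ?_
    · exact Real.sqrt_nonneg _
    · exact Real.sqrt_nonneg _
  refine ⟨hnb 0, ⟨fun i => hM.Asub _, fun i => ?_, fun i j hij => ?_, fun i => hnb _, ?_⟩⟩
  · rw [hM.Acard, IX_succ]
    rfl
  · exact hM.AA _ _ (fun h => hij (Fin.succ_injective _ h))
  · intro i x
    have h1 : (∑ x, Real.exp (P.lam * cntB col V' (A i.succ) x)) / Fintype.card V ≤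
        15 * (1 + P.δ) ^ P.T := by
      have h2 := Finset.single_le_sum e3 (Finset.mem_univ i.succ)
      unfold Phi at hPhi
      linarith
    rw [div_le_iff₀ hn] at h1
    have h2 : Real.exp (P.lam * cntB col V' (A i.succ) x) ≤
        30 * (Fintype.card V : ℝ) * (1 + P.δ) ^ P.T := by
      have h3 := Finset.single_le_sum (f := fun x => Real.exp (P.lam * cntB col V' (A i.succ) x))
        (fun x _ => (Real.exp_pos _).le) (Finset.mem_univ x)
      have h4 : (0 : ℝ) ≤ (1 + P.δ) ^ P.T * Fintype.card V := by positivity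
      nlinarith [h3, h1, h4]
    have h3 : P.lam * cntB col V' (A i.succ) x ≤
        Real.log (30 * (Fintype.card V : ℝ) * (1 + P.δ) ^ P.T) := by
      rw [Real.le_log_iff_exp_le (by positivity)]
      exact h2
    have h4 : (cntB col V' (A i.succ) x : ℝ) ≤ P.a₁ := by
      refine le_trans ?_ hlog
      rw [le_div_iff₀ P.lam0]
      linarith
    have h5 : (16 * cntB col V' (A i.succ) x : ℝ) ≤ (P.T * P.u : ℝ) := by
      have h6 := P.hBd
      have h7 : (16 * P.a₁ : ℝ) ≤ (P.T * P.u : ℝ) := h6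
      linarith
    have h6 : ((16 * cntB col V' (A i.succ) x : ℕ) : ℝ) ≤ ((P.T * P.u : ℕ) : ℝ) := by
      push_cast
      exact h5
    have h7 : 16 * cntB col V' (A i.succ) x ≤ P.T * P.u := by exact_mod_cast h6
    exact h7

end Pool.Agent.W_cd7020_h81b
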