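import Pool.Agent.W_cd7020_h81b.SelB

/-!
# The choice of an element of the sample space
-/

set_option autoImplicit false

namespace Pool.Agent.W_cd7020_h81b

open Finset Pool.Agent.W_cd7020_h81

variable {V κ : Type*} [DecidableEq V] [DecidableEq κ] [Fintype V]

theorem SelC_pos (col : Sym2 V → κ) (V' : Finset V) (P : Prm (Fintype.card V))
    (R : Finset κ) (A : Fin 6 → Finset κ) : 0 ≤ Phi col V' P R A := by
  unfold Phi
  refine add_nonneg (add_nonneg ?_ ?_) ?_
  · exact div_nonneg (pot_pos _ _) (by positivity)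
  · exact sum_nonneg (fun i _ => div_nonneg (pot_pos _ _) (by positivity))
  · exact sum_nonneg (fun i _ => div_nonneg (sum_nonneg (fun x _ => (Real.exp_pos _).le))
      (by positivity))

/-- The choice: the average over `al` of the left side is at most the right side. `|al| ≥ (1 - loss)
|Om|`, `1 / (1 - loss) ≤ 1 + 2 loss`, `hδ`; the average of `N + 1` is at most
`(M + 1) / (1 - loss) ≤ 3 M`. -/
theorem select (col : Sym2 V → κ) (Q : Finset κ) (P : Prm (Fintype.card V))
    (hQ : GoodQ col Q P.μ) (V' : Finset V) (hV' : V'.card ≤ P.v) (U : Finset V)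
    (hV'U : univ \ V' ⊆ U) (E : Finset (Sym2 V))
    (hEU : E.card = U.card) (hEr : Rb col E) (hEQ : cE col E ⊆ Q) (R : Finset κ)
    (hR1 : 1 ≤ R.card) (w : ℕ → κ) {Ω : Type*} (Om al : Finset Ω)
    (rel ub : Ω → ℕ → κ) (N : Ω → ℕ) (F : Ω → Finset (Sym2 V))
    (hG : Group col U E R w P.t P.m P.loss (P.M : ℝ) Om al rel ub N F) (A : Fin 6 → Finset κ)
    (hAE : ∀ i, Disjoint (A i) (cE col E)) (W : ℝ) (hW : 0 ≤ W) :
    ∃ o ∈ al, Phi col V' P (R \ (range P.m).image (ub o))
        (fun i => A i ∪ (P.IX i).image (rel o)) / (1 + P.δ) * W +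
        ((N o : ℝ) + 1) / (3 * P.M * P.T) ≤ Phi col V' P R A * W + 1 / P.T := by
  classical
  have havg := phi_avg col Q P hQ V' hV' U hV'U E hEU hEr hEQ R hR1 w (P.M : ℝ) Om al rel ub N F
    hG A hAE
  have hδ := P.hδ
  set FF : ℝ := 1 + 8 * (P.lam ^ 2 * (P.t + P.m + 1) ^ 2) + 2 * (P.lam * ((P.t + P.m + 1) *
        (2 * (2 * P.v + P.μ) / (Fintype.card V : ℝ) + 2 * P.loss))) with hFF
  have hloss := SelB_loss P
  have hloss4 := P.loss4
  have hδ0 := P.δ0
  have hlam := P.lam0.le
  have hOm : (0 : ℝ) < Om.card := by exact_mod_cast hG.ne.card_pos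
  have hdead := hG.dead
  have hal1 : (1 - P.loss) * Om.card ≤ al.card := by linarith
  have hal0 : (0 : ℝ) < al.card := by nlinarith
  have hOmal : (Om.card : ℝ) ≤ (1 + 2 * P.loss) * al.card := by
    have h1 : (1 + 2 * P.loss) * ((1 - P.loss) * Om.card) ≤ (1 + 2 * P.loss) * al.card :=
      mul_le_mul_of_nonneg_left hal1 (by linarith)
    have h2 : 0 ≤ P.loss * (1 - 2 * P.loss) * Om.card :=
      mul_nonneg (mul_nonneg hloss (by linarith)) hOm.le
    nlinarith
  have hOm43 : (Om.card : ℝ) ≤ 4 / 3 * al.card := by nlinarith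
  have hne : al.Nonempty := card_pos.1 (by exact_mod_cast hal0)
  have hFF0 : 0 ≤ FF := by rw [hFF]; positivity
  have hP0 := SelC_pos col V' P R A
  have hsumPhi : ∑ o ∈ al, Phi col V' P (R \ (range P.m).image (ub o))
        (fun i => A i ∪ (P.IX i).image (rel o)) ≤ Om.card * Phi col V' P R A * FF := by
    refine le_trans ?_ havg
    refine le_trans (le_of_eq ?_) (sum_le_sum_of_subset_of_nonneg hG.sub
      (fun o _ _ => SelC_pos _ _ _ _ _))
    refine sum_congr rfl (fun o ho => ?_)
    simp only [if_pos ho]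
  have hsum1 : ∑ o ∈ al, Phi col V' P (R \ (range P.m).image (ub o))
        (fun i => A i ∪ (P.IX i).image (rel o)) / (1 + P.δ) * W ≤
        al.card * (Phi col V' P R A * W) := by
    rw [← sum_mul, ← sum_div]
    have h1 : ∑ o ∈ al, Phi col V' P (R \ (range P.m).image (ub o))
        (fun i => A i ∪ (P.IX i).image (rel o)) ≤
        al.card * Phi col V' P R A * (1 + P.δ) := by
      refine hsumPhi.trans ?_
      calc Om.card * Phi col V' P R A * FF = Om.card * (Phi col V' P R A * FF) := by ring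
        _ ≤ ((1 + 2 * P.loss) * al.card) * (Phi col V' P R A * FF) :=
            mul_le_mul_of_nonneg_right hOmal (mul_nonneg hP0 hFF0)
        _ = (al.card * Phi col V' P R A) * ((1 + 2 * P.loss) * FF) := by ring
        _ ≤ (al.card * Phi col V' P R A) * (1 + P.δ) :=
            mul_le_mul_of_nonneg_left hδ (mul_nonneg hal0.le hP0)
    have h2 : (∑ o ∈ al, Phi col V' P (R \ (range P.m).image (ub o))
        (fun i => A i ∪ (P.IX i).image (rel o))) / (1 + P.δ) ≤
        al.card * Phi col V' P R A := by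
      rw [div_le_iff₀ (by linarith)]
      exact h1
    refine (mul_le_mul_of_nonneg_right h2 hW).trans (le_of_eq ?_)
    ring
  have hM1 : (1 : ℝ) ≤ P.M := by exact_mod_cast P.M1
  have hT1 : (1 : ℝ) ≤ P.T := by exact_mod_cast P.T1
  have hsum2 : ∑ o ∈ al, ((N o : ℝ) + 1) / (3 * P.M * P.T) ≤ al.card * (1 / P.T) := by
    rw [← sum_div, sum_add_distrib, sum_const, nsmul_eq_mul, mul_one, mul_one_div,
      div_le_div_iff₀ (by positivity) (by positivity)]
    have h1 : ∑ o ∈ al, (N o : ℝ) + al.card ≤ 3 * P.M * al.card := by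
      have h2 := hG.cost
      have h3 : (P.M : ℝ) * Om.card ≤ P.M * (4 / 3 * al.card) :=
        mul_le_mul_of_nonneg_left hOm43 (by linarith)
      nlinarith
    calc (∑ o ∈ al, (N o : ℝ) + al.card) * P.T ≤ (3 * P.M * al.card) * P.T :=
          mul_le_mul_of_nonneg_right h1 (by linarith)
      _ = al.card * (3 * P.M * P.T) := by ring
  by_contra hcon
  push Not at hcon
  have hlt := sum_lt_sum_of_nonempty hne hcon
  rw [sum_const, nsmul_eq_mul, sum_add_distrib, mul_add] at hlt
  linarith

end Pool.Agent.W_cd7020_h81b
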