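import Pool.Agent.W_cd7020_h81b.MidB
import Pool.Agent.W_cd7020_h81b.SelC
import Pool.Agent.W_cd7020_h81b.CloM

/-!
# One group of an epoch
-/

set_option autoImplicit false

namespace Pool.Agent.W_cd7020_h81b

open Finset Pool.Agent.W_cd7020_h81

variable {V κ : Type*} [DecidableEq V] [DecidableEq κ] [Fintype V]

theorem MidS_phi_nonneg (col : Sym2 V → κ) (V' : Finset V) (P : Prm (Fintype.card V))
    (R : Finset κ) (A : Fin 6 → Finset κ) : 0 ≤ Phi col V' P R A := by
  unfold Phi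
  have h1 : ∀ B : Matrix V V ℝ, 0 ≤ pot B P.lam := fun B => pot_pos B P.lam
  refine add_nonneg (add_nonneg ?_ ?_) ?_
  · exact div_nonneg (h1 _) (by positivity)
  · exact sum_nonneg fun i _ => div_nonneg (h1 _) (by positivity)
  · exact sum_nonneg fun i _ => div_nonneg (sum_nonneg fun x _ => (Real.exp_pos _).le)
      (by positivity)

theorem MidS_num (T M C g : ℕ) (Ph : ℝ) (hT : 1 ≤ T) (hM : 1 ≤ M) (hPh : 0 ≤ Ph) (hg : g ≤ T)
    (h : Ph + (C : ℝ) / (3 * M * T : ℝ) ≤ 14 + g / (T : ℝ)) : C ≤ 45 * M * T := by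
  have hT0 : (0 : ℝ) < T := by exact_mod_cast hT
  have hM0 : (0 : ℝ) < M := by exact_mod_cast hM
  have h1 : (g : ℝ) / (T : ℝ) ≤ 1 := by
    rw [div_le_one hT0]
    exact_mod_cast hg
  have h2 : (C : ℝ) / (3 * M * T : ℝ) ≤ 15 := by linarith
  rw [div_le_iff₀ (by positivity)] at h2
  have h3 : (C : ℝ) ≤ ((45 * M * T : ℕ) : ℝ) := by
    push_cast
    linarith
  exact_mod_cast h3

/-- One group. `waste`, `mid_group`, `select` with `W = 1 / (1 + δ) ^ g`; the new data are
`R' = R \ ub`, `A' i = A i ∪ rel (IX i)`, `C' = C + N + 1`, and `E'` from `close_many` for `F o`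
with `G = ⋃ A' i` and `q = N + 1` (`C' ≤ 45 M T` by the new inequality `phi` as in `mid_cost`).
Disjointness: `rel i ∈ cE E` are not colours of `F o` (`Group.cols`: the colours of `F o` are colours of
`E` different from all `rel i`, or `ub i ∈ R`, or `w i`), and new colours of `E'` are in `B i`, not
in `G`; `B i ∩ R = ∅`. Count: `B i ∩ (cE (F o) ∪ G) ⊆ B i ∩ (cE E ∪ ⋃ A i)` as `ub`, `w` are not in
`B i` and `rel ⊆ cE E`. -/
theorem mid_step (col : Sym2 V → κ) (Q : Finset κ) (P : Prm (Fintype.card V))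
    (hQ : GoodQ col Q P.μ) (V' : Finset V) (hV' : V'.card ≤ P.v) (U : Finset V)
    (hV'U : univ \ V' ⊆ U) (B : Fin 5 → Finset κ) (hB : BP col Q V' P.kB P.a₁ B) (g : ℕ)
    (hg : g < P.T) (E : Finset (Sym2 V)) (R : Finset κ) (A : Fin 6 → Finset κ) (C : ℕ)
    (hM : Mid col Q V' P U B g E R A C) (hK : U.card + P.K ≤ Q.card) :
    ∃ E' R' A' C', Mid col Q V' P U B (g + 1) E' R' A' C' := by
  classical
  obtain ⟨w, hwi, hw⟩ := waste col Q P V' U B hB g hg E R A C hM hK
  obtain ⟨Om, al, rel, ub, N, F, hG⟩ := mid_group col Q P hQ V' hV' U hV'U B g hg E R A C hM w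
    hwi (fun i => ⟨(hw i).1, (hw i).2.1, (hw i).2.2.1⟩)
  have hT1 : 1 ≤ P.T := P.T1
  have hM1 : 1 ≤ P.M := P.M1
  have hδ : (0 : ℝ) < 1 + P.δ := by linarith [P.δ0]
  have hR1 : 1 ≤ R.card := by
    have h1 := hM.Rcard
    have h2 : P.kA = P.T * P.r₀ := rfl
    have h3 : P.r₀ = P.t + P.m + 1 - 5 * P.u := rfl
    have h4 := P.tu
    have h5 : P.m + 1 ≤ P.r₀ := by omega
    have h6 : P.T * (P.m + 1) ≤ P.T * P.r₀ := Nat.mul_le_mul_left _ h5
    have h7 : g * P.m ≤ P.T * P.m := Nat.mul_le_mul_right _ hg.le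
    have h8 : P.T * (P.m + 1) = P.T * P.m + P.T := by ring
    omega
  obtain ⟨o, ho, hsel⟩ := select col Q P hQ V' hV' U hV'U E hM.card hM.rb hM.cols R hR1 w Om al
    rel ub N F hG A hM.AE (1 / (1 + P.δ) ^ g) (by positivity)
  -- the images
  have hIX : ∀ i, ∀ j ∈ P.IX i, j ≤ P.t + P.m := by
    intro i j hj
    have h1 := mem_range.1 (IX_sub P i hj)
    omega
  have hrelE : ∀ i, ∀ k ∈ (P.IX i).image (rel o), k ∈ cE col E := by
    intro i k hk
    obtain ⟨j, hj, rfl⟩ := mem_image.1 hk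
    obtain ⟨e, he, hek⟩ := hG.relmem o ho j (hIX i j hj)
    exact mem_image.2 ⟨e, he, hek⟩
  have hubR : ∀ k ∈ (range P.m).image (ub o), k ∈ R := by
    intro k hk
    obtain ⟨j, hj, rfl⟩ := mem_image.1 hk
    exact hG.ubmem o ho j (mem_range.1 hj)
  have hRE := hM.RE
  have hAR := hM.AR
  have hAE := hM.AE
  -- the colours of the new forest
  have hFcol : ∀ e ∈ F o, (col e ∈ cE col E ∧ ∀ i, col e ∉ (P.IX i).image (rel o)) ∨
      (col e ∈ (range P.m).image (ub o)) ∨ ∃ i, col e = w i := by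
    intro e he
    rcases hG.cols o ho e he with ⟨h1, h2⟩ | ⟨i, hi, h1⟩ | ⟨i, hi, h1⟩
    · left
      refine ⟨mem_image_of_mem _ h1, ?_⟩
      intro i hi
      obtain ⟨j, hj, hjj⟩ := mem_image.1 hi
      exact h2 j (hIX i j hj) hjj.symm
    · right; left
      exact mem_image.2 ⟨i, mem_range.2 hi, h1.symm⟩
    · right; right
      exact ⟨i, h1⟩
  have hdR : ∀ k, k ∈ R → k ∉ cE col E := fun k h1 h2 => (disjoint_left.1 hRE) h1 h2
  have hdA : ∀ i k, k ∈ A i → k ∉ cE col E := fun i k h1 h2 => (disjoint_left.1 (hAE i)) h1 h2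
  have hdAR : ∀ i k, k ∈ A i → k ∉ R := fun i k h1 h2 => (disjoint_left.1 (hAR i)) h1 h2
  have hdRB : ∀ i k, k ∈ R → k ∉ B i := fun i k h1 h2 => (disjoint_left.1 (hM.RB i)) h1 h2
  let A' : Fin 6 → Finset κ := fun i => A i ∪ (P.IX i).image (rel o)
  let G : Finset κ := univ.biUnion A'
  -- the new phi
  have hphi : Phi col V' P (R \ (range P.m).image (ub o)) A' / (1 + P.δ) ^ (g + 1) +
      ((C + N o + 1 : ℕ) : ℝ) / (3 * P.M * P.T : ℝ) ≤ 14 + ((g + 1 : ℕ) : ℝ) / (P.T : ℝ) := by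
    have h1 := hM.phi
    have h2 : Phi col V' P (R \ (range P.m).image (ub o)) A' / (1 + P.δ) ^ (g + 1) =
        Phi col V' P (R \ (range P.m).image (ub o)) A' / (1 + P.δ) * (1 / (1 + P.δ) ^ g) := by
      rw [pow_succ]
      field_simp
    have h3 : ((C + N o + 1 : ℕ) : ℝ) / (3 * P.M * P.T : ℝ) =
        (C : ℝ) / (3 * P.M * P.T : ℝ) + ((N o : ℝ) + 1) / (3 * P.M * P.T : ℝ) := by
      push_cast
      ring
    have h4 : ((g + 1 : ℕ) : ℝ) / (P.T : ℝ) = (g : ℝ) / (P.T : ℝ) + 1 / (P.T : ℝ) := by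
      push_cast
      ring
    have h5 : Phi col V' P R A * (1 / (1 + P.δ) ^ g) = Phi col V' P R A / (1 + P.δ) ^ g := by
      ring
    rw [h5] at hsel
    rw [h2, h3, h4]
    change Phi col V' P (R \ (range P.m).image (ub o)) A' / (1 + P.δ) * (1 / (1 + P.δ) ^ g) +
      ((N o : ℝ) + 1) / (3 * P.M * P.T) ≤ Phi col V' P R A / (1 + P.δ) ^ g + 1 / P.T at hsel
    linarith
  have hC' : C + N o + 1 ≤ 45 * P.M * P.T :=
    MidS_num P.T P.M (C + N o + 1) (g + 1) _ hT1 hM1
      (div_nonneg (MidS_phi_nonneg col V' P _ A') (by positivity)) (by omega) hphi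
  -- count
  have hcount : ∀ i, (B i ∩ (cE col (F o) ∪ G)).card ≤ C * P.J := by
    intro i
    refine le_trans (card_le_card ?_) (hM.count i)
    intro k hk
    rw [mem_inter, mem_union] at hk
    obtain ⟨hkB, hk⟩ := hk
    rw [mem_inter, mem_union]
    refine ⟨hkB, ?_⟩
    rcases hk with hk | hk
    · obtain ⟨e, he, rfl⟩ := mem_image.1 hk
      rcases hFcol e he with ⟨h1, h2⟩ | h1 | ⟨j, h1⟩
      · exact Or.inl h1
      · exact absurd hkB (hdRB i _ (hubR _ h1))
      · rw [h1] at hkB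
        exact absurd hkB ((hw j).2.2.2.1 i)
    · obtain ⟨j, _, hj⟩ := mem_biUnion.1 hk
      rcases mem_union.1 hj with hj | hj
      · exact Or.inr (mem_biUnion.2 ⟨j, mem_univ _, hj⟩)
      · exact Or.inl (hrelE j k hj)
  obtain ⟨E', hE1, hE2, hE3, hE4, hE5⟩ := close_many col hQ.proper Q P V' hV' U hV'U B hB G
    (N o + 1) C (F o) (hG.lf o ho).cyc (by have := hG.card o ho; omega) (hG.rb o ho) hcount
    (by omega)
  have hE'col : ∀ k ∈ cE col E', (k ∈ cE col (F o)) ∨ ∃ i, k ∈ B i ∧ k ∉ G := by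
    intro k hk
    obtain ⟨e, he, rfl⟩ := mem_image.1 hk
    rcases hE4 e he with h1 | ⟨i, h1, h2⟩
    · exact Or.inl (mem_image_of_mem _ h1)
    · exact Or.inr ⟨i, h1, h2⟩
  refine ⟨E', R \ (range P.m).image (ub o), A', C + N o + 1, ?_⟩
  refine ⟨hE1, hE2, hE3, ?_, ?_, ?_, ?_, ?_, ?_, ?_, ?_, ?_, ?_, ?_, hphi⟩
  · -- cols
    intro k hk
    rcases hE'col k hk with h1 | ⟨i, h1, _⟩
    · obtain ⟨e, he, rfl⟩ := mem_image.1 h1
      rcases hFcol e he with ⟨h1, h2⟩ | h1 | ⟨j, h1⟩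
      · exact hM.cols h1
      · exact hM.Rsub (hubR _ h1)
      · rw [h1]; exact (hw j).1
    · exact hB.sub i h1
  · exact sdiff_subset.trans hM.Rsub
  · -- Rcard
    have h1 : ((range P.m).image (ub o)).card = P.m := by
      rw [card_image_of_injOn, card_range]
      intro i hi j hj hij
      exact hG.ubinj o ho i (mem_range.1 hi) j (mem_range.1 hj) hij
    have h2 : (R \ (range P.m).image (ub o)).card + ((range P.m).image (ub o)).card = R.card :=
      card_sdiff_add_card_eq_card (fun k hk => hubR k hk)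
    have h3 := hM.Rcard
    have h4 : (g + 1) * P.m = g * P.m + P.m := by ring
    omega
  · -- RE
    rw [disjoint_left]
    intro k hk hk'
    obtain ⟨hkR, hkub⟩ := mem_sdiff.1 hk
    rcases hE'col k hk' with h1 | ⟨i, h1, _⟩
    · obtain ⟨e, he, rfl⟩ := mem_image.1 h1
      rcases hFcol e he with ⟨h1, h2⟩ | h1 | ⟨j, h1⟩
      · exact hdR _ hkR h1
      · exact hkub h1
      · rw [h1] at hkR
        exact (hw j).2.2.1 hkR
    · exact hdRB i k hkR h1
  · intro i
    exact disjoint_of_subset_left sdiff_subset (hM.RB i)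
  · -- Asub
    intro i
    exact union_subset (hM.Asub i) (fun k hk => hM.cols (hrelE i k hk))
  · -- Acard
    intro i
    have h1 : ((P.IX i).image (rel o)).card = (P.IX i).card := by
      apply card_image_of_injOn
      intro a ha b hb hab
      exact hG.relinj o ho a (hIX i a ha) b (hIX i b hb) hab
    have h2 : Disjoint (A i) ((P.IX i).image (rel o)) := by
      rw [disjoint_left]
      intro k h1 h2
      exact hdA i k h1 (hrelE i k h2)
    change (A i ∪ (P.IX i).image (rel o)).card = _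
    rw [card_union_of_disjoint h2, h1, hM.Acard i]
    ring
  · -- AE
    intro i
    rw [disjoint_left]
    intro k hk hk'
    rcases hE'col k hk' with h1 | ⟨j, _, h1⟩
    · obtain ⟨e, he, rfl⟩ := mem_image.1 h1
      rcases hFcol e he with ⟨h1, h2⟩ | h1 | ⟨j, h1⟩
      · rcases mem_union.1 hk with hk | hk
        · exact hdA i _ hk h1
        · exact h2 i hk
      · rcases mem_union.1 hk with hk | hk
        · exact hdAR i _ hk (hubR _ h1)
        · exact hdR _ (hubR _ h1) (hrelE i _ hk)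
      · rw [h1] at hk
        rcases mem_union.1 hk with hk | hk
        · exact (hw j).2.2.2.2 i hk
        · exact (hw j).2.1 (hrelE i _ hk)
    · exact h1 (mem_biUnion.2 ⟨i, mem_univ _, hk⟩)
  · -- AR
    intro i
    rw [disjoint_left]
    intro k hk hk'
    obtain ⟨hkR, hkub⟩ := mem_sdiff.1 hk'
    rcases mem_union.1 hk with hk | hk
    · exact hdAR i k hk hkR
    · exact hdR k hkR (hrelE i k hk)
  · -- AA
    intro i j hij
    rw [disjoint_left]
    intro k hk hk'
    rcases mem_union.1 hk with hk | hk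
    · rcases mem_union.1 hk' with hk' | hk'
      · exact (disjoint_left.1 (hM.AA i j hij)) hk hk'
      · exact hdA i k hk (hrelE j k hk')
    · rcases mem_union.1 hk' with hk' | hk'
      · exact hdA j k hk' (hrelE i k hk)
      · obtain ⟨a, ha, rfl⟩ := mem_image.1 hk
        obtain ⟨b, hb, hab⟩ := mem_image.1 hk'
        have h1 := hG.relinj o ho b (hIX j b hb) a (hIX i a ha) hab
        subst h1
        exact (disjoint_left.1 (IX_disj P i j hij)) ha hb
  · -- count
    intro i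
    have h1 := hE5 i
    have h2 : C + (N o + 1) = C + N o + 1 := by omega
    rw [h2] at h1
    exact h1

end Pool.Agent.W_cd7020_h81b
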