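import Pool.Agent.W_cd7020_h81b.EpA
import Pool.Agent.W_cd7020_h81b.MidS

/-!
# One epoch
-/

set_option autoImplicit false

namespace Pool.Agent.W_cd7020_h81b

open Finset Pool.Agent.W_cd7020_h81

variable {V κ : Type*} [DecidableEq V] [DecidableEq κ] [Fintype V]

/-- Iteration of `mid_step`. -/
theorem mid_all (col : Sym2 V → κ) (Q : Finset κ) (P : Prm (Fintype.card V))
    (hQ : GoodQ col Q P.μ) (V' : Finset V) (hV' : V'.card ≤ P.v) (U : Finset V)
    (E : Finset (Sym2 V)) (R : Finset κ) (B : Fin 5 → Finset κ)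
    (hS : State col Q V' P U E R B) (hK : U.card + P.K ≤ Q.card) (g : ℕ) (hg : g ≤ P.T) :
    ∃ E' R' A' C', Mid col Q V' P U B g E' R' A' C' := by
  induction g with
  | zero => exact ⟨E, R, fun _ => ∅, P.M * P.T, mid_start col Q P V' U E R B hS⟩
  | succ g ih =>
    obtain ⟨E', R', A', C', hM⟩ := ih (by omega)
    exact mid_step col Q P hQ V' hV' U hS.V'U B hS.bp g (by omega) E' R' A' C' hM hK

/-- The epoch. `mid_all` with `g = T`; remove an edge `e₀` of `E`, `E₁ = E.erase e₀` is a linear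
forest on `U` and on `insert v U`, `|E₁| + 2 = |insert v U|`; `close_many` on `insert v U` with
`G = ⋃ A i`, `q = 2`. The new state: `R = A 0`, `B i = A i.succ`. Its colours are not used by the new
cycle (`Mid.AE`, `col e ∉ G`). -/
theorem epoch (col : Sym2 V → κ) (Q : Finset κ) (P : Prm (Fintype.card V))
    (hQ : GoodQ col Q P.μ) (V' : Finset V) (hV' : V'.card ≤ P.v) (U : Finset V)
    (E : Finset (Sym2 V)) (R : Finset κ) (B : Fin 5 → Finset κ)
    (hS : State col Q V' P U E R B) (hK : U.card + P.K ≤ Q.card) (x : V) (hx : x ∉ U) :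
    ∃ E' R' B', State col Q V' P (insert x U) E' R' B' := by
  classical
  obtain ⟨E₀, R₀, A, C, hM⟩ := mid_all col Q P hQ V' hV' U E R B hS hK P.T le_rfl
  have hδ : (0 : ℝ) < 1 + P.δ := by linarith [P.δ0]
  have hC : C ≤ 45 * P.M * P.T :=
    MidS_num P.T P.M C P.T _ P.T1 P.M1
      (div_nonneg (MidS_phi_nonneg col V' P R₀ A) (by positivity)) le_rfl hM.phi
  have hU3 : 3 ≤ U.card := by
    have h1 : (univ \ V').card ≤ U.card := card_le_card hS.V'U
    have h2 : (univ \ V').card = Fintype.card V - V'.card := by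
      rw [card_sdiff_of_subset (subset_univ V'), card_univ]
    have h3 := P.vn
    have h4 := P.n3
    omega
  have hE₀ : E₀.Nonempty := by
    rw [← card_pos, hM.card]
    omega
  obtain ⟨e₀, he₀⟩ := hE₀
  have hc₁ : (E₀.erase e₀).card + 1 = U.card := by
    rw [card_erase_add_one he₀, hM.card]
  have hlf : LF (insert x U) (E₀.erase e₀) := by
    refine LF.insertV ?_ hx
    refine Cyc.lf ?_ (by omega) hU3
    obtain ⟨L, h1, h2, h3⟩ := hM.cyc
    exact ⟨L, h1, h2, fun e he => h3 e (mem_of_mem_erase he)⟩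
  have hsubE : cE col (E₀.erase e₀) ⊆ cE col E₀ := image_subset_image (erase_subset _ _)
  obtain ⟨E', hE1, hE2, hE3, hE4, hE5⟩ := close_many col hQ.proper Q P V' hV' (insert x U)
    (hS.V'U.trans (subset_insert _ _)) B hS.bp (univ.biUnion A) 2 C (E₀.erase e₀) hlf.cyc
    (by rw [card_insert_of_notMem hx]; omega)
    (fun e he e' he' h => hM.rb e (mem_of_mem_erase he) e' (mem_of_mem_erase he') h)
    (fun i => le_trans (card_le_card (inter_subset_inter_left
      (union_subset_union_left hsubE))) (hM.count i))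
    (by omega)
  have hE'col : ∀ k ∈ cE col E', k ∈ cE col E₀ ∨ ∃ i, k ∈ B i ∧ k ∉ univ.biUnion A := by
    intro k hk
    obtain ⟨e, he, rfl⟩ := mem_image.1 hk
    rcases hE4 e he with h1 | ⟨i, h1, h2⟩
    · exact Or.inl (hsubE (mem_image_of_mem _ h1))
    · exact Or.inr ⟨i, h1, h2⟩
  have hAE : ∀ i, Disjoint (A i) (cE col E') := by
    intro i
    rw [disjoint_left]
    intro k hk hk'
    rcases hE'col k hk' with h1 | ⟨j, _, h1⟩
    · exact (disjoint_left.1 (hM.AE i)) hk h1
    · exact h1 (mem_biUnion.2 ⟨i, mem_univ _, hk⟩)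
  obtain ⟨hN, hBP⟩ := mid_pools col Q P V' U B E₀ R₀ A C hM
  refine ⟨E', A 0, fun i => A i.succ, ?_⟩
  refine ⟨hS.V'U.trans (subset_insert _ _), hE1, hE2, hE3, ?_, hM.Asub 0, ?_, hN, hAE 0, hBP,
    ?_, ?_⟩
  · intro k hk
    rcases hE'col k hk with h1 | ⟨i, h1, _⟩
    · exact hM.cols h1
    · exact hS.bp.sub i h1
  · rw [hM.Acard 0]
    have h1 : P.IX 0 = range P.r₀ := by
      unfold Prm.IX
      rw [if_pos]
      rfl
    rw [h1, card_range]
    rfl
  · intro i
    exact hM.AA 0 i.succ (Fin.succ_ne_zero i).symm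
  · intro i
    have h1 : A i.succ ∩ cE col E' = ∅ := disjoint_iff_inter_eq_empty.1 (hAE i.succ)
    change (A i.succ ∩ cE col E').card ≤ _
    rw [h1, card_empty]
    exact Nat.zero_le _

end Pool.Agent.W_cd7020_h81b
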