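import Pool.Agent.W_cd7020_h81b.PotC

/-!
# The potential and the norm
-/

set_option autoImplicit false

namespace Pool.Agent.W_cd7020_h81b

open Finset

variable {V : Type*} [Fintype V] [DecidableEq V]

theorem PotD_eig (A : Matrix V V ℝ) (hA : A.IsHermitian) (i : V) :
    qf A (hA.eigenvectorBasis i).ofLp (hA.eigenvectorBasis i).ofLp = hA.eigenvalues i := by
  have h1 := hA.mulVec_eigenvectorBasis i
  have h2 : qf A (hA.eigenvectorBasis i).ofLp (hA.eigenvectorBasis i).ofLp =
      ∑ x, (hA.eigenvectorBasis i).ofLp x * (A.mulVec (hA.eigenvectorBasis i).ofLp) x := by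
    unfold qf
    refine Finset.sum_congr rfl fun x _ => ?_
    rw [Matrix.mulVec, dotProduct, Finset.mul_sum]
    exact Finset.sum_congr rfl fun y _ => by ring
  rw [h2, h1]
  have h3 := PotA_unit A hA i
  calc ∑ x, (hA.eigenvectorBasis i).ofLp x * (hA.eigenvalues i • (hA.eigenvectorBasis i).ofLp) x
      = hA.eigenvalues i * ∑ x, (hA.eigenvectorBasis i).ofLp x ^ 2 := by
        rw [Finset.mul_sum]
        refine Finset.sum_congr rfl fun x _ => ?_
        rw [Pi.smul_apply, smul_eq_mul]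
        ring
    _ = hA.eigenvalues i := by rw [h3, mul_one]

/-- All eigenvalues are `0` (`Matrix.IsHermitian.mulVec_eigenvectorBasis` with `A = 0`, or
`PotA_qf`), and `cosh 0 = 1`. -/
theorem pot_zero (lam : ℝ) : pot (0 : Matrix V V ℝ) lam = Fintype.card V := by
  have h : (0 : Matrix V V ℝ).IsHermitian := Matrix.isHermitian_zero
  unfold pot
  rw [dif_pos h]
  have h1 : ∀ i, h.eigenvalues i = 0 := by
    intro i
    rw [← PotD_eig 0 h i]
    unfold qf
    simp
  simp only [h1, mul_zero, Real.cosh_zero, Finset.sum_const, Finset.card_univ, nsmul_eq_mul, mul_one]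

theorem PotD_cosh (y : ℝ) : Real.cosh y ≤ Real.exp |y| ∧ Real.exp |y| / 2 ≤ Real.cosh y := by
  rw [← Real.cosh_abs y, Real.cosh_eq]
  have h1 : Real.exp (-|y|) ≤ Real.exp |y| := Real.exp_le_exp.2 (by have := abs_nonneg y; linarith)
  have h2 := Real.exp_pos (-|y|)
  constructor
  · linarith
  · linarith

/-- `|α i| = |qf A (a i) (a i)| ≤ a`, `cosh (lam α i) ≤ exp (lam a)`. -/
theorem pot_le (A : Matrix V V ℝ) (hA : A.IsHermitian) (lam a : ℝ) (hlam : 0 ≤ lam)
    (h : ∀ v : V → ℝ, |qf A v v| ≤ a * ∑ x, v x ^ 2) :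
    pot A lam ≤ Fintype.card V * Real.exp (lam * a) := by
  unfold pot
  rw [dif_pos hA]
  have h1 : ∀ i ∈ (Finset.univ : Finset V), Real.cosh (lam * hA.eigenvalues i) ≤ Real.exp (lam * a) := by
    intro i _
    have h2 := h (hA.eigenvectorBasis i).ofLp
    rw [PotD_eig A hA i, PotA_unit A hA i, mul_one] at h2
    refine (PotD_cosh _).1.trans (Real.exp_le_exp.2 ?_)
    rw [abs_mul, abs_of_nonneg hlam]
    exact mul_le_mul_of_nonneg_left h2 hlam
  refine (Finset.sum_le_sum h1).trans ?_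
  rw [Finset.sum_const, Finset.card_univ, nsmul_eq_mul]

/-- `exp (lam |α i|) / 2 ≤ cosh (lam α i) ≤ pot A lam ≤ P`, so `|α i| ≤ log (2 P) / lam`; then
`PotA_qf`, Cauchy-Schwarz and `PotA_parseval`. -/
theorem norm_of_pot (A : Matrix V V ℝ) (hA : A.IsHermitian) (lam P : ℝ) (hlam : 0 < lam)
    (hP : pot A lam ≤ P) (f g : V → ℝ) :
    |qf A f g| ≤ Real.log (2 * P) / lam * nr f * nr g := by
  have hpot : pot A lam = ∑ i, Real.cosh (lam * hA.eigenvalues i) := by
    unfold pot
    rw [dif_pos hA]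
  obtain ⟨F, hF⟩ : ∃ F : V → ℝ, ∀ i, F i = ∑ x, f x * (hA.eigenvectorBasis i).ofLp x := ⟨_, fun _ => rfl⟩
  obtain ⟨G, hG⟩ : ∃ G : V → ℝ, ∀ i, G i = ∑ x, g x * (hA.eigenvectorBasis i).ofLp x := ⟨_, fun _ => rfl⟩
  have hq := PotA_qf A hA f g
  have hFp := PotA_parseval A hA f
  have hGp := PotA_parseval A hA g
  simp only [← hF] at hq hFp
  simp only [← hG] at hq hGp
  have hα : ∀ i, |hA.eigenvalues i| ≤ Real.log (2 * P) / lam := by
    intro i
    have h1 : Real.cosh (lam * hA.eigenvalues i) ≤ P := by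
      refine le_trans ?_ hP
      rw [hpot]
      exact Finset.single_le_sum (f := fun i => Real.cosh (lam * hA.eigenvalues i))
        (fun j _ => (Real.cosh_pos _).le) (Finset.mem_univ i)
    have h2 := (PotD_cosh (lam * hA.eigenvalues i)).2
    rw [abs_mul, abs_of_pos hlam] at h2
    have h3 : Real.exp (lam * |hA.eigenvalues i|) ≤ 2 * P := by linarith
    have h4 : 0 < 2 * P := (Real.exp_pos _).trans_le h3
    rw [le_div_iff₀ hlam, mul_comm]
    exact (Real.le_log_iff_exp_le h4).2 h3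
  rcases isEmpty_or_nonempty V with hV | ⟨⟨i0⟩⟩
  · have e1 : qf A f g = 0 := by
      unfold qf
      simp
    have e2 : nr f = 0 := by
      unfold nr
      simp
    rw [e1, e2]
    simp
  · have hM : 0 ≤ Real.log (2 * P) / lam := (abs_nonneg _).trans (hα i0)
    rw [hq]
    calc |∑ i, hA.eigenvalues i * F i * G i|
        ≤ ∑ i, |hA.eigenvalues i * F i * G i| := Finset.abs_sum_le_sum_abs _ _
      _ ≤ ∑ i, Real.log (2 * P) / lam * (|F i| * |G i|) := by
          refine Finset.sum_le_sum fun i _ => ?_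
          rw [abs_mul, abs_mul, mul_assoc]
          exact mul_le_mul_of_nonneg_right (hα i) (by positivity)
      _ = Real.log (2 * P) / lam * ∑ i, |F i| * |G i| := by rw [Finset.mul_sum]
      _ ≤ Real.log (2 * P) / lam * (Real.sqrt (∑ i, |F i| ^ 2) * Real.sqrt (∑ i, |G i| ^ 2)) :=
          mul_le_mul_of_nonneg_left (Real.sum_mul_le_sqrt_mul_sqrt _ _ _) hM
      _ = Real.log (2 * P) / lam * nr f * nr g := by
          simp only [sq_abs]
          rw [hFp, hGp]
          unfold nr
          ring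

end Pool.Agent.W_cd7020_h81b
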