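import Pool.Agent.W_cd7020_h81b.GMain
import Pool.Agent.W_cd7020_h81b.PotD

/-!
# Parameters and states
-/

set_option autoImplicit false

namespace Pool.Agent.W_cd7020_h81b

open Finset Pool.Agent.W_cd7020_h81

/-- The parameters with all the inequalities which are used. `n` is the number of vertices,
`2 ^ J ≥ n`; `t`: number of waste colours in a group; `m`: number of pool colours used by a group;
`u`: number of released colours per group for each of the five closing pools; `T`: number of groups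
in an epoch; `μ`: bound for missing vertices and colours; `v = |V'|`; `M`: average number of missing
edges after a group. -/
structure Prm (n : ℕ) where
  J : ℕ
  t : ℕ
  m : ℕ
  u : ℕ
  T : ℕ
  D₁ : ℕ
  D₂ : ℕ
  s : ℕ
  s₁ : ℕ
  μ : ℕ
  v : ℕ
  M : ℕ
  lam : ℝ
  δ : ℝ
  loss : ℝ
  eS : ℝ
  eS₁ : ℝ
  n3 : 6 ≤ n
  J1 : 1 ≤ J
  Jn : n ≤ 2 ^ J
  JJ : 10 ^ 6 * J ^ 2 ≤ n
  tm : t ≤ m
  t1 : 1 ≤ t
  tu : 5 * u ≤ t
  u1 : 1 ≤ u
  T1 : 1 ≤ T
  M1 : 1 ≤ M
  D₂1 : 1 ≤ D₂
  s1 : 1 ≤ s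
  s₁1 : 1 ≤ s₁
  D₁s : D₁ ≤ s₁
  D₁n : 2 * (D₁ + 2) < n
  Ds : 2 * (t + m + 1) * s ≤ D₁
  vn : 2 * v ≤ n
  lam0 : 0 < lam
  δ0 : 0 ≤ δ
  /-- steps are small compared with `1 / lam` -/
  lamx : lam * (2 * (t + m + 1)) ≤ 1
  loss4 : loss ≤ 1 / 4
  hloss : 2 * (t + m) * (μ + v) / (n : ℝ) + 2 * (t + m + 1) ^ 2 / (T * (t + 1 - 5 * u) : ℝ) ≤
    loss
  hδ : (1 + 2 * loss) * (1 + 8 * (lam ^ 2 * (t + m + 1) ^ 2) +
    2 * (lam * ((t + m + 1) * (2 * (2 * v + μ) / (n : ℝ) + 2 * loss)))) ≤ 1 + δ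
  heS : (2 * ((Real.log (40 * n) + T * δ) / lam) + 1) / (T * (t + 1 - 5 * u) : ℝ) *
    Real.sqrt (2 * (n / s + 1)) ≤ eS
  heS₁ : (2 * ((Real.log (40 * n) + T * δ) / lam) + 1) / (T * (t + 1 - 5 * u) : ℝ) *
    Real.sqrt (2 * (n / s₁ + 1)) ≤ eS₁
  hM : (n : ℝ) / D₂ + m * (((D₂ + (t + m + 2) * s : ℕ) : ℝ) / n + eS) +
    t * (((12 * (t + 1) * s₁ : ℕ) : ℝ) / n + eS₁) +
    t * ((1 - D₁ / (2 * n)) ^ (m - t) + eS * (2 * n / D₁)) ≤ M
  /-- the closing pools are large enough -/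
  hB4 : 4 * ((45 * M * T + 3) * J) ≤ T * u
  hBJ : 2 * 10 ^ 4 * J ^ 2 ≤ T * u
  hBa : 2 * 10 ^ 4 * J * ((Real.log (40 * n) + T * δ) / lam +
    2 * ((45 * M * T + 3) * J) + 1) ≤ (T * u : ℝ)
  hBd : 16 * ((Real.log (40 * n) + T * δ) / lam) ≤ (T * u : ℝ)
  hAn : T * (t + m + 1) ≤ n

namespace Prm

variable {n : ℕ} (P : Prm n)

/-- The number of released colours per group for the next pool `R`. -/
def r₀ : ℕ := P.t + P.m + 1 - 5 * P.u

/-- The size of the pool `R`. -/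
def kA : ℕ := P.T * P.r₀

/-- The size of the closing pools. -/
def kB : ℕ := P.T * P.u

/-- The norm bound for new pools. -/
noncomputable def a₁ : ℝ := (Real.log (40 * n) + P.T * P.δ) / P.lam

/-- The number of unused colours which are necessary for an epoch. -/
def K : ℕ := P.kA + 5 * P.kB + P.T * (P.t + P.m + 1) + P.t

/-- The indices of the released colours for the new pool number `i`. -/
def IX (i : Fin 6) : Finset ℕ :=
  if (i : ℕ) = 0 then range P.r₀
  else Ico (P.r₀ + ((i : ℕ) - 1) * P.u) (P.r₀ + (i : ℕ) * P.u)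

end Prm

section

variable {V κ : Type*} [DecidableEq V] [DecidableEq κ] [Fintype V]

/-- The number of colours of `A` which are bad at `x`. -/
noncomputable def cntB (col : Sym2 V → κ) (V' : Finset V) (A : Finset κ) (x : V) : ℕ :=
  (A.filter (fun k => par col k x = x ∨ par col k x ∈ V')).card

/-- `Q` is a set of almost perfect colours. -/
structure GoodQ (col : Sym2 V → κ) (Q : Finset κ) (μ : ℕ) : Prop where
  proper : Proper col
  missc : ∀ k ∈ Q, (univ.filter (fun x => par col k x = x)).card ≤ μ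
  missv : ∀ x, (Q.filter (fun k => par col k x = x)).card ≤ μ
  large : Fintype.card V ≤ Q.card + 1

/-- Five closing pools. -/
structure BP (col : Sym2 V → κ) (Q : Finset κ) (V' : Finset V) (k : ℕ) (a : ℝ)
    (B : Fin 5 → Finset κ) : Prop where
  sub : ∀ i, B i ⊆ Q
  card : ∀ i, (B i).card = k
  disj : ∀ i j, i ≠ j → Disjoint (B i) (B j)
  norm : ∀ i, NB col (B i) a
  deg : ∀ i x, 16 * cntB col V' (B i) x ≤ k

/-- The colours of `E`. -/
def cE (col : Sym2 V → κ) (E : Finset (Sym2 V)) : Finset κ := E.image col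

/-- A good state between two epochs. -/
structure State (col : Sym2 V → κ) (Q : Finset κ) (V' : Finset V)
    (P : Prm (Fintype.card V)) (U : Finset V) (E : Finset (Sym2 V)) (R : Finset κ)
    (B : Fin 5 → Finset κ) : Prop where
  V'U : univ \ V' ⊆ U
  cyc : Cyc U E
  card : E.card = U.card
  rb : Rb col E
  cols : cE col E ⊆ Q
  Rsub : R ⊆ Q
  Rcard : R.card = P.kA
  Rnorm : NB col R P.a₁
  RE : Disjoint R (cE col E)
  bp : BP col Q V' P.kB P.a₁ B
  RB : ∀ i, Disjoint R (B i)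
  count : ∀ i, (B i ∩ cE col E).card ≤ P.M * P.T * P.J

/-- The potential. -/
noncomputable def Phi (col : Sym2 V → κ) (V' : Finset V) (P : Prm (Fintype.card V))
    (R : Finset κ) (A : Fin 6 → Finset κ) : ℝ :=
  pot (SM col R) P.lam / (Fintype.card V * Real.exp (P.lam * P.a₁)) +
    ∑ i, pot (SM col (A i)) P.lam / Fintype.card V +
    ∑ i, (∑ x, Real.exp (P.lam * cntB col V' (A i) x)) / Fintype.card V

/-- The state after `g` groups of an epoch with the closing pools `B`; `A` are the new pools, `C` is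
the number of edges closed so far. -/
structure Mid (col : Sym2 V → κ) (Q : Finset κ) (V' : Finset V)
    (P : Prm (Fintype.card V)) (U : Finset V) (B : Fin 5 → Finset κ) (g : ℕ)
    (E : Finset (Sym2 V)) (R : Finset κ) (A : Fin 6 → Finset κ) (C : ℕ) : Prop where
  cyc : Cyc U E
  card : E.card = U.card
  rb : Rb col E
  cols : cE col E ⊆ Q
  Rsub : R ⊆ Q
  Rcard : R.card + g * P.m = P.kA
  RE : Disjoint R (cE col E)
  RB : ∀ i, Disjoint R (B i)
  Asub : ∀ i, A i ⊆ Q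
  Acard : ∀ i, (A i).card = g * (P.IX i).card
  AE : ∀ i, Disjoint (A i) (cE col E)
  AR : ∀ i, Disjoint (A i) R
  AA : ∀ i j, i ≠ j → Disjoint (A i) (A j)
  count : ∀ i, (B i ∩ (cE col E ∪ univ.biUnion A)).card ≤ C * P.J
  phi : Phi col V' P R A / (1 + P.δ) ^ g + C / (3 * P.M * P.T : ℝ) ≤ 14 + g / (P.T : ℝ)

end

end Pool.Agent.W_cd7020_h81b
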