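import Pool.Agent.W_cd7020_h81b.NumA
import Pool.Agent.W_cd7020_h81b.FDefs

/-!
# The choice of the parameters
-/

set_option autoImplicit false

namespace Pool.Agent.W_cd7020_h81b

open Finset

theorem NumB_nat (L : ℕ) (hL : 4000 ≤ L) (c a b : ℕ) (hab : a ≤ b) (hc : c ≤ 4000 ^ (b - a)) :
    c * L ^ a ≤ L ^ b := by
  obtain ⟨k, rfl⟩ := Nat.exists_eq_add_of_le hab
  have h1 : a + k - a = k := by omega
  rw [h1] at hc
  calc c * L ^ a ≤ L ^ k * L ^ a := by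
        apply Nat.mul_le_mul_right
        exact hc.trans (Nat.pow_le_pow_left hL k)
    _ = L ^ (a + k) := by rw [pow_add, mul_comm]

theorem NumB_real (x : ℝ) (hx : 4000 ≤ x) (c : ℝ) (a b : ℕ) (hab : a ≤ b)
    (hc : c ≤ 4000 ^ (b - a)) : c * x ^ a ≤ x ^ b := by
  obtain ⟨k, rfl⟩ := Nat.exists_eq_add_of_le hab
  have h1 : a + k - a = k := by omega
  rw [h1] at hc
  calc c * x ^ a ≤ x ^ k * x ^ a := by
        apply mul_le_mul_of_nonneg_right
        · exact hc.trans (pow_le_pow_left₀ (by norm_num) hx k)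
        · have : 0 ≤ x := by linarith
          positivity
    _ = x ^ (a + k) := by rw [pow_add, mul_comm]

theorem NumB_div (n L k : ℕ) (hL : 0 < L) (hk : L ^ k ≤ n) :
    n ≤ 2 * L ^ k * (n / L ^ k) ∧ 1 ≤ n / L ^ k := by
  have hp : 0 < L ^ k := Nat.pow_pos hL
  have h1 : 1 ≤ n / L ^ k := (Nat.one_le_div_iff hp).2 hk
  refine ⟨?_, h1⟩
  have h2 : n < (n / L ^ k + 1) * L ^ k := by
    have := Nat.lt_div_mul_add (a := n) hp
    calc n < n / L ^ k * L ^ k + L ^ k := this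
      _ = (n / L ^ k + 1) * L ^ k := by ring
  have h3 : L ^ k ≤ (n / L ^ k) * L ^ k := Nat.le_mul_of_pos_left _ h1
  nlinarith

/-- The waste bound. -/
theorem NumB_loss (x N t m μ v : ℝ) (hx : 4000 ≤ x) (hN : 0 < N) (ht : t = 10 * x ^ 17)
    (hm : m = 10 * x ^ 17 + x ^ 24) (hμ : μ ≤ N / x ^ 177) (hv : v ≤ N / x ^ 176) :
    2 * (t + m) * (μ + v) / N + 2 * (t + m + 1) ^ 2 / (x ^ 182 * (t + 1 - 5 * x ^ 17)) ≤
      1 / x ^ 150 := by
  have h0 : 0 < x := by linarith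
  have hA : t + m + 1 ≤ 2 * x ^ 24 := by
    have h1 := NumB_real x hx 21 17 24 (by norm_num) (by norm_num)
    have h2 : 1 ≤ x ^ 17 := one_le_pow₀ (by linarith)
    rw [ht, hm]
    linarith
  have htm0 : 0 ≤ t + m := by rw [ht, hm]; positivity
  have hμv : μ + v ≤ 2 * (N / x ^ 176) := by
    have h1 : N / x ^ 177 ≤ N / x ^ 176 := by
      apply div_le_div_of_nonneg_left hN.le (by positivity)
      apply pow_le_pow_right₀ (by linarith) (by norm_num)
    linarith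
  have e1 : 2 * (t + m) * (μ + v) / N ≤ 1 / 2 * (1 / x ^ 150) := by
    calc 2 * (t + m) * (μ + v) / N ≤ 2 * (2 * x ^ 24) * (2 * (N / x ^ 176)) / N := by
          apply div_le_div_of_nonneg_right _ hN.le
          have h1 : 2 * (t + m) * (μ + v) ≤ 2 * (t + m) * (2 * (N / x ^ 176)) :=
            mul_le_mul_of_nonneg_left hμv (by linarith)
          refine h1.trans ?_
          apply mul_le_mul_of_nonneg_right _ (by positivity)
          linarith
      _ = 8 * x ^ 24 / x ^ 176 := by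
          field_simp
          ring
      _ ≤ 1 / 2 * (1 / x ^ 150) := by
          rw [div_mul_div_comm, div_le_div_iff₀ (by positivity) (by positivity)]
          have := NumB_real x hx 16 174 176 (by norm_num) (by norm_num)
          calc 8 * x ^ 24 * (2 * x ^ 150) = 16 * x ^ 174 := by ring
            _ ≤ x ^ 176 := this
            _ = 1 * 1 * x ^ 176 := by ring
  have e2 : 2 * (t + m + 1) ^ 2 / (x ^ 182 * (t + 1 - 5 * x ^ 17)) ≤ 1 / 2 * (1 / x ^ 150) := by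
    have hd : 5 * x ^ 17 ≤ t + 1 - 5 * x ^ 17 := by rw [ht]; linarith
    calc 2 * (t + m + 1) ^ 2 / (x ^ 182 * (t + 1 - 5 * x ^ 17))
        ≤ 2 * (2 * x ^ 24) ^ 2 / (x ^ 182 * (5 * x ^ 17)) := by
          apply div_le_div₀ (by positivity) _ (by positivity) _
          · apply mul_le_mul_of_nonneg_left _ (by norm_num)
            apply pow_le_pow_left₀ (by linarith) hA
          · apply mul_le_mul_of_nonneg_left hd (by positivity)
      _ ≤ 1 / 2 * (1 / x ^ 150) := by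
          rw [div_mul_div_comm, div_le_div_iff₀ (by positivity) (by positivity)]
          have := NumB_real x hx 16 198 199 (by norm_num) (by norm_num)
          have h5 : 0 ≤ x ^ 199 := by positivity
          calc 2 * (2 * x ^ 24) ^ 2 * (2 * x ^ 150) = 16 * x ^ 198 := by ring
            _ ≤ x ^ 199 := this
            _ ≤ 5 * x ^ 199 := by linarith
            _ = 1 * 1 * (x ^ 182 * (5 * x ^ 17)) := by ring
  linarith

/-- The growth of the potential. -/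
theorem NumB_delta (x N t m μ v : ℝ) (hx : 4000 ≤ x) (hN : 0 < N) (ht : t = 10 * x ^ 17)
    (hm : m = 10 * x ^ 17 + x ^ 24) (hμ : μ ≤ N / x ^ 177) (hv : v ≤ N / x ^ 176)
    (hμ0 : 0 ≤ μ) (hv0 : 0 ≤ v) :
    (1 + 2 * (1 / x ^ 150)) * (1 + 8 * ((1 / x ^ 100) ^ 2 * (t + m + 1) ^ 2) +
      2 * ((1 / x ^ 100) * ((t + m + 1) * (2 * (2 * v + μ) / N + 2 * (1 / x ^ 150))))) ≤
      1 + 4 / x ^ 150 := by
  have h0 : 0 < x := by linarith
  have hA : t + m + 1 ≤ 2 * x ^ 24 := by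
    have h1 := NumB_real x hx 21 17 24 (by norm_num) (by norm_num)
    have h2 : 1 ≤ x ^ 17 := one_le_pow₀ (by linarith)
    rw [ht, hm]
    linarith
  have hA0 : 0 ≤ t + m + 1 := by rw [ht, hm]; positivity
  obtain ⟨ε, hε⟩ : ∃ ε, ε = 1 / x ^ 150 := ⟨_, rfl⟩
  have hε0 : 0 < ε := by rw [hε]; positivity
  have hε1 : ε ≤ 1 := by
    rw [hε, div_le_one (by positivity)]
    exact one_le_pow₀ (by linarith)
  have hlA : (1 / x ^ 100) * (t + m + 1) ≤ 2 / x ^ 76 := by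
    calc (1 / x ^ 100) * (t + m + 1) ≤ (1 / x ^ 100) * (2 * x ^ 24) :=
          mul_le_mul_of_nonneg_left hA (by positivity)
      _ = 2 / x ^ 76 := by
          field_simp
  have hlA0 : 0 ≤ (1 / x ^ 100) * (t + m + 1) := by positivity
  have e1 : (1 / x ^ 100) ^ 2 * (t + m + 1) ^ 2 ≤ ε / 100 := by
    calc (1 / x ^ 100) ^ 2 * (t + m + 1) ^ 2 = ((1 / x ^ 100) * (t + m + 1)) ^ 2 := by ring
      _ ≤ (2 / x ^ 76) ^ 2 := pow_le_pow_left₀ hlA0 hlA 2
      _ = 4 / x ^ 152 := by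
          rw [div_pow, ← pow_mul]
          norm_num
      _ ≤ ε / 100 := by
          rw [hε, div_div, div_le_div_iff₀ (by positivity) (by positivity)]
          have := NumB_real x hx 400 150 152 (by norm_num) (by norm_num)
          linarith
  have e2 : 2 * (2 * v + μ) / N + 2 * (1 / x ^ 150) ≤ 3 * ε := by
    have h1 : N / x ^ 177 ≤ N / x ^ 176 := by
      apply div_le_div_of_nonneg_left hN.le (by positivity)
      apply pow_le_pow_right₀ (by linarith) (by norm_num)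
    have h2 : 2 * (2 * v + μ) / N ≤ 6 / x ^ 176 := by
      rw [div_le_iff₀ hN]
      calc 2 * (2 * v + μ) ≤ 6 * (N / x ^ 176) := by linarith
        _ = 6 / x ^ 176 * N := by ring
    have h3 : 6 / x ^ 176 ≤ ε := by
      rw [hε, div_le_div_iff₀ (by positivity) (by positivity)]
      have := NumB_real x hx 6 150 176 (by norm_num) (by norm_num)
      linarith
    rw [← hε]
    linarith
  have e20 : 0 ≤ 2 * (2 * v + μ) / N + 2 * (1 / x ^ 150) := by positivity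
  have e3 : (1 / x ^ 100) * ((t + m + 1) * (2 * (2 * v + μ) / N + 2 * (1 / x ^ 150))) ≤
      ε / 100 := by
    rw [← mul_assoc]
    calc (1 / x ^ 100) * (t + m + 1) * (2 * (2 * v + μ) / N + 2 * (1 / x ^ 150))
        ≤ 2 / x ^ 76 * (3 * ε) := mul_le_mul hlA e2 e20 (by positivity)
      _ = 6 / x ^ 76 * ε := by ring
      _ ≤ 1 / 100 * ε := by
          apply mul_le_mul_of_nonneg_right _ hε0.le
          rw [div_le_div_iff₀ (by positivity) (by positivity)]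
          have := NumB_real x hx 600 0 76 (by norm_num) (by norm_num)
          simp only [pow_zero, mul_one] at this
          linarith
      _ = ε / 100 := by ring
  have e4 : 4 / x ^ 150 = 4 * ε := by rw [hε]; ring
  rw [e4, ← hε]
  rw [← hε] at e3
  calc (1 + 2 * ε) * (1 + 8 * ((1 / x ^ 100) ^ 2 * (t + m + 1) ^ 2) +
      2 * ((1 / x ^ 100) * ((t + m + 1) * (2 * (2 * v + μ) / N + 2 * ε))))
      ≤ (1 + 2 * ε) * (1 + 8 * (ε / 100) + 2 * (ε / 100)) := by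
        apply mul_le_mul_of_nonneg_left _ (by linarith)
        linarith
    _ ≤ 1 + 4 * ε := by nlinarith

/-- The logarithm. -/
theorem NumB_log (n L : ℕ) (hL : 4000 ≤ L) (h1 : 1 ≤ n) (hn : n ≤ 2 ^ L) :
    Real.log (40 * n) ≤ L ∧ 0 ≤ Real.log (40 * n) := by
  have hn1 : (1 : ℝ) ≤ n := by exact_mod_cast h1
  have hLr : (4000 : ℝ) ≤ L := by exact_mod_cast hL
  constructor
  · have h2 : (40 : ℝ) * n ≤ 2 ^ (L + 6) := by
      have h3 : (n : ℝ) ≤ 2 ^ L := by exact_mod_cast hn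
      rw [pow_add]
      nlinarith
    calc Real.log (40 * n) ≤ Real.log (2 ^ (L + 6)) := Real.log_le_log (by positivity) h2
      _ = (L + 6) * Real.log 2 := by
          rw [Real.log_pow]
          push_cast
          ring
      _ ≤ (L + 6) * 0.7 := by
          apply mul_le_mul_of_nonneg_left _ (by positivity)
          have := Real.log_two_lt_d9
          linarith
      _ ≤ L := by linarith
  · apply Real.log_nonneg
    linarith

/-- The expansion errors. -/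
theorem NumB_eS (x N s W t : ℝ) (hx : 4000 ≤ x) (ht : t = 10 * x ^ 17) (hW0 : 0 ≤ W)
    (hW : W ≤ 5 * x ^ 32) (hs : N / s ≤ 2 * x ^ 49) :
    (2 * (W / (1 / x ^ 100)) + 1) / (x ^ 182 * (t + 1 - 5 * x ^ 17)) *
      Real.sqrt (2 * (N / s + 1)) ≤ 1 / x ^ 41 := by
  have h0 : 0 < x := by linarith
  have h1 : W / (1 / x ^ 100) ≤ 5 * x ^ 132 := by
    rw [div_div_eq_mul_div, div_one]
    calc W * x ^ 100 ≤ 5 * x ^ 32 * x ^ 100 := mul_le_mul_of_nonneg_right hW (by positivity)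
      _ = 5 * x ^ 132 := by ring
  have h10 : 0 ≤ W / (1 / x ^ 100) := by positivity
  have h2 : 2 * (W / (1 / x ^ 100)) + 1 ≤ 11 * x ^ 132 := by
    have : 1 ≤ x ^ 132 := one_le_pow₀ (by linarith)
    linarith
  have h3 : Real.sqrt (2 * (N / s + 1)) ≤ x ^ 25 := by
    rw [Real.sqrt_le_left (by positivity)]
    have h4 := NumB_real x hx 6 49 50 (by norm_num) (by norm_num)
    have h5 : 1 ≤ x ^ 49 := one_le_pow₀ (by linarith)
    calc 2 * (N / s + 1) ≤ 6 * x ^ 49 := by linarith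
      _ ≤ x ^ 50 := h4
      _ = (x ^ 25) ^ 2 := by ring
  have hd : 5 * x ^ 17 ≤ t + 1 - 5 * x ^ 17 := by rw [ht]; linarith
  have h6 : (2 * (W / (1 / x ^ 100)) + 1) / (x ^ 182 * (t + 1 - 5 * x ^ 17)) ≤
      11 * x ^ 132 / (x ^ 182 * (5 * x ^ 17)) := by
    apply div_le_div₀ (by positivity) h2 (by positivity) _
    apply mul_le_mul_of_nonneg_left hd (by positivity)
  calc (2 * (W / (1 / x ^ 100)) + 1) / (x ^ 182 * (t + 1 - 5 * x ^ 17)) *
      Real.sqrt (2 * (N / s + 1)) ≤ 11 * x ^ 132 / (x ^ 182 * (5 * x ^ 17)) * x ^ 25 :=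
        mul_le_mul h6 h3 (Real.sqrt_nonneg _) (by positivity)
    _ = 11 * x ^ 157 / (5 * x ^ 199) := by
        rw [div_mul_eq_mul_div]
        congr 1 <;> ring
    _ ≤ 1 / x ^ 41 := by
        rw [div_le_div_iff₀ (by positivity) (by positivity)]
        have := NumB_real x hx 11 198 199 (by norm_num) (by norm_num)
        have h7 : 0 ≤ x ^ 199 := by positivity
        calc 11 * x ^ 157 * x ^ 41 = 11 * x ^ 198 := by ring
          _ ≤ x ^ 199 := this
          _ ≤ 1 * (5 * x ^ 199) := by linarith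

/-- The average number of missing edges. -/
theorem NumB_M (x N t m D₁ D₂ s w : ℝ) (hx : 4000 ≤ x) (hN : 0 < N) (ht : t = 10 * x ^ 17)
    (hm : m = 10 * x ^ 17 + x ^ 24) (hD₁0 : 0 < D₁) (hD₂0 : 0 < D₂) (hs0 : 0 < s)
    (hD₁ : D₁ ≤ N / x ^ 23) (hD₁' : N ≤ 2 * x ^ 23 * D₁) (hD₂ : D₂ ≤ N / x ^ 12)
    (hD₂' : N ≤ 2 * x ^ 12 * D₂) (hs : s ≤ N / x ^ 49) (hw : t * w ≤ 1) :
    N / D₂ + m * ((D₂ + (t + m + 2) * s) / N + 1 / x ^ 41) +
      t * ((12 * (t + 1) * D₁) / N + 1 / x ^ 41) +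
      t * (w + 1 / x ^ 41 * (2 * N / D₁)) ≤ x ^ 13 := by
  have h0 : 0 < x := by linarith
  have h17 : 1 ≤ x ^ 17 := one_le_pow₀ (by linarith)
  have h21 := NumB_real x hx 23 17 24 (by norm_num) (by norm_num)
  have ht0 : 0 < t := by rw [ht]; positivity
  have hm0 : 0 < m := by rw [hm]; positivity
  have hm2 : m ≤ 2 * x ^ 24 := by rw [hm]; linarith
  have hA : t + m + 2 ≤ 2 * x ^ 24 := by rw [ht, hm]; linarith
  have e1 : N / D₂ ≤ 2 * x ^ 12 := by
    rw [div_le_iff₀ hD₂0]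
    exact hD₂'
  have e2 : m * ((D₂ + (t + m + 2) * s) / N + 1 / x ^ 41) ≤ 2 * x ^ 12 + 2 := by
    have a1 : D₂ / N ≤ 1 / x ^ 12 := by
      rw [div_le_iff₀ hN]
      calc D₂ ≤ N / x ^ 12 := hD₂
        _ = 1 / x ^ 12 * N := by ring
    have a2 : (t + m + 2) * s / N ≤ 2 * x ^ 24 / x ^ 49 := by
      rw [div_le_iff₀ hN]
      calc (t + m + 2) * s ≤ 2 * x ^ 24 * (N / x ^ 49) :=
            mul_le_mul hA hs hs0.le (by positivity)
        _ = 2 * x ^ 24 / x ^ 49 * N := by ring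
    have a3 : (D₂ + (t + m + 2) * s) / N + 1 / x ^ 41 ≤
        1 / x ^ 12 + 2 * x ^ 24 / x ^ 49 + 1 / x ^ 41 := by
      rw [add_div]
      linarith
    calc m * ((D₂ + (t + m + 2) * s) / N + 1 / x ^ 41)
        ≤ 2 * x ^ 24 * (1 / x ^ 12 + 2 * x ^ 24 / x ^ 49 + 1 / x ^ 41) := by
          apply mul_le_mul hm2 a3 _ (by positivity)
          positivity
      _ = 2 * x ^ 24 / x ^ 12 + 4 * x ^ 48 / x ^ 49 + 2 * x ^ 24 / x ^ 41 := by ring
      _ ≤ 2 * x ^ 12 + 1 + 1 := by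
          have b1 : 2 * x ^ 24 / x ^ 12 = 2 * x ^ 12 := by
            field_simp
          have b2 : 4 * x ^ 48 / x ^ 49 ≤ 1 := by
            rw [div_le_one (by positivity)]
            exact NumB_real x hx 4 48 49 (by norm_num) (by norm_num)
          have b3 : 2 * x ^ 24 / x ^ 41 ≤ 1 := by
            rw [div_le_one (by positivity)]
            exact NumB_real x hx 2 24 41 (by norm_num) (by norm_num)
          linarith
      _ = 2 * x ^ 12 + 2 := by ring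
  have e3 : t * ((12 * (t + 1) * D₁) / N + 1 / x ^ 41) ≤ x ^ 12 + 1 := by
    have a1 : 12 * (t + 1) * D₁ / N ≤ 132 * x ^ 17 / x ^ 23 := by
      rw [div_le_iff₀ hN]
      calc 12 * (t + 1) * D₁ ≤ 132 * x ^ 17 * (N / x ^ 23) := by
            apply mul_le_mul _ hD₁ hD₁0.le (by positivity)
            rw [ht]
            linarith
        _ = 132 * x ^ 17 / x ^ 23 * N := by ring
    calc t * ((12 * (t + 1) * D₁) / N + 1 / x ^ 41)
        ≤ 10 * x ^ 17 * (132 * x ^ 17 / x ^ 23 + 1 / x ^ 41) := by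
          rw [← ht]
          apply mul_le_mul_of_nonneg_left _ ht0.le
          linarith
      _ = 1320 * x ^ 34 / x ^ 23 + 10 * x ^ 17 / x ^ 41 := by ring
      _ ≤ x ^ 12 + 1 := by
          have b1 : 1320 * x ^ 34 / x ^ 23 ≤ x ^ 12 := by
            rw [div_le_iff₀ (by positivity)]
            calc 1320 * x ^ 34 ≤ x ^ 35 := NumB_real x hx 1320 34 35 (by norm_num) (by norm_num)
              _ = x ^ 12 * x ^ 23 := by ring
          have b3 : 10 * x ^ 17 / x ^ 41 ≤ 1 := by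
            rw [div_le_one (by positivity)]
            exact NumB_real x hx 10 17 41 (by norm_num) (by norm_num)
          linarith
  have e4 : t * (w + 1 / x ^ 41 * (2 * N / D₁)) ≤ 2 := by
    have a1 : 2 * N / D₁ ≤ 4 * x ^ 23 := by
      rw [div_le_iff₀ hD₁0]
      linarith
    have a2 : t * (1 / x ^ 41 * (2 * N / D₁)) ≤ 1 := by
      calc t * (1 / x ^ 41 * (2 * N / D₁)) ≤ 10 * x ^ 17 * (1 / x ^ 41 * (4 * x ^ 23)) := by
            rw [← ht]
            apply mul_le_mul_of_nonneg_left _ ht0.le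
            apply mul_le_mul_of_nonneg_left a1 (by positivity)
        _ = 40 * x ^ 40 / x ^ 41 := by ring
        _ ≤ 1 := by
            rw [div_le_one (by positivity)]
            exact NumB_real x hx 40 40 41 (by norm_num) (by norm_num)
    rw [mul_add]
    linarith
  have e5 := NumB_real x hx 10 12 13 (by norm_num) (by norm_num)
  have e6 : 1 ≤ x ^ 12 := one_le_pow₀ (by linarith)
  linarith

/-- The parameters: `u = L^17`, `t = 10 L^17`, `m = 10 L^17 + L^24`, `T = L^182`, `M = L^13`,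
`D₁ = s₁ = n / L^23`, `D₂ = n / L^12`, `s = n / L^49`, `v = n / L^176` (natural divisions),
`lam = L^(-100)`, `loss = L^32 / L^182`, `δ = 4 L^32 / L^182`, `eS = eS₁ = L^(-41)`; the given `μ`.
Useful: `n / (2 L^k) ≤ ⌊n / L^k⌋ ≤ n / L^k`, `t + m + 1 ≤ 2 L^24`, `log (40 n) ≤ L`,
`log (40 n) + T δ ≤ 5 L^32`. -/
theorem prm_exists (n L μ : ℕ) (h2 : 2 ≤ L) (hn : n ≤ 2 ^ L) (hL : L ^ 400 ≤ n)
    (hμ : μ * L ^ 177 ≤ n) :
    ∃ P : Prm n, P.μ = μ ∧ P.K ≤ L ^ 207 ∧ P.J = L ∧ P.u = L ^ 17 ∧ P.t = 10 * L ^ 17 ∧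
      P.m = 10 * L ^ 17 + L ^ 24 ∧ P.T = L ^ 182 ∧ P.M = L ^ 13 ∧ P.v = n / L ^ 176 ∧
      P.lam = 1 / (L : ℝ) ^ 100 ∧ P.δ = 4 / (L : ℝ) ^ 150 := by
  have hL4 : 4000 ≤ L := L_big L h2 (hL.trans hn)
  have hL0 : 0 < L := by omega
  have hp : ∀ k, k ≤ 400 → L ^ k ≤ n := fun k hk => (Nat.pow_le_pow_right hL0 hk).trans hL
  have hp1 : ∀ k, 1 ≤ L ^ k := fun k => Nat.one_le_pow _ _ hL0
  have hn1 : 1 ≤ n := (hp1 400).trans hL
  obtain ⟨hD₁', hD₁1⟩ := NumB_div n L 23 hL0 (hp 23 (by norm_num))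
  obtain ⟨hD₂', hD₂1⟩ := NumB_div n L 12 hL0 (hp 12 (by norm_num))
  obtain ⟨hs', hs1⟩ := NumB_div n L 49 hL0 (hp 49 (by norm_num))
  have hx : (4000 : ℝ) ≤ L := by exact_mod_cast hL4
  have h0 : (0 : ℝ) < L := by linarith
  have hN : (0 : ℝ) < n := by exact_mod_cast hn1
  have hq : ∀ k : ℕ, ((n / L ^ k : ℕ) : ℝ) ≤ n / (L : ℝ) ^ k := by
    intro k
    have := Nat.cast_div_le (α := ℝ) (m := n) (n := L ^ k)
    push_cast at this
    exact this
  have hμr : (μ : ℝ) ≤ n / (L : ℝ) ^ 177 := by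
    rw [le_div_iff₀ (by positivity)]
    exact_mod_cast hμ
  have hA : 10 * L ^ 17 + (10 * L ^ 17 + L ^ 24) + 1 ≤ 2 * L ^ 24 := by
    have h1 := NumB_nat L hL4 21 17 24 (by norm_num) (by norm_num)
    have h3 := hp1 17
    omega
  have hAr : 10 * (L : ℝ) ^ 17 + (10 * (L : ℝ) ^ 17 + (L : ℝ) ^ 24) + 1 ≤ 2 * (L : ℝ) ^ 24 := by
    exact_mod_cast hA
  have hlog := NumB_log n L hL4 hn1 hn
  have hTδ : (L : ℝ) ^ 182 * (4 / (L : ℝ) ^ 150) = 4 * (L : ℝ) ^ 32 := by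
    field_simp
  have hW : Real.log (40 * n) + (L : ℝ) ^ 182 * (4 / (L : ℝ) ^ 150) ≤ 5 * (L : ℝ) ^ 32 := by
    rw [hTδ]
    have h1 : (L : ℝ) ≤ (L : ℝ) ^ 32 := by
      calc (L : ℝ) = (L : ℝ) ^ 1 := (pow_one _).symm
        _ ≤ (L : ℝ) ^ 32 := pow_le_pow_right₀ (by linarith) (by norm_num)
    linarith [hlog.1]
  have hW0 : 0 ≤ Real.log (40 * n) + (L : ℝ) ^ 182 * (4 / (L : ℝ) ^ 150) := by
    have := hlog.2
    positivity
  have hns : (n : ℝ) / ((n / L ^ 49 : ℕ) : ℝ) ≤ 2 * (L : ℝ) ^ 49 := by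
    have h1 : (0 : ℝ) < ((n / L ^ 49 : ℕ) : ℝ) := by exact_mod_cast hs1
    rw [div_le_iff₀ h1]
    exact_mod_cast hs'
  have hns₁ : (n : ℝ) / ((n / L ^ 23 : ℕ) : ℝ) ≤ 2 * (L : ℝ) ^ 49 := by
    have h1 : (0 : ℝ) < ((n / L ^ 23 : ℕ) : ℝ) := by exact_mod_cast hD₁1
    have h3 : (n : ℝ) / ((n / L ^ 23 : ℕ) : ℝ) ≤ 2 * (L : ℝ) ^ 23 := by
      rw [div_le_iff₀ h1]
      exact_mod_cast hD₁'
    have h4 : (L : ℝ) ^ 23 ≤ (L : ℝ) ^ 49 := pow_le_pow_right₀ (by linarith) (by norm_num)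
    linarith
  refine ⟨{ J := L, t := 10 * L ^ 17, m := 10 * L ^ 17 + L ^ 24, u := L ^ 17, T := L ^ 182,
            D₁ := n / L ^ 23, D₂ := n / L ^ 12, s := n / L ^ 49, s₁ := n / L ^ 23, μ := μ,
            v := n / L ^ 176, M := L ^ 13, lam := 1 / (L : ℝ) ^ 100, δ := 4 / (L : ℝ) ^ 150,
            loss := 1 / (L : ℝ) ^ 150, eS := 1 / (L : ℝ) ^ 41, eS₁ := 1 / (L : ℝ) ^ 41,
            n3 := ?_, J1 := ?_, Jn := hn, JJ := ?_, tm := ?_, t1 := ?_, tu := ?_, u1 := ?_,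
            T1 := ?_, M1 := ?_, D₂1 := hD₂1, s1 := hs1, s₁1 := hD₁1, D₁s := le_rfl, D₁n := ?_,
            Ds := ?_, vn := ?_, lam0 := ?_, δ0 := ?_, lamx := ?_, loss4 := ?_, hloss := ?_,
            hδ := ?_, heS := ?_, heS₁ := ?_, hM := ?_, hB4 := ?_, hBJ := ?_, hBa := ?_,
            hBd := ?_, hAn := ?_ }, rfl, ?_, rfl, rfl, rfl, rfl, rfl, rfl, rfl, rfl, rfl⟩
  · -- n3
    have := hp 1 (by norm_num)
    simp only [pow_one] at this
    omega
  · -- J1
    omega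
  · -- JJ
    have h1 := NumB_nat L hL4 (10 ^ 6) 2 4 (by norm_num) (by norm_num)
    exact h1.trans (hp 4 (by norm_num))
  · -- tm
    omega
  · -- t1
    have := hp1 17
    omega
  · -- tu
    have := hp1 17
    omega
  · exact hp1 17
  · exact hp1 182
  · exact hp1 13
  · -- D₁n
    have h1 : n / L ^ 23 * L ^ 23 ≤ n := Nat.div_mul_le_self _ _
    have h3 : 8 ≤ L ^ 23 := by
      have := NumB_nat L hL4 8 0 23 (by norm_num) (by norm_num)
      simpa using this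
    have h5 : n / L ^ 23 * 8 ≤ n := (Nat.mul_le_mul_left _ h3).trans h1
    omega
  · -- Ds
    have h1 : n / L ^ 49 * L ^ 49 ≤ n := Nat.div_mul_le_self _ _
    rw [Nat.le_div_iff_mul_le (hp1 23)]
    calc 2 * (10 * L ^ 17 + (10 * L ^ 17 + L ^ 24) + 1) * (n / L ^ 49) * L ^ 23
        ≤ 2 * (2 * L ^ 24) * (n / L ^ 49) * L ^ 23 := by gcongr
      _ = (n / L ^ 49) * (4 * L ^ 47) := by ring
      _ ≤ (n / L ^ 49) * L ^ 49 := by
          apply Nat.mul_le_mul_left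
          exact NumB_nat L hL4 4 47 49 (by norm_num) (by norm_num)
      _ ≤ n := h1
  · -- vn
    have h1 : n / L ^ 176 * L ^ 176 ≤ n := Nat.div_mul_le_self _ _
    have h3 : 2 ≤ L ^ 176 := by
      have := NumB_nat L hL4 2 0 176 (by norm_num) (by norm_num)
      simpa using this
    have h5 : n / L ^ 176 * 2 ≤ n := (Nat.mul_le_mul_left _ h3).trans h1
    omega
  · positivity
  · positivity
  · -- lamx
    push_cast
    rw [div_mul_eq_mul_div, one_mul, div_le_one (by positivity)]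
    have h1 := NumB_real L hx 4 24 100 (by norm_num) (by norm_num)
    linarith
  · -- loss4
    rw [div_le_div_iff₀ (by positivity) (by norm_num)]
    have h1 := NumB_real L hx 4 0 150 (by norm_num) (by norm_num)
    simp only [pow_zero, mul_one] at h1
    linarith
  · -- hloss
    have := NumB_loss L n (10 * L ^ 17) (10 * L ^ 17 + L ^ 24) μ ((n / L ^ 176 : ℕ) : ℝ) hx hN
      rfl rfl hμr (hq 176)
    push_cast at this ⊢
    exact this
  · -- hδ
    have := NumB_delta L n (10 * L ^ 17) (10 * L ^ 17 + L ^ 24) μ ((n / L ^ 176 : ℕ) : ℝ) hx hN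
      rfl rfl hμr (hq 176) (Nat.cast_nonneg _) (Nat.cast_nonneg _)
    push_cast at this ⊢
    exact this
  · -- heS
    have := NumB_eS L n ((n / L ^ 49 : ℕ) : ℝ) _ (10 * L ^ 17) hx rfl hW0 hW hns
    push_cast at this ⊢
    exact this
  · -- heS₁
    have := NumB_eS L n ((n / L ^ 23 : ℕ) : ℝ) _ (10 * L ^ 17) hx rfl hW0 hW hns₁
    push_cast at this ⊢
    exact this
  · -- hM
    have hw := num_exp n L (n / L ^ 23) hL4 hn1 hD₁' (Nat.div_le_self _ _)
    have e : 10 * L ^ 17 + L ^ 24 - 10 * L ^ 17 = L ^ 24 := by omega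
    have := NumB_M L n (10 * L ^ 17) (10 * L ^ 17 + L ^ 24) ((n / L ^ 23 : ℕ) : ℝ)
      ((n / L ^ 12 : ℕ) : ℝ) ((n / L ^ 49 : ℕ) : ℝ)
      ((1 - ((n / L ^ 23 : ℕ) : ℝ) / (2 * n)) ^ (L ^ 24)) hx hN rfl rfl
      (by exact_mod_cast hD₁1) (by exact_mod_cast hD₂1) (by exact_mod_cast hs1) (hq 23)
      (by exact_mod_cast hD₁') (hq 12) (by exact_mod_cast hD₂') (hq 49) hw
    rw [e]
    push_cast at this ⊢
    exact this
  · -- hB4
    have h1 := NumB_nat L hL4 192 196 199 (by norm_num) (by norm_num)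
    have h3 : L ≤ L ^ 196 := by
      calc L = L ^ 1 := (pow_one L).symm
        _ ≤ L ^ 196 := Nat.pow_le_pow_right hL0 (by norm_num)
    calc 4 * ((45 * L ^ 13 * L ^ 182 + 3) * L) = 180 * L ^ 196 + 12 * L := by ring
      _ ≤ 192 * L ^ 196 := by omega
      _ ≤ L ^ 199 := h1
      _ = L ^ 182 * L ^ 17 := by ring
  · -- hBJ
    have h1 := NumB_nat L hL4 (2 * 10 ^ 4) 2 199 (by norm_num) (by norm_num)
    calc 2 * 10 ^ 4 * L ^ 2 ≤ L ^ 199 := h1
      _ = L ^ 182 * L ^ 17 := by ring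
  · -- hBa
    push_cast
    have h1 := NumB_real L hx (2 * 10 ^ 4 * 110) 197 199 (by norm_num) (by norm_num)
    have h3 : (Real.log (40 * n) + (L : ℝ) ^ 182 * (4 / (L : ℝ) ^ 150)) / (1 / (L : ℝ) ^ 100) ≤
        5 * (L : ℝ) ^ 132 := by
      rw [div_div_eq_mul_div, div_one]
      calc (Real.log (40 * n) + (L : ℝ) ^ 182 * (4 / (L : ℝ) ^ 150)) * (L : ℝ) ^ 100
          ≤ 5 * (L : ℝ) ^ 32 * (L : ℝ) ^ 100 := mul_le_mul_of_nonneg_right hW (by positivity)
        _ = 5 * (L : ℝ) ^ 132 := by ring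
    have h4 : (L : ℝ) ^ 132 ≤ (L : ℝ) ^ 196 := pow_le_pow_right₀ (by linarith) (by norm_num)
    have h5 : (L : ℝ) ≤ (L : ℝ) ^ 196 := by
      calc (L : ℝ) = (L : ℝ) ^ 1 := (pow_one _).symm
        _ ≤ (L : ℝ) ^ 196 := pow_le_pow_right₀ (by linarith) (by norm_num)
    have h6 : (1 : ℝ) ≤ (L : ℝ) ^ 196 := one_le_pow₀ (by linarith)
    calc 2 * 10 ^ 4 * (L : ℝ) * ((Real.log (40 * n) + (L : ℝ) ^ 182 * (4 / (L : ℝ) ^ 150)) /
          (1 / (L : ℝ) ^ 100) + 2 * ((45 * (L : ℝ) ^ 13 * (L : ℝ) ^ 182 + 3) * L) + 1)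
        ≤ 2 * 10 ^ 4 * (L : ℝ) * (110 * (L : ℝ) ^ 196) := by
          apply mul_le_mul_of_nonneg_left _ (by positivity)
          have e : 2 * ((45 * (L : ℝ) ^ 13 * (L : ℝ) ^ 182 + 3) * L) =
            90 * (L : ℝ) ^ 196 + 6 * L := by ring
          rw [e]
          linarith
      _ = 2 * 10 ^ 4 * 110 * (L : ℝ) ^ 197 := by ring
      _ ≤ (L : ℝ) ^ 199 := h1
      _ = (L : ℝ) ^ 182 * (L : ℝ) ^ 17 := by ring
  · -- hBd
    push_cast
    have h1 := NumB_real L hx 80 132 199 (by norm_num) (by norm_num)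
    have h3 : (Real.log (40 * n) + (L : ℝ) ^ 182 * (4 / (L : ℝ) ^ 150)) / (1 / (L : ℝ) ^ 100) ≤
        5 * (L : ℝ) ^ 132 := by
      rw [div_div_eq_mul_div, div_one]
      calc (Real.log (40 * n) + (L : ℝ) ^ 182 * (4 / (L : ℝ) ^ 150)) * (L : ℝ) ^ 100
          ≤ 5 * (L : ℝ) ^ 32 * (L : ℝ) ^ 100 := mul_le_mul_of_nonneg_right hW (by positivity)
        _ = 5 * (L : ℝ) ^ 132 := by ring
    have e : (L : ℝ) ^ 182 * (L : ℝ) ^ 17 = (L : ℝ) ^ 199 := by ring
    rw [e]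
    linarith
  · -- hAn
    calc L ^ 182 * (10 * L ^ 17 + (10 * L ^ 17 + L ^ 24) + 1) ≤ L ^ 182 * (2 * L ^ 24) :=
          Nat.mul_le_mul_left _ hA
      _ = 2 * L ^ 206 := by ring
      _ ≤ L ^ 207 := NumB_nat L hL4 2 206 207 (by norm_num) (by norm_num)
      _ ≤ n := hp 207 (by norm_num)
  · -- K
    simp only [Prm.K, Prm.kA, Prm.kB, Prm.r₀]
    have h1 : 10 * L ^ 17 + (10 * L ^ 17 + L ^ 24) + 1 - 5 * L ^ 17 ≤ 2 * L ^ 24 := by omega
    have h3 : L ^ 17 ≤ L ^ 24 := Nat.pow_le_pow_right hL0 (by norm_num)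
    have h4 : L ^ 17 ≤ L ^ 206 := Nat.pow_le_pow_right hL0 (by norm_num)
    calc L ^ 182 * (10 * L ^ 17 + (10 * L ^ 17 + L ^ 24) + 1 - 5 * L ^ 17) +
          5 * (L ^ 182 * L ^ 17) + L ^ 182 * (10 * L ^ 17 + (10 * L ^ 17 + L ^ 24) + 1) +
          10 * L ^ 17
        ≤ L ^ 182 * (2 * L ^ 24) + 5 * (L ^ 182 * L ^ 24) + L ^ 182 * (2 * L ^ 24) +
          10 * L ^ 206 := by gcongr
      _ = 19 * L ^ 206 := by ring
      _ ≤ L ^ 207 := NumB_nat L hL4 19 206 207 (by norm_num) (by norm_num)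

end Pool.Agent.W_cd7020_h81b
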