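import Pool.Agent.W_cd7020_h81b.SmpB

/-!
# The initial pools
-/

set_option autoImplicit false

namespace Pool.Agent.W_cd7020_h81b

open Finset Pool.Agent.W_cd7020_h81

variable {V κ : Type*} [DecidableEq V] [DecidableEq κ] [Fintype V]

/-- The conditions for the initial state: there are `k = kA + 5 kB` pool colours, `V'` has
`v` elements, `a` bounds the number of components given by `few`. -/
structure IPrm {n : ℕ} (P : Prm n) (a : ℕ) : Prop where
  v43 : 43 ≤ P.v
  av : 64 * (142 * P.J) * n ≤ a * P.v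
  a1 : 1 ≤ a
  hh : 16 * (P.μ + (P.kA + 5 * P.kB)) ≤ P.v
  hT : 4 * a + 4 ≤ P.v
  aM : a ≤ P.M * P.T
  kn : 4 * (P.kA + 5 * P.kB) + 4 ≤ n
  lam1 : 2 * P.lam ≤ 1
  hδ : ∃ δ' : ℝ, 0 ≤ δ' ∧ (1 + 4 * ((P.kA + 5 * P.kB : ℕ) : ℝ) / n) * (1 + 8 * P.lam ^ 2 +
      2 * P.lam * (2 * (2 + P.μ + P.v + 2 * (P.kA + 5 * P.kB : ℕ)) / n)) ≤ 1 + δ' ∧
      (P.kA + 5 * P.kB : ℕ) * δ' ≤ P.T * P.δ

/-- The initial pools: `sample` with the sizes `kA, kB, kB, kB, kB, kB`; `NB` by `norm_of_pot`:
`log (2 * 12 n (1 + δ') ^ k) / lam ≤ a₁`; `16 cntB ≤ 16 a₁ ≤ kB`. -/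
theorem init_pools (col : Sym2 V → κ) (Q : Finset κ) (P : Prm (Fintype.card V)) (a : ℕ)
    (hI : IPrm P a) (hQ : GoodQ col Q P.μ) (V' : Finset V) (hV' : V'.card = P.v) :
    ∃ (R : Finset κ) (B : Fin 5 → Finset κ), R ⊆ Q ∧ R.card = P.kA ∧ NB col R P.a₁ ∧
      BP col Q V' P.kB P.a₁ B ∧ ∀ i, Disjoint R (B i) := by
  obtain ⟨δ', hδ0, hδ1, hδ2⟩ := hI.hδ
  have hn6 : 6 ≤ Fintype.card V := P.n3
  have hn0 : (0 : ℝ) < Fintype.card V := by
    have : 0 < Fintype.card V := by omega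
    exact_mod_cast this
  set sz : Fin 6 → ℕ := Fin.cons P.kA (fun _ => P.kB) with hsz
  have hsum : ∑ i, sz i = P.kA + 5 * P.kB := by
    rw [Fin.sum_univ_succ]
    simp [hsz]
  obtain ⟨A, hA1, hA2, hA3, hA4⟩ := sample col Q P.μ hQ V' P.lam P.lam0.le hI.lam1 sz
    (P.kA + 5 * P.kB) (le_of_eq hsum) hI.kn δ' hδ0 (by rw [hV']; exact hδ1)
  rw [hsum] at hA4
  have hE : Psi col V' P.lam A ≤ 12 * Real.exp (P.T * P.δ) := by
    refine hA4.trans ?_
    have h1 : (1 + δ') ^ (P.kA + 5 * P.kB) ≤ Real.exp (P.T * P.δ) := by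
      calc (1 + δ') ^ (P.kA + 5 * P.kB) ≤ (Real.exp δ') ^ (P.kA + 5 * P.kB) := by
            apply pow_le_pow_left₀ (by linarith)
            have := Real.add_one_le_exp δ'
            linarith
        _ = Real.exp ((P.kA + 5 * P.kB : ℕ) * δ') := by
            rw [← Real.exp_nat_mul]
        _ ≤ Real.exp (P.T * P.δ) := Real.exp_le_exp.2 hδ2
    linarith
  have hpotn : ∀ i, 0 ≤ pot (SM col (A i)) P.lam / (Fintype.card V : ℝ) := fun i =>
    div_nonneg (pot_pos _ _) hn0.le
  have hexpn : ∀ i, 0 ≤ (∑ x, Real.exp (P.lam * cntB col V' (A i) x)) / (Fintype.card V : ℝ) :=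
    fun i => div_nonneg (Finset.sum_nonneg fun x _ => (Real.exp_pos _).le) hn0.le
  have hpot : ∀ i, pot (SM col (A i)) P.lam ≤ 12 * Real.exp (P.T * P.δ) * Fintype.card V := by
    intro i
    have h1 : pot (SM col (A i)) P.lam / (Fintype.card V : ℝ) ≤ Psi col V' P.lam A := by
      have h2 := Finset.single_le_sum (f := fun i => pot (SM col (A i)) P.lam /
        (Fintype.card V : ℝ)) (fun j _ => hpotn j) (Finset.mem_univ i)
      have h3 : 0 ≤ ∑ i, (∑ x, Real.exp (P.lam * cntB col V' (A i) x)) /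
        (Fintype.card V : ℝ) := Finset.sum_nonneg fun j _ => hexpn j
      unfold Psi
      linarith
    have h4 := h1.trans hE
    rwa [div_le_iff₀ hn0] at h4
  have hexp : ∀ i x, Real.exp (P.lam * cntB col V' (A i) x) ≤
      12 * Real.exp (P.T * P.δ) * Fintype.card V := by
    intro i x
    have h1 : (∑ x, Real.exp (P.lam * cntB col V' (A i) x)) / (Fintype.card V : ℝ) ≤
        Psi col V' P.lam A := by
      have h2 := Finset.single_le_sum (f := fun i =>
        (∑ x, Real.exp (P.lam * cntB col V' (A i) x)) / (Fintype.card V : ℝ))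
        (fun j _ => hexpn j) (Finset.mem_univ i)
      have h3 : 0 ≤ ∑ i, pot (SM col (A i)) P.lam / (Fintype.card V : ℝ) :=
        Finset.sum_nonneg fun j _ => hpotn j
      unfold Psi
      linarith
    have h4 := h1.trans hE
    rw [div_le_iff₀ hn0] at h4
    refine le_trans ?_ h4
    exact Finset.single_le_sum (f := fun x => Real.exp (P.lam * cntB col V' (A i) x))
      (fun j _ => (Real.exp_pos _).le) (Finset.mem_univ x)
  have hlog : ∀ c : ℝ, 0 < c → c ≤ 40 →
      Real.log (c * (Real.exp (P.T * P.δ) * Fintype.card V)) / P.lam ≤ P.a₁ := by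
    intro c hc hc40
    unfold Prm.a₁
    apply div_le_div_of_nonneg_right _ P.lam0.le
    have h1 : c * (Real.exp (P.T * P.δ) * Fintype.card V) ≤
        Real.exp (P.T * P.δ) * (40 * Fintype.card V) := by
      have := mul_le_mul_of_nonneg_right hc40
        (mul_nonneg (Real.exp_pos (P.T * P.δ)).le hn0.le)
      linarith
    refine (Real.log_le_log (by positivity) h1).trans ?_
    rw [Real.log_mul (Real.exp_pos _).ne' (by positivity), Real.log_exp]
    linarith
  have hNB : ∀ i, NB col (A i) P.a₁ := by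
    intro i f g
    have h1 := norm_of_pot (SM col (A i)) (SM_herm col (A i)) P.lam _ P.lam0 (hpot i) f g
    refine h1.trans ?_
    have h2 := hlog 24 (by norm_num) (by norm_num)
    have h3 : 2 * (12 * Real.exp (P.T * P.δ) * (Fintype.card V : ℝ)) =
        24 * (Real.exp (P.T * P.δ) * Fintype.card V) := by ring
    rw [h3]
    apply mul_le_mul_of_nonneg_right _ (Real.sqrt_nonneg _)
    exact mul_le_mul_of_nonneg_right h2 (Real.sqrt_nonneg _)
  have hdeg : ∀ i x, 16 * cntB col V' (A i) x ≤ P.kB := by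
    intro i x
    have h1 := hexp i x
    have h2 : P.lam * cntB col V' (A i) x ≤
        Real.log (12 * (Real.exp (P.T * P.δ) * Fintype.card V)) := by
      rw [Real.le_log_iff_exp_le (by positivity)]
      linarith
    have h3 := hlog 12 (by norm_num) (by norm_num)
    have h4 : (cntB col V' (A i) x : ℝ) ≤ P.a₁ := by
      refine le_trans ?_ h3
      rw [le_div_iff₀ P.lam0]
      linarith
    have h5 := P.hBd
    have h6 : (16 * cntB col V' (A i) x : ℝ) ≤ (P.T * P.u : ℝ) := by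
      have : P.a₁ = (Real.log (40 * (Fintype.card V : ℝ)) + P.T * P.δ) / P.lam := rfl
      rw [this] at h4
      linarith
    unfold Prm.kB
    exact_mod_cast h6
  refine ⟨A 0, fun i => A i.succ, hA1 0, ?_, hNB 0, ⟨fun i => hA1 _, fun i => ?_, ?_,
    fun i => hNB _, fun i x => hdeg _ x⟩, fun i => hA3 _ _ (Fin.succ_ne_zero i).symm⟩
  · rw [hA2]
    simp [hsz]
  · rw [hA2]
    simp [hsz]
  · intro i j hij
    exact hA3 _ _ (fun h => hij (Fin.succ_injective _ h))

end Pool.Agent.W_cd7020_h81b
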