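import Pool.Agent.W_cd7020_h81b.NumA
import Pool.Agent.W_cd7020_h81b.InA

/-!
# The parameters for the initial state
-/

set_option autoImplicit false

namespace Pool.Agent.W_cd7020_h81b

open Finset

/-- The natural number inequalities used below. -/
theorem NumC_nat (n L μ k v : ℕ) (hL4 : 4000 ≤ L) (hL : L ^ 400 ≤ n) (hμ : μ * L ^ 177 ≤ n)
    (hk : k ≤ 2 * L ^ 206) (hv : v = n / L ^ 176) :
    n ≤ 2 * (L ^ 176 * v) ∧ (2 + μ + v + 2 * k) * L ^ 175 ≤ n ∧ 4 * k * L ^ 180 ≤ n := by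
  have hL0 : 0 < L := by omega
  have hp : ∀ a b : ℕ, a ≤ b → L ^ a ≤ L ^ b := fun a b hab => Nat.pow_le_pow_right hL0 hab
  have h1 : n < L ^ 176 * (v + 1) := by
    rw [hv]
    exact Nat.lt_mul_div_succ n (pow_pos hL0 _)
  have h2 : L ^ 176 * v ≤ n := by
    rw [hv]
    exact Nat.mul_div_le n _
  have h3 : 2 * L ^ 176 ≤ n := by
    calc 2 * L ^ 176 ≤ L * L ^ 176 := Nat.mul_le_mul_right _ (by omega)
      _ = L ^ 177 := by ring
      _ ≤ L ^ 400 := hp _ _ (by norm_num)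
      _ ≤ n := hL
  refine ⟨?_, ?_, ?_⟩
  · have h4 : L ^ 176 * (v + 1) = L ^ 176 * v + L ^ 176 := by ring
    omega
  · have a1 : 4 * (2 * L ^ 175) ≤ n := by
      calc 4 * (2 * L ^ 175) = 8 * L ^ 175 := by ring
        _ ≤ L * L ^ 175 := Nat.mul_le_mul_right _ (by omega)
        _ = L ^ 176 := by ring
        _ ≤ L ^ 400 := hp _ _ (by norm_num)
        _ ≤ n := hL
    have a2 : 4 * (μ * L ^ 175) ≤ n := by
      calc 4 * (μ * L ^ 175) = (μ * L ^ 175) * 4 := by ring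
        _ ≤ (μ * L ^ 175) * (L ^ 2) := Nat.mul_le_mul_left _ (by nlinarith)
        _ = μ * L ^ 177 := by ring
        _ ≤ n := hμ
    have a3 : 4 * (v * L ^ 175) ≤ n := by
      calc 4 * (v * L ^ 175) ≤ L * (v * L ^ 175) := Nat.mul_le_mul_right _ (by omega)
        _ = L ^ 176 * v := by ring
        _ ≤ n := h2
    have a4 : 4 * (2 * k * L ^ 175) ≤ n := by
      calc 4 * (2 * k * L ^ 175) = 8 * L ^ 175 * k := by ring
        _ ≤ 8 * L ^ 175 * (2 * L ^ 206) := Nat.mul_le_mul_left _ hk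
        _ = 16 * L ^ 381 := by ring
        _ ≤ L * L ^ 381 := Nat.mul_le_mul_right _ (by omega)
        _ = L ^ 382 := by ring
        _ ≤ L ^ 400 := hp _ _ (by norm_num)
        _ ≤ n := hL
    have a5 : (2 + μ + v + 2 * k) * L ^ 175
        = 2 * L ^ 175 + μ * L ^ 175 + v * L ^ 175 + 2 * k * L ^ 175 := by ring
    omega
  · calc 4 * k * L ^ 180 = 4 * L ^ 180 * k := by ring
      _ ≤ 4 * L ^ 180 * (2 * L ^ 206) := Nat.mul_le_mul_left _ hk
      _ = 8 * L ^ 386 := by ring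
      _ ≤ L * L ^ 386 := Nat.mul_le_mul_right _ (by omega)
      _ = L ^ 387 := by ring
      _ ≤ L ^ 400 := hp _ _ (by norm_num)
      _ ≤ n := hL

/-- The real inequality used below. -/
theorem NumC_real (N l S k q : ℝ) (hl : 4000 ≤ l) (hN : 0 < N) (hS : S * l ^ 175 ≤ N)
    (hk : 4 * k * l ^ 180 ≤ N) (hk0 : 0 ≤ k) (hS0 : 0 ≤ S) (hq : q = 1 / l ^ 100) :
    (1 + 4 * k / N) * (1 + 8 * q ^ 2 + 2 * q * (2 * S / N)) ≤ 1 + 1 / l ^ 174 := by
  have hl0 : 0 < l := by linarith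
  set r : ℝ := 1 / l with hr
  have hr0 : 0 < r := by positivity
  have hr1 : r ≤ 1 / 4000 := one_div_le_one_div_of_le (by norm_num) hl
  have hpow : ∀ j : ℕ, 1 / l ^ j = r ^ j := fun j => by rw [hr, one_div_pow]
  have h1 : 4 * k / N ≤ r ^ 180 := by
    rw [← hpow, div_le_div_iff₀ hN (by positivity)]
    linarith
  have h2 : S / N ≤ r ^ 175 := by
    rw [← hpow, div_le_div_iff₀ hN (by positivity)]
    linarith
  have h10 : 0 ≤ 4 * k / N := by positivity
  have h20 : 0 ≤ S / N := by positivity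
  rw [hpow] at hq
  rw [hpow, hq]
  have hr20 : r ^ 20 ≤ 1 / 4000 := by
    calc r ^ 20 ≤ r ^ 1 := pow_le_pow_of_le_one hr0.le (by linarith) (by norm_num)
      _ = r := pow_one r
      _ ≤ _ := hr1
  have hr95 : r ^ 95 ≤ 1 / 4000 := by
    calc r ^ 95 ≤ r ^ 1 := pow_le_pow_of_le_one hr0.le (by linarith) (by norm_num)
      _ = r := pow_one r
      _ ≤ _ := hr1
  have hr6 : r ^ 6 ≤ 1 / 4000 := by
    calc r ^ 6 ≤ r ^ 1 := pow_le_pow_of_le_one hr0.le (by linarith) (by norm_num)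
      _ = r := pow_one r
      _ ≤ _ := hr1
  set p : ℝ := r ^ 180 with hp
  have hp0 : 0 < p := by positivity
  have hp1 : p ≤ 1 := pow_le_one₀ hr0.le (by linarith)
  have hy : 8 * (r ^ 100) ^ 2 + 2 * r ^ 100 * (2 * S / N) ≤ p := by
    have e1 : 8 * (r ^ 100) ^ 2 = 8 * (p * r ^ 20) := by rw [hp]; ring
    have e2 : 2 * r ^ 100 * (2 * S / N) = 4 * (r ^ 100 * (S / N)) := by ring
    have e3 : r ^ 100 * (S / N) ≤ r ^ 100 * r ^ 175 :=
      mul_le_mul_of_nonneg_left h2 (by positivity)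
    have e4 : r ^ 100 * r ^ 175 = p * r ^ 95 := by rw [hp]; ring
    have e5 : p * r ^ 20 ≤ p * (1 / 4000) := mul_le_mul_of_nonneg_left hr20 hp0.le
    have e6 : p * r ^ 95 ≤ p * (1 / 4000) := mul_le_mul_of_nonneg_left hr95 hp0.le
    rw [e1, e2]
    linarith
  have hy0 : 0 ≤ 8 * (r ^ 100) ^ 2 + 2 * r ^ 100 * (2 * S / N) := by positivity
  have hmain : (1 + 4 * k / N) * (1 + 8 * (r ^ 100) ^ 2 + 2 * r ^ 100 * (2 * S / N))
      ≤ (1 + p) * (1 + p) := by
    apply mul_le_mul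
    · linarith
    · linarith
    · linarith
    · linarith
  have hfin : (1 + p) * (1 + p) ≤ 1 + r ^ 174 := by
    have e1 : p = r ^ 174 * r ^ 6 := by rw [hp]; ring
    have e2 : r ^ 174 * r ^ 6 ≤ r ^ 174 * (1 / 4000) :=
      mul_le_mul_of_nonneg_left hr6 (by positivity)
    have e3 : p * p ≤ p * 1 := mul_le_mul_of_nonneg_left hp1 hp0.le
    have e4 : 0 < r ^ 174 := by positivity
    nlinarith
  exact hmain.trans hfin

/-- The conditions for the initial state with `a = L^179`, `δ' = L^(-174)`. -/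
theorem iprm_exists (n L μ : ℕ) (h2 : 2 ≤ L) (hn : n ≤ 2 ^ L) (hL : L ^ 400 ≤ n)
    (hμ : μ * L ^ 177 ≤ n) (P : Prm n) (hPμ : P.μ = μ) (hJ : P.J = L) (hu : P.u = L ^ 17)
    (ht : P.t = 10 * L ^ 17) (hm : P.m = 10 * L ^ 17 + L ^ 24) (hT : P.T = L ^ 182)
    (hM : P.M = L ^ 13) (hv : P.v = n / L ^ 176) (hlam : P.lam = 1 / (L : ℝ) ^ 100)
    (hδ : P.δ = 4 / (L : ℝ) ^ 150) : IPrm P (L ^ 179) := by
  have hL4 : 4000 ≤ L := L_big L h2 (hL.trans hn)
  have hL0 : 0 < L := by omega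
  have hp : ∀ a b : ℕ, a ≤ b → L ^ a ≤ L ^ b := fun a b hab => Nat.pow_le_pow_right hL0 hab
  have hn0 : 0 < n := lt_of_lt_of_le (pow_pos hL0 400) hL
  -- the number of pool colours
  obtain ⟨k, hkdef⟩ : ∃ k, k = P.kA + 5 * P.kB := ⟨_, rfl⟩
  have hk : k = L ^ 182 * (L ^ 24 + 20 * L ^ 17 + 1) := by
    rw [hkdef]
    unfold Prm.kA Prm.kB Prm.r₀
    rw [ht, hm, hu, hT]
    have e1 : 10 * L ^ 17 + (10 * L ^ 17 + L ^ 24) + 1 - 5 * L ^ 17
        = 15 * L ^ 17 + L ^ 24 + 1 := by omega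
    rw [e1]
    ring
  have hk2 : k ≤ 2 * L ^ 206 := by
    have e1 : 20 * L ^ 17 + 1 ≤ L ^ 24 := by
      have e2 : 1 ≤ L ^ 17 := Nat.one_le_pow _ _ hL0
      calc 20 * L ^ 17 + 1 ≤ 21 * L ^ 17 := by omega
        _ ≤ L * L ^ 17 := Nat.mul_le_mul_right _ (by omega)
        _ = L ^ 18 := by ring
        _ ≤ L ^ 24 := hp _ _ (by norm_num)
    calc k = L ^ 182 * (L ^ 24 + (20 * L ^ 17 + 1)) := by rw [hk]; ring
      _ ≤ L ^ 182 * (L ^ 24 + L ^ 24) := Nat.mul_le_mul_left _ (by omega)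
      _ = 2 * L ^ 206 := by ring
  obtain ⟨hv1, hS, hk180⟩ := NumC_nat n L μ k P.v hL4 hL hμ hk2 hv
  have hv43 : 4 * L ^ 179 + 43 ≤ P.v := by
    rw [hv, Nat.le_div_iff_mul_le (pow_pos hL0 _)]
    have e1 : 43 ≤ 43 * L ^ 179 := by
      have := Nat.one_le_pow 179 L hL0
      omega
    calc (4 * L ^ 179 + 43) * L ^ 176 ≤ (4 * L ^ 179 + 43 * L ^ 179) * L ^ 176 :=
          Nat.mul_le_mul_right _ (by omega)
      _ = 47 * L ^ 355 := by ring
      _ ≤ L * L ^ 355 := Nat.mul_le_mul_right _ (by omega)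
      _ = L ^ 356 := by ring
      _ ≤ L ^ 400 := hp _ _ (by norm_num)
      _ ≤ n := hL
  refine ⟨by omega, ?_, Nat.one_le_pow _ _ hL0, ?_, by omega, ?_, ?_, ?_, ?_⟩
  · -- `av`
    rw [hJ]
    have e1 : 2 * (64 * (142 * L)) ≤ L ^ 3 := by
      have : 4000 * 4000 ≤ L * L := Nat.mul_le_mul hL4 hL4
      calc 2 * (64 * (142 * L)) = 18176 * L := by ring
        _ ≤ (L * L) * L := Nat.mul_le_mul_right _ (by omega)
        _ = L ^ 3 := by ring
    have e2 : 2 * (64 * (142 * L) * n) ≤ 2 * (L ^ 179 * P.v) := by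
      calc 2 * (64 * (142 * L) * n) = 2 * (64 * (142 * L)) * n := by ring
        _ ≤ L ^ 3 * n := Nat.mul_le_mul_right _ e1
        _ ≤ L ^ 3 * (2 * (L ^ 176 * P.v)) := Nat.mul_le_mul_left _ hv1
        _ = 2 * (L ^ 179 * P.v) := by ring
    omega
  · -- `hh`
    rw [hPμ, ← hkdef]
    have e1 : L ^ 177 * (16 * (μ + k)) ≤ L ^ 177 * P.v := by
      have e2 : 16 * (L ^ 177 * k) ≤ n := by
        calc 16 * (L ^ 177 * k) ≤ 16 * (L ^ 177 * (2 * L ^ 206)) := by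
              gcongr
          _ = 32 * L ^ 383 := by ring
          _ ≤ L * L ^ 383 := Nat.mul_le_mul_right _ (by omega)
          _ = L ^ 384 := by ring
          _ ≤ L ^ 400 := hp _ _ (by norm_num)
          _ ≤ n := hL
      have e3 : L ^ 177 * (16 * (μ + k)) = 16 * (μ * L ^ 177) + 16 * (L ^ 177 * k) := by ring
      have e4 : 2 * (17 * n) ≤ 2 * (L ^ 177 * P.v) := by
        calc 2 * (17 * n) = 34 * n := by ring
          _ ≤ L * n := Nat.mul_le_mul_right _ (by omega)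
          _ ≤ L * (2 * (L ^ 176 * P.v)) := Nat.mul_le_mul_left _ hv1
          _ = 2 * (L ^ 177 * P.v) := by ring
      omega
    exact Nat.le_of_mul_le_mul_left e1 (pow_pos hL0 _)
  · -- `aM`
    rw [hM, hT, ← pow_add]
    exact hp _ _ (by norm_num)
  · -- `kn`
    rw [← hkdef]
    calc 4 * k + 4 ≤ 4 * (2 * L ^ 206) + 4 := by omega
      _ ≤ 12 * L ^ 206 := by
          have := Nat.one_le_pow 206 L hL0
          omega
      _ ≤ L * L ^ 206 := Nat.mul_le_mul_right _ (by omega)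
      _ = L ^ 207 := by ring
      _ ≤ L ^ 400 := hp _ _ (by norm_num)
      _ ≤ n := hL
  · -- `lam1`
    rw [hlam]
    have e1 : (2 : ℝ) ≤ (L : ℝ) ^ 100 := by
      have e2 : 2 ≤ L ^ 100 := by
        calc 2 ≤ L := h2
          _ = L ^ 1 := (pow_one L).symm
          _ ≤ L ^ 100 := hp _ _ (by norm_num)
      exact_mod_cast e2
    rw [mul_one_div, div_le_one (by linarith)]
    exact e1
  · -- `hδ`
    have hlR : (4000 : ℝ) ≤ L := by exact_mod_cast hL4
    have hl0 : (0 : ℝ) < L := by linarith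
    refine ⟨1 / (L : ℝ) ^ 174, by positivity, ?_, ?_⟩
    · have hmain := NumC_real (n : ℝ) (L : ℝ) ((2 + μ + P.v + 2 * k : ℕ) : ℝ) (k : ℝ) P.lam hlR
        (by exact_mod_cast hn0) (by exact_mod_cast hS) (by exact_mod_cast hk180)
        (by positivity) (by positivity) hlam
      rw [← hkdef, hPμ]
      convert hmain using 4
      push_cast
      ring
    · rw [← hkdef, hT, hδ]
      have e1 : (k : ℝ) ≤ 2 * (L : ℝ) ^ 206 := by exact_mod_cast hk2
      push_cast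
      rw [mul_one_div, mul_div_assoc', div_le_div_iff₀ (by positivity) (by positivity)]
      calc (k : ℝ) * (L : ℝ) ^ 150 ≤ 2 * (L : ℝ) ^ 206 * (L : ℝ) ^ 150 :=
            mul_le_mul_of_nonneg_right e1 (by positivity)
        _ = 2 * (L : ℝ) ^ 356 := by ring
        _ ≤ 4 * (L : ℝ) ^ 356 := by
            have : (0 : ℝ) ≤ (L : ℝ) ^ 356 := by positivity
            linarith
        _ = (L : ℝ) ^ 182 * 4 * (L : ℝ) ^ 174 := by ring

end Pool.Agent.W_cd7020_h81b
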