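import Pool.Agent.W_cd7020_h81b.Top
import Pool.Agent.W_cd7020_h81b.NumB
import Pool.Agent.W_cd7020_h81b.NumC
import Pool.Agent.W_cd7020_h81.FinalC

/-!
# The final statements
-/

set_option autoImplicit false

namespace Pool.Agent.W_cd7020_h81b

open Finset Pool.Agent.W_cd7020_h81

/-- The main theorem: `Q` is a set of at least `n - 1` colours, every colour of `Q` misses at most
`μ` vertices and every vertex misses at most `μ` colours of `Q`, `μ ≤ n / L ^ 177`. -/
theorem main {V κ : Type*} [DecidableEq V] [DecidableEq κ] [Fintype V] (col : Sym2 V → κ)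
    (Q : Finset κ) (L μ : ℕ) (h2 : 2 ≤ L) (hn : Fintype.card V ≤ 2 ^ L)
    (hL : L ^ 400 ≤ Fintype.card V) (hμ : μ * L ^ 177 ≤ Fintype.card V) (hQ : GoodQ col Q μ) :
    ∃ (U : Finset V) (E : Finset (Sym2 V)), Cyc U E ∧ E.card = U.card ∧ Rb col E ∧
      cE col E ⊆ Q ∧ 3 ≤ U.card ∧ (U = univ ∨ Q.card < U.card + L ^ 207) := by
  obtain ⟨P, h1, hK, h3⟩ := prm_exists _ L μ h2 hn hL hμ
  obtain ⟨h4, h5, h6, h7, h8, h9, h10, h11, h12⟩ := h3
  have hI := iprm_exists _ L μ h2 hn hL hμ P h1 h4 h5 h6 h7 h8 h9 h10 h11 h12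
  subst h1
  obtain ⟨U, E, a1, a2, a3, a4, a5, a6⟩ := top col Q P _ hI hQ
  refine ⟨U, E, a1, a2, a3, a4, a5, ?_⟩
  rcases a6 with a6 | a6
  · exact Or.inl a6
  · right
    omega

/-- A rainbow cycle on `U` (`Cyc U E`, `|E| = |U| ≥ 3`) gives a path on the vertices of `U` whose
edges and the edge joining its ends have distinct colours: as `ham_tour`, with the list of `Cyc`
(`Walk_list` for general `U`, `list_walk`). -/
theorem walk_of {n : ℕ} {κ : Type*} [DecidableEq κ] (col : Sym2 (Fin n) → κ)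
    (U : Finset (Fin n)) (E : Finset (Sym2 (Fin n))) (hE : Cyc U E) (hc : E.card = U.card)
    (h3 : 3 ≤ U.card) (hR : Rb col E) :
    ∃ (x y : Fin n) (p : (⊤ : SimpleGraph (Fin n)).Walk x y), p.IsPath ∧ x ≠ y ∧
      (∀ z, z ∈ p.support ↔ z ∈ U) ∧ ((s(x, y) :: p.edges).map col).Nodup ∧
      ∀ e ∈ s(x, y) :: p.edges, e ∈ E := by
  obtain ⟨Q, hQ, hmem, hsub⟩ := hE
  have hlen : Q.length = U.card := by
    have h1 : Q.toFinset = U := by
      ext v
      rw [List.mem_toFinset, hmem]
    rw [← List.toFinset_card_of_nodup hQ, h1]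
  have hQ0 : Q ≠ [] := by
    rintro rfl
    rw [List.length_nil] at hlen
    omega
  have hce0 : (ce Q).Nodup := ce_nodup Q hQ (by omega)
  have hEQ : E = (ce Q).toFinset := by
    apply Finset.eq_of_subset_of_card_le
    · intro e he
      rw [List.mem_toFinset]
      exact hsub e he
    · rw [List.toFinset_card_of_nodup hce0, ce_length, hlen, hc]
  obtain ⟨a, l, rfl⟩ := List.exists_cons_of_ne_nil hQ0
  obtain ⟨v, w, hs, he⟩ := list_walk a l hQ
  have hne : (a :: l) ≠ [] := List.cons_ne_nil _ _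
  have hv : (a :: l).getLast hne = v := by
    have h1 := w.getLast_support
    simp only [hs] at h1
    exact h1
  have hl0 : l ≠ [] := by
    rintro rfl
    rw [List.length_singleton] at hlen
    omega
  have hva : a ≠ v := by
    rintro rfl
    rw [List.getLast_cons hl0] at hv
    exact (List.nodup_cons.1 hQ).1 (hv ▸ List.getLast_mem hl0)
  have hce : ce (a :: l) = pe (a :: l) ++ [s(v, a)] := by
    rw [ce_eq _ hne, hv]
    rfl
  have hnot : s(a, v) ∉ pe (a :: l) := by
    rw [hce, List.nodup_append] at hce0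
    intro h1
    exact hce0.2.2 _ h1 _ (List.mem_singleton_self _) Sym2.eq_swap
  have hin : ∀ z ∈ s(a, v) :: pe (a :: l), z ∈ E := by
    intro z hz
    rw [hEQ, List.mem_toFinset, hce, List.mem_append]
    rcases List.mem_cons.1 hz with h1 | h1
    · right
      rw [h1, Sym2.eq_swap]
      exact List.mem_singleton_self _
    · exact Or.inl h1
  refine ⟨a, v, w, ?_, hva, ?_, ?_, ?_⟩
  · rw [SimpleGraph.Walk.isPath_def, hs]
    exact hQ
  · intro z
    rw [hs]
    exact hmem z
  · rw [he]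
    exact List.Nodup.map_on (fun x hx y hy hxy => hR x (hin x hx) y (hin y hy) hxy)
      (List.nodup_cons.2 ⟨hnot, pe_nodup _ hQ⟩)
  · rw [he]
    exact hin

end Pool.Agent.W_cd7020_h81b
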