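import Pool.Agent.W_cd7020_h81b.GNb

/-!
# Classes of positions
-/

set_option autoImplicit false

namespace Pool.Agent.W_cd7020_h81b

open Finset Pool.Agent.W_cd7020_h81

variable {V : Type*} [DecidableEq V]

/-- The class of a vertex: its position on the cycle divided by `s`. -/
def clq (Q : List V) (s : ℕ) (x : V) : ℕ := Q.idxOf x / s

/-- The set of all classes. -/
def clI (Q : List V) (s : ℕ) : Finset ℕ := range (Q.length / s + 1)

theorem clq_mem (Q : List V) (s : ℕ) (x : V) : clq Q s x ∈ clI Q s := by
  unfold clq clI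
  rw [mem_range]
  exact Nat.lt_succ_of_le (Nat.div_le_div_right List.idxOf_le_length)

/-- Every class has at most `s` elements in `Q` (positions `q s, ..., q s + s - 1`). -/
theorem clq_card (Q : List V) (hQ : Q.Nodup) (s : ℕ) (hs : 1 ≤ s) (K : Finset ℕ) :
    (Q.toFinset.filter (fun y => clq Q s y ∈ K)).card ≤ K.card * s := by
  rw [mul_comm]
  refine Finset.card_le_mul_card_image_of_maps_to (f := fun y => clq Q s y) (t := K)
    (fun y hy => (mem_filter.1 hy).2) s (fun b _ => ?_)
  calc _ ≤ (range s).card := by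
        refine card_le_card_of_injOn (fun y => Q.idxOf y % s) ?_ ?_
        · intro y _
          rw [mem_coe, mem_range]
          exact Nat.mod_lt _ hs
        · intro y hy y' hy' he
          have hy1 := mem_filter.1 (mem_coe.1 hy)
          have hy1' := mem_filter.1 (mem_coe.1 hy')
          have hyQ : y ∈ Q := List.mem_toFinset.1 (mem_filter.1 hy1.1).1
          have e1 : Q.idxOf y / s = b := hy1.2
          have e2 : Q.idxOf y' / s = b := hy1'.2
          have e3 : Q.idxOf y % s = Q.idxOf y' % s := he
          have e4 : Q.idxOf y = Q.idxOf y' := by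
            rw [← Nat.div_add_mod (Q.idxOf y) s, ← Nat.div_add_mod (Q.idxOf y') s, e1, e2, e3]
          exact (List.idxOf_inj hyQ).1 e4
    _ = s := card_range s

/-- The neighbour with `σ = true` of the vertex at position `i`. -/
theorem GClA_nb_true (Q : List V) (hQ : Q.Nodup) (i : ℕ) (hi : i + 1 < Q.length) :
    nb Q (Q[i]'(by omega)) true = Q[i + 1]'hi := by
  have hm : Q[i]'(by omega) ∈ Q := List.getElem_mem _
  have h1 := nb_true_idx Q hQ _ hm
  have h2 : Q.idxOf (Q[i]'(by omega)) = i := List.Nodup.idxOf_getElem hQ i (by omega)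
  rw [h2, Nat.mod_eq_of_lt hi] at h1
  have hn : nb Q (Q[i]'(by omega)) true ∈ Q := (nb_mem Q _ true).2 hm
  have h3 : Q.idxOf (Q[i + 1]'hi) = i + 1 := List.Nodup.idxOf_getElem hQ (i + 1) hi
  exact (List.idxOf_inj hn).1 (h1.trans h3.symm)

theorem GClA_walk (Q : List V) (hQ : Q.Nodup) (s : ℕ) (T : Finset V) (Bad : Finset ℕ)
    (h : ∀ x ∈ Q, Q.idxOf x + 1 < Q.length → clq Q s x = clq Q s (nb Q x true) →
      clq Q s x ∉ Bad → (x ∈ T ↔ nb Q x true ∈ T)) (i : ℕ) (hb : i / s ∉ Bad) (n : ℕ) :
    ∀ (hi : i + n < Q.length), i / s = (i + n) / s →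
      (Q[i]'(by omega) ∈ T ↔ Q[i + n]'hi ∈ T) := by
  induction n with
  | zero => intro hi _; exact Iff.rfl
  | succ n ih =>
    intro hi he
    have h0 : i + n < Q.length := by omega
    have h1 : i / s ≤ (i + n) / s := Nat.div_le_div_right (by omega)
    have h2 : (i + n) / s ≤ (i + (n + 1)) / s := Nat.div_le_div_right (by omega)
    have h3 : i / s = (i + n) / s := by omega
    have hi' : i + n + 1 < Q.length := by omega
    refine (ih h0 h3).trans ?_
    have hid : Q.idxOf (Q[i + n]'h0) = i + n := List.Nodup.idxOf_getElem hQ (i + n) h0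
    have hid' : Q.idxOf (Q[i + n + 1]'hi') = i + n + 1 :=
      List.Nodup.idxOf_getElem hQ (i + n + 1) hi'
    have hnb := GClA_nb_true Q hQ (i + n) hi'
    have h4 := h (Q[i + n]'h0) (List.getElem_mem _) (by rw [hid]; exact hi')
      (by
        unfold clq
        rw [hnb, hid, hid']
        have h5 : i + (n + 1) = i + n + 1 := by omega
        rw [h5] at he
        omega)
      (by
        unfold clq
        rw [hid, ← h3]
        exact hb)
    rw [hnb] at h4
    exact h4

/-- If the set `T` is closed under going to the next or previous position inside the classes not in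
`Bad`, then every class not in `Bad` which meets `T` is contained in `T`. Walk from the position of
`x` to the position of `y`, all positions are in the same class. -/
theorem class_closed (Q : List V) (hQ : Q.Nodup) (s : ℕ) (T : Finset V) (Bad : Finset ℕ)
    (h : ∀ x ∈ Q, Q.idxOf x + 1 < Q.length → clq Q s x = clq Q s (nb Q x true) →
      clq Q s x ∉ Bad → (x ∈ T ↔ nb Q x true ∈ T))
    (x y : V) (hx : x ∈ Q) (hy : y ∈ Q) (hxy : clq Q s x = clq Q s y) (hb : clq Q s x ∉ Bad)
    (hxT : x ∈ T) : y ∈ T := by
  have hxl : Q.idxOf x < Q.length := List.idxOf_lt_length_iff.2 hx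
  have hyl : Q.idxOf y < Q.length := List.idxOf_lt_length_iff.2 hy
  have hxe : Q[Q.idxOf x]'hxl = x := List.getElem_idxOf hxl
  have hye : Q[Q.idxOf y]'hyl = y := List.getElem_idxOf hyl
  unfold clq at hxy hb
  rcases Nat.le_total (Q.idxOf x) (Q.idxOf y) with hle | hle
  · obtain ⟨n, hn⟩ := Nat.exists_eq_add_of_le hle
    have hw := GClA_walk Q hQ s T Bad h (Q.idxOf x) hb n (by omega) (by rw [← hn]; exact hxy)
    have he : Q[Q.idxOf x + n]'(by omega) = y := by
      have : Q[Q.idxOf x + n]'(by omega) = Q[Q.idxOf y]'hyl := by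
        congr 1
        exact hn.symm
      rw [this, hye]
    rw [he, hxe] at hw
    exact hw.1 hxT
  · obtain ⟨n, hn⟩ := Nat.exists_eq_add_of_le hle
    have hw := GClA_walk Q hQ s T Bad h (Q.idxOf y) (by rw [← hxy]; exact hb) n (by omega)
      (by rw [← hn]; exact hxy.symm)
    have he : Q[Q.idxOf y + n]'(by omega) = x := by
      have : Q[Q.idxOf y + n]'(by omega) = Q[Q.idxOf x]'hxl := by
        congr 1
        exact hn.symm
      rw [this, hxe]
    rw [he, hye] at hw
    exact hw.2 hxT

theorem GClA_iter_true (Q : List V) (hQ : Q.Nodup) (y : V) (hy : y ∈ Q) (k : ℕ) :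
    Q.idxOf y + k < Q.length → (fun v => nb Q v true)^[k] y ∈ Q ∧
      Q.idxOf ((fun v => nb Q v true)^[k] y) = Q.idxOf y + k := by
  induction k with
  | zero => intro _; exact ⟨hy, rfl⟩
  | succ k ih =>
    intro hk
    obtain ⟨h1, h2⟩ := ih (by omega)
    rw [Function.iterate_succ_apply']
    refine ⟨(nb_mem Q _ true).2 h1, ?_⟩
    change Q.idxOf (nb Q ((fun v => nb Q v true)^[k] y) true) = _
    rw [nb_true_idx Q hQ _ h1, h2, Nat.mod_eq_of_lt (by omega)]
    omega

theorem GClA_iter_false (Q : List V) (hQ : Q.Nodup) (y : V) (hy : y ∈ Q) (k : ℕ) :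
    k ≤ Q.idxOf y → (fun v => nb Q v false)^[k] y ∈ Q ∧
      Q.idxOf ((fun v => nb Q v false)^[k] y) = Q.idxOf y - k := by
  induction k with
  | zero => intro _; exact ⟨hy, rfl⟩
  | succ k ih =>
    intro hk
    obtain ⟨h1, h2⟩ := ih (by omega)
    have hyl : Q.idxOf y < Q.length := List.idxOf_lt_length_iff.2 hy
    rw [Function.iterate_succ_apply']
    refine ⟨(nb_mem Q _ false).2 h1, ?_⟩
    change Q.idxOf (nb Q ((fun v => nb Q v false)^[k] y) false) = _
    rw [nb_false_idx Q hQ _ h1, h2]
    have h3 : Q.idxOf y - k + Q.length - 1 = (Q.idxOf y - (k + 1)) + Q.length := by omega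
    rw [h3, Nat.add_mod_right, Nat.mod_eq_of_lt (by omega)]

/-- Going `k` steps from `y`: the class changes by at most one or `y` is near the ends of the
list. If `σ = true` and `Q.idxOf y + k < Q.length` then the position of the new vertex is
`Q.idxOf y + k`; if `σ = false` and `k ≤ Q.idxOf y` it is `Q.idxOf y - k`. -/
theorem near_class (Q : List V) (hQ : Q.Nodup) (s k : ℕ) (hk : k ≤ s) (hs : 1 ≤ s) (y : V)
    (hy : y ∈ Q) (σ : Bool) :
    clq Q s y = 0 ∨ Q.length / s ≤ clq Q s y + 1 ∨
      (clq Q s ((fun v => nb Q v σ)^[k] y) ≤ clq Q s y + 1 ∧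
        clq Q s y ≤ clq Q s ((fun v => nb Q v σ)^[k] y) + 1) := by
  cases σ with
  | true =>
    by_cases hlt : Q.idxOf y + k < Q.length
    · right; right
      have h2 := (GClA_iter_true Q hQ y hy k hlt).2
      unfold clq
      rw [h2]
      constructor
      · calc (Q.idxOf y + k) / s ≤ (Q.idxOf y + s) / s := Nat.div_le_div_right (by omega)
          _ = Q.idxOf y / s + 1 := Nat.add_div_right _ hs
      · exact (Nat.div_le_div_right (by omega)).trans (Nat.le_succ _)
    · right; left
      unfold clq
      calc Q.length / s ≤ (Q.idxOf y + s) / s := Nat.div_le_div_right (by omega)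
        _ = Q.idxOf y / s + 1 := Nat.add_div_right _ hs
  | false =>
    by_cases hle : k ≤ Q.idxOf y
    · right; right
      have h2 := (GClA_iter_false Q hQ y hy k hle).2
      unfold clq
      rw [h2]
      constructor
      · exact (Nat.div_le_div_right (by omega)).trans (Nat.le_succ _)
      · calc Q.idxOf y / s ≤ (Q.idxOf y - k + s) / s := Nat.div_le_div_right (by omega)
          _ = (Q.idxOf y - k) / s + 1 := Nat.add_div_right _ hs
    · left
      unfold clq
      exact Nat.div_eq_of_lt (by omega)

end Pool.Agent.W_cd7020_h81b
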