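import Pool.Agent.W_cd7020_h81b.GNc

/-!
# The first path
-/

set_option autoImplicit false

namespace Pool.Agent.W_cd7020_h81b

open Finset Pool.Agent.W_cd7020_h81

variable {V : Type*} [DecidableEq V]

/-- If the list `P` has the same cyclic pairs as `Q`, first vertex `z` and last vertex `nb Q z τ`,
then its pairs are the cyclic pairs of `Q` other than `s(z, nb Q z τ)`. (`ce_eq`, `ce_nodup`.) -/
theorem ini_pe (Q : List V) (hQ : Q.Nodup) (h3 : 3 ≤ Q.length) (z : V) (hz : z ∈ Q) (τ : Bool) :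
    (ini Q z τ).Perm Q ∧ (ini Q z τ).head? = some z ∧
      ∀ e, e ∈ pe (ini Q z τ) ↔ e ∈ ce Q ∧ e ≠ s(z, nb Q z τ) := by
  have hex : ∃ P : List V, P.Perm Q ∧ P.head? = some z ∧ P.getLast? = some (nb Q z τ) ∧
      ∀ e, e ∈ ce P ↔ e ∈ ce Q := by
    have h1 : s(nb Q z τ, z) ∈ ce Q := by
      rw [Sym2.eq_swap]
      exact nb_ce Q hQ z hz τ
    obtain ⟨P, h2, h4, h5, h6, h7, h8⟩ := ce_rotate_to Q _ _ h1
    exact ⟨P, (List.perm_ext_iff_of_nodup (h4 hQ) hQ).2 h2, h7, h8, h6⟩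
  have hini : (ini Q z τ).Perm Q ∧ (ini Q z τ).head? = some z ∧
      (ini Q z τ).getLast? = some (nb Q z τ) ∧ ∀ e, e ∈ ce (ini Q z τ) ↔ e ∈ ce Q := by
    rw [ini, dif_pos hex]
    exact hex.choose_spec
  obtain ⟨h1, h2, h4, h5⟩ := hini
  refine ⟨h1, h2, fun e => ?_⟩
  have hne : ini Q z τ ≠ [] := by
    intro h6
    rw [h6] at h2
    simp at h2
  have hnd : (ini Q z τ).Nodup := h1.nodup_iff.2 hQ
  have hlen : (ini Q z τ).length = Q.length := h1.length_eq
  have hce : ce (ini Q z τ) = pe (ini Q z τ) ++ [s(nb Q z τ, z)] := by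
    rw [ce_eq _ hne]
    have h6 : (ini Q z τ).getLast hne = nb Q z τ := by
      rw [List.getLast?_eq_getLast_of_ne_nil hne] at h4
      exact Option.some.inj h4
    have h7 : (ini Q z τ).head hne = z := by
      rw [List.head?_eq_head hne] at h2
      exact Option.some.inj h2
    rw [h6, h7]
  have hnd2 : (ce (ini Q z τ)).Nodup := ce_nodup _ hnd (by omega)
  rw [← h5 e, hce, List.mem_append, List.mem_singleton, Sym2.eq_swap (a := z)]
  rw [hce, List.nodup_append] at hnd2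
  constructor
  · intro h6
    refine ⟨Or.inl h6, fun h7 => ?_⟩
    exact hnd2.2.2 _ h6 _ (List.mem_singleton_self _) h7
  · rintro ⟨h6 | h6, h7⟩
    · exact h6
    · exact absurd h6 h7

end Pool.Agent.W_cd7020_h81b
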