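import Pool.Agent.W_cd7020_h81b.GDefs

/-!
# One step of the surgery: existence, order
-/

set_option autoImplicit false

namespace Pool.Agent.W_cd7020_h81b

open Finset Pool.Agent.W_cd7020_h81

variable {V : Type*} [DecidableEq V]

/-- A step is possible. If `s(y, x)` is a pair of the path, then it is a pair `x, y` (rotation) or
`y, x` (split; `y` is not the first vertex). If it is a cyclic pair of a cycle `C`, use
`ce_rotate_to`. -/
theorem step_exists (st : GS V) (hnd : (st.p ++ st.cs.flatten).Nodup) (y x z : V)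
    (hz : st.p.head? = some z) (hyz : y ≠ z) (h : s(y, x) ∈ ae st) :
    ∃ st', StepRel st y x st' := by
  unfold ae at h
  rw [List.mem_append] at h
  rcases h with h | h
  · obtain ⟨l₁, a, b, l₂, hl, hab⟩ := (mem_pe _ _).mp h
    rcases Sym2.eq_iff.mp hab with ⟨rfl, rfl⟩ | ⟨rfl, rfl⟩
    · refine ⟨⟨x :: l₂, (l₁ ++ [y]) :: st.cs⟩, Or.inr (Or.inl ⟨l₁, l₂, hl, ?_, rfl⟩)⟩
      rintro rfl
      rw [hl] at hz
      simp only [List.nil_append, List.head?_cons, Option.some.injEq] at hz
      exact hyz hz
    · exact ⟨⟨x :: l₁.reverse ++ y :: l₂, st.cs⟩, Or.inl ⟨l₁, l₂, hl, rfl⟩⟩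
  · obtain ⟨C, hC, hCe⟩ := List.mem_flatMap.mp h
    obtain ⟨D, h1, h2, h3, h4, h5, h6⟩ := ce_rotate_to C y x hCe
    have hnC : C.Nodup := by
      have hfl : st.cs.flatten.Nodup := (List.nodup_append.mp hnd).2.1
      exact (List.nodup_flatten.mp hfl).1 C hC
    have hperm : D.Perm C := (List.perm_ext_iff_of_nodup (h2 hnC) hnC).mpr h1
    exact ⟨⟨D ++ st.p, st.cs.erase C⟩, Or.inr (Or.inr ⟨C, D, hC, hperm, h5, h6, h4, rfl⟩)⟩

theorem step_perm (st st' : GS V) (y x : V) (h : StepRel st y x st') :
    (st'.p ++ st'.cs.flatten).Perm (st.p ++ st.cs.flatten) := by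
  rcases h with ⟨A, B, hp, rfl⟩ | ⟨A, B, hp, _, rfl⟩ | ⟨C, D, hC, hD, _, _, _, rfl⟩
  · rw [hp]
    refine List.Perm.append_right _ ?_
    have h1 : (A ++ x :: y :: B).Perm (x :: (A ++ y :: B)) := List.perm_middle
    have h2 : (x :: (A.reverse ++ y :: B)).Perm (x :: (A ++ y :: B)) :=
      List.Perm.cons x (List.Perm.append_right _ (List.reverse_perm A))
    exact h2.trans h1.symm
  · rw [hp]
    change ((x :: B) ++ ((A ++ [y]) :: st.cs).flatten).Perm _
    rw [List.flatten_cons, ← List.append_assoc]
    refine List.Perm.append_right _ ?_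
    have h1 : ((x :: B) ++ (A ++ [y])).Perm ((A ++ [y]) ++ (x :: B)) := List.perm_append_comm
    have h2 : (A ++ [y]) ++ (x :: B) = A ++ y :: x :: B := by simp
    rw [h2] at h1
    exact h1
  · change ((D ++ st.p) ++ (st.cs.erase C).flatten).Perm (st.p ++ st.cs.flatten)
    have h1 : st.cs.flatten.Perm (C ++ (st.cs.erase C).flatten) := by
      have := (List.perm_cons_erase hC).flatten
      rwa [List.flatten_cons] at this
    have h2 : ((D ++ st.p) ++ (st.cs.erase C).flatten).Perm
        ((st.p ++ C) ++ (st.cs.erase C).flatten) := by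
      refine List.Perm.append_right _ ?_
      exact (List.perm_append_comm).trans (List.Perm.append_left _ hD)
    refine h2.trans ?_
    rw [List.append_assoc]
    exact List.Perm.append_left _ h1.symm

theorem step_head (st st' : GS V) (y x : V) (h : StepRel st y x st') :
    st'.p.head? = some x := by
  rcases h with ⟨A, B, _, rfl⟩ | ⟨A, B, _, _, rfl⟩ | ⟨C, D, _, _, hx, _, _, rfl⟩
  · rfl
  · rfl
  · change (D ++ st.p).head? = some x
    rw [List.head?_append, hx]
    rfl

/-- In the case of a split `A ++ [y]` has length at least `3`, since otherwise `A = [z]` and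
`s(z, y)` would be a pair of the path. -/
theorem step_len (st st' : GS V) (y x z : V) (h : StepRel st y x st')
    (hz : st.p.head? = some z) (hzy : s(z, y) ∉ ae st)
    (hlen : ∀ C ∈ st.cs, 3 ≤ C.length) : ∀ C ∈ st'.cs, 3 ≤ C.length := by
  rcases h with ⟨A, B, _, rfl⟩ | ⟨A, B, hp, hA, rfl⟩ | ⟨C, D, hC, _, _, _, _, rfl⟩
  · exact hlen
  · intro C hC
    change C ∈ (A ++ [y]) :: st.cs at hC
    rcases List.mem_cons.mp hC with rfl | hC
    · cases A with
      | nil => exact absurd rfl hA
      | cons a A =>
        cases A with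
        | nil =>
          exfalso
          apply hzy
          rw [hp] at hz
          simp only [List.cons_append, List.head?_cons, Option.some.injEq] at hz
          subst hz
          unfold ae
          rw [List.mem_append]
          left
          rw [hp]
          exact (mem_pe _ _).mpr ⟨[], a, y, x :: B, rfl, rfl⟩
        | cons b A =>
          simp only [List.length_append, List.length_cons, List.length_nil]
          omega
    · exact hlen C hC
  · intro C' hC'
    exact hlen C' (List.mem_of_mem_erase hC')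

end Pool.Agent.W_cd7020_h81b
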