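import Pool.Agent.W_cd7020_h81b.GDefs

/-!
# One step of the surgery: pairs after a merge
-/

set_option autoImplicit false

namespace Pool.Agent.W_cd7020_h81b

open Finset Pool.Agent.W_cd7020_h81

variable {V : Type*} [DecidableEq V]

theorem gstc_ce_mem (l : List V) (e : Sym2 V) (he : e ∈ ce l) (v : V) (hv : v ∈ e) : v ∈ l := by
  have h := Pe_mem (l ++ l.take 1) e he v hv
  rw [List.mem_append] at h
  exact h.elim id (fun h => List.mem_of_mem_take h)

theorem gstc_flat_mem (cs : List (List V)) (e : Sym2 V) (he : e ∈ cs.flatMap ce) (v : V)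
    (hv : v ∈ e) : v ∈ cs.flatten := by
  rw [List.mem_flatMap] at he
  obtain ⟨C, hC, heC⟩ := he
  exact List.mem_flatten.2 ⟨C, hC, gstc_ce_mem C e heC v hv⟩

/-- The pairs after a merge: `ce C = ce D = pe D ++ [s(y, x)]` (as sets), `s(y, x) ∉ pe D` as `C` has
at least three vertices (`ce_nodup`). -/
theorem step_ae_merge (st : GS V) (hnd : (st.p ++ st.cs.flatten).Nodup)
    (hlen : ∀ C ∈ st.cs, 3 ≤ C.length) (y x z : V) (C D : List V) (hC : C ∈ st.cs)
    (hD : D.Perm C) (hx : D.head? = some x) (hy : D.getLast? = some y)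
    (hce : ∀ e, e ∈ ce D ↔ e ∈ ce C) (hz : st.p.head? = some z) (e : Sym2 V) :
    e ∈ ae (⟨D ++ st.p, st.cs.erase C⟩ : GS V) ↔
      (e ∈ ae st ∧ e ≠ s(y, x)) ∨ e = s(z, y) := by
  have hdis := List.disjoint_of_nodup_append hnd
  have hndf : st.cs.flatten.Nodup := (List.nodup_append.1 hnd).2.1
  have hperm : st.cs.Perm (C :: st.cs.erase C) := List.perm_cons_erase hC
  have hndf2 : (C ++ (st.cs.erase C).flatten).Nodup := by
    have h1 : st.cs.flatten.Perm (C :: st.cs.erase C).flatten := hperm.flatten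
    rw [List.flatten_cons] at h1
    exact h1.nodup_iff.1 hndf
  have hdis2 := List.disjoint_of_nodup_append hndf2
  have hndC : C.Nodup := (List.nodup_append.1 hndf2).1
  have hndD : D.Nodup := hD.nodup_iff.2 hndC
  have hDne : D ≠ [] := by
    rintro rfl
    simp at hx
  have hpne : st.p ≠ [] := by
    intro h
    rw [h] at hz
    simp at hz
  have hDlast : D.getLast hDne = y := by
    rw [List.getLast?_eq_some_getLast hDne] at hy
    exact Option.some.inj hy
  have hDhead : D.head hDne = x := by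
    rw [List.head?_eq_some_head hDne] at hx
    exact Option.some.inj hx
  have hphead : st.p.head hpne = z := by
    rw [List.head?_eq_some_head hpne] at hz
    exact Option.some.inj hz
  have hpe : pe (D ++ st.p) = pe D ++ s(z, y) :: pe st.p := by
    rw [pe_append' _ _ hDne hpne, hDlast, hphead, Sym2.eq_swap]
  have hceD : ce D = pe D ++ [s(y, x)] := by
    rw [ce_eq _ hDne, hDlast, hDhead]
  have hxC : x ∈ C := hD.mem_iff.1 (by rw [← hDhead]; exact List.head_mem hDne)
  have hlenD : 3 ≤ D.length := by rw [hD.length_eq]; exact hlen C hC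
  have hceDn : (ce D).Nodup := ce_nodup D hndD hlenD
  rw [hceD] at hceDn
  have hnd3 := List.disjoint_of_nodup_append hceDn
  have hn1 : ∀ e, e ∈ pe D → e ≠ s(y, x) := by
    rintro e he rfl
    exact hnd3 he (by simp)
  have hxf : x ∈ st.cs.flatten := List.mem_flatten.2 ⟨C, hC, hxC⟩
  have hn2 : ∀ e, e ∈ pe st.p → e ≠ s(y, x) := by
    rintro e he rfl
    exact hdis (Pe_mem _ _ he x (Sym2.mem_mk_right y x)) hxf
  have hn3 : ∀ e, e ∈ (st.cs.erase C).flatMap ce → e ≠ s(y, x) := by
    rintro e he rfl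
    exact hdis2 hxC (gstc_flat_mem _ _ he x (Sym2.mem_mk_right y x))
  have hfl : ∀ e, e ∈ st.cs.flatMap ce ↔ (e ∈ pe D ∨ e = s(y, x)) ∨
      e ∈ (st.cs.erase C).flatMap ce := by
    intro e
    have h1 : e ∈ st.cs.flatMap ce ↔ e ∈ (C :: st.cs.erase C).flatMap ce :=
      (hperm.flatMap_right ce).mem_iff
    rw [h1, List.flatMap_cons, List.mem_append, ← hce e, hceD, List.mem_append,
      List.mem_singleton]
  unfold ae
  simp only [List.mem_append, hpe, List.mem_cons]
  rw [hfl e]
  constructor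
  · rintro ((h | h | h) | h)
    · exact Or.inl ⟨Or.inr (Or.inl (Or.inl h)), hn1 e h⟩
    · exact Or.inr h
    · exact Or.inl ⟨Or.inl h, hn2 e h⟩
    · exact Or.inl ⟨Or.inr (Or.inr h), hn3 e h⟩
  · rintro (⟨h | (h | h) | h, hne⟩ | h)
    · exact Or.inl (Or.inr (Or.inr h))
    · exact Or.inl (Or.inl h)
    · exact absurd h hne
    · exact Or.inr h
    · exact Or.inl (Or.inr (Or.inl h))

end Pool.Agent.W_cd7020_h81b
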