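import Pool.Agent.W_cd7020_h81b.GStB
import Pool.Agent.W_cd7020_h81b.GStC

/-!
# One step of the surgery: cycles
-/

set_option autoImplicit false

namespace Pool.Agent.W_cd7020_h81b

open Finset Pool.Agent.W_cd7020_h81

variable {V : Type*} [DecidableEq V]

theorem step_ae (st st' : GS V) (hnd : (st.p ++ st.cs.flatten).Nodup)
    (hlen : ∀ C ∈ st.cs, 3 ≤ C.length) (y x z : V) (h : StepRel st y x st')
    (hz : st.p.head? = some z) (e : Sym2 V) :
    e ∈ ae st' ↔ (e ∈ ae st ∧ e ≠ s(y, x)) ∨ e = s(z, y) := by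
  rcases h with ⟨A, B, hp, rfl⟩ | ⟨A, B, hp, hA, rfl⟩ | ⟨C, D, hC, hD, hx, hy, hce, rfl⟩
  · exact step_ae_rot st hnd y x z A B hp hz e
  · exact step_ae_split st hnd y x z A B hA hp hz e
  · exact step_ae_merge st hnd hlen y x z C D hC hD hx hy hce hz e

/-- The cycles after a step: old cycles which do not contain `y`, or the new one. -/
theorem step_cs (st st' : GS V) (hnd : (st.p ++ st.cs.flatten).Nodup)
    (hlen : ∀ C ∈ st.cs, 3 ≤ C.length) (y x : V) (h : StepRel st y x st') (C : List V)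
    (hC : C ∈ st'.cs) :
    (C ∈ st.cs ∧ y ∉ C) ∨ ∃ A B, st.p = A ++ y :: x :: B ∧ A ≠ [] ∧ C = A ++ [y] := by
  have hdis : ∀ v ∈ st.p, ∀ C' ∈ st.cs, v ∉ C' := by
    intro v hv C' hC' hvC
    exact (List.nodup_append.1 hnd).2.2 v hv v (List.mem_flatten.2 ⟨C', hC', hvC⟩) rfl
  rcases h with ⟨A, B, hp, rfl⟩ | ⟨A, B, hp, hA, rfl⟩ | ⟨C₀, D, hC₀, hD, hx, hy, hce, rfl⟩
  · left
    have hC' : C ∈ st.cs := hC
    exact ⟨hC', hdis y (by rw [hp]; simp) C hC'⟩
  · rcases List.mem_cons.1 (show C ∈ (A ++ [y]) :: st.cs from hC) with h | h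
    · exact Or.inr ⟨A, B, hp, hA, h⟩
    · exact Or.inl ⟨h, hdis y (by rw [hp]; simp) C h⟩
  · left
    have hC' : C ∈ st.cs.erase C₀ := hC
    refine ⟨List.mem_of_mem_erase hC', fun hyC => ?_⟩
    have hyC₀ : y ∈ C₀ := hD.mem_iff.1 (List.mem_of_getLast? hy)
    have hfl : st.cs.flatten.Nodup := (List.nodup_append.1 hnd).2.1
    have hperm : st.cs.flatten.Perm (C₀ :: st.cs.erase C₀).flatten :=
      (List.perm_cons_erase hC₀).flatten
    have h1 : (C₀ ++ (st.cs.erase C₀).flatten).Nodup := by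
      have h2 := hperm.nodup_iff.1 hfl
      rwa [List.flatten_cons] at h2
    exact (List.nodup_append.1 h1).2.2 y hyC₀ y (List.mem_flatten.2 ⟨C, hC', hyC⟩) rfl

end Pool.Agent.W_cd7020_h81b
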