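import Pool.Agent.W_cd7020_h81b.GInA
import Pool.Agent.W_cd7020_h81b.GIni
import Pool.Agent.W_cd7020_h81b.GStA
import Pool.Agent.W_cd7020_h81b.GStD

/-!
# The invariants
-/

set_option autoImplicit false

namespace Pool.Agent.W_cd7020_h81b

open Finset Pool.Agent.W_cd7020_h81

variable {V κ : Type*} [DecidableEq V] [DecidableEq κ] [Fintype V]

/-- If the invariants hold after `j` moves then the step number `j` is possible: `sta (j + 1)` is
related to `sta j` by `StepRel` (`step_exists`: `s(yy j, zz (j + 1))` is `ed (j + 1)`, a cyclic pair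
of `Q`, different from `ed i` for `i ≤ j`). -/
theorem sta_step (col : Sym2 V → κ) (Q : List V) (hQ : Q.Nodup) (mv : ℕ → κ × Bool)
    (z : V) (τ : Bool) (J j : ℕ) (hj : j < J) (h : Alv col Q mv z τ J)
    (hI : GInv col Q mv z τ j) :
    StepRel (sta col Q mv z τ j) (yy col Q mv z j) (zz col Q mv z (j + 1))
      (sta col Q mv z τ (j + 1)) := by
  have hnd : ((sta col Q mv z τ j).p ++ (sta col Q mv z τ j).cs.flatten).Nodup :=
    hI.perm.nodup_iff.2 hQ
  have hmem : s(yy col Q mv z j, zz col Q mv z (j + 1)) ∈ ae (sta col Q mv z τ j) := by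
    rw [hI.ae]
    left
    refine ⟨ed_ce col Q hQ mv z τ J (j + 1) hj h, fun i hi => ?_⟩
    exact (h.cut i (j + 1) (by omega) hj).symm
  have hex := step_exists (sta col Q mv z τ j) hnd (yy col Q mv z j) (zz col Q mv z (j + 1))
    (zz col Q mv z j) hI.head (h.ne j hj) hmem
  have h1 : sta col Q mv z τ (j + 1) =
      nxt (sta col Q mv z τ j) (yy col Q mv z j) (zz col Q mv z (j + 1)) := rfl
  rw [h1]
  unfold nxt
  rw [dif_pos hex]
  exact hex.choose_spec

/-- The new edge is not a pair of the old structure: its colour `(mv j).1` is not the colour of a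
cyclic pair of `Q` and differs from the colours of the earlier moves. -/
theorem new_not (col : Sym2 V → κ) (Q : List V) (mv : ℕ → κ × Bool)
    (hmv : ∀ j, ∀ e ∈ ce Q, col e ≠ (mv j).1) (z : V) (τ : Bool) (J j : ℕ) (hj : j < J)
    (h : Alv col Q mv z τ J) (hI : GInv col Q mv z τ j) :
    s(zz col Q mv z j, yy col Q mv z j) ∉ ae (sta col Q mv z τ j) := by
  intro hc
  rw [hI.ae] at hc
  have h1 := new_col col Q mv z τ J j hj h
  rcases hc with ⟨hc, -⟩ | ⟨i, hi, hc⟩
  · exact hmv j _ hc h1
  · have h2 := new_col col Q mv z τ J i (by omega) h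
    rw [← hc, h1] at h2
    exact h.colr i j hi hj h2.symm

/-- The invariants hold. Induction on `j`; `j = 0` is `ini_pe`; the step is `sta_step`, `step_perm`,
`step_head`, `step_len`, `step_ae`, `new_not`. -/
theorem inv_all (col : Sym2 V → κ) (Q : List V) (hQ : Q.Nodup) (h3 : 3 ≤ Q.length)
    (mv : ℕ → κ × Bool) (hmv : ∀ j, ∀ e ∈ ce Q, col e ≠ (mv j).1) (z : V) (τ : Bool) (J j : ℕ)
    (hj : j ≤ J) (h : Alv col Q mv z τ J) : GInv col Q mv z τ j := by
  induction j with
  | zero =>
    obtain ⟨h1, h2, h4⟩ := ini_pe Q hQ h3 z h.start τ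
    refine ⟨?_, ?_, ?_, ?_⟩
    · change (ini Q z τ ++ ([] : List (List V)).flatten).Perm Q
      simpa using h1
    · exact h2
    · intro C hC
      change C ∈ ([] : List (List V)) at hC
      simp at hC
    · intro e
      change e ∈ pe (ini Q z τ) ++ ([] : List (List V)).flatMap ce ↔ _
      rw [List.flatMap_nil, List.append_nil, h4]
      constructor
      · rintro ⟨ha, hb⟩
        left
        refine ⟨ha, fun i hi => ?_⟩
        have hi0 : i = 0 := by omega
        subst hi0
        exact hb
      · rintro (⟨ha, hb⟩ | ⟨i, hi, -⟩)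
        · exact ⟨ha, hb 0 le_rfl⟩
        · omega
  | succ j ih =>
    have hI := ih (by omega)
    have hS := sta_step col Q hQ mv z τ J j hj h hI
    have hnd : ((sta col Q mv z τ j).p ++ (sta col Q mv z τ j).cs.flatten).Nodup :=
      hI.perm.nodup_iff.2 hQ
    refine ⟨(step_perm _ _ _ _ hS).trans hI.perm, step_head _ _ _ _ hS, ?_, ?_⟩
    · exact step_len _ _ _ _ _ hS hI.head (new_not col Q mv hmv z τ J j hj h hI) hI.len
    · intro e
      rw [step_ae _ _ hnd hI.len _ _ _ hS hI.head e, hI.ae]
      constructor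
      · rintro (⟨⟨ha, hb⟩ | ⟨i, hi, ha⟩, hc⟩ | ha)
        · left
          refine ⟨ha, fun i hi => ?_⟩
          rcases Nat.lt_or_ge i (j + 1) with h1 | h1
          · exact hb i (by omega)
          · have hi0 : i = j + 1 := by omega
            subst hi0
            exact hc
        · exact Or.inr ⟨i, by omega, ha⟩
        · exact Or.inr ⟨j, by omega, ha⟩
      · rintro (⟨ha, hb⟩ | ⟨i, hi, ha⟩)
        · exact Or.inl ⟨Or.inl ⟨ha, fun i hi => hb i (by omega)⟩, hb (j + 1) le_rfl⟩
        · rcases Nat.lt_or_ge i j with h1 | h1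
          · left
            refine ⟨Or.inr ⟨i, h1, ha⟩, ?_⟩
            intro hc
            have h2 := new_col col Q mv z τ J i (by omega) h
            rw [← ha, hc] at h2
            exact hmv i _ (ed_ce col Q hQ mv z τ J (j + 1) hj h) h2
          · have hi0 : i = j := by omega
            subst hi0
            exact Or.inr ha

end Pool.Agent.W_cd7020_h81b
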