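import Pool.Agent.W_cd7020_h81b.GClA
import Pool.Agent.W_cd7020_h81b.GInB

/-!
# Classes and the path
-/

set_option autoImplicit false

namespace Pool.Agent.W_cd7020_h81b

open Finset Pool.Agent.W_cd7020_h81

variable {V κ : Type*} [DecidableEq V] [DecidableEq κ] [Fintype V]

omit [Fintype V] in
theorem GClB_ce_mem (C : List V) (e : Sym2 V) (he : e ∈ ce C) (v : V) (hv : v ∈ e) : v ∈ C := by
  have h := Pe_mem _ e he v hv
  rw [List.mem_append] at h
  rcases h with h | h
  · exact h
  · exact List.mem_of_mem_take h

omit [Fintype V] in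
theorem GClB_next (Q : List V) (hQ : Q.Nodup) (x : V) (hx : x ∈ Q)
    (hlt : Q.idxOf x + 1 < Q.length) : s(x, nb Q x true) ∈ ce Q := by
  have h1 := nb_true_idx Q hQ x hx
  rw [Nat.mod_eq_of_lt hlt] at h1
  have h2 : nb Q x true ∈ Q := (nb_mem Q x true).2 hx
  refine pe_sub_ce Q _ ((mem_pe_iff Q _).2 ⟨Q.idxOf x, hlt, ?_⟩)
  have h3 : Q[Q.idxOf x] = x := List.getElem_idxOf (List.idxOf_lt_length_of_mem hx)
  have h4 : Q[Q.idxOf x + 1] = nb Q x true := by
    have h5 : Q[Q.idxOf (nb Q x true)]'(List.idxOf_lt_length_of_mem h2) = nb Q x true :=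
      List.getElem_idxOf (List.idxOf_lt_length_of_mem h2)
    simpa only [h1] using h5
  rw [h3, h4]

omit [Fintype V] in
open Classical in
theorem GClB_main (Q : List V) (hQ : Q.Nodup) (p : List V) (cs : List (List V)) (f : ℕ → Sym2 V)
    (D s j : ℕ) (hs : 1 ≤ s) (hperm : (p ++ cs.flatten).Perm Q)
    (hae : ∀ e, e ∈ ce Q → (∀ i ≤ j, e ≠ f i) → e ∈ pe p ++ cs.flatMap ce) :
    (Q.toFinset.filter (fun y => clq Q s y ∈ (clI Q s).filter (fun q =>
      ∃ v ∈ p.take D, clq Q s v = q))).card ≤ D + (j + 2) * s := by
  have hnd : (p ++ cs.flatten).Nodup := hperm.nodup_iff.2 hQ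
  have hpnd : p.Nodup := (List.nodup_append.1 hnd).1
  have hdisj : ∀ v ∈ p, v ∉ cs.flatten := by
    intro v hv hv2
    exact (List.nodup_append.1 hnd).2.2 v hv v hv2 rfl
  set g : ℕ → ℕ := fun i => if h : ∃ q, ∀ v ∈ f i, clq Q s v = q then h.choose else 0 with hg
  set Bad : Finset ℕ := insert (if h : D - 1 < p.length then clq Q s (p[D - 1]) else 0)
    ((range (j + 1)).image g) with hBad
  have hBadc : Bad.card ≤ j + 2 := by
    refine (Finset.card_insert_le _ _).trans ?_
    have := Finset.card_image_le (s := range (j + 1)) (f := g)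
    rw [Finset.card_range] at this
    omega
  set T : Finset V := (p.take D).toFinset with hT
  have hTc : T.card ≤ D := by
    refine (List.toFinset_card_le _).trans ?_
    rw [List.length_take]
    exact min_le_left _ _
  have hTp : ∀ v ∈ T, v ∈ p := fun v hv => List.mem_of_mem_take (List.mem_toFinset.1 hv)
  have hTQ : ∀ v ∈ T, v ∈ Q := fun v hv => hperm.mem_iff.1 (List.mem_append_left _ (hTp v hv))
  have hTi : ∀ k, ∀ hk : k < p.length, (p[k] ∈ T ↔ k < D) := by
    intro k hk
    rw [hT, List.mem_toFinset]
    constructor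
    · intro h
      obtain ⟨i, hi, hik⟩ := List.getElem_of_mem h
      rw [List.length_take] at hi
      rw [List.getElem_take] at hik
      have := (hpnd.getElem_inj_iff).1 hik
      omega
    · intro h
      have h1 : k < (p.take D).length := by
        rw [List.length_take]
        omega
      have h2 : (p.take D)[k] = p[k] := List.getElem_take
      rw [← h2]
      exact List.getElem_mem h1
  have hcl : ∀ x ∈ Q, Q.idxOf x + 1 < Q.length → clq Q s x = clq Q s (nb Q x true) →
      clq Q s x ∉ Bad → (x ∈ T ↔ nb Q x true ∈ T) := by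
    intro x hx hlt hc hb
    have he := GClB_next Q hQ x hx hlt
    have hne : ∀ i ≤ j, s(x, nb Q x true) ≠ f i := by
      intro i hi hei
      apply hb
      rw [hBad, Finset.mem_insert]
      right
      rw [Finset.mem_image]
      refine ⟨i, Finset.mem_range.2 (by omega), ?_⟩
      have hex : ∃ q, ∀ v ∈ f i, clq Q s v = q := by
        refine ⟨clq Q s x, ?_⟩
        rw [← hei]
        intro v hv
        rcases Sym2.mem_iff.1 hv with rfl | rfl
        · rfl
        · exact hc.symm
      rw [hg]
      simp only [dif_pos hex]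
      refine (hex.choose_spec x ?_).symm
      rw [← hei]
      exact Sym2.mem_mk_left _ _
    have h1 := hae _ he hne
    rw [List.mem_append] at h1
    rcases h1 with h1 | h1
    · rw [mem_pe_iff] at h1
      obtain ⟨k, hk, hke⟩ := h1
      have hD : k < D ↔ k + 1 < D := by
        constructor
        · intro hkD
          by_contra hcon
          apply hb
          rw [hBad, Finset.mem_insert]
          left
          have hDk : D - 1 = k := by omega
          have hlt2 : D - 1 < p.length := by omega
          rw [dif_pos hlt2]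
          have h6 : p[D - 1] = p[k] := by
            congr 1
          rw [h6]
          rcases Sym2.eq_iff.1 hke with ⟨h7, _⟩ | ⟨_, h7⟩
          · rw [h7]
          · rw [hc, h7]
        · intro h
          omega
      have ha := hTi k (by omega)
      have hb2 := hTi (k + 1) hk
      rcases Sym2.eq_iff.1 hke with ⟨h7, h8⟩ | ⟨h7, h8⟩
      · rw [h8, hb2, ← hD, ← ha, ← h7]
      · rw [h8, ha, hD, ← hb2, ← h7]
    · rw [List.mem_flatMap] at h1
      obtain ⟨C, hC, hCe⟩ := h1
      have hx1 : x ∈ cs.flatten :=
        List.mem_flatten.2 ⟨C, hC, GClB_ce_mem C _ hCe x (Sym2.mem_mk_left _ _)⟩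
      have hx2 : nb Q x true ∈ cs.flatten :=
        List.mem_flatten.2 ⟨C, hC, GClB_ce_mem C _ hCe _ (Sym2.mem_mk_right _ _)⟩
      constructor
      · intro h
        exact absurd hx1 (hdisj x (hTp x h))
      · intro h
        exact absurd hx2 (hdisj _ (hTp _ h))
  have hsub : (Q.toFinset.filter (fun y => clq Q s y ∈ (clI Q s).filter (fun q =>
      ∃ v ∈ p.take D, clq Q s v = q))) ⊆ T ∪ Q.toFinset.filter (fun y => clq Q s y ∈ Bad) := by
    intro y hy
    rw [Finset.mem_filter, List.mem_toFinset, Finset.mem_filter] at hy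
    obtain ⟨hyQ, _, v, hv, hvy⟩ := hy
    rw [Finset.mem_union]
    by_cases hb : clq Q s y ∈ Bad
    · exact Or.inr (Finset.mem_filter.2 ⟨List.mem_toFinset.2 hyQ, hb⟩)
    · left
      have hvT : v ∈ T := List.mem_toFinset.2 hv
      exact class_closed Q hQ s T Bad hcl v y (hTQ v hvT) hyQ hvy (by rw [hvy]; exact hb) hvT
  refine (Finset.card_le_card hsub).trans ((Finset.card_union_le _ _).trans ?_)
  have h9 := clq_card Q hQ s hs Bad
  have h10 : Bad.card * s ≤ (j + 2) * s := Nat.mul_le_mul_right s hBadc
  omega

open Classical in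
/-- The classes which meet the first `D` vertices of the path cover at most `D + (j + 2) s`
vertices. `class_closed` with `T` the set of the first `D` vertices, and `Bad` the set of the
classes of the ends of the removed edges `ed i`, `i ≤ j` which are inside one class
(at most `j + 1` classes: use the class of the end with the smaller position), and the class of the
vertex number `D - 1` of the path. A not removed edge `s(x, nb Q x true)` with `x` in the path is a
pair of the path (`GInv.ae`; the cycles are disjoint from the path); if exactly one of its ends is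
among the first `D` vertices, then this end is the vertex number `D - 1`. -/
theorem cover_path (col : Sym2 V → κ) (Q : List V) (hQ : Q.Nodup) (h3 : 3 ≤ Q.length)
    (mv : ℕ → κ × Bool) (hmv : ∀ j, ∀ e ∈ ce Q, col e ≠ (mv j).1) (z : V) (τ : Bool) (j : ℕ)
    (h : Alv col Q mv z τ j) (D s : ℕ) (hs : 1 ≤ s) :
    (Q.toFinset.filter (fun y => clq Q s y ∈ (clI Q s).filter (fun q =>
      ∃ v ∈ (sta col Q mv z τ j).p.take D, clq Q s v = q))).card ≤ D + (j + 2) * s := by
  have hI := inv_all col Q hQ h3 mv hmv z τ j j le_rfl h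
  refine GClB_main Q hQ _ _ (ed col Q mv z τ) D s j hs hI.perm ?_
  intro e he hne
  exact (hI.ae e).2 (Or.inl ⟨he, hne⟩)

end Pool.Agent.W_cd7020_h81b
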