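import Pool.Agent.W_cd7020_h81b.GClA
import Pool.Agent.W_cd7020_h81b.GInB

/-!
# Classes and a cycle
-/

set_option autoImplicit false

namespace Pool.Agent.W_cd7020_h81b

open Finset Pool.Agent.W_cd7020_h81

variable {V κ : Type*} [DecidableEq V] [DecidableEq κ] [Fintype V]

theorem GClC_ce_mem {W : Type*} [DecidableEq W] (l : List W) (e : Sym2 W) (he : e ∈ ce l) (v : W)
    (hv : v ∈ e) : v ∈ l := by
  have h1 : v ∈ l ++ l.take 1 := Pe_mem _ e he v hv
  rcases List.mem_append.1 h1 with h | h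
  · exact h
  · exact List.mem_of_mem_take h

/-- A pair of a structure without repetitions which meets a cycle of the structure is inside. -/
theorem GClC_in {W : Type*} [DecidableEq W] (p : List W) (cs : List (List W))
    (hnd : (p ++ cs.flatten).Nodup) (C : List W) (hC : C ∈ cs) (a b : W)
    (he : s(a, b) ∈ pe p ++ cs.flatMap ce) (ha : a ∈ C) : b ∈ C := by
  rw [List.nodup_append] at hnd
  obtain ⟨hp, hf, hdis⟩ := hnd
  rw [List.mem_append] at he
  rcases he with he | he
  · exfalso
    have h1 : a ∈ p := Pe_mem _ _ he a (Sym2.mem_mk_left a b)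
    exact hdis a h1 a (List.mem_flatten.2 ⟨C, hC, ha⟩) rfl
  · obtain ⟨D, hD, heD⟩ := List.mem_flatMap.1 he
    have h1 : a ∈ D := GClC_ce_mem D _ heD a (Sym2.mem_mk_left a b)
    have h2 : b ∈ D := GClC_ce_mem D _ heD b (Sym2.mem_mk_right a b)
    rw [List.nodup_flatten] at hf
    by_cases hCD : C = D
    · rw [hCD]
      exact h2
    · exfalso
      have : Std.Symm (fun l l' : List W => List.Disjoint l l') := ⟨fun _ _ h => h.symm⟩
      have h3 : List.Disjoint C D := hf.2.forall hC hD hCD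
      exact h3 ha h1

open Classical in
/-- The classes contained in a cycle `C` of the structure contain all but `(j + 1) s` of its
vertices. `class_closed` with `T = C.toFinset` and `Bad` the classes with a removed edge inside. -/
theorem inner_cyc (col : Sym2 V → κ) (Q : List V) (hQ : Q.Nodup) (h3 : 3 ≤ Q.length)
    (mv : ℕ → κ × Bool) (hmv : ∀ j, ∀ e ∈ ce Q, col e ≠ (mv j).1) (z : V) (τ : Bool) (j : ℕ)
    (h : Alv col Q mv z τ j) (C : List V) (hC : C ∈ (sta col Q mv z τ j).cs) (s : ℕ)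
    (hs : 1 ≤ s) :
    C.length ≤ (Q.toFinset.filter (fun y => clq Q s y ∈ (clI Q s).filter (fun q =>
      ∀ v ∈ Q, clq Q s v = q → v ∈ C))).card + (j + 1) * s := by
  have hI := inv_all col Q hQ h3 mv hmv z τ j j le_rfl h
  have hnd : ((sta col Q mv z τ j).p ++ (sta col Q mv z τ j).cs.flatten).Nodup :=
    hI.perm.nodup_iff.2 hQ
  have hCQ : ∀ v ∈ C, v ∈ Q := by
    intro v hv
    rw [← hI.perm.mem_iff, List.mem_append]
    exact Or.inr (List.mem_flatten.2 ⟨C, hC, hv⟩)
  have hCnd : C.Nodup := by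
    rw [List.nodup_append] at hnd
    exact (List.nodup_flatten.1 hnd.2.1).1 C hC
  let c : ℕ → ℕ := fun i => clq Q s (Quot.out (ed col Q mv z τ i)).1
  let Bad : Finset ℕ := (range (j + 1)).image c
  have hBad : Bad.card ≤ j + 1 := by
    have h1 := Finset.card_image_le (s := range (j + 1)) (f := c)
    rw [card_range] at h1
    exact h1
  have hstep : ∀ x ∈ Q, Q.idxOf x + 1 < Q.length → clq Q s x = clq Q s (nb Q x true) →
      clq Q s x ∉ Bad → (x ∈ C.toFinset ↔ nb Q x true ∈ C.toFinset) := by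
    intro x hx _ hcl hb
    have h1 : s(x, nb Q x true) ∈ ae (sta col Q mv z τ j) := by
      rw [hI.ae]
      refine Or.inl ⟨nb_ce Q hQ x hx true, fun i hi hei => hb ?_⟩
      refine Finset.mem_image.2 ⟨i, mem_range.2 (by omega), ?_⟩
      show clq Q s (Quot.out (ed col Q mv z τ i)).1 = clq Q s x
      have h2 : (Quot.out (ed col Q mv z τ i)).1 ∈ ed col Q mv z τ i := Sym2.out_fst_mem _
      rw [← hei] at h2
      rcases Sym2.mem_iff.1 h2 with h4 | h4
      · rw [← hei, h4]
      · rw [← hei, h4, hcl]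
    rw [List.mem_toFinset, List.mem_toFinset]
    constructor
    · intro hxC
      exact GClC_in _ _ hnd C hC _ _ h1 hxC
    · intro hxC
      rw [Sym2.eq_swap] at h1
      exact GClC_in _ _ hnd C hC _ _ h1 hxC
  have hcl := class_closed Q hQ s C.toFinset Bad hstep
  have hsub : C.toFinset ⊆ (Q.toFinset.filter (fun y => clq Q s y ∈ (clI Q s).filter (fun q =>
      ∀ v ∈ Q, clq Q s v = q → v ∈ C))) ∪ Q.toFinset.filter (fun y => clq Q s y ∈ Bad) := by
    intro y hy
    have hyC : y ∈ C := List.mem_toFinset.1 hy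
    have hyQ : y ∈ Q := hCQ y hyC
    rw [mem_union]
    by_cases hb : clq Q s y ∈ Bad
    · exact Or.inr (mem_filter.2 ⟨List.mem_toFinset.2 hyQ, hb⟩)
    · refine Or.inl (mem_filter.2 ⟨List.mem_toFinset.2 hyQ, mem_filter.2 ⟨clq_mem Q s y, ?_⟩⟩)
      intro v hv hvy
      exact List.mem_toFinset.1 (hcl y v hyQ hv hvy.symm hb hy)
  have h1 := (Finset.card_le_card hsub).trans (Finset.card_union_le _ _)
  rw [List.toFinset_card_of_nodup hCnd] at h1
  have h2 := clq_card Q hQ s hs Bad
  have h4 : Bad.card * s ≤ (j + 1) * s := Nat.mul_le_mul_right s hBad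
  omega

end Pool.Agent.W_cd7020_h81b
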