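import Pool.Agent.W_cd7020_h81b.GInB

/-!
# Cycles of the structure
-/

set_option autoImplicit false

namespace Pool.Agent.W_cd7020_h81b

open Finset Pool.Agent.W_cd7020_h81

variable {V κ : Type*} [DecidableEq V] [DecidableEq κ] [Fintype V]

theorem GInC_nodup (col : Sym2 V → κ) (Q : List V) (hQ : Q.Nodup) (h3 : 3 ≤ Q.length)
    (mv : ℕ → κ × Bool) (hmv : ∀ j, ∀ e ∈ ce Q, col e ≠ (mv j).1) (z : V) (τ : Bool) (J j : ℕ)
    (hj : j ≤ J) (h : Alv col Q mv z τ J) :
    ((sta col Q mv z τ j).p ++ (sta col Q mv z τ j).cs.flatten).Nodup :=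
  (inv_all col Q hQ h3 mv hmv z τ J j hj h).perm.nodup_iff.2 hQ

theorem GInC_cs (col : Sym2 V → κ) (Q : List V) (hQ : Q.Nodup) (h3 : 3 ≤ Q.length)
    (mv : ℕ → κ × Bool) (hmv : ∀ j, ∀ e ∈ ce Q, col e ≠ (mv j).1) (z : V) (τ : Bool) (J j : ℕ)
    (hj : j < J) (h : Alv col Q mv z τ J) (C : List V)
    (hC : C ∈ (sta col Q mv z τ (j + 1)).cs) :
    (C ∈ (sta col Q mv z τ j).cs ∧ yy col Q mv z j ∉ C) ∨
      ∃ A B, (sta col Q mv z τ j).p = A ++ yy col Q mv z j :: zz col Q mv z (j + 1) :: B ∧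
        A ≠ [] ∧ C = A ++ [yy col Q mv z j] := by
  have hI := inv_all col Q hQ h3 mv hmv z τ J j hj.le h
  exact step_cs _ _ (GInC_nodup col Q hQ h3 mv hmv z τ J j hj.le h) hI.len _ _
    (sta_step col Q hQ mv z τ J j hj h hI) C hC

/-- Persistence: if a cycle is in the structure before and after the move `j`, then it does not
contain `yy j` (`step_cs`; the new cycle `A ++ [y]` cannot be an old one as its vertices are in the
path). -/
theorem cyc_persist (col : Sym2 V → κ) (Q : List V) (hQ : Q.Nodup) (h3 : 3 ≤ Q.length)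
    (mv : ℕ → κ × Bool) (hmv : ∀ j, ∀ e ∈ ce Q, col e ≠ (mv j).1) (z : V) (τ : Bool) (J j : ℕ)
    (hj : j < J) (h : Alv col Q mv z τ J) (C : List V) (hC : C ∈ (sta col Q mv z τ j).cs)
    (hC' : C ∈ (sta col Q mv z τ (j + 1)).cs) : yy col Q mv z j ∉ C := by
  rcases GInC_cs col Q hQ h3 mv hmv z τ J j hj h C hC' with ⟨_, h1⟩ | ⟨A, B, hp, _, rfl⟩
  · exact h1
  · exfalso
    have hnd := GInC_nodup col Q hQ h3 mv hmv z τ J j hj.le h
    have h1 : yy col Q mv z j ∈ (sta col Q mv z τ j).p := by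
      rw [hp]
      exact List.mem_append_right _ List.mem_cons_self
    have h2 : yy col Q mv z j ∈ (sta col Q mv z τ j).cs.flatten :=
      List.mem_flatten.2 ⟨_, hC, List.mem_append_right _ (List.mem_singleton_self _)⟩
    exact List.disjoint_of_nodup_append hnd h1 h2

/-- The properties of `cyc`. -/
theorem cyc_split (col : Sym2 V → κ) (Q : List V) (hQ : Q.Nodup) (h3 : 3 ≤ Q.length)
    (mv : ℕ → κ × Bool) (hmv : ∀ j, ∀ e ∈ ce Q, col e ≠ (mv j).1) (z : V) (τ : Bool) (J j : ℕ)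
    (hj : j ≤ J) (h : Alv col Q mv z τ J) (A B : List V)
    (hp : (sta col Q mv z τ j).p = A ++ yy col Q mv z j :: zz col Q mv z (j + 1) :: B) :
    cyc col Q mv z τ j = A ++ [yy col Q mv z j] := by
  have hnd := (List.nodup_append.1 (GInC_nodup col Q hQ h3 mv hmv z τ J j hj h)).1
  unfold cyc
  rw [hp] at hnd ⊢
  have hA : yy col Q mv z j ∉ A := fun hmem =>
    List.disjoint_of_nodup_append hnd hmem List.mem_cons_self
  have hidx : (A ++ yy col Q mv z j :: zz col Q mv z (j + 1) :: B).idxOf (yy col Q mv z j) =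
      A.length := by
    rw [List.idxOf_append_of_notMem hA, List.idxOf_cons_self, Nat.add_zero]
  rw [hidx]
  have h1 : A ++ yy col Q mv z j :: zz col Q mv z (j + 1) :: B =
      (A ++ [yy col Q mv z j]) ++ zz col Q mv z (j + 1) :: B := by
    rw [List.append_assoc, List.singleton_append]
  rw [h1]
  exact List.take_left' (by rw [List.length_append, List.length_singleton])

/-- Every cycle at the end was split off at some move and has been there since. (Take the last move
`j` before which it was not in the structure; `sta 0` has no cycles; `step_cs`, `cyc_split`.) -/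
theorem cyc_birth (col : Sym2 V → κ) (Q : List V) (hQ : Q.Nodup) (h3 : 3 ≤ Q.length)
    (mv : ℕ → κ × Bool) (hmv : ∀ j, ∀ e ∈ ce Q, col e ≠ (mv j).1) (z : V) (τ : Bool) (J : ℕ)
    (h : Alv col Q mv z τ J) (C : List V) (hC : C ∈ (sta col Q mv z τ J).cs) :
    ∃ j < J, SplitAt col Q mv z τ j ∧ C = cyc col Q mv z τ j ∧
      ∀ j', j < j' → j' ≤ J → C ∈ (sta col Q mv z τ j').cs := by
  induction J with
  | zero => exact absurd hC (List.not_mem_nil)
  | succ J ih =>
    rcases GInC_cs col Q hQ h3 mv hmv z τ (J + 1) J (Nat.lt_succ_self J) h C hC with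
      ⟨h1, _⟩ | ⟨A, B, hp, hA, hCA⟩
    · obtain ⟨j, hj, hs, hc, hall⟩ := ih (Alv_mono col Q mv z τ (J + 1) J (Nat.le_succ J) h) h1
      refine ⟨j, hj.trans (Nat.lt_succ_self J), hs, hc, fun j' h2 h4 => ?_⟩
      rcases Nat.lt_or_ge J j' with h5 | h5
      · have h6 : j' = J + 1 := by omega
        rw [h6]
        exact hC
      · exact hall j' h2 h5
    · refine ⟨J, Nat.lt_succ_self J, ⟨A, B, hA, hp⟩, ?_, fun j' h2 h4 => ?_⟩
      · rw [hCA]
        exact (cyc_split col Q hQ h3 mv hmv z τ (J + 1) J (Nat.le_succ J) h A B hp).symm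
      · have h6 : j' = J + 1 := by omega
        rw [h6]
        exact hC

end Pool.Agent.W_cd7020_h81b
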