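import Pool.Agent.W_cd7020_h81b.GSvA
import Pool.Agent.W_cd7020_h81b.GInC

/-!
# The number of cycles at the end
-/

set_option autoImplicit false

namespace Pool.Agent.W_cd7020_h81b

open Finset Pool.Agent.W_cd7020_h81

variable {V κ : Type*} [DecidableEq V] [DecidableEq κ] [Fintype V]

omit [DecidableEq V] [Fintype V] [DecidableEq κ] in
/-- Lists which are long, in a family of disjoint lists. -/
theorem GCnA_long {V : Type*} (cs : List (List V)) (hn : cs.Nodup) (N D : ℕ) (hD : 1 ≤ D)
    (hlen : cs.flatten.length ≤ N) [DecidableEq (List V)]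
    (F : Finset (List V)) (hF : ∀ C ∈ F, C ∈ cs ∧ D < C.length) :
    F.card ≤ N / D := by
  classical
  rw [Nat.le_div_iff_mul_le (by omega)]
  have h1 : F.card * D ≤ ∑ C ∈ F, C.length := by
    rw [← smul_eq_mul]
    exact Finset.card_nsmul_le_sum F _ D fun C hC => (hF C hC).2.le
  have h2 : ∑ C ∈ F, C.length ≤ ∑ C ∈ cs.toFinset, C.length := by
    refine Finset.sum_le_sum_of_subset fun C hC => ?_
    exact List.mem_toFinset.2 (hF C hC).1
  have h3 : ∑ C ∈ cs.toFinset, C.length = cs.flatten.length := by
    rw [List.sum_toFinset _ hn, List.length_flatten]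
  omega

open Classical in
/-- Pointwise bound. By `cyc_birth` every cycle `C` at the end is `cyc j` for a move `j < t + m` in
which it was split off, and it was there since. Different cycles have different `j`. By `ms_cases`
`j = ms t i` or `j = ms t i + 1` (`i < t`). In the first case either `C.length ≤ D₂`, then
`yy j` is among the first `D₂` vertices of the path (`cyc_split`), or `D₂ < C.length`; there are at
most `n₀ / D₂` such cycles as the cycles at the end are disjoint. In the second case use the third
and fourth term. -/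
theorem count_pt (col : Sym2 V → κ) (Q : List V) (hQ : Q.Nodup) (h3 : 3 ≤ Q.length)
    (R : Finset κ) (hRQ : ∀ e ∈ ce Q, col e ∉ R) (w : ℕ → κ)
    (hw : ∀ i, ∀ e ∈ ce Q, col e ≠ w i) (t m D₁ D₂ : ℕ) (htm : t ≤ m) (hD₂ : 1 ≤ D₂)
    (o : (V × Bool) × (Fin m → κ × Bool)) (ho : o ∈ Om Q R m)
    (h : Alv col Q (mw w t o) o.1.1 o.1.2 (t + m)) :
    (sta col Q (mw w t o) o.1.1 o.1.2 (t + m)).cs.length ≤ Q.length / D₂ +
      ((range m).filter (fun i => yy col Q (mw w t o) o.1.1 (ms t i) ∈
        (sta col Q (mw w t o) o.1.1 o.1.2 (ms t i)).p.take D₂)).card +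
      ((range t).filter (fun i => SplitAt col Q (mw w t o) o.1.1 o.1.2 (ms t i + 1) ∧
        (cyc col Q (mw w t o) o.1.1 o.1.2 (ms t i + 1)).length ≤ D₁)).card +
      ((range t).filter (fun i => o ∈ SV col Q R w t m i D₁ (t + m))).card := by
  have hmv : ∀ j, ∀ e ∈ ce Q, col e ≠ (mw w t o j).1 := by
    intro j e he
    rw [mem_Om] at ho
    have hext : ∀ j', col e ≠ (ext w m o.2 j').1 := by
      intro j'
      unfold ext
      by_cases hj' : j' < m
      · rw [dif_pos hj']
        intro h
        exact hRQ e he (h ▸ ho.2 ⟨j', hj'⟩)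
      · rw [dif_neg hj']
        exact hw 0 e he
    unfold mw mvs
    by_cases h1 : j < 2 * t
    · rw [if_pos h1]
      by_cases h2 : j % 2 = 0
      · rw [if_pos h2]; exact hext _
      · rw [if_neg h2]; exact hw _ e he
    · rw [if_neg h1]; exact hext _
  have hI := inv_all col Q hQ h3 (mw w t o) hmv o.1.1 o.1.2 (t + m) (t + m) le_rfl h
  have hnd := GInC_nodup col Q hQ h3 (mw w t o) hmv o.1.1 o.1.2 (t + m) (t + m) le_rfl h
  set st := sta col Q (mw w t o) o.1.1 o.1.2 (t + m) with hst
  have hfl : st.cs.flatten.Nodup := (List.nodup_append.1 hnd).2.1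
  have hlen : st.cs.flatten.length ≤ Q.length := by
    have h5 : (st.p ++ st.cs.flatten).length = Q.length := hI.perm.length_eq
    rw [List.length_append] at h5
    omega
  have hcs : st.cs.Nodup := by
    have h1 := (List.nodup_flatten.1 hfl).2
    refine List.Pairwise.imp_of_mem ?_ h1
    intro C C' hC _ hd he
    subst he
    have h4 := hI.len C hC
    obtain ⟨v, hv⟩ : ∃ v, v ∈ C := List.exists_mem_of_length_pos (by omega)
    exact hd hv hv
  set A := (range m).filter (fun i => yy col Q (mw w t o) o.1.1 (ms t i) ∈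
        (sta col Q (mw w t o) o.1.1 o.1.2 (ms t i)).p.take D₂) with hA
  set B := (range t).filter (fun i => SplitAt col Q (mw w t o) o.1.1 o.1.2 (ms t i + 1) ∧
        (cyc col Q (mw w t o) o.1.1 o.1.2 (ms t i + 1)).length ≤ D₁) with hB
  set E := (range t).filter (fun i => o ∈ SV col Q R w t m i D₁ (t + m)) with hE
  set F := st.cs.toFinset.filter (fun C => D₂ < C.length) with hF
  have hFc : F.card ≤ Q.length / D₂ := by
    refine GCnA_long st.cs hcs Q.length D₂ hD₂ hlen F ?_
    intro C hC
    rw [hF, Finset.mem_filter, List.mem_toFinset] at hC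
    exact hC
  have hsub : st.cs.toFinset ⊆ F ∪ A.image (fun i => cyc col Q (mw w t o) o.1.1 o.1.2 (ms t i)) ∪
      B.image (fun i => cyc col Q (mw w t o) o.1.1 o.1.2 (ms t i + 1)) ∪
      E.image (fun i => cyc col Q (mw w t o) o.1.1 o.1.2 (ms t i + 1)) := by
    intro C hC
    have hC' := List.mem_toFinset.1 hC
    obtain ⟨j, hj, hs, hc, hall⟩ :=
      cyc_birth col Q hQ h3 (mw w t o) hmv o.1.1 o.1.2 (t + m) h C hC'
    rcases ms_cases t m j htm hj with ⟨i, hi, rfl⟩ | ⟨i, hi, rfl⟩
    · by_cases hL : D₂ < C.length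
      · refine Finset.mem_union_left _ (Finset.mem_union_left _ (Finset.mem_union_left _ ?_))
        rw [hF]
        exact Finset.mem_filter.2 ⟨hC, hL⟩
      · refine Finset.mem_union_left _ (Finset.mem_union_left _ (Finset.mem_union_right _ ?_))
        refine Finset.mem_image.2 ⟨i, ?_, hc.symm⟩
        rw [hA]
        refine Finset.mem_filter.2 ⟨Finset.mem_range.2 hi, ?_⟩
        obtain ⟨A', B', _, hp⟩ := hs
        have hcy := cyc_split col Q hQ h3 (mw w t o) hmv o.1.1 o.1.2 (t + m) (ms t i) hj.le h
          A' B' hp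
        have hpre : (A' ++ [yy col Q (mw w t o) o.1.1 (ms t i)]) <+:
            (sta col Q (mw w t o) o.1.1 o.1.2 (ms t i)).p.take D₂ := by
          rw [List.prefix_take_iff]
          refine ⟨⟨zz col Q (mw w t o) o.1.1 (ms t i + 1) :: B', ?_⟩, ?_⟩
          · rw [hp, List.append_assoc, List.singleton_append]
          · rw [← hcy, ← hc]
            omega
        exact hpre.subset (List.mem_append_right _ (List.mem_singleton_self _))
    · by_cases hL : C.length ≤ D₁
      · refine Finset.mem_union_left _ (Finset.mem_union_right _ ?_)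
        refine Finset.mem_image.2 ⟨i, ?_, hc.symm⟩
        rw [hB]
        refine Finset.mem_filter.2 ⟨Finset.mem_range.2 hi, hs, ?_⟩
        rw [← hc]
        exact hL
      · refine Finset.mem_union_right _ ?_
        refine Finset.mem_image.2 ⟨i, ?_, hc.symm⟩
        rw [hE]
        refine Finset.mem_filter.2 ⟨Finset.mem_range.2 hi, ?_⟩
        rw [GSvA_mem]
        refine ⟨ho, h, hs, ?_, ?_⟩
        · rw [← hc]
          omega
        · rw [← hc]
          exact hall
  have hlc : st.cs.length = st.cs.toFinset.card := (List.toFinset_card_of_nodup hcs).symm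
  rw [hlc]
  refine (Finset.card_le_card hsub).trans ?_
  refine (Finset.card_union_le _ _).trans ?_
  refine Nat.add_le_add ?_ Finset.card_image_le
  refine (Finset.card_union_le _ _).trans ?_
  refine Nat.add_le_add ?_ Finset.card_image_le
  refine (Finset.card_union_le _ _).trans ?_
  exact Nat.add_le_add hFc Finset.card_image_le

end Pool.Agent.W_cd7020_h81b
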