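import Pool.Agent.W_cd7020_h81b.GDefs

/-!
# Dependence on the moves
-/

set_option autoImplicit false

namespace Pool.Agent.W_cd7020_h81b

open Finset Pool.Agent.W_cd7020_h81

variable {V κ : Type*} [DecidableEq V] [DecidableEq κ] [Fintype V]

/-- `zz j` depends only on the moves `0, ..., j - 1`. -/
theorem zz_congr (col : Sym2 V → κ) (Q : List V) (mv mv' : ℕ → κ × Bool) (z : V) (j : ℕ)
    (h : ∀ i < j, mv i = mv' i) : zz col Q mv z j = zz col Q mv' z j := by
  induction j with
  | zero => rfl
  | succ j ih =>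
    simp only [zz]
    rw [ih fun i hi => h i (by omega), h j (by omega)]

theorem yy_congr (col : Sym2 V → κ) (Q : List V) (mv mv' : ℕ → κ × Bool) (z : V) (j : ℕ)
    (h : ∀ i ≤ j, mv i = mv' i) : yy col Q mv z j = yy col Q mv' z j := by
  unfold yy
  rw [zz_congr col Q mv mv' z j fun i hi => h i (by omega), h j le_rfl]

theorem ed_congr (col : Sym2 V → κ) (Q : List V) (mv mv' : ℕ → κ × Bool) (z : V) (τ : Bool)
    (j : ℕ) (h : ∀ i < j, mv i = mv' i) : ed col Q mv z τ j = ed col Q mv' z τ j := by
  cases j with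
  | zero => rfl
  | succ j =>
    simp only [ed]
    rw [yy_congr col Q mv mv' z j fun i hi => h i (by omega),
      zz_congr col Q mv mv' z (j + 1) fun i hi => h i (by omega)]

theorem sta_congr (col : Sym2 V → κ) (Q : List V) (mv mv' : ℕ → κ × Bool) (z : V) (τ : Bool)
    (j : ℕ) (h : ∀ i < j, mv i = mv' i) : sta col Q mv z τ j = sta col Q mv' z τ j := by
  induction j with
  | zero => rfl
  | succ j ih =>
    simp only [sta]
    rw [ih fun i hi => h i (by omega), yy_congr col Q mv mv' z j fun i hi => h i (by omega),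
      zz_congr col Q mv mv' z (j + 1) fun i hi => h i (by omega)]

theorem Alv_congr (col : Sym2 V → κ) (Q : List V) (mv mv' : ℕ → κ × Bool) (z : V) (τ : Bool)
    (j : ℕ) (h : ∀ i < j, mv i = mv' i) : Alv col Q mv z τ j ↔ Alv col Q mv' z τ j := by
  have key : ∀ mv mv' : ℕ → κ × Bool, (∀ i < j, mv i = mv' i) →
      Alv col Q mv z τ j → Alv col Q mv' z τ j := by
    intro mv mv' h hA
    refine ⟨hA.start, fun i hi => ?_, fun i hi => ?_, fun i k hik hk => ?_, fun i k hik hk => ?_⟩
    · rw [← yy_congr col Q mv mv' z i fun l hl => h l (by omega),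
        ← zz_congr col Q mv mv' z i fun l hl => h l (by omega)]
      exact hA.ne i hi
    · rw [← yy_congr col Q mv mv' z i fun l hl => h l (by omega)]
      exact hA.mem i hi
    · rw [← ed_congr col Q mv mv' z τ i fun l hl => h l (by omega),
        ← ed_congr col Q mv mv' z τ k fun l hl => h l (by omega)]
      exact hA.cut i k hik hk
    · rw [← h i (by omega), ← h k hk]
      exact hA.colr i k hik hk
  exact ⟨key mv mv' h, key mv' mv fun i hi => (h i hi).symm⟩

theorem SplitAt_congr (col : Sym2 V → κ) (Q : List V) (mv mv' : ℕ → κ × Bool) (z : V) (τ : Bool)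
    (j : ℕ) (h : ∀ i ≤ j, mv i = mv' i) :
    SplitAt col Q mv z τ j ↔ SplitAt col Q mv' z τ j := by
  unfold SplitAt
  rw [sta_congr col Q mv mv' z τ j fun i hi => h i (by omega), yy_congr col Q mv mv' z j h,
    zz_congr col Q mv mv' z (j + 1) fun i hi => h i (by omega)]

theorem cyc_congr (col : Sym2 V → κ) (Q : List V) (mv mv' : ℕ → κ × Bool) (z : V) (τ : Bool)
    (j : ℕ) (h : ∀ i ≤ j, mv i = mv' i) : cyc col Q mv z τ j = cyc col Q mv' z τ j := by
  unfold cyc
  rw [sta_congr col Q mv mv' z τ j fun i hi => h i (by omega), yy_congr col Q mv mv' z j h]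

end Pool.Agent.W_cd7020_h81b
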