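import Pool.Agent.W_cd7020_h81b.GHit
import Pool.Agent.W_cd7020_h81b.GClB
import Pool.Agent.W_cd7020_h81b.GDpA

/-!
# Short cycles are rare: first moves
-/

set_option autoImplicit false

namespace Pool.Agent.W_cd7020_h81b

open Finset Pool.Agent.W_cd7020_h81

variable {V κ : Type*} [DecidableEq V] [DecidableEq κ] [Fintype V]

open Classical in
/-- `hit_le` with `H o`: the first `ms t i` moves are possible, and `K o` the classes which meet the
first `D` vertices of the path (`cover_path`, `ms t i ≤ t + m`). -/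
theorem short_R (col : Sym2 V → κ) (hcol : Proper col) (Q : List V) (hQ : Q.Nodup)
    (h3 : 3 ≤ Q.length) (R : Finset κ) (hR1 : 1 ≤ R.card) (hRn : R.card ≤ Fintype.card V) (a : ℝ)
    (ha : 0 ≤ a) (hR : NB col R a) (hRQ : ∀ e ∈ ce Q, col e ∉ R) (w : ℕ → κ)
    (hw : ∀ i, ∀ e ∈ ce Q, col e ≠ w i) (t m : ℕ) (htm : t ≤ m) (i : Fin m) (D s : ℕ)
    (hs : 1 ≤ s) :
    (((Om Q R m).filter (fun o => Alv col Q (mw w t o) o.1.1 o.1.2 (t + m) ∧
      yy col Q (mw w t o) o.1.1 (ms t i) ∈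
        (sta col Q (mw w t o) o.1.1 o.1.2 (ms t i)).p.take D)).card : ℝ) ≤
    (((D + (t + m + 2) * s : ℕ) : ℝ) / Fintype.card V + er Q R a s) * (Om Q R m).card := by
  have him : (i : ℕ) < m := i.2
  have hlt : ms t i < t + m := by
    unfold ms
    by_cases h : (i : ℕ) < t
    · rw [if_pos h]; omega
    · rw [if_neg h]; omega
  have hmv : ∀ o ∈ Om Q R m, ∀ j, ∀ e ∈ ce Q, col e ≠ (mw w t o j).1 := by
    intro o ho j e he
    rw [mem_Om] at ho
    have hext : ∀ j', col e ≠ (ext w m o.2 j').1 := by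
      intro j'
      unfold ext
      by_cases hj' : j' < m
      · rw [dif_pos hj']
        intro h
        exact hRQ e he (h ▸ ho.2 ⟨j', hj'⟩)
      · rw [dif_neg hj']
        exact hw 0 e he
    unfold mw mvs
    by_cases h1 : j < 2 * t
    · rw [if_pos h1]
      by_cases h2 : j % 2 = 0
      · rw [if_pos h2]; exact hext _
      · rw [if_neg h2]; exact hw _ e he
    · rw [if_neg h1]; exact hext _
  set K : (V × Bool) × (Fin m → κ × Bool) → Finset ℕ := fun o =>
    (clI Q s).filter (fun q => ∃ v ∈ (sta col Q (mw w t o) o.1.1 o.1.2 (ms t i)).p.take D,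
      clq Q s v = q) with hKdef
  have hmw : ∀ (o : (V × Bool) × (Fin m → κ × Bool)) (q : κ × Bool), ∀ j < ms t i,
      mw w t (upd o i q) j = mw w t o j :=
    fun o q j hj => mw_upd w t o i q j hj
  have hK : ∀ o q, K (upd o i q) = K o := by
    intro o q
    simp only [hKdef]
    have h1 : (upd o i q).1 = o.1 := rfl
    rw [h1, sta_congr col Q (mw w t (upd o i q)) (mw w t o) o.1.1 o.1.2 (ms t i) (hmw o q)]
  have hH : ∀ (o : (V × Bool) × (Fin m → κ × Bool)) (q : κ × Bool), Alv col Q (mw w t (upd o i q)) (upd o i q).1.1 (upd o i q).1.2 (ms t i) ↔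
      Alv col Q (mw w t o) o.1.1 o.1.2 (ms t i) := by
    intro o q
    have h1 : (upd o i q).1 = o.1 := rfl
    rw [h1, Alv_congr col Q (mw w t (upd o i q)) (mw w t o) o.1.1 o.1.2 (ms t i) (hmw o q)]
  have hM : ∀ o ∈ Om Q R m, Alv col Q (mw w t o) o.1.1 o.1.2 (ms t i) →
      (Q.toFinset.filter (fun y => clq Q s y ∈ K o)).card ≤ D + (t + m + 2) * s := by
    intro o ho hA
    refine le_trans (cover_path col Q hQ h3 (mw w t o) (hmv o ho) o.1.1 o.1.2 (ms t i) hA D s hs) ?_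
    exact Nat.add_le_add_left (Nat.mul_le_mul_right s (by omega)) D
  have hle := hit_le col hcol Q hQ h3 R hR1 hRn a ha hR w t m i s (D + (t + m + 2) * s) hs
    (fun o => Alv col Q (mw w t o) o.1.1 o.1.2 (ms t i)) K hH hK
    (fun o => Finset.filter_subset _ _) hM
  refine le_trans ?_ hle
  have : ((Om Q R m).filter (fun o => Alv col Q (mw w t o) o.1.1 o.1.2 (t + m) ∧
      yy col Q (mw w t o) o.1.1 (ms t i) ∈
        (sta col Q (mw w t o) o.1.1 o.1.2 (ms t i)).p.take D)) ⊆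
      ((Om Q R m).filter (fun o => Alv col Q (mw w t o) o.1.1 o.1.2 (ms t i) ∧
      yy col Q (mw w t o) o.1.1 (ms t i) ≠ zz col Q (mw w t o) o.1.1 (ms t i) ∧
      yy col Q (mw w t o) o.1.1 (ms t i) ∈ Q ∧
      clq Q s (yy col Q (mw w t o) o.1.1 (ms t i)) ∈ K o)) := by
    intro o ho
    rw [Finset.mem_filter] at ho ⊢
    refine ⟨ho.1, Alv_mono col Q _ _ _ _ _ hlt.le ho.2.1, ho.2.1.ne _ hlt, ho.2.1.mem _ hlt, ?_⟩
    simp only [hKdef]
    rw [Finset.mem_filter]
    exact ⟨clq_mem Q s _, _, ho.2.2, rfl⟩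
  exact_mod_cast Finset.card_le_card this

end Pool.Agent.W_cd7020_h81b
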