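import Pool.Agent.W_cd7020_h81b.GWkB
import Pool.Agent.W_cd7020_h81b.GClA

/-!
# The classes near the removed edges
-/

set_option autoImplicit false

namespace Pool.Agent.W_cd7020_h81b

open Finset Pool.Agent.W_cd7020_h81

variable {V κ : Type*} [DecidableEq V] [DecidableEq κ] [Fintype V]

/-- The set of classes near the removed edges `ed i`, `i ≤ j`, and near the ends of the list. -/
noncomputable def nearK (col : Sym2 V → κ) (Q : List V) (mv : ℕ → κ × Bool) (z : V) (τ : Bool)
    (s j : ℕ) : Finset ℕ :=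
  open Classical in
  (clI Q s).filter (fun q => q = 0 ∨ Q.length / s ≤ q + 1 ∨
    ∃ i ≤ j, ∃ u ∈ ed col Q mv z τ i, clq Q s u ≤ q + 1 ∧ q ≤ clq Q s u + 1)

theorem nearK_card (col : Sym2 V → κ) (Q : List V) (mv : ℕ → κ × Bool) (z : V) (τ : Bool)
    (s j : ℕ) : (nearK col Q mv z τ s j).card ≤ 6 * (j + 1) + 3 := by
  classical
  set S : Sym2 V → Finset ℕ := fun e =>
    (clI Q s).filter (fun q => ∃ u ∈ e, clq Q s u ≤ q + 1 ∧ q ≤ clq Q s u + 1) with hS
  have h1 : ∀ e, (S e).card ≤ 6 := by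
    intro e
    induction e using Sym2.ind with
    | _ a b =>
      have h2 : S s(a, b) ⊆ Finset.Icc (clq Q s a - 1) (clq Q s a + 1) ∪
          Finset.Icc (clq Q s b - 1) (clq Q s b + 1) := by
        intro q hq
        rw [hS, Finset.mem_filter] at hq
        obtain ⟨-, u, hu, h3, h4⟩ := hq
        rw [Finset.mem_union, Finset.mem_Icc, Finset.mem_Icc]
        rcases Sym2.mem_iff.1 hu with rfl | rfl
        · left
          omega
        · right
          omega
      calc (S s(a, b)).card ≤ _ := Finset.card_le_card h2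
        _ ≤ _ := Finset.card_union_le _ _
        _ ≤ 6 := by
          rw [Nat.card_Icc, Nat.card_Icc]
          omega
  have h2 : nearK col Q mv z τ s j ⊆
      ({0, Q.length / s - 1, Q.length / s} : Finset ℕ) ∪
        (range (j + 1)).biUnion (fun i => S (ed col Q mv z τ i)) := by
    intro q hq
    unfold nearK at hq
    rw [Finset.mem_filter] at hq
    obtain ⟨h3, h4⟩ := hq
    have h5 : q < Q.length / s + 1 := by
      unfold clI at h3
      exact Finset.mem_range.1 h3
    rw [Finset.mem_union]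
    rcases h4 with h4 | h4 | ⟨i, hi, u, hu, h6, h7⟩
    · left
      simp [h4]
    · left
      simp only [Finset.mem_insert, Finset.mem_singleton]
      omega
    · right
      rw [Finset.mem_biUnion]
      refine ⟨i, Finset.mem_range.2 (by omega), ?_⟩
      rw [hS, Finset.mem_filter]
      exact ⟨h3, u, hu, h6, h7⟩
  calc (nearK col Q mv z τ s j).card ≤ _ := Finset.card_le_card h2
    _ ≤ _ := Finset.card_union_le _ _
    _ ≤ 3 + (range (j + 1)).card * 6 := by
      refine Nat.add_le_add Finset.card_le_three ?_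
      exact Finset.card_biUnion_le_card_mul _ _ _ (fun i _ => h1 _)
    _ = 6 * (j + 1) + 3 := by
      rw [Finset.card_range]
      ring

/-- From `short_near` and `near_class`. -/
theorem short_nearK (col : Sym2 V → κ) (Q : List V) (hQ : Q.Nodup) (h3 : 3 ≤ Q.length)
    (mv : ℕ → κ × Bool) (hmv : ∀ j, ∀ e ∈ ce Q, col e ≠ (mv j).1) (z₀ : V) (τ : Bool) (j : ℕ)
    (h : Alv col Q mv z₀ τ (j + 1)) (hσ : (mv (j + 1)).2 = !(mv j).2) (D s : ℕ) (hs : 1 ≤ s)
    (hDs : D ≤ s) (hD : D + 2 < Q.length) (hsp : SplitAt col Q mv z₀ τ (j + 1))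
    (hlen : (cyc col Q mv z₀ τ (j + 1)).length ≤ D) :
    clq Q s (yy col Q mv z₀ j) ∈ nearK col Q mv z₀ τ s j := by
  classical
  obtain ⟨k, hk, i, hi, hu⟩ := short_near col Q hQ h3 mv hmv z₀ τ j h hσ D hD hsp hlen
  have hyQ : yy col Q mv z₀ j ∈ Q := h.mem j (Nat.lt_succ_self j)
  unfold nearK
  rw [Finset.mem_filter]
  refine ⟨clq_mem Q s _, ?_⟩
  rcases near_class Q hQ s k (by omega) hs (yy col Q mv z₀ j) hyQ (mv j).2 with h1 | h1 | ⟨h1, h2⟩
  · exact Or.inl h1
  · exact Or.inr (Or.inl h1)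
  · exact Or.inr (Or.inr ⟨i, hi, _, hu, h1, h2⟩)

end Pool.Agent.W_cd7020_h81b
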