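import Pool.Agent.W_cd7020_h81b.GHit
import Pool.Agent.W_cd7020_h81b.GWkC
import Pool.Agent.W_cd7020_h81b.GDpA

/-!
# Short cycles are rare: second moves
-/

set_option autoImplicit false

namespace Pool.Agent.W_cd7020_h81b

open Finset Pool.Agent.W_cd7020_h81

variable {V κ : Type*} [DecidableEq V] [DecidableEq κ] [Fintype V]

open Classical in
/-- `hit_le` with `H o`: the first `ms t i` moves are possible, and `K o = nearK .. (ms t i)`
(`short_nearK` with `j = ms t i`, `nearK_card`, `clq_card`). -/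
theorem short_W (col : Sym2 V → κ) (hcol : Proper col) (Q : List V) (hQ : Q.Nodup)
    (h3 : 3 ≤ Q.length) (R : Finset κ) (hR1 : 1 ≤ R.card) (hRn : R.card ≤ Fintype.card V) (a : ℝ)
    (ha : 0 ≤ a) (hR : NB col R a) (hRQ : ∀ e ∈ ce Q, col e ∉ R) (w : ℕ → κ)
    (hw : ∀ i, ∀ e ∈ ce Q, col e ≠ w i) (t m : ℕ) (htm : t ≤ m) (i : Fin m) (hi : (i : ℕ) < t)
    (D s : ℕ) (hs : 1 ≤ s) (hDs : D ≤ s) (hD : D + 2 < Q.length) :
    (((Om Q R m).filter (fun o => Alv col Q (mw w t o) o.1.1 o.1.2 (t + m) ∧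
      SplitAt col Q (mw w t o) o.1.1 o.1.2 (ms t i + 1) ∧
      (cyc col Q (mw w t o) o.1.1 o.1.2 (ms t i + 1)).length ≤ D)).card : ℝ) ≤
    (((12 * (t + 1) * s : ℕ) : ℝ) / Fintype.card V + er Q R a s) * (Om Q R m).card := by
  have him : (i : ℕ) < m := i.2
  have hmsi : ms t i = 2 * i := by unfold ms; rw [if_pos hi]
  have hlt : ms t i + 1 < t + m := by omega
  have hmv : ∀ o ∈ Om Q R m, ∀ j, ∀ e ∈ ce Q, col e ≠ (mw w t o j).1 := by
    intro o ho j e he
    rw [mem_Om] at ho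
    have hext : ∀ j', col e ≠ (ext w m o.2 j').1 := by
      intro j'
      unfold ext
      by_cases hj' : j' < m
      · rw [dif_pos hj']
        intro h
        exact hRQ e he (h ▸ ho.2 ⟨j', hj'⟩)
      · rw [dif_neg hj']
        exact hw 0 e he
    unfold mw mvs
    by_cases h1 : j < 2 * t
    · rw [if_pos h1]
      by_cases h2 : j % 2 = 0
      · rw [if_pos h2]; exact hext _
      · rw [if_neg h2]; exact hw _ e he
    · rw [if_neg h1]; exact hext _
  set K : (V × Bool) × (Fin m → κ × Bool) → Finset ℕ := fun o =>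
    nearK col Q (mw w t o) o.1.1 o.1.2 s (ms t i) with hKdef
  have hmw : ∀ (o : (V × Bool) × (Fin m → κ × Bool)) (q : κ × Bool), ∀ j < ms t i,
      mw w t (upd o i q) j = mw w t o j :=
    fun o q j hj => mw_upd w t o i q j hj
  have hK : ∀ o q, K (upd o i q) = K o := by
    intro o q
    simp only [hKdef]
    have h1 : (upd o i q).1 = o.1 := rfl
    rw [h1]
    unfold nearK
    refine Finset.filter_congr (fun x _ => ?_)
    refine or_congr_right (or_congr_right (exists_congr (fun l => ?_)))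
    refine and_congr_right (fun hl => ?_)
    rw [ed_congr col Q (mw w t (upd o i q)) (mw w t o) o.1.1 o.1.2 l
      (fun j' hj' => hmw o q j' (by omega))]
  have hH : ∀ (o : (V × Bool) × (Fin m → κ × Bool)) (q : κ × Bool), Alv col Q (mw w t (upd o i q)) (upd o i q).1.1 (upd o i q).1.2 (ms t i) ↔
      Alv col Q (mw w t o) o.1.1 o.1.2 (ms t i) := by
    intro o q
    have h1 : (upd o i q).1 = o.1 := rfl
    rw [h1, Alv_congr col Q (mw w t (upd o i q)) (mw w t o) o.1.1 o.1.2 (ms t i) (hmw o q)]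
  have hM : ∀ o ∈ Om Q R m, Alv col Q (mw w t o) o.1.1 o.1.2 (ms t i) →
      (Q.toFinset.filter (fun y => clq Q s y ∈ K o)).card ≤ 12 * (t + 1) * s := by
    intro o ho hA
    refine le_trans (clq_card Q hQ s hs (K o)) ?_
    refine Nat.mul_le_mul_right s ?_
    refine le_trans (nearK_card col Q (mw w t o) o.1.1 o.1.2 s (ms t i)) ?_
    omega
  have hle := hit_le col hcol Q hQ h3 R hR1 hRn a ha hR w t m i s (12 * (t + 1) * s) hs
    (fun o => Alv col Q (mw w t o) o.1.1 o.1.2 (ms t i)) K hH hK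
    (fun o => by simp only [hKdef]; unfold nearK; exact Finset.filter_subset _ _) hM
  refine le_trans ?_ hle
  have : ((Om Q R m).filter (fun o => Alv col Q (mw w t o) o.1.1 o.1.2 (t + m) ∧
      SplitAt col Q (mw w t o) o.1.1 o.1.2 (ms t i + 1) ∧
      (cyc col Q (mw w t o) o.1.1 o.1.2 (ms t i + 1)).length ≤ D)) ⊆
      ((Om Q R m).filter (fun o => Alv col Q (mw w t o) o.1.1 o.1.2 (ms t i) ∧
      yy col Q (mw w t o) o.1.1 (ms t i) ≠ zz col Q (mw w t o) o.1.1 (ms t i) ∧
      yy col Q (mw w t o) o.1.1 (ms t i) ∈ Q ∧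
      clq Q s (yy col Q (mw w t o) o.1.1 (ms t i)) ∈ K o)) := by
    intro o ho
    rw [Finset.mem_filter] at ho ⊢
    refine ⟨ho.1, Alv_mono col Q _ _ _ _ _ (by omega) ho.2.1, ho.2.1.ne _ (by omega),
      ho.2.1.mem _ (by omega), ?_⟩
    simp only [hKdef]
    refine short_nearK col Q hQ h3 (mw w t o) (hmv o ho.1) o.1.1 o.1.2 (ms t i)
      (Alv_mono col Q _ _ _ _ _ hlt.le ho.2.1) ?_ D s hs hDs hD ho.2.2.1 ho.2.2.2
    rw [mw_ms_succ w t o i hi, mw_ms w t o i]
  exact_mod_cast Finset.card_le_card this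

end Pool.Agent.W_cd7020_h81b
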