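import Pool.Agent.W_cd7020_h81b.GSvA

/-!
# Long cycles are merged
-/

set_option autoImplicit false

namespace Pool.Agent.W_cd7020_h81b

open Finset Pool.Agent.W_cd7020_h81

variable {V κ : Type*} [DecidableEq V] [DecidableEq κ] [Fintype V]

theorem GSvB_rec (x : ℕ → ℝ) (δ ε : ℝ) (hδ : 0 < δ) (hδ1 : δ ≤ 1) (hε : 0 ≤ ε) (K : ℕ)
    (h : ∀ k < K, x (k + 1) ≤ x k * (1 - δ) + ε) :
    x K ≤ x 0 * (1 - δ) ^ K + ε / δ := by
  induction K with
  | zero =>
    have : 0 ≤ ε / δ := div_nonneg hε hδ.le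
    simpa using this
  | succ K ih =>
    have h1 := h K (Nat.lt_succ_self K)
    have h2 := ih (fun k hk => h k (by omega))
    have h3 : (0 : ℝ) ≤ 1 - δ := by linarith
    have h4 := mul_le_mul_of_nonneg_right h2 h3
    have h5 : ε / δ * (1 - δ) + ε = ε / δ := by field_simp; ring
    calc x (K + 1) ≤ x K * (1 - δ) + ε := h1
      _ ≤ (x 0 * (1 - δ) ^ K + ε / δ) * (1 - δ) + ε := by linarith
      _ = x 0 * (1 - δ) ^ (K + 1) + (ε / δ * (1 - δ) + ε) := by ring
      _ = x 0 * (1 - δ) ^ (K + 1) + ε / δ := by rw [h5]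

theorem GSvB_er_nonneg (Q : List V) (R : Finset κ) (a : ℝ) (ha : 0 ≤ a) (s : ℕ) :
    0 ≤ er Q R a s := by
  unfold er
  apply mul_nonneg
  · apply div_nonneg (by linarith) (Nat.cast_nonneg _)
  · exact Real.sqrt_nonneg _

/-- `surv_step` for `i = t, ..., m - 1` (`ms t i = i + t`):
`x (k + 1) ≤ x k (1 - δ) + ε` gives `x K ≤ x 0 (1 - δ) ^ K + ε / δ`, `0 < δ ≤ 1`. -/
theorem surv_all (col : Sym2 V → κ) (hcol : Proper col) (Q : List V) (hQ : Q.Nodup)
    (h3 : 3 ≤ Q.length) (R : Finset κ) (hR1 : 1 ≤ R.card) (hRn : R.card ≤ Fintype.card V) (a : ℝ)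
    (ha : 0 ≤ a) (hR : NB col R a) (hRQ : ∀ e ∈ ce Q, col e ∉ R) (w : ℕ → κ)
    (hw : ∀ i, ∀ e ∈ ce Q, col e ≠ w i) (t m : ℕ) (htm : t ≤ m) (i₀ : ℕ) (hi₀ : i₀ < t)
    (D s : ℕ) (hs : 1 ≤ s) (hDs : 2 * (t + m + 1) * s ≤ D) (hD : D ≤ Fintype.card V) :
    ((SV col Q R w t m i₀ D (t + m)).card : ℝ) ≤
      ((1 - D / (2 * Fintype.card V)) ^ (m - t) +
        er Q R a s * (2 * Fintype.card V / D)) * (Om Q R m).card := by
  have hD1 : 1 ≤ D := by
    have : 1 ≤ 2 * (t + m + 1) * s := Nat.one_le_iff_ne_zero.mpr (by positivity)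
    omega
  have hn : 1 ≤ Fintype.card V := le_trans hD1 hD
  have hDr : (0 : ℝ) < D := by exact_mod_cast hD1
  have hnr : (0 : ℝ) < Fintype.card V := by exact_mod_cast hn
  have hDn : (D : ℝ) ≤ Fintype.card V := by exact_mod_cast hD
  set δ : ℝ := D / (2 * Fintype.card V) with hδdef
  have hδ : 0 < δ := by positivity
  have hδ1 : δ ≤ 1 := by
    rw [hδdef, div_le_one (by positivity)]
    linarith
  set ε : ℝ := er Q R a s * (Om Q R m).card with hεdef
  have hε : 0 ≤ ε := mul_nonneg (GSvB_er_nonneg Q R a ha s) (Nat.cast_nonneg _)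
  have hrec := GSvB_rec (fun k => ((SV col Q R w t m i₀ D (2 * t + k)).card : ℝ)) δ ε hδ hδ1 hε
    (m - t) (by
      intro k hk
      have hi : t + k < m := by omega
      have h := surv_step col hcol Q hQ h3 R hR1 hRn a ha hR hRQ w hw t m htm i₀ hi₀
        ⟨t + k, hi⟩ (by simp) D s hs hDs
      have hms : ms t ((⟨t + k, hi⟩ : Fin m) : ℕ) = 2 * t + k := by
        unfold ms
        simp only
        rw [if_neg (by omega)]
        omega
      rw [hms] at h
      exact h)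
  have he : 2 * t + (m - t) = t + m := by omega
  simp only [he, add_zero] at hrec
  refine le_trans hrec ?_
  have h0 : ((SV col Q R w t m i₀ D (2 * t)).card : ℝ) ≤ (Om Q R m).card := by
    exact_mod_cast Finset.card_le_card (by
      intro o ho
      rw [GSvA_mem] at ho
      exact ho.1)
  have hp : (0 : ℝ) ≤ (1 - δ) ^ (m - t) := pow_nonneg (by linarith) _
  have h1 := mul_le_mul_of_nonneg_right h0 hp
  have h2 : ε / δ = er Q R a s * (2 * Fintype.card V / D) * (Om Q R m).card := by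
    rw [hεdef, hδdef]
    field_simp
  rw [h2]
  linarith

end Pool.Agent.W_cd7020_h81b
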