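import Pool.Agent.W_cd7020_h81b.GCnA
import Pool.Agent.W_cd7020_h81b.GSvB
import Pool.Agent.W_cd7020_h81b.GShR
import Pool.Agent.W_cd7020_h81b.GShW

/-!
# The expected number of cycles at the end
-/

set_option autoImplicit false

namespace Pool.Agent.W_cd7020_h81b

open Finset Pool.Agent.W_cd7020_h81

variable {V κ : Type*} [DecidableEq V] [DecidableEq κ] [Fintype V]

open Classical in
/-- The expectation: sum `count_pt` over the possible elements, exchange the sums, `short_R`,
`short_W` (with `D₁ ≤ s₁`), `surv_all` (with `s`). -/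
theorem count_sum (col : Sym2 V → κ) (hcol : Proper col) (Q : List V) (hQ : Q.Nodup)
    (h3 : 3 ≤ Q.length) (R : Finset κ) (hR1 : 1 ≤ R.card) (hRn : R.card ≤ Fintype.card V) (a : ℝ)
    (ha : 0 ≤ a) (hR : NB col R a) (hRQ : ∀ e ∈ ce Q, col e ∉ R) (w : ℕ → κ)
    (hw : ∀ i, ∀ e ∈ ce Q, col e ≠ w i) (t m D₁ D₂ s s₁ : ℕ) (htm : t ≤ m) (hD₂ : 1 ≤ D₂)
    (hs : 1 ≤ s) (hs₁ : 1 ≤ s₁) (hD₁s : D₁ ≤ s₁) (hD₁ : D₁ + 2 < Q.length)
    (hDs : 2 * (t + m + 1) * s ≤ D₁) :
    (∑ o ∈ (Om Q R m).filter (fun o => Alv col Q (mw w t o) o.1.1 o.1.2 (t + m)),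
      ((sta col Q (mw w t o) o.1.1 o.1.2 (t + m)).cs.length : ℝ)) ≤
    ((Q.length : ℝ) / D₂ +
      m * (((D₂ + (t + m + 2) * s : ℕ) : ℝ) / Fintype.card V + er Q R a s) +
      t * (((12 * (t + 1) * s₁ : ℕ) : ℝ) / Fintype.card V + er Q R a s₁) +
      t * ((1 - D₁ / (2 * Fintype.card V)) ^ (m - t) +
        er Q R a s * (2 * Fintype.card V / D₁))) * (Om Q R m).card := by
  have hQn : Q.length ≤ Fintype.card V := hQ.length_le_card
  let S : Finset ((V × Bool) × (Fin m → κ × Bool)) :=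
    (Om Q R m).filter (fun o => Alv col Q (mw w t o) o.1.1 o.1.2 (t + m))
  let PA : ℕ → (V × Bool) × (Fin m → κ × Bool) → Prop := fun i o =>
    yy col Q (mw w t o) o.1.1 (ms t i) ∈ (sta col Q (mw w t o) o.1.1 o.1.2 (ms t i)).p.take D₂
  let PB : ℕ → (V × Bool) × (Fin m → κ × Bool) → Prop := fun i o =>
    SplitAt col Q (mw w t o) o.1.1 o.1.2 (ms t i + 1) ∧
      (cyc col Q (mw w t o) o.1.1 o.1.2 (ms t i + 1)).length ≤ D₁
  let PC : ℕ → (V × Bool) × (Fin m → κ × Bool) → Prop := fun i o =>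
    o ∈ SV col Q R w t m i D₁ (t + m)
  have hS : ∀ o, o ∈ S ↔ o ∈ Om Q R m ∧ Alv col Q (mw w t o) o.1.1 o.1.2 (t + m) :=
    fun o => mem_filter
  have hpt : ∀ o ∈ S, ((sta col Q (mw w t o) o.1.1 o.1.2 (t + m)).cs.length : ℝ) ≤
      (Q.length : ℝ) / D₂ + (∑ i ∈ range m, (if PA i o then (1 : ℝ) else 0)) +
        (∑ i ∈ range t, (if PB i o then (1 : ℝ) else 0)) +
        ∑ i ∈ range t, (if PC i o then (1 : ℝ) else 0) := by
    intro o ho
    obtain ⟨ho1, ho2⟩ := (hS o).1 ho
    have h1 := count_pt col Q hQ h3 R hRQ w hw t m D₁ D₂ htm hD₂ o ho1 ho2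
    have h2 : ((sta col Q (mw w t o) o.1.1 o.1.2 (t + m)).cs.length : ℝ) ≤
        ((Q.length / D₂ : ℕ) : ℝ) + (((range m).filter (PA · o)).card : ℝ) +
          (((range t).filter (PB · o)).card : ℝ) + (((range t).filter (PC · o)).card : ℝ) := by
      have h3 : (sta col Q (mw w t o) o.1.1 o.1.2 (t + m)).cs.length ≤
        (Q.length / D₂) + ((range m).filter (PA · o)).card +
          ((range t).filter (PB · o)).card + ((range t).filter (PC · o)).card := by
        convert h1
      exact_mod_cast h3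
    have h4 : ((Q.length / D₂ : ℕ) : ℝ) ≤ (Q.length : ℝ) / D₂ := Nat.cast_div_le
    rw [Finset.sum_boole, Finset.sum_boole, Finset.sum_boole]
    linarith
  have hsum := Finset.sum_le_sum hpt
  rw [Finset.sum_add_distrib, Finset.sum_add_distrib, Finset.sum_add_distrib,
    Finset.sum_comm (s := S) (t := range m) (f := fun o i => if PA i o then (1 : ℝ) else 0),
    Finset.sum_comm (s := S) (t := range t) (f := fun o i => if PB i o then (1 : ℝ) else 0),
    Finset.sum_comm (s := S) (t := range t) (f := fun o i => if PC i o then (1 : ℝ) else 0)] at hsum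
  have hSle : (S.card : ℝ) ≤ (Om Q R m).card := by
    exact_mod_cast Finset.card_filter_le _ _
  have e1 : ∑ _o ∈ S, (Q.length : ℝ) / D₂ ≤ (Q.length : ℝ) / D₂ * (Om Q R m).card := by
    rw [Finset.sum_const, nsmul_eq_mul, mul_comm]
    exact mul_le_mul_of_nonneg_left hSle (by positivity)
  have e2 : ∑ i ∈ range m, ∑ o ∈ S, (if PA i o then (1 : ℝ) else 0) ≤
      m * ((((D₂ + (t + m + 2) * s : ℕ) : ℝ) / Fintype.card V + er Q R a s) *
        (Om Q R m).card) := by
    have h1 : ∀ i ∈ range m, ∑ o ∈ S, (if PA i o then (1 : ℝ) else 0) ≤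
        (((D₂ + (t + m + 2) * s : ℕ) : ℝ) / Fintype.card V + er Q R a s) *
          (Om Q R m).card := by
      intro i hi
      have h2 := short_R col hcol Q hQ h3 R hR1 hRn a ha hR hRQ w hw t m htm
        ⟨i, mem_range.1 hi⟩ D₂ s hs
      rw [Finset.sum_boole]
      refine le_trans ?_ h2
      have h5 : (S.filter (PA i)) ⊆ (Om Q R m).filter
          (fun o => Alv col Q (mw w t o) o.1.1 o.1.2 (t + m) ∧
            yy col Q (mw w t o) o.1.1 (ms t i) ∈
              (sta col Q (mw w t o) o.1.1 o.1.2 (ms t i)).p.take D₂) := by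
        intro o ho
        rw [mem_filter, hS] at ho
        exact mem_filter.2 ⟨ho.1.1, ho.1.2, ho.2⟩
      exact_mod_cast card_le_card h5
    refine (Finset.sum_le_sum h1).trans ?_
    rw [Finset.sum_const, card_range, nsmul_eq_mul]
  have e3 : ∑ i ∈ range t, ∑ o ∈ S, (if PB i o then (1 : ℝ) else 0) ≤
      t * ((((12 * (t + 1) * s₁ : ℕ) : ℝ) / Fintype.card V + er Q R a s₁) *
        (Om Q R m).card) := by
    have h1 : ∀ i ∈ range t, ∑ o ∈ S, (if PB i o then (1 : ℝ) else 0) ≤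
        (((12 * (t + 1) * s₁ : ℕ) : ℝ) / Fintype.card V + er Q R a s₁) *
          (Om Q R m).card := by
      intro i hi
      have hit := mem_range.1 hi
      have h2 := short_W col hcol Q hQ h3 R hR1 hRn a ha hR hRQ w hw t m htm
        ⟨i, by omega⟩ hit D₁ s₁ hs₁ hD₁s hD₁
      rw [Finset.sum_boole]
      refine le_trans ?_ h2
      have h5 : (S.filter (PB i)) ⊆ (Om Q R m).filter
          (fun o => Alv col Q (mw w t o) o.1.1 o.1.2 (t + m) ∧
            SplitAt col Q (mw w t o) o.1.1 o.1.2 (ms t i + 1) ∧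
            (cyc col Q (mw w t o) o.1.1 o.1.2 (ms t i + 1)).length ≤ D₁) := by
        intro o ho
        rw [mem_filter, hS] at ho
        exact mem_filter.2 ⟨ho.1.1, ho.1.2, ho.2⟩
      exact_mod_cast card_le_card h5
    refine (Finset.sum_le_sum h1).trans ?_
    rw [Finset.sum_const, card_range, nsmul_eq_mul]
  have e4 : ∑ i ∈ range t, ∑ o ∈ S, (if PC i o then (1 : ℝ) else 0) ≤
      t * (((1 - D₁ / (2 * Fintype.card V)) ^ (m - t) +
        er Q R a s * (2 * Fintype.card V / D₁)) * (Om Q R m).card) := by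
    have h1 : ∀ i ∈ range t, ∑ o ∈ S, (if PC i o then (1 : ℝ) else 0) ≤
        ((1 - D₁ / (2 * Fintype.card V)) ^ (m - t) +
          er Q R a s * (2 * Fintype.card V / D₁)) * (Om Q R m).card := by
      intro i hi
      have hit := mem_range.1 hi
      have h2 := surv_all col hcol Q hQ h3 R hR1 hRn a ha hR hRQ w hw t m htm i hit D₁ s hs
        hDs (by omega)
      rw [Finset.sum_boole]
      refine le_trans ?_ h2
      have h5 : (S.filter (PC i)) ⊆ SV col Q R w t m i D₁ (t + m) := by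
        intro o ho
        exact (mem_filter.1 ho).2
      exact_mod_cast card_le_card h5
    refine (Finset.sum_le_sum h1).trans ?_
    rw [Finset.sum_const, card_range, nsmul_eq_mul]
  refine hsum.trans ?_
  refine (add_le_add (add_le_add (add_le_add e1 e2) e3) e4).trans (le_of_eq ?_)
  ring

end Pool.Agent.W_cd7020_h81b
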