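import Pool.Agent.W_cd7020_h81b.GDpB

/-!
# The sample space
-/

set_option autoImplicit false

namespace Pool.Agent.W_cd7020_h81b

open Finset Pool.Agent.W_cd7020_h81

variable {V κ : Type*} [DecidableEq V] [DecidableEq κ] [Fintype V]

/-- The cardinality of the sample space. -/
theorem Om_card (Q : List V) (hQ : Q.Nodup) (R : Finset κ) (m : ℕ) :
    (Om Q R m).card = Q.length * 2 * (2 * R.card) ^ m := by
  unfold Om
  rw [Finset.card_product, Finset.card_product, List.toFinset_card_of_nodup hQ,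
    Fintype.card_piFinset_const, Finset.card_product, Finset.card_univ, Fintype.card_bool,
    Nat.mul_comm R.card 2]

/-- Membership. -/
theorem mem_Om (Q : List V) (R : Finset κ) (m : ℕ) (o : (V × Bool) × (Fin m → κ × Bool)) :
    o ∈ Om Q R m ↔ o.1.1 ∈ Q ∧ ∀ i, (o.2 i).1 ∈ R := by
  simp [Om]

/-- Resampling the choice number `i`: if `g` does not depend on this choice, then
`∑ o, g o (o.2 i) = 1 / (2 r) ∑ o, ∑ q, g o q`, in the following form. The map
`(o, q) ↦ (upd o i q, o.2 i)` is a permutation of `Om × (R ×ˢ univ)`. -/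
theorem resample (Q : List V) (R : Finset κ) (m : ℕ) (i : Fin m)
    (g : (V × Bool) × (Fin m → κ × Bool) → κ × Bool → ℝ)
    (hg : ∀ o q q', g (upd o i q') q = g o q) :
    (2 * R.card : ℝ) * ∑ o ∈ Om Q R m, g o (o.2 i) =
      ∑ o ∈ Om Q R m, ∑ q ∈ R ×ˢ (univ : Finset Bool), g o q := by
  have h1 : (2 * R.card : ℝ) * ∑ o ∈ Om Q R m, g o (o.2 i) =
      ∑ p ∈ Om Q R m ×ˢ (R ×ˢ (univ : Finset Bool)), g p.1 (p.1.2 i) := by
    rw [Finset.sum_product, Finset.mul_sum]
    refine Finset.sum_congr rfl fun o _ => ?_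
    show _ = ∑ _y ∈ R ×ˢ (univ : Finset Bool), g o (o.2 i)
    rw [Finset.sum_const, nsmul_eq_mul, Finset.card_product, Finset.card_univ, Fintype.card_bool]
    push_cast
    ring
  have h2 : ∑ o ∈ Om Q R m, ∑ q ∈ R ×ˢ (univ : Finset Bool), g o q =
      ∑ p ∈ Om Q R m ×ˢ (R ×ˢ (univ : Finset Bool)), g p.1 p.2 := by
    rw [Finset.sum_product]
  rw [h1, h2]
  have hmem : ∀ p ∈ Om Q R m ×ˢ (R ×ˢ (univ : Finset Bool)),
      (upd p.1 i p.2, p.1.2 i) ∈ Om Q R m ×ˢ (R ×ˢ (univ : Finset Bool)) := by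
    intro p hp
    rw [Finset.mem_product] at hp ⊢
    obtain ⟨ho, hq⟩ := hp
    rw [mem_Om] at ho
    refine ⟨?_, ?_⟩
    · rw [mem_Om]
      refine ⟨ho.1, fun j => ?_⟩
      by_cases hj : j = i
      · subst hj
        simpa [upd] using (Finset.mem_product.1 hq).1
      · simpa [upd, Function.update_of_ne hj] using ho.2 j
    · simpa using ho.2 i
  have hinv : ∀ p : ((V × Bool) × (Fin m → κ × Bool)) × (κ × Bool),
      (upd (upd p.1 i p.2) i (p.1.2 i), (upd p.1 i p.2).2 i) = p := by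
    rintro ⟨⟨a, b⟩, c⟩
    simp [upd]
  refine Finset.sum_nbij' (fun p => (upd p.1 i p.2, p.1.2 i)) (fun p => (upd p.1 i p.2, p.1.2 i))
    hmem hmem (fun p _ => hinv p) (fun p _ => hinv p) ?_
  intro p _
  exact (hg p.1 (p.1.2 i) p.2).symm

end Pool.Agent.W_cd7020_h81b
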