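import Pool.Agent.W_cd7020_h81b.GNc
import Pool.Agent.W_cd7020_h81b.GDpC

/-!
# Repeated colours, few choices for a removed edge
-/

set_option autoImplicit false

namespace Pool.Agent.W_cd7020_h81b

open Finset Pool.Agent.W_cd7020_h81

variable {V κ : Type*} [DecidableEq V] [DecidableEq κ] [Fintype V]

omit [Fintype V] in
/-- The ends of a cyclic pair are in `Q`. -/
theorem GDdA_mem (Q : List V) (hQ : Q.Nodup) (x y : V) (he : s(x, y) ∈ ce Q) : x ∈ Q := by
  obtain ⟨u, hu, h⟩ := ce_nb Q hQ _ he
  have hx : x ∈ s(u, nb Q u true) := by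
    rw [← h]
    exact Sym2.mem_mk_left _ _
  rcases Sym2.mem_iff.1 hx with rfl | rfl
  · exact hu
  · exact (nb_mem Q u true).2 hu

/-- Repeated colours of the pool. -/
theorem dead_rep (Q : List V) (R : Finset κ) (m : ℕ) (i j : Fin m) (hij : i ≠ j) :
    R.card * ((Om Q R m).filter (fun o => (o.2 i).1 = (o.2 j).1)).card ≤ (Om Q R m).card := by
  rw [← Finset.card_product]
  refine Finset.card_le_card_of_injOn (fun q => upd q.2 i (q.1, (q.2.2 i).2)) ?_ ?_
  · intro q hq
    have hq' := Finset.mem_product.1 (Finset.mem_coe.1 hq)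
    have ho := (mem_Om Q R m q.2).1 (Finset.mem_filter.1 hq'.2).1
    refine Finset.mem_coe.2 ((mem_Om Q R m _).2 ⟨ho.1, fun l => ?_⟩)
    by_cases hl : l = i
    · subst hl
      change (Function.update q.2.2 l (q.1, (q.2.2 l).2) l).1 ∈ R
      rw [Function.update_self]
      exact hq'.1
    · change (Function.update q.2.2 i (q.1, (q.2.2 i).2) l).1 ∈ R
      rw [Function.update_of_ne hl]
      exact ho.2 l
  · rintro ⟨a, ⟨o1, o2⟩⟩ hq ⟨a', ⟨o1', o2'⟩⟩ hq' h
    have e1 : (o2 i).1 = (o2 j).1 :=
      (Finset.mem_filter.1 (Finset.mem_product.1 (Finset.mem_coe.1 hq)).2).2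
    have e2 : (o2' i).1 = (o2' j).1 :=
      (Finset.mem_filter.1 (Finset.mem_product.1 (Finset.mem_coe.1 hq')).2).2
    have h1 : o1 = o1' := congrArg Prod.fst h
    have h2 : Function.update o2 i (a, (o2 i).2) = Function.update o2' i (a', (o2' i).2) :=
      congrArg Prod.snd h
    have h3 := congrFun h2 i
    rw [Function.update_self, Function.update_self] at h3
    have h4 : ∀ l, l ≠ i → o2 l = o2' l := by
      intro l hl
      have := congrFun h2 l
      rwa [Function.update_of_ne hl, Function.update_of_ne hl] at this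
    have ha : a = a' := (Prod.ext_iff.1 h3).1
    have hs : (o2 i).2 = (o2' i).2 := (Prod.ext_iff.1 h3).2
    have hii : o2 i = o2' i := by
      refine Prod.ext ?_ hs
      rw [e1, e2, h4 j (Ne.symm hij)]
    have ho : o2 = o2' := by
      funext l
      by_cases hl : l = i
      · rw [hl, hii]
      · exact h4 l hl
    rw [ha, h1, ho]

/-- For a fixed vertex `z` and a fixed cyclic pair `e` at most two choices `(b, s)` lead to the
removal of `e` (if the partner exists): `e = s(y, nb Q y s)` has at most two solutions `(y, s)`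
(`nb_edge_same`: one for each side) and the colour `b = col s(z, y)` is determined by `y`. -/
theorem two_choices (col : Sym2 V → κ) (Q : List V) (hQ : Q.Nodup) (h3 : 3 ≤ Q.length)
    (R : Finset κ) (z : V) (e : Sym2 V) (he : e ∈ ce Q) :
    ((R ×ˢ (univ : Finset Bool)).filter (fun q => par col q.1 z ≠ z ∧
      s(par col q.1 z, nb Q (par col q.1 z) q.2) = e)).card ≤ 2 := by
  refine (Finset.card_le_card_of_injOn (fun q => q.2) (t := (univ : Finset Bool))
    (fun _ _ => Finset.mem_coe.2 (Finset.mem_univ _)) ?_).trans_eq ?_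
  · rintro ⟨b, s⟩ hq ⟨b', s'⟩ hq' h
    obtain ⟨_, h1, h2⟩ := Finset.mem_filter.1 (Finset.mem_coe.1 hq)
    obtain ⟨_, _, h2'⟩ := Finset.mem_filter.1 (Finset.mem_coe.1 hq')
    have hs : s = s' := h
    subst hs
    change par col b z ≠ z at h1
    change s(par col b z, nb Q (par col b z) s) = e at h2
    change s(par col b' z, nb Q (par col b' z) s) = e at h2'
    have hm : par col b z ∈ Q := GDdA_mem Q hQ _ _ (h2 ▸ he)
    have h3 := nb_edge_same Q hQ h3 _ _ hm s (h2.trans h2'.symm)
    rw [par_colour_inj col b b' z h1 h3]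
  · rfl

/-- For the following move with the colour `k`: also at most two choices. The new first vertex is
`z' = nb Q y s` with `y = par b z`, then `y' = par k z'` and the removed edge is
`s(y', nb Q y' (!s))`. Two solutions `(y', s)`; then `z' = par k y'`, `y = nb Q z' (!s)`,
`b = col s(z, y)` are determined. -/
theorem two_choices' (col : Sym2 V → κ) (hcol : Proper col) (Q : List V) (hQ : Q.Nodup)
    (h3 : 3 ≤ Q.length) (R : Finset κ) (z : V) (k : κ) (e : Sym2 V) (he : e ∈ ce Q) :
    ((R ×ˢ (univ : Finset Bool)).filter (fun q => par col q.1 z ≠ z ∧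
      s(par col k (nb Q (par col q.1 z) q.2),
        nb Q (par col k (nb Q (par col q.1 z) q.2)) (!q.2)) = e)).card ≤ 2 := by
  refine (Finset.card_le_card_of_injOn (fun q => q.2) (t := (univ : Finset Bool))
    (fun _ _ => Finset.mem_coe.2 (Finset.mem_univ _)) ?_).trans_eq ?_
  · rintro ⟨b, s⟩ hq ⟨b', s'⟩ hq' h
    obtain ⟨_, h1, h2⟩ := Finset.mem_filter.1 (Finset.mem_coe.1 hq)
    obtain ⟨_, _, h2'⟩ := Finset.mem_filter.1 (Finset.mem_coe.1 hq')
    have hs : s = s' := h
    subst hs
    change par col b z ≠ z at h1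
    change s(par col k (nb Q (par col b z) s),
      nb Q (par col k (nb Q (par col b z) s)) (!s)) = e at h2
    change s(par col k (nb Q (par col b' z) s),
      nb Q (par col k (nb Q (par col b' z) s)) (!s)) = e at h2'
    have hm : par col k (nb Q (par col b z) s) ∈ Q := GDdA_mem Q hQ _ _ (h2 ▸ he)
    have h4 := nb_edge_same Q hQ h3 _ _ hm (!s) (h2.trans h2'.symm)
    have h5 := par_inj col hcol k h4
    have h6 : par col b z = par col b' z := nb_inj Q s h5
    rw [par_colour_inj col b b' z h1 h6]
  · rfl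

end Pool.Agent.W_cd7020_h81b
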