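import Pool.Agent.W_cd7020_h81b.GNc

/-!
# Possible moves
-/

set_option autoImplicit false

namespace Pool.Agent.W_cd7020_h81b

open Finset Pool.Agent.W_cd7020_h81

variable {V κ : Type*} [DecidableEq V] [DecidableEq κ] [Fintype V]

theorem Alv_mono (col : Sym2 V → κ) (Q : List V) (mv : ℕ → κ × Bool) (z : V) (τ : Bool)
    (J j : ℕ) (hj : j ≤ J) (h : Alv col Q mv z τ J) : Alv col Q mv z τ j := by
  exact ⟨h.start, fun i hi => h.ne i (by omega), fun i hi => h.mem i (by omega),
    fun i k hik hk => h.cut i k hik (by omega), fun i k hik hk => h.colr i k hik (by omega)⟩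

theorem zz_mem (col : Sym2 V → κ) (Q : List V) (mv : ℕ → κ × Bool) (z : V) (τ : Bool) (J j : ℕ)
    (hj : j ≤ J) (h : Alv col Q mv z τ J) : zz col Q mv z j ∈ Q := by
  cases j with
  | zero => exact h.start
  | succ j => exact (nb_mem Q _ _).2 (h.mem j (by omega))

/-- The removed edges are cyclic pairs. -/
theorem ed_ce (col : Sym2 V → κ) (Q : List V) (hQ : Q.Nodup) (mv : ℕ → κ × Bool) (z : V)
    (τ : Bool) (J j : ℕ) (hj : j ≤ J) (h : Alv col Q mv z τ J) : ed col Q mv z τ j ∈ ce Q := by
  cases j with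
  | zero => exact nb_ce Q hQ z h.start τ
  | succ j => exact nb_ce Q hQ _ (h.mem j (by omega)) _

/-- The new edges have the colours of the moves (`par_col`). -/
theorem new_col (col : Sym2 V → κ) (Q : List V) (mv : ℕ → κ × Bool) (z : V) (τ : Bool) (J j : ℕ)
    (hj : j < J) (h : Alv col Q mv z τ J) :
    col s(zz col Q mv z j, yy col Q mv z j) = (mv j).1 := by
  exact par_col col (mv j).1 _ (h.ne j hj)

end Pool.Agent.W_cd7020_h81b
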