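import Pool.Agent.W_cd7020_h81b.GDdA
import Pool.Agent.W_cd7020_h81b.GDpA
import Pool.Agent.W_cd7020_h81b.GInA

/-!
# Edges which are removed twice
-/

set_option autoImplicit false

namespace Pool.Agent.W_cd7020_h81b

open Finset Pool.Agent.W_cd7020_h81

variable {V κ : Type*} [DecidableEq V] [DecidableEq κ] [Fintype V]

open Classical in
theorem GDdB_main (Q : List V) (R : Finset κ) (m : ℕ) (i : Fin m) (J : ℕ)
    (D : (V × Bool) × (Fin m → κ × Bool) → Prop)
    (e : (V × Bool) × (Fin m → κ × Bool) → ℕ → Sym2 V)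
    (F : (V × Bool) × (Fin m → κ × Bool) → κ × Bool → Prop)
    (S : (V × Bool) × (Fin m → κ × Bool) → κ × Bool → Sym2 V)
    (hD : ∀ o q', D (upd o i q') ↔ D o) (he : ∀ o q' l, l ≤ J → e (upd o i q') l = e o l)
    (hF : ∀ o q' q, F (upd o i q') q ↔ F o q) (hS : ∀ o q' q, S (upd o i q') q = S o q)
    (h2 : ∀ o ∈ Om Q R m, D o → ∀ l ≤ J, ((R ×ˢ (univ : Finset Bool)).filter (fun q =>
      F o q ∧ S o q = e o l)).card ≤ 2) :
    (R.card : ℝ) * ((Om Q R m).filter (fun o => D o ∧ F o (o.2 i) ∧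
      ∃ l ≤ J, e o l = S o (o.2 i))).card ≤ (J + 1 : ℝ) * (Om Q R m).card := by
  obtain ⟨g, hgdef⟩ : ∃ g : (V × Bool) × (Fin m → κ × Bool) → κ × Bool → ℝ, g = fun o q =>
      if D o ∧ F o q ∧ ∃ l ≤ J, e o l = S o q then 1 else 0 := ⟨_, rfl⟩
  have hg : ∀ o q q', g (upd o i q') q = g o q := by
    intro o q q'
    rw [hgdef]
    have h1 : (D (upd o i q') ∧ F (upd o i q') q ∧
        ∃ l ≤ J, e (upd o i q') l = S (upd o i q') q) ↔
        (D o ∧ F o q ∧ ∃ l ≤ J, e o l = S o q) := by
      rw [hD, hF, hS]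
      refine and_congr_right fun _ => and_congr_right fun _ => exists_congr fun l => ?_
      refine and_congr_right fun hl => ?_
      rw [he o q' l hl]
    simp only [h1]
  have h3 := resample Q R m i g hg
  have h4 : (((Om Q R m).filter (fun o => D o ∧ F o (o.2 i) ∧
      ∃ l ≤ J, e o l = S o (o.2 i))).card : ℝ) = ∑ o ∈ Om Q R m, g o (o.2 i) := by
    rw [Finset.card_filter, hgdef]
    push_cast
    rfl
  have h5 : ∀ o ∈ Om Q R m, ∑ q ∈ R ×ˢ (univ : Finset Bool), g o q ≤ 2 * (J + 1 : ℝ) := by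
    intro o ho
    by_cases hDo : D o
    · have h6 : ∑ q ∈ R ×ˢ (univ : Finset Bool), g o q =
          (((R ×ˢ (univ : Finset Bool)).filter (fun q =>
            D o ∧ F o q ∧ ∃ l ≤ J, e o l = S o q)).card : ℝ) := by
        rw [Finset.card_filter, hgdef]
        push_cast
        rfl
      have h7 : (R ×ˢ (univ : Finset Bool)).filter (fun q =>
            D o ∧ F o q ∧ ∃ l ≤ J, e o l = S o q) ⊆ (Finset.range (J + 1)).biUnion (fun l =>
            (R ×ˢ (univ : Finset Bool)).filter (fun q => F o q ∧ S o q = e o l)) := by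
        intro q hq
        rw [Finset.mem_filter] at hq
        obtain ⟨hq1, -, hq3, l, hl, hq4⟩ := hq
        rw [Finset.mem_biUnion]
        exact ⟨l, Finset.mem_range.2 (by omega), Finset.mem_filter.2 ⟨hq1, hq3, hq4.symm⟩⟩
      have h8 : ((R ×ˢ (univ : Finset Bool)).filter (fun q =>
            D o ∧ F o q ∧ ∃ l ≤ J, e o l = S o q)).card ≤ (J + 1) * 2 := by
        refine (Finset.card_le_card h7).trans ?_
        refine (Finset.card_biUnion_le_card_mul _ _ 2 fun l hl => ?_).trans ?_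
        · exact h2 o ho hDo l (by have := Finset.mem_range.1 hl; omega)
        · rw [Finset.card_range]
      rw [h6]
      have h9 : (((R ×ˢ (univ : Finset Bool)).filter (fun q =>
            D o ∧ F o q ∧ ∃ l ≤ J, e o l = S o q)).card : ℝ) ≤ (((J + 1) * 2 : ℕ) : ℝ) := by
        exact_mod_cast h8
      push_cast at h9
      linarith
    · have h6 : ∑ q ∈ R ×ˢ (univ : Finset Bool), g o q = 0 := by
        refine Finset.sum_eq_zero fun q _ => ?_
        rw [hgdef]
        exact if_neg fun h => hDo h.1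
      rw [h6]
      positivity
  have h10 := Finset.sum_le_sum h5
  rw [← h3, ← h4, Finset.sum_const, nsmul_eq_mul] at h10
  have h11 : (0 : ℝ) ≤ (Om Q R m).card := Nat.cast_nonneg _
  nlinarith [h10]

open Classical in
/-- The move `ms t i` removes an edge which was removed before: `resample` with the function
which says that the moves before are possible, the partner exists and the removed edge is one of
the `ms t i + 1` edges `ed 0, ..., ed (ms t i)`, which do not depend on the choice `i`;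
`two_choices`. -/
theorem dead_cut (col : Sym2 V → κ) (Q : List V) (hQ : Q.Nodup) (h3 : 3 ≤ Q.length)
    (R : Finset κ) (w : ℕ → κ) (t m : ℕ) (htm : t ≤ m) (i : Fin m) :
    (R.card : ℝ) * ((Om Q R m).filter (fun o =>
      Alv col Q (mw w t o) o.1.1 o.1.2 (ms t i) ∧
      yy col Q (mw w t o) o.1.1 (ms t i) ≠ zz col Q (mw w t o) o.1.1 (ms t i) ∧
      ∃ l ≤ ms t i, ed col Q (mw w t o) o.1.1 o.1.2 l =
        ed col Q (mw w t o) o.1.1 o.1.2 (ms t i + 1))).card ≤
      (ms t i + 1 : ℝ) * (Om Q R m).card := by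
  have h1 := GDdB_main Q R m i (ms t i)
    (fun o => Alv col Q (mw w t o) o.1.1 o.1.2 (ms t i))
    (fun o l => ed col Q (mw w t o) o.1.1 o.1.2 l)
    (fun o q => par col q.1 (zz col Q (mw w t o) o.1.1 (ms t i)) ≠
      zz col Q (mw w t o) o.1.1 (ms t i))
    (fun o q => s(par col q.1 (zz col Q (mw w t o) o.1.1 (ms t i)),
      nb Q (par col q.1 (zz col Q (mw w t o) o.1.1 (ms t i))) q.2))
    (fun o q' => Alv_congr col Q _ _ _ _ _ fun j hj => mw_upd w t o i q' j hj)
    (fun o q' l hl => ed_congr col Q _ _ _ _ _ fun j hj =>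
      mw_upd w t o i q' j (lt_of_lt_of_le hj hl))
    (fun o q' q => by
      have h2 := zz_congr col Q (mw w t (upd o i q')) (mw w t o) o.1.1 (ms t i)
        fun j hj => mw_upd w t o i q' j hj
      change par col q.1 (zz col Q (mw w t (upd o i q')) o.1.1 (ms t i)) ≠
        zz col Q (mw w t (upd o i q')) o.1.1 (ms t i) ↔ _
      rw [h2])
    (fun o q' q => by
      have h2 := zz_congr col Q (mw w t (upd o i q')) (mw w t o) o.1.1 (ms t i)
        fun j hj => mw_upd w t o i q' j hj
      change s(par col q.1 (zz col Q (mw w t (upd o i q')) o.1.1 (ms t i)),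
        nb Q (par col q.1 (zz col Q (mw w t (upd o i q')) o.1.1 (ms t i))) q.2) = _
      rw [h2])
    (fun o _ hD l hl => by
      have h2 := two_choices col Q hQ h3 R (zz col Q (mw w t o) o.1.1 (ms t i)) _
        (ed_ce col Q hQ (mw w t o) o.1.1 o.1.2 (ms t i) l hl hD)
      refine le_trans (Finset.card_le_card fun q hq => ?_) h2
      simp only [Finset.mem_filter] at hq ⊢
      exact hq)
  refine le_trans ?_ h1
  refine mul_le_mul_of_nonneg_left ?_ (Nat.cast_nonneg _)
  have h4 : (Om Q R m).filter (fun o =>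
      Alv col Q (mw w t o) o.1.1 o.1.2 (ms t i) ∧
      yy col Q (mw w t o) o.1.1 (ms t i) ≠ zz col Q (mw w t o) o.1.1 (ms t i) ∧
      ∃ l ≤ ms t i, ed col Q (mw w t o) o.1.1 o.1.2 l =
        ed col Q (mw w t o) o.1.1 o.1.2 (ms t i + 1)) ⊆ (Om Q R m).filter (fun o =>
      Alv col Q (mw w t o) o.1.1 o.1.2 (ms t i) ∧
      par col (o.2 i).1 (zz col Q (mw w t o) o.1.1 (ms t i)) ≠
        zz col Q (mw w t o) o.1.1 (ms t i) ∧
      ∃ l ≤ ms t i, ed col Q (mw w t o) o.1.1 o.1.2 l =
        s(par col (o.2 i).1 (zz col Q (mw w t o) o.1.1 (ms t i)),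
          nb Q (par col (o.2 i).1 (zz col Q (mw w t o) o.1.1 (ms t i))) (o.2 i).2)) := by
    intro o ho
    rw [Finset.mem_filter] at ho ⊢
    obtain ⟨ho1, ho2, ho3, l, hl, ho4⟩ := ho
    have h5 : yy col Q (mw w t o) o.1.1 (ms t i) =
        par col (o.2 i).1 (zz col Q (mw w t o) o.1.1 (ms t i)) := by
      unfold yy
      rw [mw_ms]
    have h6 : ed col Q (mw w t o) o.1.1 o.1.2 (ms t i + 1) =
        s(par col (o.2 i).1 (zz col Q (mw w t o) o.1.1 (ms t i)),
          nb Q (par col (o.2 i).1 (zz col Q (mw w t o) o.1.1 (ms t i))) (o.2 i).2) := by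
      change s(yy col Q (mw w t o) o.1.1 (ms t i),
        nb Q (par col (mw w t o (ms t i)).1 (zz col Q (mw w t o) o.1.1 (ms t i)))
          (mw w t o (ms t i)).2) = _
      rw [h5, mw_ms]
    rw [h5] at ho3
    rw [h6] at ho4
    exact ⟨ho1, ho2, ho3, l, hl, ho4⟩
  exact_mod_cast Finset.card_le_card h4

open Classical in
/-- The move `ms t i + 1` (`i < t`) removes an edge which was removed before, all moves before
being possible. The edge removed last, `s(y, z')`, is impossible: it would be `s(y', nb Q y' (!s))`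
with `y' ≠ z'`, so `y' = y` and `col s(y, z') = w i`, but colours of cyclic pairs of `Q` are not
`w i`. The other ones do not depend on the choice `i`; `resample`, `two_choices'`. -/
theorem dead_cut' (col : Sym2 V → κ) (hcol : Proper col) (Q : List V) (hQ : Q.Nodup)
    (h3 : 3 ≤ Q.length) (R : Finset κ) (w : ℕ → κ) (hw : ∀ i, ∀ e ∈ ce Q, col e ≠ w i)
    (t m : ℕ) (htm : t ≤ m) (i : Fin m) (hi : (i : ℕ) < t) :
    (R.card : ℝ) * ((Om Q R m).filter (fun o =>
      Alv col Q (mw w t o) o.1.1 o.1.2 (ms t i + 1) ∧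
      yy col Q (mw w t o) o.1.1 (ms t i + 1) ≠ zz col Q (mw w t o) o.1.1 (ms t i + 1) ∧
      ∃ l ≤ ms t i + 1, ed col Q (mw w t o) o.1.1 o.1.2 l =
        ed col Q (mw w t o) o.1.1 o.1.2 (ms t i + 2))).card ≤
      (ms t i + 1 : ℝ) * (Om Q R m).card := by
  have h1 := GDdB_main Q R m i (ms t i)
    (fun o => Alv col Q (mw w t o) o.1.1 o.1.2 (ms t i))
    (fun o l => ed col Q (mw w t o) o.1.1 o.1.2 l)
    (fun o q => par col q.1 (zz col Q (mw w t o) o.1.1 (ms t i)) ≠
      zz col Q (mw w t o) o.1.1 (ms t i))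
    (fun o q => s(par col (w i) (nb Q (par col q.1 (zz col Q (mw w t o) o.1.1 (ms t i))) q.2),
      nb Q (par col (w i) (nb Q (par col q.1 (zz col Q (mw w t o) o.1.1 (ms t i))) q.2)) (!q.2)))
    (fun o q' => Alv_congr col Q _ _ _ _ _ fun j hj => mw_upd w t o i q' j hj)
    (fun o q' l hl => ed_congr col Q _ _ _ _ _ fun j hj =>
      mw_upd w t o i q' j (lt_of_lt_of_le hj hl))
    (fun o q' q => by
      have h2 := zz_congr col Q (mw w t (upd o i q')) (mw w t o) o.1.1 (ms t i)
        fun j hj => mw_upd w t o i q' j hj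
      change par col q.1 (zz col Q (mw w t (upd o i q')) o.1.1 (ms t i)) ≠
        zz col Q (mw w t (upd o i q')) o.1.1 (ms t i) ↔ _
      rw [h2])
    (fun o q' q => by
      have h2 := zz_congr col Q (mw w t (upd o i q')) (mw w t o) o.1.1 (ms t i)
        fun j hj => mw_upd w t o i q' j hj
      change s(par col (w i) (nb Q (par col q.1
          (zz col Q (mw w t (upd o i q')) o.1.1 (ms t i))) q.2),
        nb Q (par col (w i) (nb Q (par col q.1
          (zz col Q (mw w t (upd o i q')) o.1.1 (ms t i))) q.2)) (!q.2)) = _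
      rw [h2])
    (fun o _ hD l hl => by
      have h2 := two_choices' col hcol Q hQ h3 R (zz col Q (mw w t o) o.1.1 (ms t i)) (w i) _
        (ed_ce col Q hQ (mw w t o) o.1.1 o.1.2 (ms t i) l hl hD)
      refine le_trans (Finset.card_le_card fun q hq => ?_) h2
      simp only [Finset.mem_filter] at hq ⊢
      exact hq)
  refine le_trans ?_ h1
  refine mul_le_mul_of_nonneg_left ?_ (Nat.cast_nonneg _)
  have h4 : (Om Q R m).filter (fun o =>
      Alv col Q (mw w t o) o.1.1 o.1.2 (ms t i + 1) ∧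
      yy col Q (mw w t o) o.1.1 (ms t i + 1) ≠ zz col Q (mw w t o) o.1.1 (ms t i + 1) ∧
      ∃ l ≤ ms t i + 1, ed col Q (mw w t o) o.1.1 o.1.2 l =
        ed col Q (mw w t o) o.1.1 o.1.2 (ms t i + 2)) ⊆ (Om Q R m).filter (fun o =>
      Alv col Q (mw w t o) o.1.1 o.1.2 (ms t i) ∧
      par col (o.2 i).1 (zz col Q (mw w t o) o.1.1 (ms t i)) ≠
        zz col Q (mw w t o) o.1.1 (ms t i) ∧
      ∃ l ≤ ms t i, ed col Q (mw w t o) o.1.1 o.1.2 l =
        s(par col (w i) (nb Q (par col (o.2 i).1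
            (zz col Q (mw w t o) o.1.1 (ms t i))) (o.2 i).2),
          nb Q (par col (w i) (nb Q (par col (o.2 i).1
            (zz col Q (mw w t o) o.1.1 (ms t i))) (o.2 i).2)) (!(o.2 i).2))) := by
    intro o ho
    rw [Finset.mem_filter] at ho ⊢
    obtain ⟨ho1, ho2, ho3, l, hl, ho4⟩ := ho
    have h5 : yy col Q (mw w t o) o.1.1 (ms t i) =
        par col (o.2 i).1 (zz col Q (mw w t o) o.1.1 (ms t i)) := by
      unfold yy
      rw [mw_ms]
    have h6 : zz col Q (mw w t o) o.1.1 (ms t i + 1) =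
        nb Q (par col (o.2 i).1 (zz col Q (mw w t o) o.1.1 (ms t i))) (o.2 i).2 := by
      change nb Q (par col (mw w t o (ms t i)).1 (zz col Q (mw w t o) o.1.1 (ms t i)))
          (mw w t o (ms t i)).2 = _
      rw [mw_ms]
    have h7 : yy col Q (mw w t o) o.1.1 (ms t i + 1) =
        par col (w i) (zz col Q (mw w t o) o.1.1 (ms t i + 1)) := by
      unfold yy
      rw [mw_ms_succ w t o i hi]
    have h8 : zz col Q (mw w t o) o.1.1 (ms t i + 2) =
        nb Q (yy col Q (mw w t o) o.1.1 (ms t i + 1)) (!(o.2 i).2) := by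
      change nb Q (par col (mw w t o (ms t i + 1)).1 (zz col Q (mw w t o) o.1.1 (ms t i + 1)))
          (mw w t o (ms t i + 1)).2 = _
      rw [mw_ms_succ w t o i hi, h7]
    have h9 : ed col Q (mw w t o) o.1.1 o.1.2 (ms t i + 2) =
        s(yy col Q (mw w t o) o.1.1 (ms t i + 1),
          nb Q (yy col Q (mw w t o) o.1.1 (ms t i + 1)) (!(o.2 i).2)) := by
      change s(yy col Q (mw w t o) o.1.1 (ms t i + 1), zz col Q (mw w t o) o.1.1 (ms t i + 2)) = _
      rw [h8]
    have h10 : ed col Q (mw w t o) o.1.1 o.1.2 (ms t i + 1) =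
        s(yy col Q (mw w t o) o.1.1 (ms t i),
          nb Q (yy col Q (mw w t o) o.1.1 (ms t i)) (o.2 i).2) := by
      change s(yy col Q (mw w t o) o.1.1 (ms t i), zz col Q (mw w t o) o.1.1 (ms t i + 1)) = _
      rw [h6, h5]
    have hne := ho2.ne (ms t i) (Nat.lt_succ_self _)
    have hmem := ho2.mem (ms t i) (Nat.lt_succ_self _)
    have hA := Alv_mono col Q _ _ _ _ (ms t i) (Nat.le_succ _) ho2
    have hlt : l ≤ ms t i := by
      by_contra hcon
      have hl2 : l = ms t i + 1 := by omega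
      rw [hl2, h9, h10] at ho4
      rcases Sym2.eq_iff.1 ho4 with ⟨ha, hb⟩ | ⟨ha, hb⟩
      · rw [← ha] at hb
        exact nb_ne_nb Q hQ h3 _ hmem (o.2 i).2 hb
      · apply ho3
        rw [h6, ← h5, hb]
    rw [h9, h7, h6] at ho4
    rw [h5] at hne
    exact ⟨ho1, hA, hne, l, hlt, ho4⟩
  exact_mod_cast Finset.card_le_card h4

end Pool.Agent.W_cd7020_h81b
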