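import Pool.Agent.W_cd7020_h81b.GNb

/-!
# The cyclic pairs
-/

set_option autoImplicit false

namespace Pool.Agent.W_cd7020_h81b

open Finset Pool.Agent.W_cd7020_h81

variable {V : Type*} [DecidableEq V]

/-- The cyclic pairs by positions. -/
theorem GNc_mem (Q : List V) (e : Sym2 V) :
    e ∈ ce Q ↔ ∃ i, ∃ h : i < Q.length,
      e = s(Q[i], Q[(i + 1) % Q.length]'(Nat.mod_lt _ (i.zero_le.trans_lt h))) := by
  by_cases hQ : Q = []
  · subst hQ
    constructor
    · intro h; exact absurd h (by simp [ce, pe])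
    · rintro ⟨i, h, -⟩; exact absurd h (by simp)
  have hpos : 0 < Q.length := List.length_pos_iff.2 hQ
  have hlen : (Q ++ Q.take 1).length = Q.length + 1 := by
    rw [List.length_append, List.length_take]
    omega
  have key : ∀ i (h : i < Q.length), ∀ (h1 : i < (Q ++ Q.take 1).length)
      (h2 : i + 1 < (Q ++ Q.take 1).length),
      s((Q ++ Q.take 1)[i], (Q ++ Q.take 1)[i + 1]) =
        s(Q[i], Q[(i + 1) % Q.length]'(Nat.mod_lt _ (i.zero_le.trans_lt h))) := by
    intro i h h1 h2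
    have e1 : (Q ++ Q.take 1)[i] = Q[i] := List.getElem_append_left h
    have e2 : (Q ++ Q.take 1)[i + 1] =
        Q[(i + 1) % Q.length]'(Nat.mod_lt _ (i.zero_le.trans_lt h)) := by
      by_cases h5 : i + 1 < Q.length
      · rw [List.getElem_append_left h5]
        congr 1
        exact (Nat.mod_eq_of_lt h5).symm
      · have h6 : i + 1 = Q.length := by omega
        rw [List.getElem_append_right (by omega), List.getElem_take]
        congr 1
        rw [h6, Nat.sub_self, Nat.mod_self]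
    rw [e1, e2]
  unfold ce
  rw [mem_pe_iff]
  constructor
  · rintro ⟨i, h, rfl⟩
    refine ⟨i, by omega, key i (by omega) (by omega) h⟩
  · rintro ⟨i, h, rfl⟩
    exact ⟨i, by omega, (key i h (by omega) (by omega)).symm⟩

theorem GNc_true (Q : List V) (hQ : Q.Nodup) (x : V) (hx : x ∈ Q) :
    s(x, nb Q x true) ∈ ce Q := by
  obtain ⟨i, hi, rfl⟩ := List.getElem_of_mem hx
  exact (GNc_mem Q _).2 ⟨i, hi, by
    rw [show nb Q Q[i] true = Q[(i + 1) % Q.length]'(Nat.mod_lt _ (i.zero_le.trans_lt hi)) from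
      List.formPerm_apply_getElem Q hQ i hi]⟩

/-- `s(x, nb Q x s)` is a cyclic pair. -/
theorem nb_ce (Q : List V) (hQ : Q.Nodup) (x : V) (hx : x ∈ Q) (s : Bool) :
    s(x, nb Q x s) ∈ ce Q := by
  cases s with
  | true => exact GNc_true Q hQ x hx
  | false =>
    have h1 := GNc_true Q hQ (nb Q x false) ((nb_mem Q x false).2 hx)
    have h2 : nb Q (nb Q x false) true = x := nb_nb Q x false
    rw [h2, Sym2.eq_swap] at h1
    exact h1

/-- Every cyclic pair is `s(x, nb Q x true)` for some `x` in `Q`. -/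
theorem ce_nb (Q : List V) (hQ : Q.Nodup) (e : Sym2 V) (he : e ∈ ce Q) :
    ∃ x ∈ Q, e = s(x, nb Q x true) := by
  obtain ⟨i, hi, rfl⟩ := (GNc_mem Q e).1 he
  exact ⟨Q[i], List.getElem_mem hi, by
    rw [show nb Q Q[i] true = Q[(i + 1) % Q.length]'(Nat.mod_lt _ (i.zero_le.trans_lt hi)) from
      List.formPerm_apply_getElem Q hQ i hi]⟩

/-- The cyclic pairs of `Q` which contain `x`. -/
theorem ce_at (Q : List V) (hQ : Q.Nodup) (x y : V) (he : s(x, y) ∈ ce Q) :
    y = nb Q x true ∨ y = nb Q x false := by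
  obtain ⟨z, hz, h⟩ := ce_nb Q hQ _ he
  rcases Sym2.eq_iff.1 h with ⟨rfl, h2⟩ | ⟨h1, rfl⟩
  · exact Or.inl h2
  · right
    rw [h1]
    exact (nb_nb Q y true).symm

/-- The same side. -/
theorem nb_edge_same (Q : List V) (hQ : Q.Nodup) (h3 : 3 ≤ Q.length) (x y : V) (hx : x ∈ Q)
    (s : Bool) (h : s(x, nb Q x s) = s(y, nb Q y s)) : x = y := by
  rcases Sym2.eq_iff.1 h with ⟨h1, -⟩ | ⟨h1, h2⟩
  · exact h1
  · exfalso
    have hy : y = nb Q x s := h2.symm
    have h4 : nb Q x (!s) = y := by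
      rw [h1, nb_nb]
    exact nb_ne_nb Q hQ h3 x hx s (by rw [h4, ← hy])

/-- The opposite side. -/
theorem nb_edge_opp (Q : List V) (hQ : Q.Nodup) (h3 : 3 ≤ Q.length) (x y : V) (hx : x ∈ Q)
    (s : Bool) (h : s(x, nb Q x s) = s(y, nb Q y (!s))) : x = nb Q y (!s) := by
  rcases Sym2.eq_iff.1 h with ⟨h1, h2⟩ | ⟨h1, -⟩
  · exfalso
    rw [← h1] at h2
    exact nb_ne_nb Q hQ h3 x hx s h2
  · exact h1

end Pool.Agent.W_cd7020_h81b
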