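import Pool.Agent.W_cd7020_h81b.GFlA
import Pool.Agent.W_cd7020_h81b.GNc

/-!
# Flatness: missing partners, removed edges, colours
-/

set_option autoImplicit false

namespace Pool.Agent.W_cd7020_h81b

open Finset Pool.Agent.W_cd7020_h81

variable {V κ : Type*} [DecidableEq V] [DecidableEq κ] [Fintype V]

/-- The colour of a move is a chosen colour or one of the `w i`. -/
theorem GFlB_col (w : ℕ → κ) (t m j : ℕ) (c : Fin m → κ × Bool) (o : (V × Bool) × (Fin m → κ × Bool))
    (ho : o.2 = c) : (∃ i, (mw w t o j).1 = (c i).1) ∨ ∃ i, (mw w t o j).1 = w i := by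
  subst ho
  have h1 : ∀ i, (∃ i', (ext w m o.2 i).1 = (o.2 i').1) ∨ ∃ i', (ext w m o.2 i).1 = w i' := by
    intro i
    unfold ext
    split_ifs with h
    · exact Or.inl ⟨_, rfl⟩
    · exact Or.inr ⟨0, rfl⟩
  unfold mw mvs
  split_ifs with h2 h3
  · exact h1 _
  · exact Or.inr ⟨_, rfl⟩
  · exact h1 _

/-- The members of a cyclic pair. -/
theorem GFlB_mem (Q : List V) (hQ : Q.Nodup) (y x : V) (h : s(y, x) ∈ ce Q) : y ∈ Q := by
  obtain ⟨z, hz, he⟩ := ce_nb Q hQ _ h
  have h1 : y ∈ s(z, nb Q z true) := by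
    rw [← he]
    exact Sym2.mem_mk_left y x
  rw [Sym2.mem_iff] at h1
  rcases h1 with h1 | h1
  · rw [h1]; exact hz
  · rw [h1, nb_mem]; exact hz

theorem GFlB_upd_mem (Q : List V) (R : Finset κ) (m : ℕ) (i : Fin m) (k : κ) (hk : k ∈ R) (b : Bool)
    (o : (V × Bool) × (Fin m → κ × Bool)) (ho : o ∈ Om Q R m) : upd o i (k, b) ∈ Om Q R m := by
  rw [mem_Om] at ho ⊢
  refine ⟨ho.1, fun i' => ?_⟩
  unfold upd
  by_cases h : i' = i
  · subst h
    simp only [Function.update_self]
    exact hk
  · simp only [Function.update_of_ne h]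
    exact ho.2 i'

theorem GFlB_upd (m : ℕ) (i : Fin m) (q : κ × Bool) (o : (V × Bool) × (Fin m → κ × Bool)) :
    (upd o i q).2 i = q := by
  unfold upd
  simp only [Function.update_self]

theorem GFlB_updupd (m : ℕ) (i : Fin m) (q : κ × Bool) (o : (V × Bool) × (Fin m → κ × Bool)) :
    upd (upd o i q) i (o.2 i) = o := by
  unfold upd
  simp only [Function.update_idem, Function.update_eq_self]

/-- The number of elements for which the partner in the move `j` does not exist: for fixed choices
the vertex `zz j` is in the set of the vertices missed by the colour, which has at most `μ`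
elements. -/
theorem flat_miss (col : Sym2 V → κ) (hcol : Proper col) (Q : List V) (hQ : Q.Nodup)
    (R : Finset κ) (w : ℕ → κ) (t m j μ : ℕ)
    (hR : ∀ k ∈ R, (univ.filter (fun x => par col k x = x)).card ≤ μ)
    (hw : ∀ i, (univ.filter (fun x => par col (w i) x = x)).card ≤ μ) :
    ((Om Q R m).filter (fun o => yy col Q (mw w t o) o.1.1 j =
      zz col Q (mw w t o) o.1.1 j)).card ≤ μ * (2 * (2 * R.card) ^ m) := by
  classical
  have h0 : ((Om Q R m).filter (fun o => yy col Q (mw w t o) o.1.1 j =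
      zz col Q (mw w t o) o.1.1 j)) = ((Om Q R m).filter (fun o => (∀ i, (o.2 i).1 ∈ R) ∧
        yy col Q (mw w t o) o.1.1 j = zz col Q (mw w t o) o.1.1 j)) := by
    refine Finset.filter_congr fun o ho => ?_
    rw [mem_Om] at ho
    exact ⟨fun h => ⟨ho.2, h⟩, fun h => h.2⟩
  rw [h0]
  refine Om_fiber Q hQ R m μ _ fun τ c => ?_
  by_cases hc : ∀ i, (c i).1 ∈ R
  · have hcol' : ∃ k : κ, (univ.filter (fun x => par col k x = x)).card ≤ μ ∧
        ∀ z : V, (mw w t ((z, τ), c) j).1 = k := by
      by_cases hV : Nonempty V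
      · obtain ⟨z₀⟩ := hV
        refine ⟨(mw w t ((z₀, τ), c) j).1, ?_, fun z => rfl⟩
        rcases GFlB_col w t m j c ((z₀, τ), c) rfl with ⟨i, hi⟩ | ⟨i, hi⟩
        · rw [hi]
          exact hR _ (hc i)
        · rw [hi]
          exact hw i
      · exact ⟨w 0, hw 0, fun z => absurd ⟨z⟩ hV⟩
    obtain ⟨k, hk, hk'⟩ := hcol'
    refine le_trans ?_ hk
    refine Finset.card_le_card_of_injOn (fun z => zz col Q (mw w t ((z, τ), c)) z j) ?_ ?_
    · intro z hz
      have h1 := (Finset.mem_filter.1 hz).2.2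
      rw [Finset.mem_coe, Finset.mem_filter]
      refine ⟨Finset.mem_univ _, ?_⟩
      unfold yy at h1
      rw [← hk' z]
      exact h1
    · intro z _ z' _ h
      exact zz_inj col hcol Q (mw w t ((z, τ), c)) j h
  · refine le_of_eq_of_le ?_ (Nat.zero_le μ)
    rw [Finset.card_eq_zero, Finset.filter_eq_empty_iff]
    intro z _ h
    exact hc h.1

/-- For every cyclic pair `e` and fixed choices at most one start gives `ed j = e`: for `j = 0` by
`nb_edge_same`, for `j = i + 1` the edge is `s(y, nb Q y s)` with the side `s` of the move, so `y` is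
determined (`nb_edge_same`), and `y` is an injective function of the start. -/
theorem flat_ed (col : Sym2 V → κ) (hcol : Proper col) (Q : List V) (hQ : Q.Nodup)
    (h3 : 3 ≤ Q.length) (R : Finset κ) (w : ℕ → κ) (t m j : ℕ) (e : Sym2 V) (he : e ∈ ce Q) :
    ((Om Q R m).filter (fun o => ed col Q (mw w t o) o.1.1 o.1.2 j = e)).card ≤
      2 * (2 * R.card) ^ m := by
  classical
  have h0 := Om_fiber Q hQ R m 1 (fun o => ed col Q (mw w t o) o.1.1 o.1.2 j = e) fun τ c => ?_
  · rw [one_mul] at h0
    exact h0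
  · refine Finset.card_le_one.2 ?_
    intro z hz z' hz'
    rw [Finset.mem_filter] at hz hz'
    have h1 := hz.2
    have h2 := hz'.2
    have hzQ : z ∈ Q := List.mem_toFinset.1 hz.1
    cases j with
    | zero =>
      simp only [ed] at h1 h2
      exact nb_edge_same Q hQ h3 z z' hzQ τ (h1.trans h2.symm)
    | succ i =>
      simp only [ed, zz] at h1 h2
      set mv := mw w t ((z, τ), c) with hmv
      have hmv' : mw w t ((z', τ), c) = mv := rfl
      rw [hmv'] at h2
      have h4 : yy col Q mv z i ∈ Q := by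
        refine GFlB_mem Q hQ _ (nb Q (par col (mv i).1 (zz col Q mv z i)) (mv i).2) ?_
        rw [h1]
        exact he
      have h5 : yy col Q mv z i = yy col Q mv z' i :=
        nb_edge_same Q hQ h3 _ _ h4 (mv i).2 (h1.trans h2.symm)
      have h6 : zz col Q mv z i = zz col Q mv z' i := par_inj col hcol (mv i).1 h5
      exact zz_inj col hcol Q mv i h6

/-- The number of elements with a given choice of the colour number `i`. -/
theorem flat_choice (Q : List V) (R : Finset κ) (m : ℕ) (i : Fin m) (k : κ) (hk : k ∈ R) :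
    R.card * ((Om Q R m).filter (fun o => (o.2 i).1 = k)).card = (Om Q R m).card := by
  classical
  have h1 : (Om Q R m).card = ∑ k' ∈ R, ((Om Q R m).filter (fun o => (o.2 i).1 = k')).card := by
    refine Finset.card_eq_sum_card_fiberwise ?_
    intro o ho
    exact ((mem_Om Q R m o).1 ho).2 i
  rw [h1]
  have h2 : ∀ k' ∈ R, ((Om Q R m).filter (fun o => (o.2 i).1 = k')).card =
      ((Om Q R m).filter (fun o => (o.2 i).1 = k)).card := by
    intro k' hk'
    refine Finset.card_nbij' (fun o => upd o i (k, (o.2 i).2)) (fun o => upd o i (k', (o.2 i).2))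
      ?_ ?_ ?_ ?_
    · intro o ho
      have h3 := Finset.mem_filter.1 ho
      rw [Finset.mem_coe, Finset.mem_filter]
      refine ⟨GFlB_upd_mem Q R m i k hk _ o h3.1, ?_⟩
      rw [GFlB_upd]
    · intro o ho
      have h3 := Finset.mem_filter.1 ho
      rw [Finset.mem_coe, Finset.mem_filter]
      refine ⟨GFlB_upd_mem Q R m i k' hk' _ o h3.1, ?_⟩
      rw [GFlB_upd]
    · intro o ho
      have h3 := (Finset.mem_filter.1 ho).2
      simp only [GFlB_upd]
      have h4 : (k', (o.2 i).2) = o.2 i := by
        rw [← h3]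
      rw [h4, GFlB_updupd]
    · intro o ho
      have h3 := (Finset.mem_filter.1 ho).2
      simp only [GFlB_upd]
      have h4 : (k, (o.2 i).2) = o.2 i := by
        rw [← h3]
      rw [h4, GFlB_updupd]
  rw [Finset.sum_congr rfl h2, Finset.sum_const, smul_eq_mul]

end Pool.Agent.W_cd7020_h81b
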