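import Pool.Agent.W_cd7020_h81b.GDdB
import Pool.Agent.W_cd7020_h81b.GFlB

/-!
# The number of impossible sequences
-/

set_option autoImplicit false

namespace Pool.Agent.W_cd7020_h81b

open Finset Pool.Agent.W_cd7020_h81

variable {V κ : Type*} [DecidableEq V] [DecidableEq κ] [Fintype V]

/-- The first impossible move. -/
theorem GDdC_first (col : Sym2 V → κ) (Q : List V) (mv : ℕ → κ × Bool) (z : V) (τ : Bool)
    (hz : z ∈ Q) (J : ℕ) (h : ¬ Alv col Q mv z τ J) :
    ∃ j < J, Alv col Q mv z τ j ∧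
      (yy col Q mv z j = zz col Q mv z j ∨ yy col Q mv z j ∉ Q ∨
        (yy col Q mv z j ≠ zz col Q mv z j ∧
          ∃ l ≤ j, ed col Q mv z τ l = ed col Q mv z τ (j + 1)) ∨
        ∃ i < j, (mv i).1 = (mv j).1) := by
  by_contra hcon
  push Not at hcon
  apply h
  have key : ∀ j ≤ J, Alv col Q mv z τ j := by
    intro j
    induction j with
    | zero =>
      intro _
      exact ⟨hz, fun j hj => absurd hj (Nat.not_lt_zero _),
        fun j hj => absurd hj (Nat.not_lt_zero _), fun i j hij hj => by omega,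
        fun i j hij hj => by omega⟩
    | succ j ih =>
      intro hj
      have hA := ih (by omega)
      obtain ⟨h1, h2, h3, h4⟩ := hcon j (by omega) hA
      refine ⟨hz, ?_, ?_, ?_, ?_⟩
      · intro i hi
        rcases Nat.lt_succ_iff_lt_or_eq.1 hi with hi | rfl
        · exact hA.ne i hi
        · exact h1
      · intro i hi
        rcases Nat.lt_succ_iff_lt_or_eq.1 hi with hi | rfl
        · exact hA.mem i hi
        · exact h2
      · intro i i' hii hi'
        rcases Nat.lt_or_ge i' (j + 1) with hlt | hge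
        · exact hA.cut i i' hii (by omega)
        · have he : i' = j + 1 := by omega
          subst he
          exact h3 h1 i (by omega)
      · intro i i' hii hi'
        rcases Nat.lt_succ_iff_lt_or_eq.1 hi' with hlt | rfl
        · exact hA.colr i i' hii hlt
        · exact h4 i hii
  exact key J le_rfl

/-- The arithmetic of the sum. -/
theorem GDdC_arith (t m μ v n r T D a b c e e' : ℝ) (ht : 0 ≤ t) (hm : 0 ≤ m)
    (hn : 0 < n) (hr : 0 < r) (hT : 0 ≤ T)
    (hD : D ≤ a + b + c + e + e') (ha : a ≤ (t + m) * (μ * T)) (hb : b ≤ (t + m) * (v * T))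
    (hc : r * c ≤ m ^ 2 * (n * T)) (he : r * e ≤ m * ((t + m) * (n * T)))
    (he' : r * e' ≤ t * ((t + m) * (n * T))) :
    D ≤ ((t + m) * (μ + v) / n + 2 * (t + m + 1) ^ 2 / r) * (n * T) := by
  have h1 : a + b ≤ ((t + m) * (μ + v) / n) * (n * T) := by
    have : ((t + m) * (μ + v) / n) * (n * T) = (t + m) * (μ * T) + (t + m) * (v * T) := by
      field_simp
      try ring
    rw [this]
    exact add_le_add ha hb
  have h2 : c + e + e' ≤ (2 * (t + m + 1) ^ 2 / r) * (n * T) := by
    have h3 : (2 * (t + m + 1) ^ 2 / r) * (n * T) = (2 * (t + m + 1) ^ 2 * (n * T)) / r := by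
      ring
    rw [h3, le_div_iff₀ hr]
    have h4 : (c + e + e') * r ≤ (m ^ 2 + (t + m) ^ 2) * (n * T) := by
      nlinarith
    refine h4.trans (mul_le_mul_of_nonneg_right ?_ (by positivity))
    nlinarith
  rw [add_mul]
  linarith

open Classical in
/-- The total number of impossible sequences. If not all moves are possible, take the first
impossible one `j < J = t + m` (`ms_cases`): the partner does not exist (`flat_miss`), or is not in
`Q` (`flat_yy` with `X = univ \ Q`), or the colour was used before (it is a colour of the pool as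
the `w i` are distinct and not in `R`: `dead_rep`), or the removed edge was removed before
(`dead_cut`, `dead_cut'`). Sum: `J (μ + v) / n₀ + m ^ 2 / r + J (J + 1) / r`. -/
theorem dead_count (col : Sym2 V → κ) (hcol : Proper col) (Q : List V) (hQ : Q.Nodup)
    (h3 : 3 ≤ Q.length) (R : Finset κ) (hR1 : 1 ≤ R.card) (w : ℕ → κ)
    (hw : ∀ i, ∀ e ∈ ce Q, col e ≠ w i) (t m μ v : ℕ) (htm : t ≤ m)
    (hwi : ∀ i < t, ∀ j < t, w i = w j → i = j) (hwR : ∀ i, w i ∉ R)
    (hRm : ∀ k ∈ R, (univ.filter (fun x => par col k x = x)).card ≤ μ)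
    (hwm : ∀ i, (univ.filter (fun x => par col (w i) x = x)).card ≤ μ)
    (hv : Fintype.card V ≤ Q.length + v) :
    (((Om Q R m).filter (fun o => ¬ Alv col Q (mw w t o) o.1.1 o.1.2 (t + m))).card : ℝ) ≤
      ((t + m) * (μ + v) / Q.length + 2 * (t + m + 1) ^ 2 / R.card) * (Om Q R m).card := by
  have hOc := Om_card Q hQ R m
  set T : ℕ := 2 * (2 * R.card) ^ m with hT
  have hN : (Om Q R m).card = Q.length * T := by
    rw [hOc, hT]
    ring
  have hmsle : ∀ i < m, ms t i + 1 ≤ t + m := by
    intro i hi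
    unfold ms
    split_ifs <;> omega
  have hmsle' : ∀ i < t, ms t i + 1 ≤ t + m := fun i hi => hmsle i (by omega)
  let A : ℕ → Finset ((V × Bool) × (Fin m → κ × Bool)) := fun j =>
    (Om Q R m).filter (fun o => yy col Q (mw w t o) o.1.1 j = zz col Q (mw w t o) o.1.1 j)
  let B : ℕ → Finset ((V × Bool) × (Fin m → κ × Bool)) := fun j =>
    (Om Q R m).filter (fun o => yy col Q (mw w t o) o.1.1 j ∈ univ \ Q.toFinset)
  let C : Fin m × Fin m → Finset ((V × Bool) × (Fin m → κ × Bool)) := fun p =>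
    (Om Q R m).filter (fun o => (o.2 p.1).1 = (o.2 p.2).1)
  let E : Fin m → Finset ((V × Bool) × (Fin m → κ × Bool)) := fun i =>
    (Om Q R m).filter (fun o =>
      Alv col Q (mw w t o) o.1.1 o.1.2 (ms t i) ∧
      yy col Q (mw w t o) o.1.1 (ms t i) ≠ zz col Q (mw w t o) o.1.1 (ms t i) ∧
      ∃ l ≤ ms t i, ed col Q (mw w t o) o.1.1 o.1.2 l =
        ed col Q (mw w t o) o.1.1 o.1.2 (ms t i + 1))
  let E' : Fin m → Finset ((V × Bool) × (Fin m → κ × Bool)) := fun i =>
    (Om Q R m).filter (fun o =>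
      Alv col Q (mw w t o) o.1.1 o.1.2 (ms t i + 1) ∧
      yy col Q (mw w t o) o.1.1 (ms t i + 1) ≠ zz col Q (mw w t o) o.1.1 (ms t i + 1) ∧
      ∃ l ≤ ms t i + 1, ed col Q (mw w t o) o.1.1 o.1.2 l =
        ed col Q (mw w t o) o.1.1 o.1.2 (ms t i + 2))
  let P : Finset (Fin m × Fin m) := univ.filter (fun p => p.1 ≠ p.2)
  let S : Finset (Fin m) := univ.filter (fun i => (i : ℕ) < t)
  have hsub : (Om Q R m).filter (fun o => ¬ Alv col Q (mw w t o) o.1.1 o.1.2 (t + m)) ⊆
      (range (t + m)).biUnion A ∪ (range (t + m)).biUnion B ∪ P.biUnion C ∪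
        univ.biUnion E ∪ S.biUnion E' := by
    intro o ho
    obtain ⟨ho1, ho2⟩ := Finset.mem_filter.1 ho
    obtain ⟨hz, hR⟩ := (mem_Om Q R m o).1 ho1
    obtain ⟨j, hj, hA, hcase⟩ := GDdC_first col Q (mw w t o) o.1.1 o.1.2 hz (t + m) ho2
    simp only [Finset.mem_union]
    rcases hcase with h | h | ⟨hne, h⟩ | ⟨i, hi, h⟩
    · refine Or.inl (Or.inl (Or.inl (Or.inl ?_)))
      exact Finset.mem_biUnion.2 ⟨j, Finset.mem_range.2 hj, Finset.mem_filter.2 ⟨ho1, h⟩⟩
    · refine Or.inl (Or.inl (Or.inl (Or.inr ?_)))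
      refine Finset.mem_biUnion.2 ⟨j, Finset.mem_range.2 hj, Finset.mem_filter.2 ⟨ho1, ?_⟩⟩
      exact Finset.mem_sdiff.2 ⟨Finset.mem_univ _, fun hh => h (List.mem_toFinset.1 hh)⟩
    · rcases ms_cases t m j htm hj with ⟨a, ha, rfl⟩ | ⟨a, ha, rfl⟩
      · refine Or.inl (Or.inr ?_)
        exact Finset.mem_biUnion.2 ⟨⟨a, ha⟩, Finset.mem_univ _,
          Finset.mem_filter.2 ⟨ho1, hA, hne, h⟩⟩
      · refine Or.inr ?_
        exact Finset.mem_biUnion.2 ⟨⟨a, lt_of_lt_of_le ha htm⟩,
          Finset.mem_filter.2 ⟨Finset.mem_univ _, ha⟩,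
          Finset.mem_filter.2 ⟨ho1, hA, hne, h⟩⟩
    · rcases ms_cases t m j htm hj with ⟨a, ha, rfl⟩ | ⟨a, ha, rfl⟩
      · rcases ms_cases t m i htm (by omega) with ⟨b, hb, rfl⟩ | ⟨b, hb, rfl⟩
        · have e1 := mw_ms w t o ⟨a, ha⟩
          have e2 := mw_ms w t o ⟨b, hb⟩
          refine Or.inl (Or.inl (Or.inr ?_))
          refine Finset.mem_biUnion.2 ⟨(⟨b, hb⟩, ⟨a, ha⟩), Finset.mem_filter.2
            ⟨Finset.mem_univ _, ?_⟩, Finset.mem_filter.2 ⟨ho1, ?_⟩⟩
          · intro hh
            have hh' : b = a := congrArg Fin.val hh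
            subst hh'
            exact lt_irrefl _ hi
          · change (o.2 ⟨b, hb⟩).1 = (o.2 ⟨a, ha⟩).1
            rw [← e1, ← e2]
            exact h
        · have e1 := mw_ms w t o ⟨a, ha⟩
          have e2 := mw_ms_succ w t o ⟨b, lt_of_lt_of_le hb htm⟩ hb
          exfalso
          have e3 : mw w t o (ms t b + 1) = (w b, !(o.2 ⟨b, lt_of_lt_of_le hb htm⟩).2) := e2
          have e4 : mw w t o (ms t a) = o.2 ⟨a, ha⟩ := e1
          rw [e3, e4] at h
          exact hwR b (by
            have := hR ⟨a, ha⟩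
            rw [← h] at this
            exact this)
      · rcases ms_cases t m i htm (by omega) with ⟨b, hb, rfl⟩ | ⟨b, hb, rfl⟩
        · have e1 := mw_ms w t o ⟨b, hb⟩
          have e2 := mw_ms_succ w t o ⟨a, lt_of_lt_of_le ha htm⟩ ha
          exfalso
          have e3 : mw w t o (ms t a + 1) = (w a, !(o.2 ⟨a, lt_of_lt_of_le ha htm⟩).2) := e2
          have e4 : mw w t o (ms t b) = o.2 ⟨b, hb⟩ := e1
          rw [e3, e4] at h
          exact hwR a (by
            have := hR ⟨b, hb⟩
            rw [h] at this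
            exact this)
        · exfalso
          have e3 : mw w t o (ms t a + 1) = (w a, !(o.2 ⟨a, lt_of_lt_of_le ha htm⟩).2) :=
            mw_ms_succ w t o ⟨a, lt_of_lt_of_le ha htm⟩ ha
          have e4 : mw w t o (ms t b + 1) = (w b, !(o.2 ⟨b, lt_of_lt_of_le hb htm⟩).2) :=
            mw_ms_succ w t o ⟨b, lt_of_lt_of_le hb htm⟩ hb
          rw [e3, e4] at h
          have hba : b = a := hwi b hb a ha h
          subst hba
          exact lt_irrefl _ hi
  have hQn : (0 : ℝ) < Q.length := by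
    have : 0 < Q.length := by omega
    exact_mod_cast this
  have hRr : (0 : ℝ) < R.card := by
    have : 0 < R.card := by omega
    exact_mod_cast this
  have hNr : ((Om Q R m).card : ℝ) = (Q.length : ℝ) * (T : ℝ) := by
    rw [hN]
    push_cast
    ring
  have hcard : (((Om Q R m).filter
      (fun o => ¬ Alv col Q (mw w t o) o.1.1 o.1.2 (t + m))).card : ℝ) ≤
      (∑ j ∈ range (t + m), ((A j).card : ℝ)) + (∑ j ∈ range (t + m), ((B j).card : ℝ)) +
        (∑ p ∈ P, ((C p).card : ℝ)) + (∑ i, ((E i).card : ℝ)) + ∑ i ∈ S, ((E' i).card : ℝ) := by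
    have h1 := Finset.card_le_card hsub
    have h2 : ((range (t + m)).biUnion A ∪ (range (t + m)).biUnion B ∪ P.biUnion C ∪
        univ.biUnion E ∪ S.biUnion E').card ≤
        (∑ j ∈ range (t + m), (A j).card) + (∑ j ∈ range (t + m), (B j).card) +
        (∑ p ∈ P, (C p).card) + (∑ i, (E i).card) + ∑ i ∈ S, (E' i).card := by
      refine (Finset.card_union_le _ _).trans (add_le_add ?_ Finset.card_biUnion_le)
      refine (Finset.card_union_le _ _).trans (add_le_add ?_ Finset.card_biUnion_le)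
      refine (Finset.card_union_le _ _).trans (add_le_add ?_ Finset.card_biUnion_le)
      exact (Finset.card_union_le _ _).trans
        (add_le_add Finset.card_biUnion_le Finset.card_biUnion_le)
    exact_mod_cast h1.trans h2
  have hA : (∑ j ∈ range (t + m), ((A j).card : ℝ)) ≤ ((t : ℝ) + m) * ((μ : ℝ) * T) := by
    have h1 : ∀ j ∈ range (t + m), ((A j).card : ℝ) ≤ (μ : ℝ) * T := by
      intro j _
      have := flat_miss col hcol Q hQ R w t m j μ hRm hwm
      have h2 : (A j).card ≤ μ * T := this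
      exact_mod_cast h2
    refine (Finset.sum_le_sum h1).trans ?_
    rw [Finset.sum_const, Finset.card_range, nsmul_eq_mul]
    push_cast
    exact le_rfl
  have hB : (∑ j ∈ range (t + m), ((B j).card : ℝ)) ≤ ((t : ℝ) + m) * ((v : ℝ) * T) := by
    have h1 : ∀ j ∈ range (t + m), ((B j).card : ℝ) ≤ (v : ℝ) * T := by
      intro j _
      have h2 : (B j).card ≤ (univ \ Q.toFinset).card * T :=
        flat_yy col hcol Q hQ R w t m j (univ \ Q.toFinset)
      have h3 : (univ \ Q.toFinset).card ≤ v := by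
        rw [Finset.card_sdiff_of_subset (Finset.subset_univ _), Finset.card_univ,
          List.toFinset_card_of_nodup hQ]
        omega
      have h4 : (B j).card ≤ v * T := h2.trans (Nat.mul_le_mul_right _ h3)
      exact_mod_cast h4
    refine (Finset.sum_le_sum h1).trans ?_
    rw [Finset.sum_const, Finset.card_range, nsmul_eq_mul]
    push_cast
    exact le_rfl
  have hC : (R.card : ℝ) * (∑ p ∈ P, ((C p).card : ℝ)) ≤
      (m : ℝ) ^ 2 * ((Q.length : ℝ) * (T : ℝ)) := by
    rw [Finset.mul_sum]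
    have h1 : ∀ p ∈ P, (R.card : ℝ) * ((C p).card : ℝ) ≤ (Q.length : ℝ) * (T : ℝ) := by
      intro p hp
      have h2 : R.card * (C p).card ≤ (Om Q R m).card :=
        dead_rep Q R m p.1 p.2 (Finset.mem_filter.1 hp).2
      rw [hN] at h2
      exact_mod_cast h2
    refine (Finset.sum_le_sum h1).trans ?_
    rw [Finset.sum_const, nsmul_eq_mul]
    refine mul_le_mul_of_nonneg_right ?_ (by positivity)
    have h2 : P.card ≤ m ^ 2 := by
      refine (Finset.card_le_univ P).trans_eq ?_
      rw [Fintype.card_prod, Fintype.card_fin]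
      ring
    exact_mod_cast h2
  have hE : (R.card : ℝ) * (∑ i, ((E i).card : ℝ)) ≤
      (m : ℝ) * (((t : ℝ) + m) * ((Q.length : ℝ) * (T : ℝ))) := by
    rw [Finset.mul_sum]
    have h1 : ∀ i ∈ (univ : Finset (Fin m)), (R.card : ℝ) * ((E i).card : ℝ) ≤
        ((t : ℝ) + m) * ((Q.length : ℝ) * (T : ℝ)) := by
      intro i _
      have h2 : (R.card : ℝ) * ((E i).card : ℝ) ≤ (ms t i + 1 : ℝ) * (Om Q R m).card :=
        dead_cut col Q hQ h3 R w t m htm i
      rw [hNr] at h2
      refine h2.trans (mul_le_mul_of_nonneg_right ?_ (by positivity))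
      have := hmsle i i.2
      exact_mod_cast this
    refine (Finset.sum_le_sum h1).trans ?_
    rw [Finset.sum_const, nsmul_eq_mul, Finset.card_univ, Fintype.card_fin]
  have hE' : (R.card : ℝ) * (∑ i ∈ S, ((E' i).card : ℝ)) ≤
      (t : ℝ) * (((t : ℝ) + m) * ((Q.length : ℝ) * (T : ℝ))) := by
    rw [Finset.mul_sum]
    have h1 : ∀ i ∈ S, (R.card : ℝ) * ((E' i).card : ℝ) ≤
        ((t : ℝ) + m) * ((Q.length : ℝ) * (T : ℝ)) := by
      intro i hi
      have hit : (i : ℕ) < t := (Finset.mem_filter.1 hi).2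
      have h2 : (R.card : ℝ) * ((E' i).card : ℝ) ≤ (ms t i + 1 : ℝ) * (Om Q R m).card :=
        dead_cut' col hcol Q hQ h3 R w hw t m htm i hit
      rw [hNr] at h2
      refine h2.trans (mul_le_mul_of_nonneg_right ?_ (by positivity))
      have := hmsle i i.2
      exact_mod_cast this
    refine (Finset.sum_le_sum h1).trans ?_
    rw [Finset.sum_const, nsmul_eq_mul]
    refine mul_le_mul_of_nonneg_right ?_ (by positivity)
    have h2 : S.card ≤ t := by
      have h3 : S.card ≤ (range t).card := by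
        refine Finset.card_le_card_of_injOn (fun i => (i : ℕ)) ?_ ?_
        · intro i hi
          exact Finset.mem_coe.2 (Finset.mem_range.2
            (Finset.mem_filter.1 (Finset.mem_coe.1 hi)).2)
        · intro i _ i' _ h
          exact Fin.ext h
      rwa [Finset.card_range] at h3
    exact_mod_cast h2
  rw [hNr]
  exact GDdC_arith t m μ v Q.length R.card T _ _ _ _ _ _ (Nat.cast_nonneg _) (Nat.cast_nonneg _)
    hQn hRr (Nat.cast_nonneg _) hcard hA hB hC hE hE'

end Pool.Agent.W_cd7020_h81b
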