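import Pool.Agent.W_cd7020_h81b.Ni
import Pool.Agent.W_cd7020_h81.InsV

/-!
# Surgeries on a rainbow cycle: definitions

The list `Q` is the cyclic order of a rainbow cycle. A dart is a pair `(x, s)` of a vertex and a side
(`true`: towards the next vertex, `false`: towards the previous one). We start with a dart `(z, τ)`:
the edge `s(z, nb Q z τ)` is removed and the rest is a path with first vertex `z`. A move `(k, s)` adds
the edge of colour `k` from the first vertex `z` of the path to its partner `y`, and removes the edge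
`s(y, x)` of the original cycle, where `x = nb Q y s`; the new first vertex is `x`. The structure
consists of a path `p` (first vertex first) and cycles `cs`.
-/

set_option autoImplicit false

namespace Pool.Agent.W_cd7020_h81b

open Finset Pool.Agent.W_cd7020_h81

section lists

variable {V : Type*} [DecidableEq V]

/-- The neighbour of `x` on the cycle `Q` on the side `s`. -/
def nb (Q : List V) (x : V) (s : Bool) : V := if s then Q.formPerm x else Q.formPerm⁻¹ x

/-- A path and cycles. -/
structure GS (V : Type*) where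
  /-- the path -/
  p : List V
  /-- the cycles -/
  cs : List (List V)

/-- All pairs of the structure. -/
def ae (st : GS V) : List (Sym2 V) := pe st.p ++ st.cs.flatMap ce

/-- One step: `s(y, x)` is removed, the edge from the first vertex of the path to `y` is added, `x`
is the new first vertex. Either a rotation of the path, or a cycle is split off, or a cycle is
merged with the path. -/
def StepRel (st : GS V) (y x : V) (st' : GS V) : Prop :=
  (∃ A B, st.p = A ++ x :: y :: B ∧ st' = ⟨x :: A.reverse ++ y :: B, st.cs⟩) ∨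
  (∃ A B, st.p = A ++ y :: x :: B ∧ A ≠ [] ∧ st' = ⟨x :: B, (A ++ [y]) :: st.cs⟩) ∨
  (∃ C D, C ∈ st.cs ∧ D.Perm C ∧ D.head? = some x ∧ D.getLast? = some y ∧
    (∀ e, e ∈ ce D ↔ e ∈ ce C) ∧ st' = ⟨D ++ st.p, st.cs.erase C⟩)

open Classical in
/-- The next structure. -/
noncomputable def nxt (st : GS V) (y x : V) : GS V :=
  if h : ∃ st', StepRel st y x st' then h.choose else st

open Classical in
/-- The path after the removal of the first edge. -/
noncomputable def ini (Q : List V) (z : V) (τ : Bool) : List V :=
  if h : ∃ P : List V, P.Perm Q ∧ P.head? = some z ∧ P.getLast? = some (nb Q z τ) ∧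
    ∀ e, e ∈ ce P ↔ e ∈ ce Q then h.choose else Q

end lists

section moves

variable {V κ : Type*} [DecidableEq V] [DecidableEq κ] [Fintype V]

/-- The first vertices after the moves `mv 0, mv 1, ...`. -/
noncomputable def zz (col : Sym2 V → κ) (Q : List V) (mv : ℕ → κ × Bool) (z : V) : ℕ → V
  | 0 => z
  | j + 1 => nb Q (par col (mv j).1 (zz col Q mv z j)) (mv j).2

/-- The partners. -/
noncomputable def yy (col : Sym2 V → κ) (Q : List V) (mv : ℕ → κ × Bool) (z : V) (j : ℕ) : V :=
  par col (mv j).1 (zz col Q mv z j)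

/-- The removed edges. -/
noncomputable def ed (col : Sym2 V → κ) (Q : List V) (mv : ℕ → κ × Bool) (z : V) (τ : Bool) :
    ℕ → Sym2 V
  | 0 => s(z, nb Q z τ)
  | j + 1 => s(yy col Q mv z j, zz col Q mv z (j + 1))

/-- The structures. -/
noncomputable def sta (col : Sym2 V → κ) (Q : List V) (mv : ℕ → κ × Bool) (z : V) (τ : Bool) :
    ℕ → GS V
  | 0 => ⟨ini Q z τ, []⟩
  | j + 1 => nxt (sta col Q mv z τ j) (yy col Q mv z j) (zz col Q mv z (j + 1))

/-- The first `J` moves are possible. -/
structure Alv (col : Sym2 V → κ) (Q : List V) (mv : ℕ → κ × Bool) (z : V) (τ : Bool) (J : ℕ) :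
    Prop where
  start : z ∈ Q
  ne : ∀ j < J, yy col Q mv z j ≠ zz col Q mv z j
  mem : ∀ j < J, yy col Q mv z j ∈ Q
  cut : ∀ i j, i < j → j ≤ J → ed col Q mv z τ i ≠ ed col Q mv z τ j
  colr : ∀ i j, i < j → j < J → (mv i).1 ≠ (mv j).1

/-- The properties of the structure after `j` moves. -/
structure GInv (col : Sym2 V → κ) (Q : List V) (mv : ℕ → κ × Bool) (z : V) (τ : Bool) (j : ℕ) :
    Prop where
  perm : ((sta col Q mv z τ j).p ++ (sta col Q mv z τ j).cs.flatten).Perm Q
  head : (sta col Q mv z τ j).p.head? = some (zz col Q mv z j)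
  len : ∀ C ∈ (sta col Q mv z τ j).cs, 3 ≤ C.length
  ae : ∀ e, e ∈ ae (sta col Q mv z τ j) ↔
    (e ∈ ce Q ∧ ∀ i ≤ j, e ≠ ed col Q mv z τ i) ∨
      ∃ i < j, e = s(zz col Q mv z i, yy col Q mv z i)

/-- A cycle is split off in the move number `j`. -/
def SplitAt (col : Sym2 V → κ) (Q : List V) (mv : ℕ → κ × Bool) (z : V) (τ : Bool) (j : ℕ) :
    Prop :=
  ∃ A B, A ≠ [] ∧
    (sta col Q mv z τ j).p = A ++ yy col Q mv z j :: zz col Q mv z (j + 1) :: B

/-- The cycle which is split off in the move number `j`. -/
noncomputable def cyc (col : Sym2 V → κ) (Q : List V) (mv : ℕ → κ × Bool) (z : V) (τ : Bool)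
    (j : ℕ) : List V :=
  (sta col Q mv z τ j).p.take ((sta col Q mv z τ j).p.idxOf (yy col Q mv z j) + 1)

end moves

section space

variable {V κ : Type*} [DecidableEq V] [DecidableEq κ] [Fintype V]

/-- The sequence of moves for the choices `c` (colour of the pool and side): the first `2 t` moves
are `c 0, w 0, c 1, w 1, ...` where the move with colour `w i` uses the side opposite to the side
of `c i`; then `c t, c (t + 1), ...`. -/
def mvs (w : ℕ → κ) (t : ℕ) (c : ℕ → κ × Bool) (j : ℕ) : κ × Bool :=
  if j < 2 * t then (if j % 2 = 0 then c (j / 2) else (w (j / 2), !(c (j / 2)).2)) else c (j - t)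

/-- Extension of a finite sequence. -/
def ext (w : ℕ → κ) (m : ℕ) (c : Fin m → κ × Bool) (i : ℕ) : κ × Bool :=
  if h : i < m then c ⟨i, h⟩ else (w 0, true)

/-- The sample space: a dart and `m` choices. -/
def Om (Q : List V) (R : Finset κ) (m : ℕ) : Finset ((V × Bool) × (Fin m → κ × Bool)) :=
  (Q.toFinset ×ˢ univ) ×ˢ Fintype.piFinset (fun _ => R ×ˢ univ)

/-- The sequence of moves of an element of the sample space. -/
def mw (w : ℕ → κ) (t : ℕ) {m : ℕ} (o : (V × Bool) × (Fin m → κ × Bool)) : ℕ → κ × Bool :=
  mvs w t (ext w m o.2)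

/-- The number of the move of the choice number `i`. -/
def ms (t i : ℕ) : ℕ := if i < t then 2 * i else i + t

end space

end Pool.Agent.W_cd7020_h81b
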