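import Pool.Agent.W_cd7020_h81b.GDefs

/-!
# Dependence on the choices
-/

set_option autoImplicit false

namespace Pool.Agent.W_cd7020_h81b

open Finset Pool.Agent.W_cd7020_h81

variable {V κ : Type*} [DecidableEq V] [DecidableEq κ] [Fintype V]

/-- Changing the choice number `i`. -/
def upd {m : ℕ} (o : (V × Bool) × (Fin m → κ × Bool)) (i : Fin m) (q : κ × Bool) :
    (V × Bool) × (Fin m → κ × Bool) := (o.1, Function.update o.2 i q)

omit [DecidableEq κ] [Fintype V] [DecidableEq V] in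
theorem GDpB_ext (w : ℕ → κ) (m : ℕ) (c : Fin m → κ × Bool) (i : Fin m) (q : κ × Bool) (l : ℕ)
    (hl : l ≠ (i : ℕ)) : ext w m (Function.update c i q) l = ext w m c l := by
  unfold ext
  split_ifs with h
  · rw [Function.update_of_ne]
    intro h1
    exact hl (congrArg Fin.val h1)
  · rfl

omit [DecidableEq κ] [Fintype V] [DecidableEq V] in
theorem GDpB_ext_self (w : ℕ → κ) (m : ℕ) (c : Fin m → κ × Bool) (i : Fin m) :
    ext w m c (i : ℕ) = c i := by
  unfold ext
  rw [dif_pos i.2]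

/-- The moves before the number `ms t i` do not depend on the choice number `i`. -/
theorem mw_upd (w : ℕ → κ) (t : ℕ) {m : ℕ} (o : (V × Bool) × (Fin m → κ × Bool)) (i : Fin m)
    (q : κ × Bool) (j : ℕ) (hj : j < ms t i) : mw w t (upd o i q) j = mw w t o j := by
  unfold mw mvs upd
  simp only
  unfold ms at hj
  by_cases h1 : j < 2 * t
  · rw [if_pos h1, if_pos h1]
    have h2 : j / 2 ≠ (i : ℕ) := by
      split_ifs at hj with h3
      · omega
      · omega
    rw [GDpB_ext w m o.2 i q (j / 2) h2]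
  · rw [if_neg h1, if_neg h1]
    have h2 : j - t ≠ (i : ℕ) := by
      split_ifs at hj with h3
      · omega
      · omega
    rw [GDpB_ext w m o.2 i q (j - t) h2]

/-- The move number `ms t i` is the choice number `i`. -/
theorem mw_ms (w : ℕ → κ) (t : ℕ) {m : ℕ} (o : (V × Bool) × (Fin m → κ × Bool)) (i : Fin m) :
    mw w t o (ms t i) = o.2 i := by
  unfold mw mvs ms
  by_cases h1 : (i : ℕ) < t
  · rw [if_pos h1, if_pos (by omega : 2 * (i : ℕ) < 2 * t), if_pos (by omega : 2 * (i : ℕ) % 2 = 0)]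
    have h2 : 2 * (i : ℕ) / 2 = (i : ℕ) := by omega
    rw [h2, GDpB_ext_self]
  · rw [if_neg h1, if_neg (by omega : ¬ (i : ℕ) + t < 2 * t)]
    have h2 : (i : ℕ) + t - t = (i : ℕ) := by omega
    rw [h2, GDpB_ext_self]

/-- The following move has the colour `w i` and the opposite side, if `i < t`. -/
theorem mw_ms_succ (w : ℕ → κ) (t : ℕ) {m : ℕ} (o : (V × Bool) × (Fin m → κ × Bool)) (i : Fin m)
    (hi : (i : ℕ) < t) : mw w t o (ms t i + 1) = (w i, !(o.2 i).2) := by
  unfold mw mvs ms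
  rw [if_pos hi, if_pos (by omega : 2 * (i : ℕ) + 1 < 2 * t),
    if_neg (by omega : ¬ (2 * (i : ℕ) + 1) % 2 = 0)]
  have h2 : (2 * (i : ℕ) + 1) / 2 = (i : ℕ) := by omega
  rw [h2, GDpB_ext_self]

/-- Every move number below `t + m` is `ms t i` for some `i < m` or `ms t i + 1` for some `i < t`
(`t ≤ m`). -/
theorem ms_cases (t m j : ℕ) (htm : t ≤ m) (hj : j < t + m) :
    (∃ i < m, j = ms t i) ∨ ∃ i < t, j = ms t i + 1 := by
  unfold ms
  by_cases h1 : j < 2 * t
  · rcases Nat.mod_two_eq_zero_or_one j with h2 | h2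
    · refine Or.inl ⟨j / 2, by omega, ?_⟩
      rw [if_pos (by omega : j / 2 < t)]
      omega
    · refine Or.inr ⟨j / 2, by omega, ?_⟩
      rw [if_pos (by omega : j / 2 < t)]
      omega
  · refine Or.inl ⟨j - t, by omega, ?_⟩
    rw [if_neg (by omega : ¬ j - t < t)]
    omega

end Pool.Agent.W_cd7020_h81b
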