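import Pool.Agent.W_cd7020_h81b.GDefs

/-!
# Neighbours on the cycle
-/

set_option autoImplicit false

namespace Pool.Agent.W_cd7020_h81b

open Finset Pool.Agent.W_cd7020_h81

variable {V : Type*} [DecidableEq V]

theorem nb_mem (Q : List V) (x : V) (s : Bool) : nb Q x s ∈ Q ↔ x ∈ Q := by
  cases s with
  | true => exact Q.formPerm_mem_iff_mem
  | false =>
    have h := Q.formPerm_mem_iff_mem (x := Q.formPerm⁻¹ x)
    rw [show Q.formPerm (Q.formPerm⁻¹ x) = x from Q.formPerm.apply_symm_apply x] at h
    exact h.symm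

theorem nb_nb (Q : List V) (x : V) (s : Bool) : nb Q (nb Q x s) (!s) = x := by
  cases s with
  | true => exact Q.formPerm.symm_apply_apply x
  | false => exact Q.formPerm.apply_symm_apply x

/-- From `nb_nb`. -/
theorem nb_inj (Q : List V) (s : Bool) : Function.Injective (fun x => nb Q x s) := by
  intro x y h
  have h1 : nb Q x s = nb Q y s := h
  rw [← nb_nb Q x s, h1, nb_nb]

/-- Positions: the next vertex (`List.formPerm_apply_getElem` or similar). -/
theorem nb_true_idx (Q : List V) (hQ : Q.Nodup) (x : V) (hx : x ∈ Q) :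
    Q.idxOf (nb Q x true) = (Q.idxOf x + 1) % Q.length := by
  obtain ⟨i, hi, rfl⟩ := List.getElem_of_mem hx
  have h1 : nb Q Q[i] true = Q[(i + 1) % Q.length]'(Nat.mod_lt _ (i.zero_le.trans_lt hi)) :=
    List.formPerm_apply_getElem Q hQ i hi
  rw [h1, hQ.idxOf_getElem, hQ.idxOf_getElem]

/-- Positions: the previous vertex. -/
theorem nb_false_idx (Q : List V) (hQ : Q.Nodup) (x : V) (hx : x ∈ Q) :
    Q.idxOf (nb Q x false) = (Q.idxOf x + Q.length - 1) % Q.length := by
  have hy : nb Q x false ∈ Q := (nb_mem Q x false).2 hx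
  have h1 := nb_true_idx Q hQ _ hy
  have h2 : nb Q (nb Q x false) true = x := nb_nb Q x false
  rw [h2] at h1
  have h3 : Q.idxOf (nb Q x false) < Q.length := List.idxOf_lt_length_iff.2 hy
  rw [h1]
  set j := Q.idxOf (nb Q x false) with hj
  by_cases h : j + 1 < Q.length
  · rw [Nat.mod_eq_of_lt h, show j + 1 + Q.length - 1 = j + Q.length by omega,
      Nat.add_mod_right, Nat.mod_eq_of_lt h3]
  · have h4 : j + 1 = Q.length := by omega
    rw [h4, Nat.mod_self, zero_add, Nat.mod_eq_of_lt (by omega)]
    omega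

theorem nb_ne (Q : List V) (hQ : Q.Nodup) (h3 : 3 ≤ Q.length) (x : V) (hx : x ∈ Q) (s : Bool) :
    nb Q x s ≠ x := by
  have key : nb Q x true ≠ x := by
    intro h
    have h1 := nb_true_idx Q hQ x hx
    rw [h] at h1
    have h4 : Q.idxOf x < Q.length := List.idxOf_lt_length_iff.2 hx
    by_cases h5 : Q.idxOf x + 1 < Q.length
    · rw [Nat.mod_eq_of_lt h5] at h1
      omega
    · have h6 : Q.idxOf x + 1 = Q.length := by omega
      rw [h6, Nat.mod_self] at h1
      omega
  cases s with
  | true => exact key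
  | false =>
    intro h
    apply key
    have h1 := nb_nb Q x false
    rw [h] at h1
    exact h1

theorem nb_ne_nb (Q : List V) (hQ : Q.Nodup) (h3 : 3 ≤ Q.length) (x : V) (hx : x ∈ Q)
    (s : Bool) : nb Q x s ≠ nb Q x (!s) := by
  have key : nb Q x true ≠ nb Q x false := by
    intro h
    have h1 := nb_true_idx Q hQ x hx
    rw [h, nb_false_idx Q hQ x hx] at h1
    have h4 : Q.idxOf x < Q.length := List.idxOf_lt_length_iff.2 hx
    by_cases h5 : Q.idxOf x + 1 < Q.length
    · rw [Nat.mod_eq_of_lt h5] at h1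
      by_cases h6 : Q.idxOf x = 0
      · rw [h6, zero_add, Nat.mod_eq_of_lt (by omega)] at h1
        omega
      · rw [show Q.idxOf x + Q.length - 1 = (Q.idxOf x - 1) + Q.length by omega,
          Nat.add_mod_right, Nat.mod_eq_of_lt (by omega)] at h1
        omega
    · have h6 : Q.idxOf x + 1 = Q.length := by omega
      rw [h6, Nat.mod_self,
        show Q.idxOf x + Q.length - 1 = (Q.idxOf x - 1) + Q.length by omega,
        Nat.add_mod_right, Nat.mod_eq_of_lt (by omega)] at h1
      omega
  cases s with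
  | true => exact key
  | false => exact key.symm

end Pool.Agent.W_cd7020_h81b
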