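import Pool.Agent.W_cd7020_h81b.GDpC
import Pool.Agent.W_cd7020_h81b.GNb

/-!
# Flatness: starts
-/

set_option autoImplicit false

namespace Pool.Agent.W_cd7020_h81b

open Finset Pool.Agent.W_cd7020_h81

variable {V κ : Type*} [DecidableEq V] [DecidableEq κ] [Fintype V]

/-- For fixed moves the vertex `zz j` is an injective function of the start (`par_inj`,
`nb_inj`). -/
theorem zz_inj (col : Sym2 V → κ) (hcol : Proper col) (Q : List V) (mv : ℕ → κ × Bool) (j : ℕ) :
    Function.Injective (fun z => zz col Q mv z j) := by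
  induction j with
  | zero => intro a b h; exact h
  | succ j ih =>
    intro a b h
    have h1 : nb Q (par col (mv j).1 (zz col Q mv a j)) (mv j).2 =
        nb Q (par col (mv j).1 (zz col Q mv b j)) (mv j).2 := h
    exact ih (par_inj col hcol _ (nb_inj Q _ h1))

/-- General form: if for all fixed choices `(τ, c)` at most `N` starts `z ∈ Q` satisfy the property,
then at most `N * |Om| / n₀` elements of `Om` do. -/
theorem Om_fiber (Q : List V) (hQ : Q.Nodup) (R : Finset κ) (m N : ℕ)
    (p : (V × Bool) × (Fin m → κ × Bool) → Prop) [DecidablePred p]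
    (h : ∀ (τ : Bool) (c : Fin m → κ × Bool),
      ((Q.toFinset).filter (fun z => p ((z, τ), c))).card ≤ N) :
    ((Om Q R m).filter p).card ≤ N * (2 * (2 * R.card) ^ m) := by
  classical
  let t : Finset (Bool × (Fin m → κ × Bool)) :=
    univ ×ˢ Fintype.piFinset (fun _ => R ×ˢ (univ : Finset Bool))
  have ht : t.card = 2 * (2 * R.card) ^ m := by
    simp only [t, Finset.card_product, Fintype.card_piFinset, Finset.card_univ, Fintype.card_bool,
      Finset.prod_const, Fintype.card_fin, mul_comm R.card 2]
  rw [← ht]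
  refine Finset.card_le_mul_card_image_of_maps_to
    (f := fun o : (V × Bool) × (Fin m → κ × Bool) => (o.1.2, o.2)) (t := t) ?_ N ?_
  · intro o ho
    have h1 : o ∈ Om Q R m := (Finset.mem_filter.mp ho).1
    unfold Om at h1
    rw [Finset.mem_product] at h1
    exact Finset.mem_product.mpr ⟨Finset.mem_univ _, h1.2⟩
  · rintro ⟨τ, c⟩ _
    refine le_trans ?_ (h τ c)
    refine Finset.card_le_card_of_injOn (fun o => o.1.1) ?_ ?_
    · intro o ho
      simp only [Finset.coe_filter, Finset.mem_filter, Set.mem_setOf_eq, Prod.mk.injEq] at ho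
      obtain ⟨⟨h1, h2⟩, h3, h4⟩ := ho
      unfold Om at h1
      rw [Finset.mem_product, Finset.mem_product] at h1
      simp only [Finset.coe_filter, Set.mem_setOf_eq]
      refine ⟨h1.1.1, ?_⟩
      have e : ((o.1.1, τ), c) = o := by
        rw [← h3, ← h4]
      rw [e]
      exact h2
    · intro o ho o' ho' hoo
      simp only [Finset.coe_filter, Finset.mem_filter, Set.mem_setOf_eq, Prod.mk.injEq] at ho ho'
      apply Prod.ext
      · apply Prod.ext
        · exact hoo
        · rw [ho.2.1, ho'.2.1]
      · rw [ho.2.2, ho'.2.2]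

/-- `Om_fiber` with `N = 1` and `zz_inj`. -/
theorem flat_zz (col : Sym2 V → κ) (hcol : Proper col) (Q : List V) (hQ : Q.Nodup)
    (R : Finset κ) (w : ℕ → κ) (t m j : ℕ) (x : V) :
    ((Om Q R m).filter (fun o => zz col Q (mw w t o) o.1.1 j = x)).card ≤
      2 * (2 * R.card) ^ m := by
  classical
  have h := Om_fiber Q hQ R m 1 (fun o => zz col Q (mw w t o) o.1.1 j = x) (by
    intro τ c
    rw [Finset.card_le_one]
    intro a ha b hb
    have ha' := (Finset.mem_filter.mp ha).2
    have hb' := (Finset.mem_filter.mp hb).2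
    exact zz_inj col hcol Q (mvs w t (ext w m c)) j (ha'.trans hb'.symm))
  rw [one_mul] at h
  exact h

/-- The same with a set of vertices. -/
theorem flat_yy (col : Sym2 V → κ) (hcol : Proper col) (Q : List V) (hQ : Q.Nodup)
    (R : Finset κ) (w : ℕ → κ) (t m j : ℕ) (X : Finset V) :
    ((Om Q R m).filter (fun o => yy col Q (mw w t o) o.1.1 j ∈ X)).card ≤
      X.card * (2 * (2 * R.card) ^ m) := by
  classical
  refine Om_fiber Q hQ R m X.card (fun o => yy col Q (mw w t o) o.1.1 j ∈ X) ?_
  intro τ c
  refine Finset.card_le_card_of_injOn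
    (fun z => yy col Q (mvs w t (ext w m c)) z j) ?_ ?_
  · intro z hz
    exact (Finset.mem_filter.mp hz).2
  · intro a _ b _ hab
    exact zz_inj col hcol Q (mvs w t (ext w m c)) j (par_inj col hcol _ hab)

end Pool.Agent.W_cd7020_h81b
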