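import Pool.Agent.W_cd7020_h81b.GDefs

/-!
# The forest of a structure
-/

set_option autoImplicit false

namespace Pool.Agent.W_cd7020_h81b

open Finset Pool.Agent.W_cd7020_h81

variable {V κ : Type*} [DecidableEq V] [DecidableEq κ] [Fintype V]

omit [Fintype V] in
theorem GFoA_sub (l m : List V) : (pe l ++ pe m).Sublist (pe (l ++ m)) := by
  by_cases hl : l = []
  · subst hl
    exact List.Sublist.refl _
  by_cases hm : m = []
  · subst hm
    rw [List.append_nil]
    change (pe l ++ []).Sublist _
    rw [List.append_nil]
  rw [pe_append' l m hl hm]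
  exact (List.Sublist.refl _).append (List.sublist_cons_self _ _)

omit [Fintype V] in
theorem GFoA_subs (cs : List (List V)) :
    ∀ l : List V, (pe l ++ cs.flatMap pe).Sublist (pe (l ++ cs.flatten)) := by
  induction cs with
  | nil =>
    intro l
    rw [List.flatMap_nil, List.flatten_nil, List.append_nil, List.append_nil]
  | cons C cs ih =>
    intro l
    rw [List.flatMap_cons, List.flatten_cons]
    exact ((List.Sublist.refl _).append (ih C)).trans (GFoA_sub l _)

omit [Fintype V] in
theorem GFoA_len (cs : List (List V)) (hne : ∀ C ∈ cs, C ≠ []) :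
    (cs.flatMap pe).length + cs.length = cs.flatten.length := by
  induction cs with
  | nil => rfl
  | cons C cs ih =>
    have h1 := ih fun D hD => hne D (List.mem_cons_of_mem _ hD)
    have h2 : 0 < C.length := List.length_pos_iff.2 (hne C List.mem_cons_self)
    rw [List.flatMap_cons, List.flatten_cons, List.length_append, List.length_append,
      List.length_cons, pe_length]
    omega

/-- The path and the cycles without their last pairs form a linear forest: the list
`p ++ C₁ ++ C₂ ++ ...` (`pe_append'`). The number of edges is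
`(|p| - 1) + ∑ (|C| - 1) = |Q| - 1 - number of cycles`. -/
theorem forest_of (Q : List V) (st : GS V) (hQ : Q.Nodup)
    (hperm : (st.p ++ st.cs.flatten).Perm Q) (hp : st.p ≠ []) (hne : ∀ C ∈ st.cs, C ≠ []) :
    LF Q.toFinset (pe st.p ++ st.cs.flatMap pe).toFinset ∧
      (pe st.p ++ st.cs.flatMap pe).toFinset.card + 1 + st.cs.length = Q.length ∧
      ∀ e ∈ (pe st.p ++ st.cs.flatMap pe).toFinset, e ∈ ae st := by
  have hsub := GFoA_subs st.cs st.p
  have hnd : (st.p ++ st.cs.flatten).Nodup := hperm.nodup_iff.2 hQ
  have hnd' : (pe st.p ++ st.cs.flatMap pe).Nodup := (pe_nodup _ hnd).sublist hsub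
  refine ⟨⟨st.p ++ st.cs.flatten, hnd, fun v => ?_, fun e he => ?_⟩, ?_, fun e he => ?_⟩
  · rw [hperm.mem_iff, List.mem_toFinset]
  · exact hsub.subset (List.mem_toFinset.1 he)
  · rw [List.toFinset_card_of_nodup hnd', ← hperm.length_eq, List.length_append,
      List.length_append, pe_length, ← GFoA_len st.cs hne]
    have h2 : 0 < st.p.length := List.length_pos_iff.2 hp
    omega
  · rw [List.mem_toFinset, List.mem_append, List.mem_flatMap] at he
    unfold ae
    rw [List.mem_append, List.mem_flatMap]
    rcases he with he | ⟨C, hC, he⟩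
    · exact Or.inl he
    · exact Or.inr ⟨C, hC, pe_sub_ce C e he⟩

end Pool.Agent.W_cd7020_h81b
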