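import Pool.Agent.W_cd7020_h81b.GFoA
import Pool.Agent.W_cd7020_h81b.GInB

/-!
# The forest at the end
-/

set_option autoImplicit false

namespace Pool.Agent.W_cd7020_h81b

open Finset Pool.Agent.W_cd7020_h81

variable {V κ : Type*} [DecidableEq V] [DecidableEq κ] [Fintype V]

/-- The forest after `J` moves; `col` is injective on the cyclic pairs of `Q` (`hrb`). By `GInv.ae`
its edges are cyclic pairs of `Q` which were not removed, or new edges with the colours of the moves
(`new_col`); these colours are distinct and not colours of cyclic pairs of `Q`. -/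
theorem forest_end (col : Sym2 V → κ) (Q : List V) (hQ : Q.Nodup) (h3 : 3 ≤ Q.length)
    (hrb : ∀ e ∈ ce Q, ∀ e' ∈ ce Q, col e = col e' → e = e')
    (mv : ℕ → κ × Bool) (hmv : ∀ j, ∀ e ∈ ce Q, col e ≠ (mv j).1) (z : V) (τ : Bool) (J : ℕ)
    (h : Alv col Q mv z τ J) :
    ∃ F : Finset (Sym2 V), LF Q.toFinset F ∧
      F.card + 1 + (sta col Q mv z τ J).cs.length = Q.length ∧ Rb col F ∧
      ∀ e ∈ F, (e ∈ ce Q ∧ ∀ i ≤ J, col e ≠ col (ed col Q mv z τ i)) ∨
        ∃ i < J, col e = (mv i).1 := by
  have hI := inv_all col Q hQ h3 mv hmv z τ J J le_rfl h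
  have hp : (sta col Q mv z τ J).p ≠ [] := by
    intro h0
    have h1 := hI.head
    rw [h0] at h1
    simp at h1
  have hne : ∀ C ∈ (sta col Q mv z τ J).cs, C ≠ [] := by
    intro C hC h0
    have h1 := hI.len C hC
    rw [h0] at h1
    simp at h1
  obtain ⟨hLF, hcard, hae⟩ := forest_of Q (sta col Q mv z τ J) hQ hI.perm hp hne
  refine ⟨_, hLF, hcard, ?_, ?_⟩
  · intro e he e' he' hcc
    rcases (hI.ae e).1 (hae e he) with ⟨h1, _⟩ | ⟨i, hi, h1⟩
    · rcases (hI.ae e').1 (hae e' he') with ⟨h2, _⟩ | ⟨i', hi', h2⟩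
      · exact hrb e h1 e' h2 hcc
      · exfalso
        refine hmv i' e h1 ?_
        rw [hcc, h2]
        exact new_col col Q mv z τ J i' hi' h
    · rcases (hI.ae e').1 (hae e' he') with ⟨h2, _⟩ | ⟨i', hi', h2⟩
      · exfalso
        refine hmv i e' h2 ?_
        rw [← hcc, h1]
        exact new_col col Q mv z τ J i hi h
      · have e1 : col e = (mv i).1 := by
          rw [h1]
          exact new_col col Q mv z τ J i hi h
        have e2 : col e' = (mv i').1 := by
          rw [h2]
          exact new_col col Q mv z τ J i' hi' h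
        have e3 : (mv i).1 = (mv i').1 := by rw [← e1, ← e2, hcc]
        have e4 : i = i' := by
          rcases Nat.lt_trichotomy i i' with hlt | heq | hgt
          · exact absurd e3 (h.colr i i' hlt hi')
          · exact heq
          · exact absurd e3.symm (h.colr i' i hgt hi)
        rw [h1, h2, e4]
  · intro e he
    rcases (hI.ae e).1 (hae e he) with ⟨h1, h2⟩ | ⟨i, hi, h1⟩
    · left
      refine ⟨h1, fun i hi hcc => ?_⟩
      exact h2 i hi (hrb e h1 _ (ed_ce col Q hQ mv z τ J i hi h) hcc)
    · right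
      refine ⟨i, hi, ?_⟩
      rw [h1]
      exact new_col col Q mv z τ J i hi h

end Pool.Agent.W_cd7020_h81b
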