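import Pool.Agent.W_cd7020_h81b.PDefs

/-!
# Partners
-/

set_option autoImplicit false

namespace Pool.Agent.W_cd7020_h81b

open Finset Pool.Agent.W_cd7020_h81

variable {V κ : Type*} [DecidableEq V] [DecidableEq κ] [Fintype V]

theorem Par_spec (col : Sym2 V → κ) (k : κ) (x : V) (h : par col k x ≠ x) :
    ∃ h' : ∃ y, y ≠ x ∧ col s(x, y) = k, par col k x = h'.choose := by
  unfold par at h ⊢
  split_ifs at h ⊢ with h1
  · exact ⟨h1, rfl⟩
  · exact absurd rfl h

theorem par_col (col : Sym2 V → κ) (k : κ) (x : V) (h : par col k x ≠ x) :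
    col s(x, par col k x) = k := by
  obtain ⟨h', he⟩ := Par_spec col k x h
  rw [he]
  exact h'.choose_spec.2

/-- By properness the partner is unique. -/
theorem par_eq (col : Sym2 V → κ) (hcol : Proper col) (k : κ) (x y : V) (h : y ≠ x)
    (hk : col s(x, y) = k) : par col k x = y := by
  have h' : ∃ y, y ≠ x ∧ col s(x, y) = k := ⟨y, h, hk⟩
  have he : par col k x = h'.choose := by
    unfold par
    rw [dif_pos h']
  have h1 := h'.choose_spec
  rw [← he] at h1
  by_contra hne
  exact hcol x (par col k x) y h1.1.symm h.symm hne (h1.2.trans hk.symm)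

theorem par_par (col : Sym2 V → κ) (hcol : Proper col) (k : κ) (x : V) :
    par col k (par col k x) = x := by
  by_cases h : par col k x = x
  · rw [h, h]
  · apply par_eq col hcol k _ _ (Ne.symm h)
    rw [Sym2.eq_swap]
    exact par_col col k x h

/-- From `par_par`. -/
theorem par_inj (col : Sym2 V → κ) (hcol : Proper col) (k : κ) :
    Function.Injective (par col k) := by
  intro x y h
  rw [← par_par col hcol k x, h, par_par col hcol k y]

/-- Different colours lead from `x` to different partners (if these are not `x`). -/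
theorem par_colour_inj (col : Sym2 V → κ) (k k' : κ) (x : V) (h : par col k x ≠ x)
    (hh : par col k x = par col k' x) : k = k' := by
  have h1 := par_col col k x h
  have h2 := par_col col k' x (hh ▸ h)
  rw [← h1, hh, h2]

/-- Counting partners of `x` in `B` with a property. -/
theorem par_count (col : Sym2 V → κ) (hcol : Proper col) (B : Finset κ) (x : V) (Y : Finset V) :
    (Y.filter (fun y => y ≠ x ∧ col s(x, y) ∈ B)).card =
      (B.filter (fun k => par col k x ≠ x ∧ par col k x ∈ Y)).card := by
  apply Finset.card_bij (fun y _ => col s(x, y))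
  · intro y hy
    rw [Finset.mem_filter] at hy ⊢
    have h1 := par_eq col hcol (col s(x, y)) x y hy.2.1 rfl
    rw [h1]
    exact ⟨hy.2.2, hy.2.1, hy.1⟩
  · intro y hy z hz h
    rw [Finset.mem_filter] at hy hz
    rw [← par_eq col hcol _ x y hy.2.1 rfl, h, par_eq col hcol _ x z hz.2.1 rfl]
  · intro k hk
    rw [Finset.mem_filter] at hk
    have h1 := par_col col k x hk.2.1
    refine ⟨par col k x, ?_, h1⟩
    rw [Finset.mem_filter, h1]
    exact ⟨hk.2.2, hk.2.1, hk.1⟩

/-- Sum of `par_count` over `x ∈ X`. -/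
theorem eB_eq_sum (col : Sym2 V → κ) (B : Finset κ) (X Y : Finset V) :
    eB col B X Y = ∑ x ∈ X, (Y.filter (fun y => x ≠ y ∧ col s(x, y) ∈ B)).card := by
  unfold eB
  rw [Finset.card_filter, Finset.sum_product]
  refine Finset.sum_congr rfl fun x _ => ?_
  rw [Finset.card_filter]

theorem eB_comm (col : Sym2 V → κ) (B : Finset κ) (X Y : Finset V) :
    eB col B X Y = eB col B Y X := by
  unfold eB
  apply Finset.card_bij (fun p _ => (p.2, p.1))
  · intro p hp
    simp only [Finset.mem_filter, Finset.mem_product] at hp ⊢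
    refine ⟨⟨hp.1.2, hp.1.1⟩, hp.2.1.symm, ?_⟩
    rw [Sym2.eq_swap]
    exact hp.2.2
  · intro p _ q _ h
    have h1 := congrArg Prod.fst h
    have h2 := congrArg Prod.snd h
    exact Prod.ext h2 h1
  · intro p hp
    simp only [Finset.mem_filter, Finset.mem_product] at hp
    refine ⟨(p.2, p.1), ?_, rfl⟩
    simp only [Finset.mem_filter, Finset.mem_product]
    refine ⟨⟨hp.1.2, hp.1.1⟩, hp.2.1.symm, ?_⟩
    rw [Sym2.eq_swap]
    exact hp.2.2

end Pool.Agent.W_cd7020_h81b
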