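import Pool.Agent.W_cd7020_h81b.GClA
import Pool.Agent.W_cd7020_h81b.GFlA
import Pool.Agent.W_cd7020_h81b.Par
import Pool.Agent.W_cd7020_h81b.GDpA

/-!
# Hitting a set of classes
-/

set_option autoImplicit false

namespace Pool.Agent.W_cd7020_h81b

open Finset Pool.Agent.W_cd7020_h81

variable {V κ : Type*} [DecidableEq V] [DecidableEq κ] [Fintype V]

/-- The error term. -/
noncomputable def er (Q : List V) (R : Finset κ) (a : ℝ) (s : ℕ) : ℝ :=
  (a + 1) / R.card * Real.sqrt ((Q.length / s + 1 : ℕ) * Fintype.card V / Q.length)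

omit [DecidableEq V] [Fintype V] in
/-- The number of classes. -/
theorem GHit_clI_card (Q : List V) (s : ℕ) : (clI Q s).card = Q.length / s + 1 := by
  simp [clI]

/-- The current vertex does not depend on the choice. -/
theorem GHit_zz_upd (col : Sym2 V → κ) (Q : List V) (w : ℕ → κ) (t m : ℕ) (i : Fin m)
    (o : (V × Bool) × (Fin m → κ × Bool)) (q : κ × Bool) :
    zz col Q (mw w t (upd o i q)) (upd o i q).1.1 (ms t i) =
      zz col Q (mw w t o) o.1.1 (ms t i) :=
  zz_congr col Q _ _ _ _ fun j hj => mw_upd w t o i q j hj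

open Classical in
/-- The sum over the choices. -/
theorem GHit_sum (col : Sym2 V → κ) (hcol : Proper col) (R : Finset κ) (U : Finset V) (x : V)
    (P : V → Prop) :
    ∑ q ∈ R ×ˢ (univ : Finset Bool), (if par col q.1 x ≠ x ∧ par col q.1 x ∈ U ∧
      P (par col q.1 x) then (1 : ℝ) else 0) =
    2 * ((U.filter (fun y => P y ∧ y ≠ x ∧ col s(x, y) ∈ R)).card : ℝ) := by
  have h1 := par_count col hcol R x (U.filter P)
  have h0 : ∀ k ∈ R, ∑ b : Bool, (if par col (k, b).1 x ≠ x ∧ par col (k, b).1 x ∈ U ∧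
      P (par col (k, b).1 x) then (1 : ℝ) else 0) =
      2 * (if par col k x ≠ x ∧ par col k x ∈ U ∧ P (par col k x) then (1 : ℝ) else 0) := by
    intro k _
    rw [Fintype.sum_bool]
    ring
  rw [Finset.sum_product, Finset.sum_congr rfl h0, ← Finset.mul_sum, Finset.sum_boole]
  have h2 : (U.filter (fun y => P y ∧ y ≠ x ∧ col s(x, y) ∈ R)) =
      ((U.filter P).filter (fun y => y ≠ x ∧ col s(x, y) ∈ R)) := by
    ext y
    simp only [Finset.mem_filter]
    tauto
  have h3 : (R.filter (fun k => par col k x ≠ x ∧ par col k x ∈ U ∧ P (par col k x))) =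
      (R.filter (fun k => par col k x ≠ x ∧ par col k x ∈ U.filter P)) := by
    ext k
    simp only [Finset.mem_filter]
  rw [h2, h3]
  have h4 : (((U.filter P).filter (fun y => y ≠ x ∧ col s(x, y) ∈ R)).card : ℝ) =
      ((R.filter (fun k => par col k x ≠ x ∧ par col k x ∈ U.filter P)).card : ℝ) := by
    exact_mod_cast (by convert h1 : ((U.filter P).filter
      (fun y => y ≠ x ∧ col s(x, y) ∈ R)).card =
      (R.filter (fun k => par col k x ≠ x ∧ par col k x ∈ U.filter P)).card)
  rw [h4]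

open Classical in
/-- The number of hits as a sum over histories. -/
theorem GHit_count (col : Sym2 V → κ) (hcol : Proper col) (Q : List V) (R : Finset κ)
    (w : ℕ → κ) (t m : ℕ) (i : Fin m) (s : ℕ)
    (H : (V × Bool) × (Fin m → κ × Bool) → Prop)
    (K : (V × Bool) × (Fin m → κ × Bool) → Finset ℕ)
    (hH : ∀ o q, H (upd o i q) ↔ H o) (hK : ∀ o q, K (upd o i q) = K o) :
    (R.card : ℝ) * (((Om Q R m).filter (fun o => H o ∧
      yy col Q (mw w t o) o.1.1 (ms t i) ≠ zz col Q (mw w t o) o.1.1 (ms t i) ∧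
      yy col Q (mw w t o) o.1.1 (ms t i) ∈ Q ∧
      clq Q s (yy col Q (mw w t o) o.1.1 (ms t i)) ∈ K o)).card : ℝ) =
    ∑ o ∈ (Om Q R m).filter H, ((Q.toFinset.filter (fun y => clq Q s y ∈ K o ∧
      y ≠ zz col Q (mw w t o) o.1.1 (ms t i) ∧
      col s(zz col Q (mw w t o) o.1.1 (ms t i), y) ∈ R)).card : ℝ) := by
  let z : (V × Bool) × (Fin m → κ × Bool) → V := fun o => zz col Q (mw w t o) o.1.1 (ms t i)
  let g : (V × Bool) × (Fin m → κ × Bool) → κ × Bool → ℝ := fun o q =>
    if H o then (if par col q.1 (z o) ≠ z o ∧ par col q.1 (z o) ∈ Q.toFinset ∧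
      clq Q s (par col q.1 (z o)) ∈ K o then 1 else 0) else 0
  have hz : ∀ o q, z (upd o i q) = z o := fun o q => GHit_zz_upd col Q w t m i o q
  have hg : ∀ o q q', g (upd o i q') q = g o q := by
    intro o q q'
    simp only [g, hz, hH, hK]
  have h1 := resample Q R m i g hg
  have h2 : ∀ o, yy col Q (mw w t o) o.1.1 (ms t i) = par col (o.2 i).1 (z o) := by
    intro o
    unfold yy
    rw [mw_ms]
  have h3 : ∑ o ∈ Om Q R m, g o (o.2 i) = (((Om Q R m).filter (fun o => H o ∧
      yy col Q (mw w t o) o.1.1 (ms t i) ≠ zz col Q (mw w t o) o.1.1 (ms t i) ∧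
      yy col Q (mw w t o) o.1.1 (ms t i) ∈ Q ∧
      clq Q s (yy col Q (mw w t o) o.1.1 (ms t i)) ∈ K o)).card : ℝ) := by
    rw [Finset.card_filter, Nat.cast_sum]
    refine Finset.sum_congr rfl fun o _ => ?_
    simp only [g, h2, List.mem_toFinset]
    by_cases hHo : H o
    · simp only [hHo, if_true, true_and]
      push_cast
      rfl
    · simp only [hHo, if_false, false_and, Nat.cast_zero]
  have h4 : ∀ o, ∑ q ∈ R ×ˢ (univ : Finset Bool), g o q =
      if H o then 2 * ((Q.toFinset.filter (fun y => clq Q s y ∈ K o ∧ y ≠ z o ∧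
        col s(z o, y) ∈ R)).card : ℝ) else 0 := by
    intro o
    by_cases hHo : H o
    · simp only [g, hHo, if_true]
      have h5 := GHit_sum col hcol R Q.toFinset (z o) (fun y => clq Q s y ∈ K o)
      refine Eq.trans (Finset.sum_congr rfl fun q _ => ?_) (h5.trans ?_)
      · congr
      · congr
    · simp only [g, hHo, if_false, Finset.sum_const_zero]
  simp only [h4] at h1
  rw [h3, ← Finset.sum_filter, ← Finset.mul_sum] at h1
  have h6 : (2 : ℝ) ≠ 0 := two_ne_zero
  have h7 := mul_left_cancel₀ h6 ((mul_assoc _ _ _).symm.trans h1)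
  exact h7

open Classical in
/-- The error term. -/
theorem GHit_err (col : Sym2 V → κ) (hcol : Proper col) (Q : List V) (hQ : Q.Nodup)
    (h3 : 3 ≤ Q.length) (R : Finset κ) (hR1 : 1 ≤ R.card) (hRn : R.card ≤ Fintype.card V) (a : ℝ)
    (ha : 0 ≤ a) (hR : NB col R a) (w : ℕ → κ) (t m : ℕ) (i : Fin m) (s : ℕ)
    (H : (V × Bool) × (Fin m → κ × Bool) → Prop)
    (K : (V × Bool) × (Fin m → κ × Bool) → Finset ℕ)
    (hKI : ∀ o, K o ⊆ clI Q s) :
    |∑ o ∈ (Om Q R m).filter H, ((Q.toFinset.filter (fun y => clq Q s y ∈ K o ∧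
      y ≠ zz col Q (mw w t o) o.1.1 (ms t i) ∧
      col s(zz col Q (mw w t o) o.1.1 (ms t i), y) ∈ R)).card : ℝ) -
      (R.card : ℝ) / (Fintype.card V : ℝ) *
        ∑ o ∈ (Om Q R m).filter H, ((Q.toFinset.filter (fun y => clq Q s y ∈ K o)).card : ℝ)| ≤
    R.card * (er Q R a s * (Om Q R m).card) := by
  have hG : ∀ x, ((((Om Q R m).filter H).filter (fun o =>
      zz col Q (mw w t o) o.1.1 (ms t i) = x)).card : ℝ) ≤ ((2 * (2 * R.card) ^ m : ℕ) : ℝ) := by
    intro x
    have h1 := flat_zz col hcol Q hQ R w t m (ms t i) x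
    have h2 : (((Om Q R m).filter H).filter (fun o =>
        zz col Q (mw w t o) o.1.1 (ms t i) = x)).card ≤
        ((Om Q R m).filter (fun o => zz col Q (mw w t o) o.1.1 (ms t i) = x)).card :=
      Finset.card_le_card (Finset.filter_subset_filter _ (Finset.filter_subset _ _))
    exact_mod_cast h2.trans h1
  have h1 := ni col R a ha hR hRn ((Om Q R m).filter H)
    (fun o => zz col Q (mw w t o) o.1.1 (ms t i)) Q.toFinset (clq Q s) (clI Q s) K
    (fun o _ => hKI o) ((2 * (2 * R.card) ^ m : ℕ) : ℝ) (fun x => by convert hG x)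
  refine le_trans ?_ (h1.trans ?_)
  · apply le_of_eq
    congr 1
  · have hn0 : (0 : ℝ) < Q.length := by exact_mod_cast (by omega : 0 < Q.length)
    have hr0 : (0 : ℝ) < R.card := by exact_mod_cast hR1
    have hG0 : (0 : ℝ) ≤ ((2 * (2 * R.card) ^ m : ℕ) : ℝ) := Nat.cast_nonneg _
    have hOm : ((Om Q R m).card : ℝ) = Q.length * ((2 * (2 * R.card) ^ m : ℕ) : ℝ) := by
      rw [Om_card Q hQ R m]
      push_cast
      ring
    have hle : ((((Om Q R m).filter H).card : ℕ) : ℝ) ≤ (Om Q R m).card := by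
      exact_mod_cast Finset.card_filter_le _ _
    rw [GHit_clI_card]
    have h5 : ((2 * (2 * R.card) ^ m : ℕ) : ℝ) * ((Om Q R m).filter H).card *
        ((Q.length / s + 1 : ℕ) : ℝ) * Fintype.card V ≤
        ((Om Q R m).card : ℝ) ^ 2 * ((Q.length / s + 1 : ℕ) * Fintype.card V / Q.length) := by
      have h6 : ((2 * (2 * R.card) ^ m : ℕ) : ℝ) = (Om Q R m).card / Q.length := by
        rw [hOm]
        field_simp
      have h7 : (0 : ℝ) ≤ (Om Q R m).card := Nat.cast_nonneg _
      calc ((2 * (2 * R.card) ^ m : ℕ) : ℝ) * ((Om Q R m).filter H).card *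
            ((Q.length / s + 1 : ℕ) : ℝ) * Fintype.card V
          ≤ ((2 * (2 * R.card) ^ m : ℕ) : ℝ) * (Om Q R m).card *
            ((Q.length / s + 1 : ℕ) : ℝ) * Fintype.card V :=
            mul_le_mul_of_nonneg_right (mul_le_mul_of_nonneg_right
              (mul_le_mul_of_nonneg_left hle hG0) (Nat.cast_nonneg _)) (Nat.cast_nonneg _)
        _ = ((Om Q R m).card : ℝ) ^ 2 *
            ((Q.length / s + 1 : ℕ) * Fintype.card V / Q.length) := by
            rw [h6]
            ring
    have h10 : Real.sqrt (((Om Q R m).card : ℝ) ^ 2 *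
        ((Q.length / s + 1 : ℕ) * Fintype.card V / Q.length)) = (Om Q R m).card *
        Real.sqrt ((Q.length / s + 1 : ℕ) * Fintype.card V / Q.length) := by
      rw [Real.sqrt_mul (sq_nonneg _), Real.sqrt_sq (Nat.cast_nonneg _)]
    have h8 := Real.sqrt_le_sqrt h5
    rw [h10] at h8
    have h9 : (0 : ℝ) ≤ a + 1 := by linarith
    calc (a + 1) * Real.sqrt (((2 * (2 * R.card) ^ m : ℕ) : ℝ) * ((Om Q R m).filter H).card *
          ((Q.length / s + 1 : ℕ) : ℝ) * Fintype.card V)
        ≤ (a + 1) * ((Om Q R m).card *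
          Real.sqrt ((Q.length / s + 1 : ℕ) * Fintype.card V / Q.length)) :=
          mul_le_mul_of_nonneg_left h8 h9
      _ = R.card * (er Q R a s * (Om Q R m).card) := by
          unfold er
          field_simp

open Classical in
/-- General upper bound. `H` is a property and `K` a set of classes of an element `o` of the sample
space, both independent of the choice number `i`. Then the number of `o` with the property whose
partner `y = yy (ms t i)` exists, is in `Q` and has its class in `K o` is at most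
`|Om| (M / n + er)` where `M` bounds the number of vertices with class in `K o`.

`resample` with `g o q = 1` if `H o`, `par q.1 z ≠ z`, `par q.1 z ∈ Q`, `clq (par q.1 z) ∈ K o`
(`z = zz (ms t i)`, which does not depend on the choice `i`, `mw_upd`, `zz_congr`;
`yy (ms t i) = par (o.2 i).1 z` by `mw_ms`). The sum over `q` is twice the number of `y ∈ Q` with
`y ≠ z`, `col s(z, y) ∈ R`, class in `K o` (`par_count`). Then `ni` with `G = 2 (2 r) ^ m`
(`flat_zz`), `|Om| = n₀ G` (`Om_card`). -/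
theorem hit_le (col : Sym2 V → κ) (hcol : Proper col) (Q : List V) (hQ : Q.Nodup)
    (h3 : 3 ≤ Q.length) (R : Finset κ) (hR1 : 1 ≤ R.card) (hRn : R.card ≤ Fintype.card V) (a : ℝ)
    (ha : 0 ≤ a) (hR : NB col R a) (w : ℕ → κ) (t m : ℕ) (i : Fin m) (s M : ℕ) (hs : 1 ≤ s)
    (H : (V × Bool) × (Fin m → κ × Bool) → Prop)
    (K : (V × Bool) × (Fin m → κ × Bool) → Finset ℕ)
    (hH : ∀ o q, H (upd o i q) ↔ H o) (hK : ∀ o q, K (upd o i q) = K o)
    (hKI : ∀ o, K o ⊆ clI Q s)
    (hM : ∀ o ∈ Om Q R m, H o → (Q.toFinset.filter (fun y => clq Q s y ∈ K o)).card ≤ M) :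
    (((Om Q R m).filter (fun o => H o ∧
      yy col Q (mw w t o) o.1.1 (ms t i) ≠ zz col Q (mw w t o) o.1.1 (ms t i) ∧
      yy col Q (mw w t o) o.1.1 (ms t i) ∈ Q ∧
      clq Q s (yy col Q (mw w t o) o.1.1 (ms t i)) ∈ K o)).card : ℝ) ≤
    ((M : ℝ) / Fintype.card V + er Q R a s) * (Om Q R m).card := by
  have hr0 : (0 : ℝ) < R.card := by exact_mod_cast hR1
  have hn0 : (0 : ℝ) < Fintype.card V := by
    have : 1 ≤ Fintype.card V := hR1.trans hRn
    exact_mod_cast this
  have h1 := GHit_count col hcol Q R w t m i s H K hH hK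
  have h2 := (abs_le.1 (GHit_err col hcol Q hQ h3 R hR1 hRn a ha hR w t m i s H K hKI)).2
  rw [← h1] at h2
  have h4 : ∑ o ∈ (Om Q R m).filter H,
      ((Q.toFinset.filter (fun y => clq Q s y ∈ K o)).card : ℝ) ≤ M * (Om Q R m).card := by
    calc ∑ o ∈ (Om Q R m).filter H,
        ((Q.toFinset.filter (fun y => clq Q s y ∈ K o)).card : ℝ)
        ≤ ∑ o ∈ (Om Q R m).filter H, (M : ℝ) := by
          refine Finset.sum_le_sum fun o ho => ?_
          rw [Finset.mem_filter] at ho
          exact_mod_cast hM o ho.1 ho.2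
      _ = ((Om Q R m).filter H).card * M := by rw [Finset.sum_const, nsmul_eq_mul]
      _ ≤ (Om Q R m).card * M := by
          have h5 : ((((Om Q R m).filter H).card : ℕ) : ℝ) ≤ (Om Q R m).card := by
            exact_mod_cast Finset.card_filter_le _ _
          exact mul_le_mul_of_nonneg_right h5 (Nat.cast_nonneg _)
      _ = M * (Om Q R m).card := mul_comm _ _
  have h5 : (R.card : ℝ) / (Fintype.card V : ℝ) * ∑ o ∈ (Om Q R m).filter H,
      ((Q.toFinset.filter (fun y => clq Q s y ∈ K o)).card : ℝ) ≤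
      (R.card : ℝ) / (Fintype.card V : ℝ) * (M * (Om Q R m).card) :=
    mul_le_mul_of_nonneg_left h4 (by positivity)
  refine le_of_mul_le_mul_left ?_ hr0
  calc _ ≤ (R.card : ℝ) / (Fintype.card V : ℝ) * (M * (Om Q R m).card) +
        R.card * (er Q R a s * (Om Q R m).card) := by linarith
    _ = R.card * (((M : ℝ) / Fintype.card V + er Q R a s) * (Om Q R m).card) := by
        field_simp

open Classical in
/-- General lower bound; the proof is the same. -/
theorem hit_ge (col : Sym2 V → κ) (hcol : Proper col) (Q : List V) (hQ : Q.Nodup)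
    (h3 : 3 ≤ Q.length) (R : Finset κ) (hR1 : 1 ≤ R.card) (hRn : R.card ≤ Fintype.card V) (a : ℝ)
    (ha : 0 ≤ a) (hR : NB col R a) (w : ℕ → κ) (t m : ℕ) (i : Fin m) (s M : ℕ) (hs : 1 ≤ s)
    (H : (V × Bool) × (Fin m → κ × Bool) → Prop)
    (K : (V × Bool) × (Fin m → κ × Bool) → Finset ℕ)
    (hH : ∀ o q, H (upd o i q) ↔ H o) (hK : ∀ o q, K (upd o i q) = K o)
    (hKI : ∀ o, K o ⊆ clI Q s)
    (hM : ∀ o ∈ Om Q R m, H o → M ≤ (Q.toFinset.filter (fun y => clq Q s y ∈ K o)).card) :
    (M : ℝ) / Fintype.card V * ((Om Q R m).filter (fun o => H o)).card -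
      er Q R a s * (Om Q R m).card ≤
    (((Om Q R m).filter (fun o => H o ∧
      yy col Q (mw w t o) o.1.1 (ms t i) ≠ zz col Q (mw w t o) o.1.1 (ms t i) ∧
      yy col Q (mw w t o) o.1.1 (ms t i) ∈ Q ∧
      clq Q s (yy col Q (mw w t o) o.1.1 (ms t i)) ∈ K o)).card : ℝ) := by
  have hr0 : (0 : ℝ) < R.card := by exact_mod_cast hR1
  have hn0 : (0 : ℝ) < Fintype.card V := by
    have : 1 ≤ Fintype.card V := hR1.trans hRn
    exact_mod_cast this
  have h1 := GHit_count col hcol Q R w t m i s H K hH hK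
  have h2 := (abs_le.1 (GHit_err col hcol Q hQ h3 R hR1 hRn a ha hR w t m i s H K hKI)).1
  rw [← h1] at h2
  have h4 : (M : ℝ) * ((Om Q R m).filter (fun o => H o)).card ≤ ∑ o ∈ (Om Q R m).filter H,
      ((Q.toFinset.filter (fun y => clq Q s y ∈ K o)).card : ℝ) := by
    calc (M : ℝ) * ((Om Q R m).filter (fun o => H o)).card
        = ∑ o ∈ (Om Q R m).filter H, (M : ℝ) := by
          rw [Finset.sum_const, nsmul_eq_mul, mul_comm]
      _ ≤ _ := by
          refine Finset.sum_le_sum fun o ho => ?_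
          rw [Finset.mem_filter] at ho
          exact_mod_cast hM o ho.1 ho.2
  have h5 : (R.card : ℝ) / (Fintype.card V : ℝ) *
      ((M : ℝ) * ((Om Q R m).filter (fun o => H o)).card) ≤
      (R.card : ℝ) / (Fintype.card V : ℝ) * ∑ o ∈ (Om Q R m).filter H,
      ((Q.toFinset.filter (fun y => clq Q s y ∈ K o)).card : ℝ) :=
    mul_le_mul_of_nonneg_left h4 (by positivity)
  refine le_of_mul_le_mul_left ?_ hr0
  calc (R.card : ℝ) * ((M : ℝ) / Fintype.card V * ((Om Q R m).filter (fun o => H o)).card -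
        er Q R a s * (Om Q R m).card)
      = (R.card : ℝ) / (Fintype.card V : ℝ) *
        ((M : ℝ) * ((Om Q R m).filter (fun o => H o)).card) -
        R.card * (er Q R a s * (Om Q R m).card) := by field_simp
    _ ≤ _ := by linarith

end Pool.Agent.W_cd7020_h81b
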