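import Pool.Agent.W_cd7020_h81b.GCnB
import Pool.Agent.W_cd7020_h81b.GFoB
import Pool.Agent.W_cd7020_h81b.GDdC

/-!
# The group lemma
-/

set_option autoImplicit false

namespace Pool.Agent.W_cd7020_h81b

open Finset Pool.Agent.W_cd7020_h81

variable {V κ : Type*} [DecidableEq V] [DecidableEq κ] [Fintype V]

/-- What the group lemma gives: a finite sample space `Om`, the set `al` of the possible elements,
the released colours `rel o i`, `i ≤ t + m`, the used colours `ub o i`, `i < m`, of the pool `R`, the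
number `N o` of missing edges and the forest `F o`. -/
structure Group (col : Sym2 V → κ) (U : Finset V) (E : Finset (Sym2 V)) (R : Finset κ)
    (w : ℕ → κ) (t m : ℕ) (loss Mx : ℝ) {Ω : Type*} (Om al : Finset Ω)
    (rel : Ω → ℕ → κ) (ub : Ω → ℕ → κ) (N : Ω → ℕ) (F : Ω → Finset (Sym2 V)) : Prop where
  ne : Om.Nonempty
  sub : al ⊆ Om
  dead : ((Om.card : ℝ) - al.card) ≤ loss * Om.card
  relflat : ∀ i ≤ t + m, ∀ k, (U.card : ℝ) * (al.filter (fun o => rel o i = k)).card ≤ Om.card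
  ubflat : ∀ i < m, ∀ k, (R.card : ℝ) * (al.filter (fun o => ub o i = k)).card ≤ Om.card
  cost : ∑ o ∈ al, (N o : ℝ) ≤ Mx * Om.card
  relmem : ∀ o ∈ al, ∀ i ≤ t + m, ∃ e ∈ E, col e = rel o i
  relinj : ∀ o ∈ al, ∀ i ≤ t + m, ∀ j ≤ t + m, rel o i = rel o j → i = j
  ubmem : ∀ o ∈ al, ∀ i < m, ub o i ∈ R
  ubinj : ∀ o ∈ al, ∀ i < m, ∀ j < m, ub o i = ub o j → i = j
  lf : ∀ o ∈ al, LF U (F o)
  card : ∀ o ∈ al, (F o).card + 1 + N o = U.card
  rb : ∀ o ∈ al, Rb col (F o)
  cols : ∀ o ∈ al, ∀ e ∈ F o, (e ∈ E ∧ ∀ i ≤ t + m, col e ≠ rel o i) ∨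
    (∃ i < m, col e = ub o i) ∨ ∃ i < t, col e = w i

theorem GMain_ms (t m i : ℕ) (htm : t ≤ m) (hi : i < m) : ms t i < t + m := by
  unfold ms
  split_ifs <;> omega

theorem GMain_ms_inj (t i j : ℕ) (hij : i < j) : ms t i < ms t j := by
  unfold ms
  split_ifs <;> omega

open Classical in
/-- The group lemma. Let `Q` be the list of `Cyc U E`, `|E| = |U|`: then `E` is the set of the cyclic
pairs of `Q` (`ce_length`). `Om = Om Q R m`, `al` its possible elements, `rel o i = col (ed i)`,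
`ub o i = (o.2 i).1`, `N o` the number of cycles, `F o` from `forest_end`.
`dead`: `dead_count`. `relflat`: `flat_ed` (`k` is the colour of at most one cyclic pair; `Om_card`).
`ubflat`: `flat_choice`. `cost`: `count_sum`. `relinj`: `Alv.cut` and rainbow. The colours of the moves:
`mvs` gives `(o.2 i).1` or `w i` with `i < t` (`ms_cases`, `mw_ms`, `mw_ms_succ`). -/
theorem group (col : Sym2 V → κ) (hcol : Proper col) (U : Finset V) (E : Finset (Sym2 V))
    (hE : Cyc U E) (hEU : E.card = U.card) (h3 : 3 ≤ U.card) (hrb : Rb col E) (R : Finset κ)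
    (hR1 : 1 ≤ R.card) (hRn : R.card ≤ Fintype.card V) (a : ℝ) (ha : 0 ≤ a) (hR : NB col R a)
    (hRE : ∀ e ∈ E, col e ∉ R) (w : ℕ → κ) (hw : ∀ i, ∀ e ∈ E, col e ≠ w i)
    (t m μ v D₁ D₂ s s₁ : ℕ) (htm : t ≤ m)
    (hwi : ∀ i < t, ∀ j < t, w i = w j → i = j) (hwR : ∀ i, w i ∉ R)
    (hRm : ∀ k ∈ R, (univ.filter (fun x => par col k x = x)).card ≤ μ)
    (hwm : ∀ i, (univ.filter (fun x => par col (w i) x = x)).card ≤ μ)
    (hv : Fintype.card V ≤ U.card + v) (hD₂ : 1 ≤ D₂)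
    (hs : 1 ≤ s) (hs₁ : 1 ≤ s₁) (hD₁s : D₁ ≤ s₁) (hD₁ : D₁ + 2 < U.card)
    (hDs : 2 * (t + m + 1) * s ≤ D₁) (loss Mx erS erS₁ : ℝ)
    (hloss : (t + m) * (μ + v) / (U.card : ℝ) + 2 * (t + m + 1) ^ 2 / R.card ≤ loss)
    (herS : (a + 1) / R.card * Real.sqrt ((U.card / s + 1 : ℕ) * Fintype.card V / U.card) ≤ erS)
    (herS₁ : (a + 1) / R.card * Real.sqrt ((U.card / s₁ + 1 : ℕ) * Fintype.card V / U.card) ≤
      erS₁)
    (hMx : (U.card : ℝ) / D₂ +
      m * (((D₂ + (t + m + 2) * s : ℕ) : ℝ) / Fintype.card V + erS) +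
      t * (((12 * (t + 1) * s₁ : ℕ) : ℝ) / Fintype.card V + erS₁) +
      t * ((1 - D₁ / (2 * Fintype.card V)) ^ (m - t) +
        erS * (2 * Fintype.card V / D₁)) ≤ Mx) :
    ∃ (Om al : Finset ((V × Bool) × (Fin m → κ × Bool)))
      (rel ub : (V × Bool) × (Fin m → κ × Bool) → ℕ → κ)
      (N : (V × Bool) × (Fin m → κ × Bool) → ℕ)
      (F : (V × Bool) × (Fin m → κ × Bool) → Finset (Sym2 V)),
      Group col U E R w t m loss Mx Om al rel ub N F := by
  obtain ⟨Q, hQ, hQU, hEQ⟩ := hE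
  have hQf : Q.toFinset = U := by
    ext v
    rw [List.mem_toFinset, hQU]
  have hlen : Q.length = U.card := by
    rw [← hQf, List.toFinset_card_of_nodup hQ]
  have h3' : 3 ≤ Q.length := by omega
  have hEce : E = (ce Q).toFinset := by
    refine Finset.eq_of_subset_of_card_le ?_ ?_
    · intro e he
      exact List.mem_toFinset.2 (hEQ e he)
    · refine (List.toFinset_card_le _).trans ?_
      rw [ce_length, hlen, hEU]
  have hmem : ∀ e, e ∈ E ↔ e ∈ ce Q := by
    intro e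
    rw [hEce, List.mem_toFinset]
  have hrb' : ∀ e ∈ ce Q, ∀ e' ∈ ce Q, col e = col e' → e = e' := fun e he e' he' =>
    hrb e ((hmem e).2 he) e' ((hmem e').2 he')
  have hRQ : ∀ e ∈ ce Q, col e ∉ R := fun e he => hRE e ((hmem e).2 he)
  have hw' : ∀ i, ∀ e ∈ ce Q, col e ≠ w i := fun i e he => hw i e ((hmem e).2 he)
  have hmv : ∀ o ∈ Om Q R m, ∀ j, ∀ e ∈ ce Q, col e ≠ (mw w t o j).1 := by
    intro o ho j e he hc
    rcases GFlB_col w t m j o.2 o rfl with ⟨i, hi⟩ | ⟨i, hi⟩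
    · rw [hi] at hc
      have h1 := ((mem_Om Q R m o).1 ho).2 i
      rw [← hc] at h1
      exact hRQ e he h1
    · rw [hi] at hc
      exact hw' i e he hc
  have hOm : (Om Q R m).card = Q.length * 2 * (2 * R.card) ^ m := Om_card Q hQ R m
  obtain ⟨al, hal⟩ : ∃ al, al = (Om Q R m).filter
    (fun o => Alv col Q (mw w t o) o.1.1 o.1.2 (t + m)) := ⟨_, rfl⟩
  have hal1 : ∀ o, o ∈ al ↔ o ∈ Om Q R m ∧ Alv col Q (mw w t o) o.1.1 o.1.2 (t + m) := by
    intro o
    rw [hal, Finset.mem_filter]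
  have hforest : ∀ o : (V × Bool) × (Fin m → κ × Bool), ∃ F : Finset (Sym2 V), o ∈ al →
      (LF Q.toFinset F ∧
      F.card + 1 + (sta col Q (mw w t o) o.1.1 o.1.2 (t + m)).cs.length = Q.length ∧ Rb col F ∧
      ∀ e ∈ F, (e ∈ ce Q ∧ ∀ i ≤ t + m, col e ≠ col (ed col Q (mw w t o) o.1.1 o.1.2 i)) ∨
        ∃ i < t + m, col e = (mw w t o i).1) := by
    intro o
    by_cases ho : o ∈ al
    · obtain ⟨F, hF⟩ := forest_end col Q hQ h3' hrb' (mw w t o) (hmv o ((hal1 o).1 ho).1)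
        o.1.1 o.1.2 (t + m) ((hal1 o).1 ho).2
      exact ⟨F, fun _ => hF⟩
    · exact ⟨∅, fun h => absurd h ho⟩
  choose F hF using hforest
  have hub : ∀ o : (V × Bool) × (Fin m → κ × Bool), ∀ i, ∀ h : i < m,
      (fun (o : (V × Bool) × (Fin m → κ × Bool)) (i : ℕ) => (mw w t o (ms t i)).1) o i =
        (o.2 ⟨i, h⟩).1 := by
    intro o i h
    have h1 := mw_ms w t o ⟨i, h⟩
    change (mw w t o (ms t i)).1 = _
    rw [← h1]
  obtain ⟨ub, hubdef⟩ : ∃ ub : (V × Bool) × (Fin m → κ × Bool) → ℕ → κ,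
    ub = fun o i => (mw w t o (ms t i)).1 := ⟨_, rfl⟩
  rw [← hubdef] at hub
  obtain ⟨rel, hrel⟩ : ∃ rel : (V × Bool) × (Fin m → κ × Bool) → ℕ → κ,
    ∀ o i, rel o i = col (ed col Q (mw w t o) o.1.1 o.1.2 i) := ⟨_, fun _ _ => rfl⟩
  have hedce : ∀ o ∈ al, ∀ i ≤ t + m, ed col Q (mw w t o) o.1.1 o.1.2 i ∈ ce Q :=
    fun o ho i hi => ed_ce col Q hQ _ _ _ _ _ hi ((hal1 o).1 ho).2
  have hU0 : (0 : ℝ) < U.card := by
    have : 0 < U.card := by omega
    exact_mod_cast this
  have hOmR : (0 : ℝ) ≤ (Om Q R m).card := Nat.cast_nonneg _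
  refine ⟨Om Q R m, al, rel, ub,
    fun o => (sta col Q (mw w t o) o.1.1 o.1.2 (t + m)).cs.length, F, ?_⟩
  refine ⟨?_, ?_, ?_, ?_, ?_, ?_, ?_, ?_, ?_, ?_, ?_, ?_, ?_, ?_⟩
  · rw [← Finset.card_pos, hOm]
    have : 0 < Q.length := by omega
    positivity
  · rw [hal]
    exact Finset.filter_subset _ _
  · have h1 := dead_count col hcol Q hQ h3' R hR1 w hw' t m μ v htm hwi hwR hRm hwm
      (by rw [hlen]; exact hv)
    have h2 : ((Om Q R m).card : ℝ) = al.card + ((Om Q R m).filter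
        (fun o => ¬ Alv col Q (mw w t o) o.1.1 o.1.2 (t + m))).card := by
      rw [hal]
      exact_mod_cast (Finset.card_filter_add_card_filter_not _).symm
    rw [hlen] at h1
    have h4 := mul_le_mul_of_nonneg_right hloss hOmR
    linarith
  · intro i hi k
    by_cases hk : ∃ e ∈ ce Q, col e = k
    · obtain ⟨e, he, hek⟩ := hk
      have h1 := flat_ed col hcol Q hQ h3' R w t m i e he
      have h2 : (al.filter (fun o => rel o i = k)).card ≤
          ((Om Q R m).filter (fun o => ed col Q (mw w t o) o.1.1 o.1.2 i = e)).card := by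
        refine Finset.card_le_card fun o ho => ?_
        obtain ⟨ho1, ho2⟩ := Finset.mem_filter.1 ho
        refine Finset.mem_filter.2 ⟨((hal1 o).1 ho1).1, ?_⟩
        refine hrb' _ (hedce o ho1 i hi) e he ?_
        rw [← hrel, ho2, hek]
      have h4 : U.card * (al.filter (fun o => rel o i = k)).card ≤ (Om Q R m).card := by
        rw [hOm, ← hlen, mul_assoc]
        exact Nat.mul_le_mul_left _ (h2.trans h1)
      exact_mod_cast h4
    · have h1 : al.filter (fun o => rel o i = k) = ∅ := by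
        rw [Finset.filter_eq_empty_iff]
        intro o ho hc
        exact hk ⟨_, hedce o ho i hi, by rw [← hrel, hc]⟩
      rw [h1, Finset.card_empty, Nat.cast_zero, mul_zero]
      exact hOmR
  · intro i hi k
    by_cases hk : k ∈ R
    · have h1 := flat_choice Q R m ⟨i, hi⟩ k hk
      have h2 : (al.filter (fun o => ub o i = k)).card ≤
          ((Om Q R m).filter (fun o => (o.2 ⟨i, hi⟩).1 = k)).card := by
        refine Finset.card_le_card fun o ho => ?_
        obtain ⟨ho1, ho2⟩ := Finset.mem_filter.1 ho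
        refine Finset.mem_filter.2 ⟨((hal1 o).1 ho1).1, ?_⟩
        rw [← hub o i hi, ho2]
      have h4 : R.card * (al.filter (fun o => ub o i = k)).card ≤ (Om Q R m).card := by
        rw [← h1]
        exact Nat.mul_le_mul_left _ h2
      exact_mod_cast h4
    · have h1 : al.filter (fun o => ub o i = k) = ∅ := by
        rw [Finset.filter_eq_empty_iff]
        intro o ho hc
        apply hk
        rw [← hc, hub o i hi]
        exact ((mem_Om Q R m o).1 ((hal1 o).1 ho).1).2 _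
      rw [h1, Finset.card_empty, Nat.cast_zero, mul_zero]
      exact hOmR
  · have h1 := count_sum col hcol Q hQ h3' R hR1 hRn a ha hR hRQ w hw' t m D₁ D₂ s s₁ htm hD₂
      hs hs₁ hD₁s (by rw [hlen]; exact hD₁) hDs
    rw [← hal] at h1
    refine h1.trans (mul_le_mul_of_nonneg_right (le_trans ?_ hMx) hOmR)
    have h2 : er Q R a s ≤ erS := by
      unfold er
      rw [hlen]
      exact herS
    have h4 : er Q R a s₁ ≤ erS₁ := by
      unfold er
      rw [hlen]
      exact herS₁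
    rw [hlen]
    gcongr
  · intro o ho i hi
    exact ⟨_, (hmem _).2 (hedce o ho i hi), (hrel o i).symm⟩
  · intro o ho i hi j hj hij
    rw [hrel, hrel] at hij
    have h1 := hrb' _ (hedce o ho i hi) _ (hedce o ho j hj) hij
    have h2 := ((hal1 o).1 ho).2
    rcases Nat.lt_trichotomy i j with h4 | h4 | h4
    · exact absurd h1 (h2.cut i j h4 hj)
    · exact h4
    · exact absurd h1.symm (h2.cut j i h4 hi)
  · intro o ho i hi
    rw [hub o i hi]
    exact ((mem_Om Q R m o).1 ((hal1 o).1 ho).1).2 _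
  · intro o ho i hi j hj hij
    have h2 := ((hal1 o).1 ho).2
    rw [hubdef] at hij
    rcases Nat.lt_trichotomy i j with h4 | h4 | h4
    · exact absurd hij (h2.colr _ _ (GMain_ms_inj t i j h4) (GMain_ms t m j htm hj))
    · exact h4
    · exact absurd hij.symm (h2.colr _ _ (GMain_ms_inj t j i h4) (GMain_ms t m i htm hi))
  · intro o ho
    have h1 := (hF o ho).1
    rw [hQf] at h1
    exact h1
  · intro o ho
    rw [← hlen]
    exact (hF o ho).2.1
  · intro o ho
    exact (hF o ho).2.2.1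
  · intro o ho e he
    rcases (hF o ho).2.2.2 e he with ⟨h1, h2⟩ | ⟨i, hi, h1⟩
    · left
      refine ⟨(hmem e).2 h1, fun i hi => ?_⟩
      rw [hrel]
      exact h2 i hi
    · right
      rcases ms_cases t m i htm hi with ⟨j, hj, hij⟩ | ⟨j, hj, hij⟩
      · left
        refine ⟨j, hj, ?_⟩
        rw [h1, hij, hubdef]
      · right
        refine ⟨j, hj, ?_⟩
        have h4 := mw_ms_succ w t o ⟨j, by omega⟩ hj
        rw [h1, hij]
        change (mw w t o (ms t j + 1)) = _ at h4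
        rw [h4]

end Pool.Agent.W_cd7020_h81b
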