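import Pool.Agent.W_cd7020_h81b.GDefs

/-!
# One step of the surgery: pairs after a rotation or a split
-/

set_option autoImplicit false

namespace Pool.Agent.W_cd7020_h81b

open Finset Pool.Agent.W_cd7020_h81

variable {V : Type*} [DecidableEq V]

theorem gst_ce_mem (l : List V) (e : Sym2 V) (he : e ∈ ce l) (v : V) (hv : v ∈ e) : v ∈ l := by
  have h := Pe_mem (l ++ l.take 1) e he v hv
  rw [List.mem_append] at h
  exact h.elim id (fun h => List.mem_of_mem_take h)

theorem gst_flat_mem (cs : List (List V)) (e : Sym2 V) (he : e ∈ cs.flatMap ce) (v : V)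
    (hv : v ∈ e) : v ∈ cs.flatten := by
  rw [List.mem_flatMap] at he
  obtain ⟨C, hC, heC⟩ := he
  exact List.mem_flatten.2 ⟨C, hC, gst_ce_mem C e heC v hv⟩

/-- The pairs after a rotation: `A ++ x :: y :: B` becomes `x :: A.reverse ++ y :: B`. -/
theorem step_ae_rot (st : GS V) (hnd : (st.p ++ st.cs.flatten).Nodup) (y x z : V) (A B : List V)
    (hp : st.p = A ++ x :: y :: B) (hz : st.p.head? = some z) (e : Sym2 V) :
    e ∈ ae (⟨x :: A.reverse ++ y :: B, st.cs⟩ : GS V) ↔
      (e ∈ ae st ∧ e ≠ s(y, x)) ∨ e = s(z, y) := by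
  have hdis := List.disjoint_of_nodup_append hnd
  have hndp : st.p.Nodup := (List.nodup_append.1 hnd).1
  rw [hp] at hndp hz
  have hAx : (A ++ [x]) ≠ [] := by simp
  have hyB : (y :: B) ≠ [] := by simp
  have hsplit : A ++ x :: y :: B = (A ++ [x]) ++ (y :: B) := by simp
  have hhead : (A ++ [x]).head hAx = z := by
    have h1 : (A ++ [x]).head? = some z := by
      rw [hsplit, List.head?_append] at hz
      rw [List.head?_eq_some_head hAx] at hz ⊢
      simpa using hz
    rw [List.head?_eq_some_head hAx] at h1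
    exact Option.some.inj h1
  have hnew : x :: A.reverse ++ y :: B = (A ++ [x]).reverse ++ (y :: B) := by simp
  have hpe1 : pe (A ++ x :: y :: B) = pe (A ++ [x]) ++ s(x, y) :: pe (y :: B) := pe_append _ _ _ _
  have hrev : (A ++ [x]).reverse ≠ [] := by simp
  have hpe2 : pe (x :: A.reverse ++ y :: B)
      = pe (A ++ [x]).reverse ++ s(z, y) :: pe (y :: B) := by
    rw [hnew, pe_append' _ _ hrev hyB]
    congr 2
    rw [List.getLast_reverse, hhead]
    rfl
  rw [hsplit] at hndp
  have hd2 := List.disjoint_of_nodup_append hndp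
  have hyn : y ∉ A ++ [x] := fun h => hd2 h List.mem_cons_self
  have hxn : x ∉ y :: B := fun h => hd2 (by simp) h
  have hn1 : ∀ e, e ∈ pe (A ++ [x]) → e ≠ s(y, x) := by
    rintro e he rfl
    exact hyn (Pe_mem _ _ he y (Sym2.mem_mk_left y x))
  have hn2 : ∀ e, e ∈ pe (y :: B) → e ≠ s(y, x) := by
    rintro e he rfl
    exact hxn (Pe_mem _ _ he x (Sym2.mem_mk_right y x))
  have hn3 : ∀ e, e ∈ st.cs.flatMap ce → e ≠ s(y, x) := by
    rintro e he rfl
    exact hdis (by rw [hp]; simp) (gst_flat_mem _ _ he x (Sym2.mem_mk_right y x))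
  unfold ae
  simp only [List.mem_append, hpe2, hp, hpe1, List.mem_cons, mem_pe_reverse]
  have hsw : (s(x, y) : Sym2 V) = s(y, x) := Sym2.eq_swap
  constructor
  · rintro ((h | h | h) | h)
    · exact Or.inl ⟨Or.inl (Or.inl h), hn1 e h⟩
    · exact Or.inr h
    · exact Or.inl ⟨Or.inl (Or.inr (Or.inr h)), hn2 e h⟩
    · exact Or.inl ⟨Or.inr h, hn3 e h⟩
  · rintro (⟨(h | h | h) | h, hne⟩ | h)
    · exact Or.inl (Or.inl h)
    · exact absurd (h.trans hsw) hne
    · exact Or.inl (Or.inr (Or.inr h))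
    · exact Or.inr h
    · exact Or.inl (Or.inr (Or.inl h))

/-- The pairs after a split: `ce (A ++ [y]) = pe (A ++ [y]) ++ [s(y, z)]`. -/
theorem step_ae_split (st : GS V) (hnd : (st.p ++ st.cs.flatten).Nodup) (y x z : V)
    (A B : List V) (hA : A ≠ []) (hp : st.p = A ++ y :: x :: B) (hz : st.p.head? = some z)
    (e : Sym2 V) :
    e ∈ ae (⟨x :: B, (A ++ [y]) :: st.cs⟩ : GS V) ↔
      (e ∈ ae st ∧ e ≠ s(y, x)) ∨ e = s(z, y) := by
  have hdis := List.disjoint_of_nodup_append hnd
  have hndp : st.p.Nodup := (List.nodup_append.1 hnd).1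
  rw [hp] at hndp hz
  have hAx : (A ++ [y]) ≠ [] := by simp
  have hsplit : A ++ y :: x :: B = (A ++ [y]) ++ (x :: B) := by simp
  have hhead : (A ++ [y]).head hAx = z := by
    have h1 : (A ++ [y]).head? = some z := by
      rw [hsplit, List.head?_append] at hz
      rw [List.head?_eq_some_head hAx] at hz ⊢
      simpa using hz
    rw [List.head?_eq_some_head hAx] at h1
    exact Option.some.inj h1
  have hpe1 : pe (A ++ y :: x :: B) = pe (A ++ [y]) ++ s(y, x) :: pe (x :: B) := pe_append _ _ _ _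
  have hce : ce (A ++ [y]) = pe (A ++ [y]) ++ [s(y, z)] := by
    rw [ce_eq _ hAx, hhead]
    simp
  rw [hsplit] at hndp
  have hd2 := List.disjoint_of_nodup_append hndp
  have hyn : y ∉ x :: B := fun h => hd2 (by simp) h
  have hxn : x ∉ A ++ [y] := fun h => hd2 h List.mem_cons_self
  have hn1 : ∀ e, e ∈ pe (A ++ [y]) → e ≠ s(y, x) := by
    rintro e he rfl
    exact hxn (Pe_mem _ _ he x (Sym2.mem_mk_right y x))
  have hn2 : ∀ e, e ∈ pe (x :: B) → e ≠ s(y, x) := by
    rintro e he rfl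
    exact hyn (Pe_mem _ _ he y (Sym2.mem_mk_left y x))
  have hn3 : ∀ e, e ∈ st.cs.flatMap ce → e ≠ s(y, x) := by
    rintro e he rfl
    exact hdis (by rw [hp]; simp) (gst_flat_mem _ _ he x (Sym2.mem_mk_right y x))
  unfold ae
  simp only [List.mem_append, hp, hpe1, List.mem_cons, List.flatMap_cons, hce,
    List.not_mem_nil, or_false]
  have hsw : (s(y, z) : Sym2 V) = s(z, y) := Sym2.eq_swap
  rw [hsw]
  constructor
  · rintro (h | (h | h) | h)
    · exact Or.inl ⟨Or.inl (Or.inr (Or.inr h)), hn2 e h⟩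
    · exact Or.inl ⟨Or.inl (Or.inl h), hn1 e h⟩
    · exact Or.inr h
    · exact Or.inl ⟨Or.inr h, hn3 e h⟩
  · rintro (⟨(h | h | h) | h, hne⟩ | h)
    · exact Or.inr (Or.inl (Or.inl h))
    · exact absurd h hne
    · exact Or.inl h
    · exact Or.inr (Or.inr h)
    · exact Or.inr (Or.inl (Or.inr h))

end Pool.Agent.W_cd7020_h81b
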