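import Pool.Agent.W_cd7020_h81b.GHit
import Pool.Agent.W_cd7020_h81b.GClC
import Pool.Agent.W_cd7020_h81b.GInC
import Pool.Agent.W_cd7020_h81b.GDpA

/-!
# Long cycles are merged: one move
-/

set_option autoImplicit false

namespace Pool.Agent.W_cd7020_h81b

open Finset Pool.Agent.W_cd7020_h81

variable {V κ : Type*} [DecidableEq V] [DecidableEq κ] [Fintype V]

open Classical in
/-- The elements for which the first `j` moves are possible, a cycle of length more than `D` is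
split off in the move `ms t i₀ + 1`, and this cycle is still there after `j` moves. -/
noncomputable def SV (col : Sym2 V → κ) (Q : List V) (R : Finset κ) (w : ℕ → κ) (t m i₀ D j : ℕ) :
    Finset ((V × Bool) × (Fin m → κ × Bool)) :=
  (Om Q R m).filter (fun o => Alv col Q (mw w t o) o.1.1 o.1.2 j ∧
    SplitAt col Q (mw w t o) o.1.1 o.1.2 (ms t i₀ + 1) ∧
    D < (cyc col Q (mw w t o) o.1.1 o.1.2 (ms t i₀ + 1)).length ∧
    ∀ j', ms t i₀ + 1 < j' → j' ≤ j →
      cyc col Q (mw w t o) o.1.1 o.1.2 (ms t i₀ + 1) ∈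
        (sta col Q (mw w t o) o.1.1 o.1.2 j').cs)

/-- The property defining `SV`. -/
def GSvA_H (col : Sym2 V → κ) (Q : List V) (w : ℕ → κ) (t m i₀ D j : ℕ)
    (o : (V × Bool) × (Fin m → κ × Bool)) : Prop :=
  Alv col Q (mw w t o) o.1.1 o.1.2 j ∧
    SplitAt col Q (mw w t o) o.1.1 o.1.2 (ms t i₀ + 1) ∧
    D < (cyc col Q (mw w t o) o.1.1 o.1.2 (ms t i₀ + 1)).length ∧
    ∀ j', ms t i₀ + 1 < j' → j' ≤ j →
      cyc col Q (mw w t o) o.1.1 o.1.2 (ms t i₀ + 1) ∈
        (sta col Q (mw w t o) o.1.1 o.1.2 j').cs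

open Classical in
theorem GSvA_mem (col : Sym2 V → κ) (Q : List V) (R : Finset κ) (w : ℕ → κ) (t m i₀ D j : ℕ)
    (o : (V × Bool) × (Fin m → κ × Bool)) :
    o ∈ SV col Q R w t m i₀ D j ↔ o ∈ Om Q R m ∧ GSvA_H col Q w t m i₀ D j o := by
  unfold SV GSvA_H
  rw [Finset.mem_filter]

theorem GSvA_hH (col : Sym2 V → κ) (Q : List V) (w : ℕ → κ) (t m i₀ D : ℕ) (i : Fin m)
    (hlt : ms t i₀ + 1 < ms t i) (o : (V × Bool) × (Fin m → κ × Bool)) (q : κ × Bool) :
    GSvA_H col Q w t m i₀ D (ms t i) (upd o i q) ↔ GSvA_H col Q w t m i₀ D (ms t i) o := by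
  have hmw : ∀ j < ms t i, mw w t (upd o i q) j = mw w t o j := fun j hj => mw_upd w t o i q j hj
  have h1 : (upd o i q).1 = o.1 := rfl
  unfold GSvA_H
  rw [h1]
  have hc : cyc col Q (mw w t (upd o i q)) o.1.1 o.1.2 (ms t i₀ + 1) =
      cyc col Q (mw w t o) o.1.1 o.1.2 (ms t i₀ + 1) :=
    cyc_congr col Q _ _ _ _ _ (fun i' hi' => hmw i' (by omega))
  rw [hc, Alv_congr col Q (mw w t (upd o i q)) (mw w t o) o.1.1 o.1.2 (ms t i) hmw,
    SplitAt_congr col Q (mw w t (upd o i q)) (mw w t o) o.1.1 o.1.2 (ms t i₀ + 1)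
      (fun i' hi' => hmw i' (by omega))]
  refine and_congr_right (fun _ => and_congr_right (fun _ => and_congr_right (fun _ => ?_)))
  refine forall_congr' (fun j' => ?_)
  refine forall_congr' (fun _ => ?_)
  refine forall_congr' (fun hj' => ?_)
  rw [sta_congr col Q (mw w t (upd o i q)) (mw w t o) o.1.1 o.1.2 j'
    (fun i' hi' => hmw i' (by omega))]

/-- One move of the second phase, `i ≥ t`. An element of `SV (ms t i + 1)` is in `SV (ms t i)`, its
partner exists, is in `Q` and not in the cycle `C` (`cyc_persist`). So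
`|SV (ms t i + 1)| ≤ |SV (ms t i)| - #{o ∈ SV (ms t i) | yy ≠ zz, yy ∈ Q, yy ∈ C}` and the last number
is at least the number with `clq yy` in the set of classes contained in `C`; `hit_ge` with
`H o`: `o ∈ SV (ms t i)` (independent of the choice `i` as `ms t i₀ + 1 < 2 t ≤ ms t i`), `inner_cyc`:
`M = D - (t + m + 1) s ≥ D / 2` (use `M = D / 2` rounded up). -/
theorem surv_step (col : Sym2 V → κ) (hcol : Proper col) (Q : List V) (hQ : Q.Nodup)
    (h3 : 3 ≤ Q.length) (R : Finset κ) (hR1 : 1 ≤ R.card) (hRn : R.card ≤ Fintype.card V) (a : ℝ)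
    (ha : 0 ≤ a) (hR : NB col R a) (hRQ : ∀ e ∈ ce Q, col e ∉ R) (w : ℕ → κ)
    (hw : ∀ i, ∀ e ∈ ce Q, col e ≠ w i) (t m : ℕ) (htm : t ≤ m) (i₀ : ℕ) (hi₀ : i₀ < t)
    (i : Fin m) (hi : t ≤ (i : ℕ)) (D s : ℕ) (hs : 1 ≤ s) (hDs : 2 * (t + m + 1) * s ≤ D) :
    ((SV col Q R w t m i₀ D (ms t i + 1)).card : ℝ) ≤
      (SV col Q R w t m i₀ D (ms t i)).card * (1 - D / (2 * Fintype.card V)) +
        er Q R a s * (Om Q R m).card := by
  classical
  have hmsi : ms t i = i + t := by unfold ms; rw [if_neg (by omega)]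
  have hms0 : ms t i₀ = 2 * i₀ := by unfold ms; rw [if_pos hi₀]
  have hlt : ms t i₀ + 1 < ms t i := by omega
  have him : (i : ℕ) < m := i.2
  -- the colours of the moves
  have hmv : ∀ o ∈ Om Q R m, ∀ j, ∀ e ∈ ce Q, col e ≠ (mw w t o j).1 := by
    intro o ho j e he
    rw [mem_Om] at ho
    have hext : ∀ j', col e ≠ (ext w m o.2 j').1 := by
      intro j'
      unfold ext
      by_cases hj' : j' < m
      · rw [dif_pos hj']
        intro h
        exact hRQ e he (h ▸ ho.2 ⟨j', hj'⟩)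
      · rw [dif_neg hj']
        exact hw 0 e he
    unfold mw mvs
    by_cases h1 : j < 2 * t
    · rw [if_pos h1]
      by_cases h2 : j % 2 = 0
      · rw [if_pos h2]; exact hext _
      · rw [if_neg h2]; exact hw _ e he
    · rw [if_neg h1]; exact hext _
  set K : (V × Bool) × (Fin m → κ × Bool) → Finset ℕ := fun o =>
    (clI Q s).filter (fun q => ∀ v ∈ Q, clq Q s v = q →
      v ∈ cyc col Q (mw w t o) o.1.1 o.1.2 (ms t i₀ + 1)) with hKdef
  have hK : ∀ o q, K (upd o i q) = K o := by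
    intro o q
    have hc : cyc col Q (mw w t (upd o i q)) o.1.1 o.1.2 (ms t i₀ + 1) =
        cyc col Q (mw w t o) o.1.1 o.1.2 (ms t i₀ + 1) :=
      cyc_congr col Q _ _ _ _ _ (fun i' hi' => mw_upd w t o i q i' (by omega))
    simp only [hKdef]
    have h1 : (upd o i q).1 = o.1 := rfl
    rw [h1, hc]
  have hM : ∀ o ∈ Om Q R m, GSvA_H col Q w t m i₀ D (ms t i) o →
      (D + 1) / 2 ≤ (Q.toFinset.filter (fun y => clq Q s y ∈ K o)).card := by
    intro o ho hH
    have h1 := inner_cyc col Q hQ h3 (mw w t o) (hmv o ho) o.1.1 o.1.2 (ms t i) hH.1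
      (cyc col Q (mw w t o) o.1.1 o.1.2 (ms t i₀ + 1)) (hH.2.2.2 (ms t i) hlt le_rfl) s hs
    have h2 := hH.2.2.1
    have h3' : (ms t i + 1) * s ≤ (t + m) * s := Nat.mul_le_mul_right s (by omega)
    have h4 : 2 * (t + m) * s ≤ D := by nlinarith
    have h5 : 2 * ((t + m) * s) ≤ D := by linarith [mul_assoc 2 (t + m) s]
    have h6 : (cyc col Q (mw w t o) o.1.1 o.1.2 (ms t i₀ + 1)).length ≤
        (Q.toFinset.filter (fun y => clq Q s y ∈ K o)).card + (t + m) * s := by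
      refine le_trans h1 ?_
      exact Nat.add_le_add_left h3' _
    omega
  have hge := hit_ge col hcol Q hQ h3 R hR1 hRn a ha hR w t m i s ((D + 1) / 2) hs
    (GSvA_H col Q w t m i₀ D (ms t i)) K (fun o q => GSvA_hH col Q w t m i₀ D i hlt o q) hK
    (fun o => Finset.filter_subset _ _) hM
  have hSV : (Om Q R m).filter (fun o => GSvA_H col Q w t m i₀ D (ms t i) o) =
      SV col Q R w t m i₀ D (ms t i) := by
    ext o
    rw [GSvA_mem, Finset.mem_filter]
  set Bd := (Om Q R m).filter (fun o => GSvA_H col Q w t m i₀ D (ms t i) o ∧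
      yy col Q (mw w t o) o.1.1 (ms t i) ≠ zz col Q (mw w t o) o.1.1 (ms t i) ∧
      yy col Q (mw w t o) o.1.1 (ms t i) ∈ Q ∧
      clq Q s (yy col Q (mw w t o) o.1.1 (ms t i)) ∈ K o) with hBd
  have hsub1 : SV col Q R w t m i₀ D (ms t i + 1) ⊆ SV col Q R w t m i₀ D (ms t i) := by
    intro o ho
    rw [GSvA_mem] at ho ⊢
    refine ⟨ho.1, Alv_mono col Q _ _ _ _ _ (Nat.le_succ _) ho.2.1, ho.2.2.1, ho.2.2.2.1, ?_⟩
    intro j' h1 h2
    exact ho.2.2.2.2 j' h1 (by omega)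
  have hsub2 : Bd ⊆ SV col Q R w t m i₀ D (ms t i) := by
    intro o ho
    rw [hBd, Finset.mem_filter] at ho
    rw [GSvA_mem]
    exact ⟨ho.1, ho.2.1⟩
  have hdisj : Disjoint (SV col Q R w t m i₀ D (ms t i + 1)) Bd := by
    rw [Finset.disjoint_left]
    intro o ho hb
    rw [GSvA_mem] at ho
    rw [hBd, Finset.mem_filter] at hb
    have hp := cyc_persist col Q hQ h3 (mw w t o) (hmv o ho.1) o.1.1 o.1.2 (ms t i + 1) (ms t i)
      (Nat.lt_succ_self _) ho.2.1 (cyc col Q (mw w t o) o.1.1 o.1.2 (ms t i₀ + 1))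
      (ho.2.2.2.2 (ms t i) hlt (Nat.le_succ _)) (ho.2.2.2.2 (ms t i + 1) (by omega) le_rfl)
    apply hp
    have hk := hb.2.2.2.2
    simp only [hKdef] at hk
    rw [Finset.mem_filter] at hk
    exact hk.2 _ hb.2.2.2.1 rfl
  have hcard : (SV col Q R w t m i₀ D (ms t i + 1)).card + Bd.card ≤
      (SV col Q R w t m i₀ D (ms t i)).card := by
    rw [← Finset.card_union_of_disjoint hdisj]
    exact Finset.card_le_card (Finset.union_subset hsub1 hsub2)
  have hcardR : ((SV col Q R w t m i₀ D (ms t i + 1)).card : ℝ) + (Bd.card : ℝ) ≤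
      ((SV col Q R w t m i₀ D (ms t i)).card : ℝ) := by exact_mod_cast hcard
  rw [hSV] at hge
  have hM2 : (D : ℝ) / (2 * Fintype.card V) ≤ (((D + 1) / 2 : ℕ) : ℝ) / Fintype.card V := by
    rw [← div_div]
    apply div_le_div_of_nonneg_right _ (Nat.cast_nonneg _)
    have : D ≤ 2 * ((D + 1) / 2) := by omega
    have h' : (D : ℝ) ≤ 2 * (((D + 1) / 2 : ℕ) : ℝ) := by exact_mod_cast this
    linarith
  have hnn : (0 : ℝ) ≤ ((SV col Q R w t m i₀ D (ms t i)).card : ℝ) := Nat.cast_nonneg _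
  have := mul_le_mul_of_nonneg_right hM2 hnn
  nlinarith

end Pool.Agent.W_cd7020_h81b
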