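import Pool.Agent.W_cd7020_h81b.GInB

/-!
# The beginning of the path
-/

set_option autoImplicit false

namespace Pool.Agent.W_cd7020_h81b

open Finset Pool.Agent.W_cd7020_h81

variable {V κ : Type*} [DecidableEq V] [DecidableEq κ] [Fintype V]

omit [Fintype V] in
/-- the vertices of a cyclic pair are in the list -/
theorem GWkA_mem_ce (C : List V) (e : Sym2 V) (he : e ∈ ce C) (v : V) (hv : v ∈ e) : v ∈ C := by
  have h := Pe_mem _ e he v hv
  rw [List.mem_append] at h
  rcases h with h | h
  · exact h
  · exact List.mem_of_mem_take h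

omit [Fintype V] in
theorem GWkA_iter_mem (Q : List V) (σ : Bool) (z : V) (hz : z ∈ Q) (l : ℕ) :
    (fun v => nb Q v σ)^[l] z ∈ Q := by
  induction l with
  | zero => exact hz
  | succ l ih =>
    rw [Function.iterate_succ_apply']
    exact (nb_mem Q _ σ).2 ih

/-- If the edges `s(nb^l z σ, nb^(l+1) z σ)`, `l < D`, are not removed, where `z` is the first vertex
of the path, then the path starts with `z, nb z σ, nb^2 z σ, ...` (up to the number `D`). Induction
on `l`: the edge from the vertex number `l` to `nb^(l+1) z σ` is a pair of the path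
(`GInv.ae`, cycles are disjoint from the path), and it is not the pair with the vertex number
`l - 1`, which is `nb^(l-1) z σ ≠ nb^(l+1) z σ` (`nb_ne_nb`). -/
theorem walk_clean (col : Sym2 V → κ) (Q : List V) (hQ : Q.Nodup) (h3 : 3 ≤ Q.length)
    (mv : ℕ → κ × Bool) (z₀ : V) (τ : Bool) (j : ℕ) (hI : GInv col Q mv z₀ τ j)
    (σ : Bool) (D : ℕ)
    (hcl : ∀ l < D, ∀ i ≤ j,
      s((fun v => nb Q v σ)^[l] (zz col Q mv z₀ j),
        (fun v => nb Q v σ)^[l + 1] (zz col Q mv z₀ j)) ≠ ed col Q mv z₀ τ i)
    (hz : zz col Q mv z₀ j ∈ Q) (l : ℕ) (hl : l ≤ D) :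
    (sta col Q mv z₀ τ j).p[l]? = some ((fun v => nb Q v σ)^[l] (zz col Q mv z₀ j)) := by
  set z := zz col Q mv z₀ j with hzdef
  set p := (sta col Q mv z₀ τ j).p with hp
  set cs := (sta col Q mv z₀ τ j).cs with hcs
  have hnd : (p ++ cs.flatten).Nodup := (hI.perm.nodup_iff).2 hQ
  have hpn : p.Nodup := (List.nodup_append.1 hnd).1
  induction l using Nat.strong_induction_on with
  | _ l ih =>
    cases l with
    | zero =>
      have h := hI.head
      rw [← hp, ← hzdef, List.head?_eq_getElem?] at h
      exact h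
    | succ l =>
      have h0 := ih l (Nat.lt_succ_self l) (by omega)
      set u := (fun v => nb Q v σ)^[l] z with hu
      have huQ : u ∈ Q := GWkA_iter_mem Q σ z hz l
      have hv : (fun v => nb Q v σ)^[l + 1] z = nb Q u σ := by
        rw [Function.iterate_succ_apply']
      have hne := hcl l (by omega)
      rw [hv] at hne ⊢
      have hce : s(u, nb Q u σ) ∈ ce Q := nb_ce Q hQ u huQ σ
      have hae : s(u, nb Q u σ) ∈ ae (sta col Q mv z₀ τ j) := (hI.ae _).2 (Or.inl ⟨hce, hne⟩)
      have hup : u ∈ p := List.mem_of_getElem? h0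
      unfold ae at hae
      rw [List.mem_append, ← hp, ← hcs] at hae
      rcases hae with h1 | h1
      · rw [mem_pe_iff] at h1
        obtain ⟨m, hm, he⟩ := h1
        obtain ⟨hl1, hl2⟩ := List.getElem?_eq_some_iff.1 h0
        rw [Sym2.eq_iff] at he
        rcases he with ⟨h4, h5⟩ | ⟨h4, h5⟩
        · have h6 : m = l := (hpn.getElem_inj_iff).1 (h4.symm.trans hl2.symm)
          subst h6
          rw [List.getElem?_eq_some_iff]
          exact ⟨hm, h5.symm⟩
        · have h6 : m + 1 = l := (hpn.getElem_inj_iff).1 (h4.symm.trans hl2.symm)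
          subst h6
          exfalso
          have h7 := ih m (by omega) (by omega)
          obtain ⟨hl3, hl4⟩ := List.getElem?_eq_some_iff.1 h7
          have hw : (fun v => nb Q v σ)^[m] z = nb Q u σ := hl4.symm.trans h5.symm
          have hu2 : u = nb Q ((fun v => nb Q v σ)^[m] z) σ := by
            rw [hu, Function.iterate_succ_apply']
          have h8 : nb Q u (!σ) = (fun v => nb Q v σ)^[m] z := by
            rw [hu2]
            exact nb_nb Q _ σ
          exact nb_ne_nb Q hQ h3 u huQ σ (hw.symm.trans h8.symm)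
      · exfalso
        rw [List.mem_flatMap] at h1
        obtain ⟨C, hC, heC⟩ := h1
        have huC : u ∈ C := GWkA_mem_ce C _ heC u (Sym2.mem_mk_left _ _)
        have huf : u ∈ cs.flatten := List.mem_flatten.2 ⟨C, hC, huC⟩
        exact (List.disjoint_of_nodup_append hnd) hup huf

end Pool.Agent.W_cd7020_h81b
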