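import Pool.Agent.W_cd7020_h81b.GWkA
import Pool.Agent.W_cd7020_h81b.GInC

/-!
# The second moves
-/

set_option autoImplicit false

namespace Pool.Agent.W_cd7020_h81b

open Finset Pool.Agent.W_cd7020_h81

variable {V κ : Type*} [DecidableEq V] [DecidableEq κ] [Fintype V]

omit [Fintype V] in
/-- positions of the iterated neighbours -/
theorem GWkB_idx (Q : List V) (hQ : Q.Nodup) (h3 : 3 ≤ Q.length) (y : V) (hy : y ∈ Q) (σ : Bool)
    (k : ℕ) (hk : 1 ≤ k) (hk' : k < Q.length) : (fun v => nb Q v σ)^[k] y ≠ y := by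
  have hpos : 0 < Q.length := by omega
  have hmem : ∀ l, (fun v => nb Q v σ)^[l] y ∈ Q := fun l => GWkA_iter_mem Q σ y hy l
  cases σ with
  | true =>
    have h1 : ∀ l, Q.idxOf ((fun v => nb Q v true)^[l] y) = (Q.idxOf y + l) % Q.length := by
      intro l
      induction l with
      | zero =>
        simp only [Function.iterate_zero, id_eq, Nat.add_zero]
        exact (Nat.mod_eq_of_lt (List.idxOf_lt_length_iff.2 hy)).symm
      | succ l ih =>
        rw [Function.iterate_succ_apply']
        change Q.idxOf (nb Q ((fun v => nb Q v true)^[l] y) true) = _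
        rw [nb_true_idx Q hQ _ (hmem l), ih, Nat.mod_add_mod, Nat.add_assoc]
    intro h
    have h2 := h1 k
    rw [h] at h2
    have h4 : Q.idxOf y < Q.length := List.idxOf_lt_length_iff.2 hy
    by_cases h5 : Q.idxOf y + k < Q.length
    · rw [Nat.mod_eq_of_lt h5] at h2
      omega
    · have h6 : (Q.idxOf y + k) % Q.length = Q.idxOf y + k - Q.length := by
        rw [Nat.mod_eq_sub_mod (by omega), Nat.mod_eq_of_lt (by omega)]
      omega
  | false =>
    have h1 : ∀ l, l ≤ Q.length →
        Q.idxOf ((fun v => nb Q v false)^[l] y) = (Q.idxOf y + Q.length - l) % Q.length := by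
      intro l
      induction l with
      | zero =>
        intro _
        simp only [Function.iterate_zero, id_eq, Nat.sub_zero, Nat.add_mod_right]
        exact (Nat.mod_eq_of_lt (List.idxOf_lt_length_iff.2 hy)).symm
      | succ l ih =>
        intro hl
        rw [Function.iterate_succ_apply']
        change Q.idxOf (nb Q ((fun v => nb Q v false)^[l] y) false) = _
        rw [nb_false_idx Q hQ _ (hmem l), ih (by omega)]
        have h4 : Q.idxOf y < Q.length := List.idxOf_lt_length_iff.2 hy
        by_cases h5 : Q.idxOf y < l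
        · rw [Nat.mod_eq_of_lt (by omega : Q.idxOf y + Q.length - l < Q.length)]
          rw [Nat.mod_eq_sub_mod (by omega), Nat.mod_eq_of_lt (by omega),
            Nat.mod_eq_of_lt (by omega)]
          omega
        · have h6 : (Q.idxOf y + Q.length - l) % Q.length = Q.idxOf y - l := by
            rw [Nat.mod_eq_sub_mod (by omega), Nat.mod_eq_of_lt (by omega)]
            omega
          rw [h6]
          congr 1
          omega
    intro h
    have h2 := h1 k (by omega)
    rw [h] at h2
    have h4 : Q.idxOf y < Q.length := List.idxOf_lt_length_iff.2 hy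
    by_cases h5 : Q.idxOf y < k
    · rw [Nat.mod_eq_of_lt (by omega)] at h2
      omega
    · have h6 : (Q.idxOf y + Q.length - k) % Q.length = Q.idxOf y - k := by
        rw [Nat.mod_eq_sub_mod (by omega), Nat.mod_eq_of_lt (by omega)]
        omega
      omega

/-- A second move (side opposite to the side `σ` of the move before) splits off a short cycle only
if an edge removed before both moves is near `y = yy j`. Here `j` is the number of the first of the
two moves, `(mv j).2 = σ`, `(mv (j + 1)).2 = !σ`.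

Let `z = zz (j + 1) = nb y σ`. If no edge `s(nb^l z σ, nb^(l+1) z σ)`, `l < D`, is one of the
`ed i`, `i ≤ j + 1`, then `walk_clean` (at `j + 1`) shows that the vertices number `0, ..., D` of the
path are `nb^l z σ`. In the split `A ++ y' :: x' :: B` with `A.length + 1 ≤ D` we would have
`x' = nb y' σ`, but `x' = zz (j + 2) = nb y' (!σ)`; contradiction to `nb_ne_nb`.
So there is such an edge `ed i`. It is not `ed (j + 1) = s(y, z)` because `l + 2 < Q.length`
(positions). So `i ≤ j`, and its end `nb^l z σ = nb^(l+1) y σ` is the required vertex. -/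
theorem short_near (col : Sym2 V → κ) (Q : List V) (hQ : Q.Nodup) (h3 : 3 ≤ Q.length)
    (mv : ℕ → κ × Bool) (hmv : ∀ j, ∀ e ∈ ce Q, col e ≠ (mv j).1) (z₀ : V) (τ : Bool) (j : ℕ)
    (h : Alv col Q mv z₀ τ (j + 1)) (hσ : (mv (j + 1)).2 = !(mv j).2) (D : ℕ)
    (hD : D + 2 < Q.length) (hsp : SplitAt col Q mv z₀ τ (j + 1))
    (hlen : (cyc col Q mv z₀ τ (j + 1)).length ≤ D) :
    ∃ k ≤ D, ∃ i ≤ j, (fun v => nb Q v (mv j).2)^[k] (yy col Q mv z₀ j) ∈ ed col Q mv z₀ τ i := by
  have hI := inv_all col Q hQ h3 mv hmv z₀ τ (j + 1) (j + 1) le_rfl h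
  have hyQ : yy col Q mv z₀ j ∈ Q := h.mem j (Nat.lt_succ_self j)
  have hzQ : zz col Q mv z₀ (j + 1) ∈ Q := zz_mem col Q mv z₀ τ (j + 1) (j + 1) le_rfl h
  have hz : zz col Q mv z₀ (j + 1) = nb Q (yy col Q mv z₀ j) (mv j).2 := rfl
  have hit : ∀ l, (fun v => nb Q v (mv j).2)^[l] (zz col Q mv z₀ (j + 1)) =
      (fun v => nb Q v (mv j).2)^[l + 1] (yy col Q mv z₀ j) := by
    intro l
    rw [Function.iterate_succ_apply, hz]
  by_contra hno
  push Not at hno
  have hcl : ∀ l < D, ∀ i ≤ j + 1,
      s((fun v => nb Q v (mv j).2)^[l] (zz col Q mv z₀ (j + 1)),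
        (fun v => nb Q v (mv j).2)^[l + 1] (zz col Q mv z₀ (j + 1))) ≠ ed col Q mv z₀ τ i := by
    intro l hl i hi he
    rcases Nat.lt_or_ge i (j + 1) with hij | hij
    · refine hno (l + 1) (by omega) i (by omega) ?_
      rw [← he, ← hit]
      exact Sym2.mem_mk_left _ _
    · have hi' : i = j + 1 := le_antisymm hi hij
      subst hi'
      have hed : ed col Q mv z₀ τ (j + 1) =
          s(yy col Q mv z₀ j, zz col Q mv z₀ (j + 1)) := rfl
      rw [hed] at he
      have h5 : yy col Q mv z₀ j ∈ s((fun v => nb Q v (mv j).2)^[l] (zz col Q mv z₀ (j + 1)),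
        (fun v => nb Q v (mv j).2)^[l + 1] (zz col Q mv z₀ (j + 1))) := by
        rw [he]
        exact Sym2.mem_mk_left _ _
      rw [Sym2.mem_iff, hit, hit] at h5
      rcases h5 with h5 | h5
      · exact GWkB_idx Q hQ h3 _ hyQ _ (l + 1) (by omega) (by omega) h5.symm
      · exact GWkB_idx Q hQ h3 _ hyQ _ (l + 1 + 1) (by omega) (by omega) h5.symm
  obtain ⟨A, B, hA, hp⟩ := hsp
  have hcy := cyc_split col Q hQ h3 mv hmv z₀ τ (j + 1) (j + 1) le_rfl h A B hp
  rw [hcy, List.length_append, List.length_singleton] at hlen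
  have h1 := walk_clean col Q hQ h3 mv z₀ τ (j + 1) hI (mv j).2 D hcl hzQ A.length (by omega)
  have h2 := walk_clean col Q hQ h3 mv z₀ τ (j + 1) hI (mv j).2 D hcl hzQ (A.length + 1)
    (by omega)
  rw [hp] at h1 h2
  have h4 : (A ++ yy col Q mv z₀ (j + 1) :: zz col Q mv z₀ (j + 1 + 1) :: B)[A.length]? =
      some (yy col Q mv z₀ (j + 1)) := by simp
  have h5 : (A ++ yy col Q mv z₀ (j + 1) :: zz col Q mv z₀ (j + 1 + 1) :: B)[A.length + 1]? =
      some (zz col Q mv z₀ (j + 1 + 1)) := by
    rw [List.getElem?_append_right (by omega)]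
    simp
  rw [h4] at h1
  rw [h5] at h2
  have h6 := Option.some.inj h1
  have h7 := Option.some.inj h2
  rw [Function.iterate_succ_apply', ← h6] at h7
  have h8 : zz col Q mv z₀ (j + 1 + 1) = nb Q (yy col Q mv z₀ (j + 1)) (mv (j + 1)).2 := rfl
  rw [h8, hσ] at h7
  have hy1 : yy col Q mv z₀ (j + 1) ∈ Q := by
    rw [h6]
    exact GWkA_iter_mem Q _ _ hzQ _
  exact nb_ne_nb Q hQ h3 _ hy1 (mv j).2 h7.symm

end Pool.Agent.W_cd7020_h81b
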