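import Pool.Agent.W_cd7020_h81b.Fin81

/-!
# The hand-in statement
-/

set_option autoImplicit false

namespace Pool.Agent.W_cd7020_h81b

open Finset Pool.Agent.W_cd7020_h81

/-- `par col k x = x` says that `x` has no edge of colour `k`. -/
theorem par_self_iff {V κ : Type*} [DecidableEq V] [DecidableEq κ] [Fintype V]
    (col : Sym2 V → κ) (k : κ) (x : V) :
    par col k x = x ↔ ∀ y, y ≠ x → col s(x, y) ≠ k := by
  constructor
  · intro h y hy hk
    unfold par at h
    rw [dif_pos ⟨y, hy, hk⟩] at h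
    exact (Exists.choose_spec (⟨y, hy, hk⟩ : ∃ y, y ≠ x ∧ col s(x, y) = k)).1 h
  · intro h
    unfold par
    rw [dif_neg]
    rintro ⟨y, hy, hk⟩
    exact h y hy hk

/-- The final statement. -/
theorem hand (n : ℕ) (h3 : 3 ≤ n) (c : Sym2 (Fin n) → ℕ)
    (hc : ∀ a b d : Fin n, a ≠ b → a ≠ d → b ≠ d → c s(a, b) ≠ c s(a, d)) (S : Finset ℕ)
    (hn : (Nat.clog 2 n) ^ 400 ≤ n) (hS : n ≤ S.card + 1)
    (hSc : ∀ k ∈ S, (univ.filter (fun x : Fin n => ∀ y, y ≠ x → c s(x, y) ≠ k)).card *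
      (Nat.clog 2 n) ^ 177 ≤ n)
    (hSv : ∀ x : Fin n, (S.filter (fun k => ∀ y, y ≠ x → c s(x, y) ≠ k)).card *
      (Nat.clog 2 n) ^ 177 ≤ n) :
    ∃ (u v : Fin n) (w : (⊤ : SimpleGraph (Fin n)).Walk u v), w.IsPath ∧ u ≠ v ∧
      ((s(u, v) :: w.edges).map c).Nodup ∧ (∀ e ∈ s(u, v) :: w.edges, c e ∈ S) ∧
      (w.IsHamiltonian ∨ S.card < w.support.length + (Nat.clog 2 n) ^ 207) := by
  have hcard : Fintype.card (Fin n) = n := Fintype.card_fin n
  have hL2 : 2 ≤ Nat.clog 2 n := by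
    by_contra hcon
    have h4 : n ≤ 2 ^ Nat.clog 2 n := Nat.le_pow_clog (by norm_num) n
    have h5 : 2 ^ Nat.clog 2 n ≤ 2 ^ 1 := Nat.pow_le_pow_right (by norm_num) (by omega)
    omega
  have hnL : n ≤ 2 ^ Nat.clog 2 n := Nat.le_pow_clog (by norm_num) n
  have hpos : 0 < (Nat.clog 2 n) ^ 177 := Nat.pow_pos (by omega)
  have hQ : GoodQ c S (n / (Nat.clog 2 n) ^ 177) := by
    refine ⟨?_, ?_, ?_, ?_⟩
    · intro x y z h1 h2 h4
      exact hc x y z h1 h2 h4
    · intro k hk
      rw [Nat.le_div_iff_mul_le hpos]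
      refine le_trans (le_of_eq ?_) (hSc k hk)
      congr 2
      ext x
      simp only [mem_filter, mem_univ, true_and]
      exact par_self_iff c k x
    · intro x
      rw [Nat.le_div_iff_mul_le hpos]
      refine le_trans (le_of_eq ?_) (hSv x)
      congr 2
      ext k
      simp only [mem_filter]
      rw [par_self_iff c k x]
    · rw [hcard]
      exact hS
  obtain ⟨U, E, h4, h5, h6, h7, h8, h9⟩ := main c S (Nat.clog 2 n)
    (n / (Nat.clog 2 n) ^ 177) hL2 (by rw [hcard]; exact hnL) (by rw [hcard]; exact hn)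
    (by rw [hcard]; exact Nat.div_mul_le_self n _) hQ
  obtain ⟨x, y, p, h10, h11, h12, h13, h14⟩ := walk_of c U E h4 h5 h8 h6
  refine ⟨x, y, p, h10, h11, h13, ?_, ?_⟩
  · intro e he
    exact h7 (mem_image_of_mem _ (h14 e he))
  · have hlen : p.support.length = U.card := by
      have h15 : p.support.toFinset = U := by
        ext z
        rw [List.mem_toFinset]
        exact h12 z
      rw [← h15, List.toFinset_card_of_nodup h10.support_nodup]
    rcases h9 with h9 | h9
    · left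
      intro z
      rw [List.count_eq_one_of_mem h10.support_nodup ((h12 z).2 (h9 ▸ mem_univ z))]
    · right
      rw [hlen]
      exact h9

end Pool.Agent.W_cd7020_h81b
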