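import Pool.Agent.W_cd7020_h81b.InA
import Pool.Agent.W_cd7020_h81b.CloM
import Pool.Agent.W_cd7020_h81b.Par
import Pool.Agent.W_cd7020_h81.Few

/-!
# The initial state
-/

set_option autoImplicit false

namespace Pool.Agent.W_cd7020_h81b

open Finset Pool.Agent.W_cd7020_h81

variable {V κ : Type*} [DecidableEq V] [DecidableEq κ] [Fintype V]

/-- At most `|S|` edges at `x` have a colour in `S`. -/
theorem InB_deg (col : Sym2 V → κ) (hcol : Proper col) (S : Finset κ) (x : V) :
    ((univ : Finset V).filter (fun w => w ≠ x ∧ col s(x, w) ∈ S)).card ≤ S.card := by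
  rw [par_count col hcol S x univ]
  exact Finset.card_filter_le _ _

/-- At most `μ` edges at `x` have a colour outside `Q`. -/
theorem InB_out (col : Sym2 V → κ) (Q : Finset κ) (μ : ℕ) (hQ : GoodQ col Q μ) (x : V) :
    ((univ : Finset V).filter (fun w => w ≠ x ∧ col s(x, w) ∉ Q)).card ≤ μ := by
  have h1 := par_count col hQ.proper Q x univ
  have h2 : (Q.filter (fun k => par col k x ≠ x ∧ par col k x ∈ (univ : Finset V))).card +
      (Q.filter (fun k => par col k x = x)).card = Q.card := by
    have h3 := Finset.card_filter_add_card_filter_not (s := Q) (fun k => par col k x = x)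
    have h4 : (Q.filter (fun k => par col k x ≠ x ∧ par col k x ∈ (univ : Finset V))) =
        (Q.filter (fun k => ¬ par col k x = x)) := by
      ext k
      simp
    rw [h4]
    omega
  have h5 := hQ.missv x
  have h6 := hQ.large
  have h7 : ((univ : Finset V).filter (fun w => w ≠ x ∧ col s(x, w) ∈ Q)).card +
      ((univ : Finset V).filter (fun w => w ≠ x ∧ col s(x, w) ∉ Q)).card =
      ((univ : Finset V).filter (fun w => w ≠ x)).card := by
    rw [← Finset.card_union_of_disjoint]
    · congr 1
      ext w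
      simp only [Finset.mem_union, Finset.mem_filter, Finset.mem_univ, true_and]
      tauto
    · rw [Finset.disjoint_left]
      intro w hw hw'
      simp only [Finset.mem_filter, Finset.mem_univ, true_and] at hw hw'
      exact hw'.2 hw.2
  have h8 : ((univ : Finset V).filter (fun w => w ≠ x)).card + 1 = Fintype.card V := by
    rw [Finset.filter_ne' univ x, Finset.card_erase_of_mem (Finset.mem_univ x), Finset.card_univ]
    have : 0 < Fintype.card V := Fintype.card_pos_iff.2 ⟨x⟩
    omega
  omega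

/-- The initial state. `few` with `A = ∅`, `Sat = ∅`, `Φ` = (the colours not in `Q`) and the pools,
`h = μ + kA + 5 kB`, `b = 142 J`. For every `x` at most `μ` edges at `x` have a colour outside `Q`
(`n - 1 - #{k ∈ Q | par k x ≠ x}`, `missv`, `large`), and every pool colour gives at most one edge.
Then `close_many` with `G = ∅`, `C = 0`, `q = |U| - |F| ≤ a ≤ M T`. -/
theorem init_state (col : Sym2 V → κ) (Q : Finset κ) (P : Prm (Fintype.card V)) (a : ℕ)
    (hI : IPrm P a) (hQ : GoodQ col Q P.μ) (V' : Finset V) (hV' : V'.card = P.v) :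
    ∃ U E R B, State col Q V' P U E R B := by
  obtain ⟨R, B, hRQ, hRc, hRn, hBP, hRB⟩ := init_pools col Q P a hI hQ V' hV'
  let Z : Finset κ := R ∪ univ.biUnion B
  let Φ : Finset κ := ((univ : Finset (Sym2 V)).image col \ Q) ∪ Z
  have hZc : Z.card ≤ P.kA + 5 * P.kB := by
    refine (Finset.card_union_le _ _).trans ?_
    have h1 : (univ.biUnion B).card ≤ ∑ i : Fin 5, (B i).card := Finset.card_biUnion_le
    have h2 : ∑ i : Fin 5, (B i).card = 5 * P.kB := by
      simp only [hBP.card, Finset.sum_const, Finset.card_univ, Fintype.card_fin, smul_eq_mul]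
    omega
  have hA : Valid col ∅ Φ (univ \ V') ∅ := by
    refine ⟨⟨(univ \ V').toList, Finset.nodup_toList _, fun v => Finset.mem_toList, ?_⟩,
      Finset.Subset.refl _, ?_, ?_⟩
    · intro e he
      exact absurd he (Finset.notMem_empty e)
    · intro e he
      exact absurd he (Finset.notMem_empty e)
    · intro e he
      exact absurd he (Finset.notMem_empty e)
  have hSat : ∀ x, x ∉ (∅ : Finset V) →
      (univ.filter (fun w => w ≠ x ∧ col s(x, w) ∈ Φ)).card ≤ P.μ + (P.kA + 5 * P.kB) := by
    intro x _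
    have h1 : (univ.filter (fun w => w ≠ x ∧ col s(x, w) ∈ Φ)) ⊆
        (univ.filter (fun w => w ≠ x ∧ col s(x, w) ∉ Q)) ∪
        (univ.filter (fun w => w ≠ x ∧ col s(x, w) ∈ Z)) := by
      intro w hw
      rw [Finset.mem_filter] at hw
      rw [Finset.mem_union, Finset.mem_filter, Finset.mem_filter]
      obtain ⟨hw1, hw2, hw3⟩ := hw
      rcases Finset.mem_union.1 hw3 with h | h
      · exact Or.inl ⟨hw1, hw2, (Finset.mem_sdiff.1 h).2⟩
      · exact Or.inr ⟨hw1, hw2, h⟩
    have h2 := (Finset.card_le_card h1).trans (Finset.card_union_le _ _)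
    have h3 := InB_out col Q P.μ hQ x
    have h4 := InB_deg col hQ.proper Z x
    omega
  obtain ⟨S, hSV, F, hF, hFc⟩ := few col hQ.proper ∅ Φ V' ∅ (P.μ + (P.kA + 5 * P.kB))
    (142 * P.J) P.v P.J a hA (fun y => by simp [dg]) (by simp) hV' hSat P.J1 rfl P.Jn hI.v43
    hI.av hI.a1 hI.hh (by simpa using hI.hT)
  obtain ⟨hF1, hF2, hF3, hF4⟩ := hF
  have hFle : F.card ≤ ((univ \ V') ∪ S).card := hF1.cyc.card_le
  have hFZ : ∀ e ∈ F, col e ∉ Z := fun e he h => hF4 e he (Finset.mem_union_right _ h)
  have hFQ : ∀ e ∈ F, col e ∈ Q := by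
    intro e he
    by_contra h
    exact hF4 e he (Finset.mem_union_left _ (Finset.mem_sdiff.2
      ⟨Finset.mem_image_of_mem _ (Finset.mem_univ _), h⟩))
  have hFB : ∀ i, ∀ e ∈ F, col e ∉ B i := fun i e he h =>
    hFZ e he (Finset.mem_union_right _ (Finset.mem_biUnion.2 ⟨i, Finset.mem_univ _, h⟩))
  have hFR : ∀ e ∈ F, col e ∉ R := fun e he h => hFZ e he (Finset.mem_union_left _ h)
  have hFc' : ((univ \ V') ∪ S).card ≤ F.card + a := by simpa using hFc
  have haM := hI.aM
  have haM' : a ≤ 45 * P.M * P.T + 3 := by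
    have h1 : P.M * P.T ≤ 45 * P.M * P.T := by
      rw [mul_assoc]
      exact Nat.le_mul_of_pos_left _ (by norm_num)
    omega
  obtain ⟨E', hE1, hE2, hE3, hE4, hE5⟩ := close_many col hQ.proper Q P V' hV'.le
    ((univ \ V') ∪ S) Finset.subset_union_left B hBP ∅ (((univ \ V') ∪ S).card - F.card) 0 F
    hF1.cyc (by omega) hF3 (fun i => by
      have h1 : B i ∩ (cE col F ∪ ∅) = ∅ := by
        rw [Finset.union_empty, Finset.eq_empty_iff_forall_notMem]
        intro k hk
        obtain ⟨hk1, hk2⟩ := Finset.mem_inter.1 hk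
        obtain ⟨e, he, rfl⟩ := Finset.mem_image.1 hk2
        exact hFB i e he hk1
      rw [h1]
      simp) (by omega)
  refine ⟨(univ \ V') ∪ S, E', R, B, ?_⟩
  refine ⟨Finset.subset_union_left, hE1, hE2, hE3, ?_, hRQ, hRc, hRn, ?_, hBP, hRB, ?_⟩
  · intro k hk
    obtain ⟨e, he, rfl⟩ := Finset.mem_image.1 hk
    rcases hE4 e he with h | ⟨i, h, _⟩
    · exact hFQ e h
    · exact hBP.sub i h
  · rw [Finset.disjoint_left]
    intro k hk hk'
    obtain ⟨e, he, rfl⟩ := Finset.mem_image.1 hk'
    rcases hE4 e he with h | ⟨i, h, _⟩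
    · exact hFR e h hk
    · exact (Finset.disjoint_left.1 (hRB i)) hk h
  · intro i
    have h1 := hE5 i
    rw [Finset.union_empty] at h1
    refine h1.trans (Nat.mul_le_mul_right _ ?_)
    omega

end Pool.Agent.W_cd7020_h81b
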