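import Pool.Agent.W_cd7020_h81b.MidA

/-!
# The group lemma in the current state
-/

set_option autoImplicit false

namespace Pool.Agent.W_cd7020_h81b

open Finset Pool.Agent.W_cd7020_h81

variable {V κ : Type*} [DecidableEq V] [DecidableEq κ] [Fintype V]

theorem MidB_U {V : Type*} [DecidableEq V] [Fintype V] (V' U : Finset V) (v : ℕ)
    (hV' : V'.card ≤ v) (h : univ \ V' ⊆ U) : Fintype.card V ≤ U.card + v := by
  have h1 := card_le_card h
  have h2 : (univ \ V').card + V'.card = Fintype.card V := by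
    rw [card_sdiff_add_card_eq_card (subset_univ _), card_univ]
  omega

theorem MidB_R {n : ℕ} (P : Prm n) (g r : ℕ) (hg : g < P.T) (hr : r + g * P.m = P.kA) :
    P.T * (P.t + 1 - 5 * P.u) ≤ r ∧ r ≤ n ∧ 1 ≤ P.t + 1 - 5 * P.u := by
  have h1 := P.tu
  have h2 := P.hAn
  have h3 := P.T1
  obtain ⟨d, hd⟩ : ∃ d, P.t = 5 * P.u + d := ⟨P.t - 5 * P.u, by omega⟩
  have e1 : P.t + 1 - 5 * P.u = d + 1 := by omega
  have e2 : P.r₀ = d + 1 + P.m := by
    unfold Prm.r₀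
    omega
  unfold Prm.kA at hr
  rw [e2] at hr
  rw [e1]
  obtain ⟨f, hf⟩ : ∃ f, P.T = g + f := ⟨P.T - g, by omega⟩
  refine ⟨?_, ?_, by omega⟩
  · have h4 : P.T * (d + 1 + P.m) = P.T * (d + 1) + g * P.m + f * P.m := by
      rw [hf]; ring
    omega
  · have h5 : P.T * (d + 1 + P.m) ≤ P.T * (P.t + P.m + 1) :=
      Nat.mul_le_mul_left _ (by omega)
    omega

theorem MidB_er (n u s : ℕ) (a r q e : ℝ) (hu : 0 < u) (hs : 1 ≤ s) (hun : u ≤ n) (hnu : n ≤ 2 * u)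
    (ha : 0 ≤ a) (hq : 0 < q) (hqr : q ≤ r)
    (h : (a + 1) / q * Real.sqrt (2 * ((n : ℝ) / s + 1)) ≤ e) :
    (a + 1) / r * Real.sqrt ((u / s + 1 : ℕ) * (n : ℝ) / u) ≤ e := by
  refine le_trans ?_ h
  have hu0 : (0 : ℝ) < u := by exact_mod_cast hu
  have hs0 : (0 : ℝ) < s := by exact_mod_cast hs
  have hn0 : (0 : ℝ) ≤ n := Nat.cast_nonneg n
  have hun' : (u : ℝ) ≤ n := by exact_mod_cast hun
  have hnu' : (n : ℝ) ≤ 2 * u := by exact_mod_cast hnu
  refine mul_le_mul ?_ (Real.sqrt_le_sqrt ?_) (Real.sqrt_nonneg _)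
    (div_nonneg (by linarith) hq.le)
  · exact div_le_div_of_nonneg_left (by linarith) hq hqr
  · have h1 : ((u / s : ℕ) : ℝ) ≤ (n : ℝ) / s := by
      refine (Nat.cast_div_le).trans ?_
      exact div_le_div_of_nonneg_right hun' hs0.le
    have h2 : ((u / s + 1 : ℕ) : ℝ) ≤ (n : ℝ) / s + 1 := by
      push_cast
      linarith
    rw [div_le_iff₀ hu0]
    have h3 : (0 : ℝ) ≤ (n : ℝ) / s + 1 := by positivity
    calc ((u / s + 1 : ℕ) : ℝ) * (n : ℝ) ≤ ((n : ℝ) / s + 1) * (2 * u) :=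
          mul_le_mul h2 hnu' hn0 h3
      _ = 2 * ((n : ℝ) / s + 1) * u := by ring

/-- The numerical hypotheses of `group` for the current state. `|R| = T r₀ - g m ≥ T (t + 1 - 5 u)`
as `g < T`; `|R| ≤ T r₀ ≤ n`; `n ≤ 2 |U|`, `|U| ≤ n`. -/
theorem mid_group (col : Sym2 V → κ) (Q : Finset κ) (P : Prm (Fintype.card V))
    (hQ : GoodQ col Q P.μ) (V' : Finset V) (hV' : V'.card ≤ P.v) (U : Finset V)
    (hV'U : univ \ V' ⊆ U) (B : Fin 5 → Finset κ) (g : ℕ) (hg : g < P.T)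
    (E : Finset (Sym2 V)) (R : Finset κ) (A : Fin 6 → Finset κ) (C : ℕ)
    (hM : Mid col Q V' P U B g E R A C) (w : ℕ → κ)
    (hwi : ∀ i < P.t, ∀ j < P.t, w i = w j → i = j) (hw : ∀ i, w i ∈ Q ∧
      w i ∉ cE col E ∧ w i ∉ R) :
    ∃ (Om al : Finset ((V × Bool) × (Fin P.m → κ × Bool)))
      (rel ub : (V × Bool) × (Fin P.m → κ × Bool) → ℕ → κ)
      (N : (V × Bool) × (Fin P.m → κ × Bool) → ℕ)
      (F : (V × Bool) × (Fin P.m → κ × Bool) → Finset (Sym2 V)),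
      Group col U E R w P.t P.m P.loss (P.M : ℝ) Om al rel ub N F := by
  have hUv := MidB_U V' U P.v hV' hV'U
  have hn3 := P.n3
  have hvn := P.vn
  have hnU : Fintype.card V ≤ 2 * U.card := by omega
  have hUn : U.card ≤ Fintype.card V := card_le_univ U
  have hU1 : 1 ≤ U.card := by omega
  obtain ⟨hR1, hRn, ht1⟩ := MidB_R P g R.card hg hM.Rcard
  have hT1 := P.T1
  have htu := P.tu
  have hU0 : (0 : ℝ) < (U.card : ℝ) := by exact_mod_cast hU1
  have hn0 : (0 : ℝ) < (Fintype.card V : ℝ) := by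
    have : 0 < Fintype.card V := by omega
    exact_mod_cast this
  have hnU' : (Fintype.card V : ℝ) ≤ 2 * U.card := by exact_mod_cast hnU
  have hUn' : (U.card : ℝ) ≤ Fintype.card V := by exact_mod_cast hUn
  have hq1 : 1 ≤ P.T * (P.t + 1 - 5 * P.u) := Nat.mul_pos hT1 ht1
  have hcast : ((P.T * (P.t + 1 - 5 * P.u) : ℕ) : ℝ) = P.T * (P.t + 1 - 5 * P.u) := by
    rw [Nat.cast_mul, Nat.cast_sub (by omega)]
    push_cast
    ring
  have hq0 : (0 : ℝ) < P.T * (P.t + 1 - 5 * P.u) := by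
    rw [← hcast]
    exact_mod_cast hq1
  have hqR : (P.T * (P.t + 1 - 5 * P.u) : ℝ) ≤ R.card := by
    rw [← hcast]
    exact_mod_cast hR1
  have hR0 : (0 : ℝ) < R.card := lt_of_lt_of_le hq0 hqR
  have ha : 0 ≤ P.a₁ := by
    unfold Prm.a₁
    refine div_nonneg (add_nonneg (Real.log_nonneg ?_) (mul_nonneg (Nat.cast_nonneg _) P.δ0))
      P.lam0.le
    have : (1 : ℝ) ≤ Fintype.card V := by
      have : 1 ≤ Fintype.card V := by omega
      exact_mod_cast this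
    linarith
  have hmiss : ∀ k ∈ Q, (univ.filter (fun x => par col k x = x)).card ≤ P.μ := hQ.missc
  refine group col hQ.proper U E hM.cyc hM.card (by omega) hM.rb R (by omega) hRn (2 * P.a₁)
    (by linarith) (mid_norm col Q P V' U B g hg.le E R A C hM) ?_ w ?_ P.t P.m P.μ P.v P.D₁ P.D₂
    P.s P.s₁ P.tm hwi (fun i => (hw i).2.2) (fun k hk => hmiss k (hM.Rsub hk))
    (fun i => hmiss _ (hw i).1) hUv P.D₂1 P.s1 P.s₁1 P.D₁s ?_ P.Ds P.loss P.M P.eS P.eS₁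
    ?_ ?_ ?_ ?_
  · intro e he h
    exact (disjoint_left.1 hM.RE h) (mem_image_of_mem col he)
  · intro i e he h
    exact (hw i).2.1 (h ▸ mem_image_of_mem col he)
  · have := P.D₁n
    omega
  · refine le_trans (add_le_add ?_ ?_) P.hloss
    · rw [div_le_div_iff₀ hU0 hn0]
      have h1 : (0 : ℝ) ≤ ((P.t : ℝ) + P.m) * (P.μ + P.v) := by positivity
      nlinarith
    · exact div_le_div_of_nonneg_left (by positivity) hq0 hqR
  · exact MidB_er _ _ _ _ _ _ _ (by omega) P.s1 hUn hnU (by linarith) hq0 hqR P.heS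
  · exact MidB_er _ _ _ _ _ _ _ (by omega) P.s₁1 hUn hnU (by linarith) hq0 hqR P.heS₁
  · refine le_trans ?_ P.hM
    have h1 : (U.card : ℝ) / P.D₂ ≤ (Fintype.card V : ℝ) / P.D₂ :=
      div_le_div_of_nonneg_right hUn' (Nat.cast_nonneg _)
    linarith

end Pool.Agent.W_cd7020_h81b
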