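import Pool.Agent.W_cd7020_h81b.ColB

/-!
# Independence of the next partner and the structure
-/

set_option autoImplicit false

namespace Pool.Agent.W_cd7020_h81b

open Finset Pool.Agent.W_cd7020_h81

variable {V κ : Type*} [DecidableEq V] [DecidableEq κ] [Fintype V]

theorem Ni_SM (col : Sym2 V → κ) (B : Finset κ) (x y : V) :
    SM col B x y = (if x ≠ y ∧ col s(x, y) ∈ B then 1 else 0) -
      (B.card : ℝ) / (Fintype.card V : ℝ) * (if x = y then 0 else 1) := by
  unfold SM
  rw [Matrix.sum_apply]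
  unfold YM
  rw [Finset.sum_sub_distrib]
  congr 1
  · by_cases hxy : x = y
    · simp [hxy]
    · simp only [ne_eq, hxy, not_false_eq_true, true_and]
      rw [Finset.sum_ite_eq]
  · rw [Finset.sum_const, nsmul_eq_mul]
    split_ifs with h
    · simp
    · ring

/-- the sum of a row of `SM` over a set -/
theorem Ni_row (col : Sym2 V → κ) (R : Finset κ) (x : V) (S : Finset V) :
    ∑ y ∈ S, SM col R x y =
      ((S.filter (fun y => y ≠ x ∧ col s(x, y) ∈ R)).card : ℝ) -
        (R.card : ℝ) / (Fintype.card V : ℝ) * (S.card : ℝ) +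
        (R.card : ℝ) / (Fintype.card V : ℝ) * (if x ∈ S then 1 else 0) := by
  have h1 : ∀ y, SM col R x y = (if y ≠ x ∧ col s(x, y) ∈ R then 1 else 0) -
      (R.card : ℝ) / (Fintype.card V : ℝ) +
      (if x = y then (R.card : ℝ) / (Fintype.card V : ℝ) else 0) := by
    intro y
    rw [Ni_SM]
    by_cases hxy : x = y
    · subst hxy
      simp
    · have hyx : y ≠ x := fun h => hxy h.symm
      simp [hxy, hyx]
  rw [Finset.sum_congr rfl fun y _ => h1 y, Finset.sum_add_distrib, Finset.sum_sub_distrib,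
    Finset.sum_boole, Finset.sum_const, nsmul_eq_mul, Finset.sum_ite_eq]
  split_ifs <;> ring

/-- one class -/
theorem Ni_class (col : Sym2 V → κ) (R : Finset κ) (a : ℝ) (hR : NB col R a)
    {Ω : Type*} (H : Finset Ω) (z : Ω → V) (S : Finset V) :
    |∑ h ∈ H, ∑ y ∈ S, SM col R (z h) y| ≤
      a * Real.sqrt (∑ x, ((H.filter (fun h => z h = x)).card : ℝ) ^ 2) *
        Real.sqrt S.card := by
  have h1 := hR (fun x => ((H.filter (fun h => z h = x)).card : ℝ))
    (fun y => if y ∈ S then 1 else 0)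
  have h2 : nr (fun y : V => if y ∈ S then (1 : ℝ) else 0) = Real.sqrt S.card := by
    unfold nr
    congr 1
    have : ∀ x : V, (if x ∈ S then (1 : ℝ) else 0) ^ 2 = if x ∈ S then 1 else 0 := by
      intro x; split_ifs <;> norm_num
    simp only [this]
    rw [Finset.sum_ite_mem, Finset.univ_inter, Finset.sum_const, nsmul_eq_mul, mul_one]
  have h3 : qf (SM col R) (fun x => ((H.filter (fun h => z h = x)).card : ℝ))
      (fun y => if y ∈ S then 1 else 0) = ∑ h ∈ H, ∑ y ∈ S, SM col R (z h) y := by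
    unfold qf
    have h4 : ∀ x : V, ∑ y, ((H.filter (fun h => z h = x)).card : ℝ) * SM col R x y *
        (if y ∈ S then (1 : ℝ) else 0) =
        ∑ h ∈ H, if z h = x then ∑ y ∈ S, SM col R x y else 0 := by
      intro x
      rw [← Finset.sum_filter, Finset.sum_const, nsmul_eq_mul, Finset.mul_sum]
      have h5 : ∀ y, ((H.filter (fun h => z h = x)).card : ℝ) * SM col R x y *
          (if y ∈ S then (1 : ℝ) else 0) =
          if y ∈ S then ((H.filter (fun h => z h = x)).card : ℝ) * SM col R x y else 0 := by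
        intro y
        split_ifs <;> simp
      rw [Finset.sum_congr rfl fun y _ => h5 y, Finset.sum_ite_mem, Finset.univ_inter]
    rw [Finset.sum_congr rfl fun x _ => h4 x, Finset.sum_comm]
    refine Finset.sum_congr rfl fun h _ => ?_
    rw [Finset.sum_ite_eq]
    simp
  rw [h2, h3] at h1
  exact h1

/-- `H` is a set of histories; the history `h` has the current vertex `z h` and a set `K h ⊆ I` of
classes; every vertex is the current vertex of at most `G` histories. Then the number of triples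
(history `h`, colour of `R`, vertex `y ∈ U` joined to `z h` in this colour with class in `K h`) is
almost `|R|/n` times the number of pairs (`h`, vertex `y ∈ U` with class in `K h`).

For `q ∈ I` let `u q x` be the number of `h ∈ H` with `z h = x` and `q ∈ K h`, and `g q` the indicator
function of the `y ∈ U` with class `q`. Then
`qf (SM R) (u q) (g q) = ∑ h with q ∈ K h, (#{y ∈ U | cl y = q, y ≠ z h, col s(z h, y) ∈ R} -
|R|/n #{y ∈ U | cl y = q, y ≠ z h})`. The sum over `q ∈ I` is the difference to be estimated up to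
`|R|/n |H| ≤ |H|`. Now `‖u q‖ ^ 2 ≤ G ∑ x, u q x ≤ G |H|`, `∑ q ∈ I, ‖g q‖ ≤ √(|I| n)` (the classes
are disjoint, Cauchy-Schwarz), and `|H| ≤ G n`, so `|H| ≤ √(G |H| |I| n)` if `I` is not empty. (If
`I` is empty the left side is `0`.) -/
theorem ni (col : Sym2 V → κ) (R : Finset κ) (a : ℝ) (ha : 0 ≤ a) (hR : NB col R a)
    (hRn : R.card ≤ Fintype.card V) {Ω ι : Type*} [DecidableEq Ω] [DecidableEq ι] (H : Finset Ω)
    (z : Ω → V) (U : Finset V) (cl : V → ι) (I : Finset ι) (K : Ω → Finset ι)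
    (hK : ∀ h ∈ H, K h ⊆ I) (G : ℝ)
    (hG : ∀ x, ((H.filter (fun h => z h = x)).card : ℝ) ≤ G) :
    |∑ h ∈ H, ((U.filter (fun y => cl y ∈ K h ∧ y ≠ z h ∧ col s(z h, y) ∈ R)).card : ℝ) -
      (R.card : ℝ) / (Fintype.card V : ℝ) *
        ∑ h ∈ H, ((U.filter (fun y => cl y ∈ K h)).card : ℝ)| ≤
    (a + 1) * Real.sqrt (G * H.card * I.card * Fintype.card V) := by
  rcases H.eq_empty_or_nonempty with rfl | hHne
  · simp
  obtain ⟨h₀, hh₀⟩ := hHne
  have hG0 : 0 ≤ G := (Nat.cast_nonneg _).trans (hG (z h₀))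
  have hn : 0 < Fintype.card V := Fintype.card_pos_iff.2 ⟨z h₀⟩
  set n : ℝ := (Fintype.card V : ℝ) with hndef
  have hn' : (0 : ℝ) < n := by rw [hndef]; exact_mod_cast hn
  set ρ : ℝ := (R.card : ℝ) / n with hρ
  have hρ0 : 0 ≤ ρ := div_nonneg (Nat.cast_nonneg _) hn'.le
  have hρ1 : ρ ≤ 1 := by
    rw [hρ, div_le_one hn', hndef]
    exact_mod_cast hRn
  rcases I.eq_empty_or_nonempty with rfl | hIne
  · have h1 : ∀ h ∈ H, K h = ∅ := fun h hh => Finset.subset_empty.1 (hK h hh)
    have h2 : ∑ h ∈ H, ((U.filter (fun y => cl y ∈ K h ∧ y ≠ z h ∧ col s(z h, y) ∈ R)).card : ℝ) =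
        0 := by
      refine Finset.sum_eq_zero fun h hh => ?_
      rw [h1 h hh]
      simp
    have h3 : ∑ h ∈ H, ((U.filter (fun y => cl y ∈ K h)).card : ℝ) = 0 := by
      refine Finset.sum_eq_zero fun h hh => ?_
      rw [h1 h hh]
      simp
    rw [h2, h3]
    simp
  have hI1 : (1 : ℝ) ≤ I.card := by exact_mod_cast hIne.card_pos
  -- the sums over the classes
  set S : ι → Finset V := fun q => U.filter (fun y => cl y = q) with hS
  set F : ι → ℝ := fun q => ∑ h ∈ H.filter (fun h => q ∈ K h), ∑ y ∈ S q, SM col R (z h) y with hF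
  have hFsum : ∑ q ∈ I, F q = ∑ h ∈ H, ∑ y ∈ U.filter (fun y => cl y ∈ K h),
      SM col R (z h) y := by
    simp only [hF]
    have h1 : ∀ q, ∑ h ∈ H.filter (fun h => q ∈ K h), ∑ y ∈ S q, SM col R (z h) y =
        ∑ h ∈ H, if q ∈ K h then ∑ y ∈ S q, SM col R (z h) y else 0 := by
      intro q
      rw [Finset.sum_filter]
    rw [Finset.sum_congr rfl fun q _ => h1 q, Finset.sum_comm]
    refine Finset.sum_congr rfl fun h hh => ?_
    rw [← Finset.sum_filter]
    have h2 : I.filter (fun q => q ∈ K h) = K h := by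
      ext q
      rw [Finset.mem_filter]
      exact ⟨fun h3 => h3.2, fun h3 => ⟨hK h hh h3, h3⟩⟩
    rw [h2]
    have h3 : U.filter (fun y => cl y ∈ K h) = (K h).biUnion S := by
      ext y
      simp only [hS, Finset.mem_filter, Finset.mem_biUnion]
      constructor
      · rintro ⟨h4, h5⟩
        exact ⟨cl y, h5, h4, rfl⟩
      · rintro ⟨q, h4, h5, rfl⟩
        exact ⟨h5, h4⟩
    rw [h3, Finset.sum_biUnion]
    intro q _ q' _ hne
    simp only [Function.onFun]
    rw [Finset.disjoint_left]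
    intro y hy hy'
    simp only [hS, Finset.mem_filter] at hy hy'
    exact hne (hy.2.symm.trans hy'.2)
  -- the main expression
  have hE : ∑ h ∈ H, ((U.filter (fun y => cl y ∈ K h ∧ y ≠ z h ∧ col s(z h, y) ∈ R)).card : ℝ) -
      ρ * ∑ h ∈ H, ((U.filter (fun y => cl y ∈ K h)).card : ℝ) =
      ∑ q ∈ I, F q -
        ρ * ∑ h ∈ H, (if z h ∈ U.filter (fun y => cl y ∈ K h) then (1 : ℝ) else 0) := by
    rw [hFsum, Finset.mul_sum, Finset.mul_sum, ← Finset.sum_sub_distrib,
      ← Finset.sum_sub_distrib]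
    refine Finset.sum_congr rfl fun h _ => ?_
    rw [Ni_row, Finset.filter_filter]
    ring
  rw [hE]
  -- estimates
  have hH1 : |ρ * ∑ h ∈ H, (if z h ∈ U.filter (fun y => cl y ∈ K h) then (1 : ℝ) else 0)| ≤
      H.card := by
    have h1 : 0 ≤ ∑ h ∈ H, (if z h ∈ U.filter (fun y => cl y ∈ K h) then (1 : ℝ) else 0) :=
      Finset.sum_nonneg fun h _ => by split_ifs <;> norm_num
    have h2 : ∑ h ∈ H, (if z h ∈ U.filter (fun y => cl y ∈ K h) then (1 : ℝ) else 0) ≤
        H.card := by
      calc _ ≤ ∑ h ∈ H, (1 : ℝ) := Finset.sum_le_sum fun h _ => by split_ifs <;> norm_num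
        _ = H.card := by simp
    rw [abs_of_nonneg (mul_nonneg hρ0 h1)]
    calc ρ * _ ≤ 1 * (H.card : ℝ) := mul_le_mul hρ1 h2 h1 zero_le_one
      _ = H.card := one_mul _
  have hHG : (H.card : ℝ) ≤ G * n := by
    have h1 : (H.card : ℝ) = ∑ x : V, ((H.filter (fun h => z h = x)).card : ℝ) := by
      rw [← Nat.cast_sum]
      congr 1
      exact Finset.card_eq_sum_card_fiberwise (fun h _ => Finset.mem_univ (z h))
    rw [h1]
    calc _ ≤ ∑ x : V, G := Finset.sum_le_sum fun x _ => hG x
      _ = G * n := by rw [Finset.sum_const, nsmul_eq_mul, Finset.card_univ, mul_comm]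
  have hH0 : (0 : ℝ) ≤ H.card := Nat.cast_nonneg _
  set X : ℝ := G * H.card * I.card * n with hX
  have hX0 : 0 ≤ X := by positivity
  have hHX : (H.card : ℝ) ≤ Real.sqrt X := by
    apply Real.le_sqrt_of_sq_le
    calc (H.card : ℝ) ^ 2 = H.card * H.card := sq _
      _ ≤ (G * n) * H.card := mul_le_mul_of_nonneg_right hHG hH0
      _ ≤ (G * n) * H.card * I.card := le_mul_of_one_le_right (by positivity) hI1
      _ = X := by rw [hX]; ring
  have hFq : ∀ q ∈ I, |F q| ≤ a * Real.sqrt (G * H.card) * Real.sqrt (S q).card := by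
    intro q _
    have h1 := Ni_class col R a hR (H.filter (fun h => q ∈ K h)) z (S q)
    refine h1.trans ?_
    refine mul_le_mul_of_nonneg_right (mul_le_mul_of_nonneg_left ?_ ha) (Real.sqrt_nonneg _)
    apply Real.sqrt_le_sqrt
    have h2 : ∀ x : V, (((H.filter (fun h => q ∈ K h)).filter (fun h => z h = x)).card : ℝ) ≤
        ((H.filter (fun h => z h = x)).card : ℝ) := by
      intro x
      have : ((H.filter (fun h => q ∈ K h)).filter (fun h => z h = x)).card ≤
          (H.filter (fun h => z h = x)).card := by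
        apply Finset.card_le_card
        intro h hh
        rw [Finset.mem_filter, Finset.mem_filter] at hh
        rw [Finset.mem_filter]
        exact ⟨hh.1.1, hh.2⟩
      exact_mod_cast this
    calc ∑ x : V, (((H.filter (fun h => q ∈ K h)).filter (fun h => z h = x)).card : ℝ) ^ 2
        ≤ ∑ x : V, G * ((H.filter (fun h => z h = x)).card : ℝ) := by
          refine Finset.sum_le_sum fun x _ => ?_
          rw [sq]
          exact mul_le_mul ((h2 x).trans (hG x)) (h2 x) (Nat.cast_nonneg _) hG0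
      _ = G * H.card := by
          rw [← Finset.mul_sum, ← Nat.cast_sum]
          congr 2
          exact (Finset.card_eq_sum_card_fiberwise (fun h _ => Finset.mem_univ (z h))).symm
  have hSs : ∑ q ∈ I, Real.sqrt (S q).card ≤ Real.sqrt (I.card * n) := by
    apply Real.le_sqrt_of_sq_le
    have h1 : (∑ q ∈ I, Real.sqrt (S q).card) ^ 2 ≤
        I.card * ∑ q ∈ I, Real.sqrt (S q).card ^ 2 := by
      exact sq_sum_le_card_mul_sum_sq
    refine h1.trans ?_
    refine mul_le_mul_of_nonneg_left ?_ (Nat.cast_nonneg _)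
    have h2 : ∀ q ∈ I, Real.sqrt (S q).card ^ 2 = ((S q).card : ℝ) :=
      fun q _ => Real.sq_sqrt (Nat.cast_nonneg _)
    rw [Finset.sum_congr rfl h2, ← Nat.cast_sum]
    have h3 : ∑ q ∈ I, (S q).card = (I.biUnion S).card := by
      rw [Finset.card_biUnion]
      intro q _ q' _ hne
      simp only [Function.onFun]
      rw [Finset.disjoint_left]
      intro y hy hy'
      simp only [hS, Finset.mem_filter] at hy hy'
      exact hne (hy.2.symm.trans hy'.2)
    rw [h3, hndef]
    exact_mod_cast Finset.card_le_univ _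
  have hsum : |∑ q ∈ I, F q| ≤ a * Real.sqrt X := by
    calc |∑ q ∈ I, F q| ≤ ∑ q ∈ I, |F q| := Finset.abs_sum_le_sum_abs _ _
      _ ≤ ∑ q ∈ I, a * Real.sqrt (G * H.card) * Real.sqrt (S q).card :=
        Finset.sum_le_sum hFq
      _ = a * Real.sqrt (G * H.card) * ∑ q ∈ I, Real.sqrt (S q).card := by
        rw [Finset.mul_sum]
      _ ≤ a * Real.sqrt (G * H.card) * Real.sqrt (I.card * n) :=
        mul_le_mul_of_nonneg_left hSs (mul_nonneg ha (Real.sqrt_nonneg _))
      _ = a * Real.sqrt X := by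
        rw [mul_assoc, ← Real.sqrt_mul (by positivity)]
        congr 2
        rw [hX]
        ring
  calc |∑ q ∈ I, F q -
        ρ * ∑ h ∈ H, (if z h ∈ U.filter (fun y => cl y ∈ K h) then (1 : ℝ) else 0)|
      ≤ |∑ q ∈ I, F q| +
        |ρ * ∑ h ∈ H, (if z h ∈ U.filter (fun y => cl y ∈ K h) then (1 : ℝ) else 0)| :=
        abs_sub _ _
    _ ≤ a * Real.sqrt X + Real.sqrt X := add_le_add hsum (hH1.trans hHX)
    _ = (a + 1) * Real.sqrt X := by ring

end Pool.Agent.W_cd7020_h81b
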