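import Mathlib

/-!
# Numbers: powers and exponentials
-/

set_option autoImplicit false

namespace Pool.Agent.W_cd7020_h81b

open Finset



/-- `L ^ 400 ≤ 2 ^ L` and `2 ≤ L` imply `L ≥ 4000`. (For `2 ≤ L < 4000`, `400 log₂ L > L`: for
`2 ^ j ≤ L < 2 ^ (j + 1)` with `1 ≤ j ≤ 11` we have `L ^ 400 ≥ 2 ^ (400 j)` and
`L < 2 ^ (j + 1) ≤ 400 j` (check the cases); for `j = 11`: `L < 4000 < 4400`.) -/
theorem L_big (L : ℕ) (h2 : 2 ≤ L) (h : L ^ 400 ≤ 2 ^ L) : 4000 ≤ L := by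
  have key : ∀ j : ℕ, 2 ^ j ≤ L → 400 * j ≤ L := by
    intro j hj
    have h1 : (2 : ℕ) ^ (400 * j) ≤ 2 ^ L := by
      calc (2 : ℕ) ^ (400 * j) = (2 ^ j) ^ 400 := by rw [← pow_mul, mul_comm]
        _ ≤ L ^ 400 := Nat.pow_le_pow_left hj 400
        _ ≤ 2 ^ L := h
    exact (Nat.pow_le_pow_iff_right (by norm_num)).1 h1
  have h3 : 400 ≤ L := by
    have := key 1 (by simpa using h2)
    omega
  have h4 : 3200 ≤ L := by
    have := key 8 (by norm_num; omega)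
    omega
  have h5 := key 11 (by norm_num; omega)
  omega

/-- `t (1 - D₁ / (2 n)) ^ (L ^ 24) ≤ 1` for `t = 10 L ^ 17`, `D₁ ≥ n / (2 L ^ 23)`:
`(1 - x) ^ k ≤ exp (- k x)`, `L ^ 24 D₁ / (2 n) ≥ L / 4`, and `10 L ^ 17 ≤ exp (L / 4)` for
`L ≥ 4000`. -/
theorem num_exp (n L D₁ : ℕ) (hL : 4000 ≤ L) (hn : 1 ≤ n) (h1 : n ≤ 2 * L ^ 23 * D₁)
    (h2 : D₁ ≤ n) :
    (10 * (L : ℝ) ^ 17) * (1 - D₁ / (2 * n)) ^ (L ^ 24) ≤ 1 := by
  have hLr : (4000 : ℝ) ≤ L := by exact_mod_cast hL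
  have hL0 : (0 : ℝ) < L := by linarith
  have hn0 : (0 : ℝ) < n := by exact_mod_cast hn
  have hD0 : (0 : ℝ) ≤ D₁ := Nat.cast_nonneg _
  have h1r : (n : ℝ) ≤ 2 * (L : ℝ) ^ 23 * D₁ := by exact_mod_cast h1
  have h2r : (D₁ : ℝ) ≤ n := by exact_mod_cast h2
  set x : ℝ := (D₁ : ℝ) / (2 * n) with hx
  have hx1 : x ≤ 1 := by
    rw [hx, div_le_one (by positivity)]
    linarith
  have hx0 : (L : ℝ) / 4 ≤ (L : ℝ) ^ 24 * x := by
    rw [hx, mul_div_assoc', le_div_iff₀ (by positivity)]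
    have : (L : ℝ) * n ≤ L * (2 * (L : ℝ) ^ 23 * D₁) := mul_le_mul_of_nonneg_left h1r hL0.le
    have e : (L : ℝ) * (2 * (L : ℝ) ^ 23 * D₁) = 2 * ((L : ℝ) ^ 24 * D₁) := by ring
    rw [e] at this
    linarith
  have h3 : (1 - x) ^ (L ^ 24) ≤ Real.exp (-((L : ℝ) / 4)) := by
    calc (1 - x) ^ (L ^ 24) ≤ (Real.exp (-x)) ^ (L ^ 24) := by
          apply pow_le_pow_left₀ (by linarith)
          have := Real.add_one_le_exp (-x)
          linarith
      _ = Real.exp (-((L : ℝ) ^ 24 * x)) := by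
          rw [← Real.exp_nat_mul]
          congr 1
          push_cast
          ring
      _ ≤ Real.exp (-((L : ℝ) / 4)) := by
          apply Real.exp_le_exp.2
          linarith
  have h4 : 10 * (L : ℝ) ^ 17 ≤ Real.exp ((L : ℝ) / 4) := by
    obtain ⟨z, hz⟩ : ∃ z : ℝ, z = (L : ℝ) / 4000 := ⟨_, rfl⟩
    have hLz : (L : ℝ) = 4000 * z := by rw [hz]; ring
    have hz1 : 1 ≤ z := by rw [hz, le_div_iff₀ (by norm_num)]; linarith
    have e1 : Real.exp ((L : ℝ) / 4) = (Real.exp z) ^ 17 * Real.exp (983 * z) := by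
      rw [← Real.exp_nat_mul, ← Real.exp_add]
      congr 1
      rw [hLz]
      push_cast
      ring
    have e2 : z ^ 17 ≤ (Real.exp z) ^ 17 := by
      apply pow_le_pow_left₀ (by linarith)
      have := Real.add_one_le_exp z
      linarith
    have e3 : (2 : ℝ) ^ 208 ≤ Real.exp (983 * z) := by
      calc (2 : ℝ) ^ 208 ≤ (Real.exp 1) ^ 208 := by
            apply pow_le_pow_left₀ (by norm_num)
            have := Real.add_one_le_exp (1 : ℝ)
            linarith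
        _ = Real.exp 208 := by
            rw [← Real.exp_nat_mul]
            norm_num
        _ ≤ Real.exp (983 * z) := by
            apply Real.exp_le_exp.2
            linarith
    have e4 : (10 : ℝ) * 4000 ^ 17 ≤ 2 ^ 208 := by norm_num
    calc 10 * (L : ℝ) ^ 17 = z ^ 17 * (10 * 4000 ^ 17) := by rw [hLz]; ring
      _ ≤ (Real.exp z) ^ 17 * Real.exp (983 * z) := by
          apply mul_le_mul e2 (e4.trans e3) (by norm_num) (by positivity)
      _ = Real.exp ((L : ℝ) / 4) := e1.symm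
  calc (10 * (L : ℝ) ^ 17) * (1 - x) ^ (L ^ 24)
      ≤ Real.exp ((L : ℝ) / 4) * Real.exp (-((L : ℝ) / 4)) := by
        apply mul_le_mul h4 h3 _ (Real.exp_pos _).le
        apply pow_nonneg
        linarith
    _ = 1 := by rw [← Real.exp_add]; simp

end Pool.Agent.W_cd7020_h81b
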