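import Pool.Agent.W_cd7020_h81.LFa

/-!
# Rainbow cycles in balanced colourings: definitions for the analytic part
-/

set_option autoImplicit false

namespace Pool.Agent.W_cd7020_h81b

open Finset Pool.Agent.W_cd7020_h81

section forms

variable {V : Type*} [Fintype V]

/-- The bilinear form of a matrix. -/
def qf (A : Matrix V V ℝ) (f g : V → ℝ) : ℝ := ∑ x, ∑ y, f x * A x y * g y

/-- The Euclidean norm. -/
noncomputable def nr (f : V → ℝ) : ℝ := Real.sqrt (∑ x, f x ^ 2)

variable [DecidableEq V]

/-- The potential: the sum of `cosh (lam α)` over the eigenvalues `α` (with multiplicity). -/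
noncomputable def pot (A : Matrix V V ℝ) (lam : ℝ) : ℝ :=
  open Classical in
  if h : A.IsHermitian then ∑ i, Real.cosh (lam * h.eigenvalues i) else 0

/-- The linear part of the change of the potential. -/
noncomputable def lin (A X : Matrix V V ℝ) (lam : ℝ) : ℝ :=
  open Classical in
  if h : A.IsHermitian then
    ∑ i, lam * Real.sinh (lam * h.eigenvalues i) *
      qf X (h.eigenvectorBasis i).ofLp (h.eigenvectorBasis i).ofLp
  else 0

end forms

section colours

variable {V κ : Type*} [DecidableEq V] [DecidableEq κ] [Fintype V]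

open Classical in
/-- The partner of `x` in the colour `k` (or `x` itself if `x` has no edge of colour `k`). -/
noncomputable def par (col : Sym2 V → κ) (k : κ) (x : V) : V :=
  if h : ∃ y, y ≠ x ∧ col s(x, y) = k then h.choose else x

/-- The centred adjacency matrix of the colour `k`. -/
noncomputable def YM (col : Sym2 V → κ) (k : κ) : Matrix V V ℝ :=
  fun x y => (if x ≠ y ∧ col s(x, y) = k then 1 else 0) -
    (if x = y then 0 else 1 / (Fintype.card V : ℝ))

/-- The centred adjacency matrix of a set of colours. -/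
noncomputable def SM (col : Sym2 V → κ) (B : Finset κ) : Matrix V V ℝ := ∑ k ∈ B, YM col k

/-- The norm of `SM col B` is at most `a`. -/
def NB (col : Sym2 V → κ) (B : Finset κ) (a : ℝ) : Prop :=
  ∀ f g : V → ℝ, |qf (SM col B) f g| ≤ a * nr f * nr g

/-- The number of pairs `(x, y)` in `X × Y` with `x ≠ y` and colour in `B`. -/
def eB (col : Sym2 V → κ) (B : Finset κ) (X Y : Finset V) : ℕ :=
  ((X ×ˢ Y).filter (fun p => p.1 ≠ p.2 ∧ col s(p.1, p.2) ∈ B)).card

/-- The mixing property with error `a`. -/
def Mix (col : Sym2 V → κ) (B : Finset κ) (a : ℝ) : Prop :=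
  ∀ X Y : Finset V, |(eB col B X Y : ℝ) - (B.card : ℝ) / (Fintype.card V : ℝ) *
    ((X.card : ℝ) * (Y.card : ℝ))| ≤ a * Real.sqrt ((X.card : ℝ) * (Y.card : ℝ))

end colours

end Pool.Agent.W_cd7020_h81b
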