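import Pool.Agent.W_cd7020_h81b.PDefs

/-!
# The trace identity for two symmetric matrices
-/

set_option autoImplicit false

namespace Pool.Agent.W_cd7020_h81b

open Finset

variable {V : Type*} [Fintype V] [DecidableEq V]

theorem PotA_inner (u v : EuclideanSpace ℝ V) : inner ℝ u v = ∑ x, u.ofLp x * v.ofLp x := by
  rw [PiLp.inner_apply]
  refine Finset.sum_congr rfl fun x _ => ?_
  simp [mul_comm]

/-- Orthonormality: the eigenvectors `a i` of a symmetric matrix have `∑ x, a i x ^ 2 = 1`. -/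
theorem PotA_unit (A : Matrix V V ℝ) (hA : A.IsHermitian) (i : V) :
    ∑ x, (hA.eigenvectorBasis i).ofLp x ^ 2 = 1 := by
  have h1 := PotA_inner (hA.eigenvectorBasis i) (hA.eigenvectorBasis i)
  have h2 : inner ℝ (hA.eigenvectorBasis i) (hA.eigenvectorBasis i) = (1 : ℝ) := by
    have := hA.eigenvectorBasis.orthonormal.1 i
    rw [real_inner_self_eq_norm_sq, this]
    norm_num
  rw [h2] at h1
  rw [h1]
  refine Finset.sum_congr rfl fun x _ => ?_
  ring

/-- `∑ j, ⟨v, b j⟩ ^ 2 = ‖v‖ ^ 2` (Parseval for the orthonormal basis `hB.eigenvectorBasis`, for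
instance `OrthonormalBasis.sum_sq_norm_inner_right` and `EuclideanSpace.norm_sq_eq`). -/
theorem PotA_parseval (B : Matrix V V ℝ) (hB : B.IsHermitian) (v : V → ℝ) :
    ∑ j, (∑ x, v x * (hB.eigenvectorBasis j).ofLp x) ^ 2 = ∑ x, v x ^ 2 := by
  have h1 := hB.eigenvectorBasis.sum_sq_norm_inner_left (WithLp.toLp 2 v)
  rw [EuclideanSpace.norm_sq_eq] at h1
  calc ∑ j, (∑ x, v x * (hB.eigenvectorBasis j).ofLp x) ^ 2
      = ∑ j, ‖inner ℝ (WithLp.toLp 2 v) (hB.eigenvectorBasis j)‖ ^ 2 := by
        refine Finset.sum_congr rfl fun j _ => ?_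
        rw [PotA_inner, Real.norm_eq_abs, sq_abs]
    _ = _ := h1
    _ = ∑ x, v x ^ 2 := by
        refine Finset.sum_congr rfl fun x _ => ?_
        rw [Real.norm_eq_abs, sq_abs]

theorem PotA_eig (A : Matrix V V ℝ) (hA : A.IsHermitian) (i x : V) :
    ∑ y, A x y * (hA.eigenvectorBasis i).ofLp y =
      hA.eigenvalues i * (hA.eigenvectorBasis i).ofLp x := by
  have h := congrFun (hA.mulVec_eigenvectorBasis i) x
  simpa [Matrix.mulVec, dotProduct] using h

theorem PotA_eig' (A : Matrix V V ℝ) (hA : A.IsHermitian) (i x : V) :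
    ∑ y, A y x * (hA.eigenvectorBasis i).ofLp y =
      hA.eigenvalues i * (hA.eigenvectorBasis i).ofLp x := by
  rw [← PotA_eig A hA i x]
  refine Finset.sum_congr rfl fun y _ => ?_
  have := hA.apply x y
  simp only [star_trivial] at this
  rw [this]

/-- expansion in the eigenvector basis -/
theorem PotA_expand (A : Matrix V V ℝ) (hA : A.IsHermitian) (g : V → ℝ) (y : V) :
    g y = ∑ i, (∑ x, g x * (hA.eigenvectorBasis i).ofLp x) * (hA.eigenvectorBasis i).ofLp y := by
  have h1 := hA.eigenvectorBasis.sum_repr' (WithLp.toLp 2 g)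
  have h2 := congrArg (fun w : EuclideanSpace ℝ V => w.ofLp y) h1
  simp only at h2
  rw [← h2]
  rw [WithLp.ofLp_sum, Finset.sum_apply]
  refine Finset.sum_congr rfl fun i _ => ?_
  rw [WithLp.ofLp_smul, Pi.smul_apply, smul_eq_mul, PotA_inner]
  congr 1
  refine Finset.sum_congr rfl fun x _ => ?_
  ring

/-- `A = ∑ i, α i a_i a_iᵀ` as a bilinear form. -/
theorem PotA_qf (A : Matrix V V ℝ) (hA : A.IsHermitian) (f g : V → ℝ) :
    qf A f g = ∑ i, hA.eigenvalues i * (∑ x, f x * (hA.eigenvectorBasis i).ofLp x) *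
      (∑ x, g x * (hA.eigenvectorBasis i).ofLp x) := by
  unfold qf
  calc ∑ x, ∑ y, f x * A x y * g y
      = ∑ x, ∑ y, ∑ i, f x * A x y * ((∑ z, g z * (hA.eigenvectorBasis i).ofLp z) *
          (hA.eigenvectorBasis i).ofLp y) := by
        refine Finset.sum_congr rfl fun x _ => Finset.sum_congr rfl fun y _ => ?_
        rw [← Finset.mul_sum, ← PotA_expand A hA g y]
    _ = ∑ x, ∑ i, ∑ y, f x * A x y * ((∑ z, g z * (hA.eigenvectorBasis i).ofLp z) *
          (hA.eigenvectorBasis i).ofLp y) := by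
        refine Finset.sum_congr rfl fun x _ => ?_
        rw [Finset.sum_comm]
    _ = ∑ x, ∑ i, f x * (∑ z, g z * (hA.eigenvectorBasis i).ofLp z) *
          (hA.eigenvalues i * (hA.eigenvectorBasis i).ofLp x) := by
        refine Finset.sum_congr rfl fun x _ => Finset.sum_congr rfl fun i _ => ?_
        rw [← PotA_eig A hA i x, Finset.mul_sum]
        refine Finset.sum_congr rfl fun y _ => ?_
        ring
    _ = ∑ i, ∑ x, f x * (∑ z, g z * (hA.eigenvectorBasis i).ofLp z) *
          (hA.eigenvalues i * (hA.eigenvectorBasis i).ofLp x) := Finset.sum_comm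
    _ = _ := by
        refine Finset.sum_congr rfl fun i _ => ?_
        generalize (∑ z, g z * (hA.eigenvectorBasis i).ofLp z) = G
        rw [Finset.mul_sum, Finset.sum_mul]
        refine Finset.sum_congr rfl fun x _ => ?_
        ring

/-- The identity. Let `w i j = ⟨a i, b j⟩ ^ 2`. By Parseval `∑ i, w i j = 1` and `∑ j, w i j = 1`,
and `qf B (a i) (a i) = ∑ j, β j * w i j` (`PotA_qf`), `qf A (a i) (a i) = α i`. Expand the right
side. -/
theorem PotA_diff (A B : Matrix V V ℝ) (hA : A.IsHermitian) (hB : B.IsHermitian)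
    (g g' : ℝ → ℝ) :
    ∑ j, g (hB.eigenvalues j) - ∑ i, g (hA.eigenvalues i) -
      ∑ i, g' (hA.eigenvalues i) *
        qf (B - A) (hA.eigenvectorBasis i).ofLp (hA.eigenvectorBasis i).ofLp =
    ∑ i, ∑ j, (∑ x, (hA.eigenvectorBasis i).ofLp x * (hB.eigenvectorBasis j).ofLp x) ^ 2 *
      (g (hB.eigenvalues j) - g (hA.eigenvalues i) -
        g' (hA.eigenvalues i) * (hB.eigenvalues j - hA.eigenvalues i)) := by
  set w : V → V → ℝ := fun i j =>
    (∑ x, (hA.eigenvectorBasis i).ofLp x * (hB.eigenvectorBasis j).ofLp x) ^ 2 with hw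
  have h1 : ∀ i, ∑ j, w i j = 1 := by
    intro i
    rw [← PotA_unit A hA i]
    exact PotA_parseval B hB (hA.eigenvectorBasis i).ofLp
  have h2 : ∀ j, ∑ i, w i j = 1 := by
    intro j
    rw [← PotA_unit B hB j, ← PotA_parseval A hA (hB.eigenvectorBasis j).ofLp]
    refine Finset.sum_congr rfl fun i _ => ?_
    simp only [hw]
    congr 1
    refine Finset.sum_congr rfl fun x _ => ?_
    ring
  have h3 : ∀ i, qf B (hA.eigenvectorBasis i).ofLp (hA.eigenvectorBasis i).ofLp =
      ∑ j, hB.eigenvalues j * w i j := by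
    intro i
    rw [PotA_qf B hB]
    refine Finset.sum_congr rfl fun j _ => ?_
    simp only [hw]
    ring
  have h4 : ∀ i, qf A (hA.eigenvectorBasis i).ofLp (hA.eigenvectorBasis i).ofLp =
      hA.eigenvalues i := by
    intro i
    unfold qf
    have : ∀ x, ∑ y, (hA.eigenvectorBasis i).ofLp x * A x y * (hA.eigenvectorBasis i).ofLp y =
        hA.eigenvalues i * (hA.eigenvectorBasis i).ofLp x ^ 2 := by
      intro x
      have h5 := PotA_eig A hA i x
      calc _ = (hA.eigenvectorBasis i).ofLp x *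
            ∑ y, A x y * (hA.eigenvectorBasis i).ofLp y := by
            rw [Finset.mul_sum]
            refine Finset.sum_congr rfl fun y _ => ?_
            ring
        _ = _ := by
            rw [h5]
            ring
    rw [Finset.sum_congr rfl fun x _ => this x, ← Finset.mul_sum, PotA_unit, mul_one]
  have h5 : ∀ i, qf (B - A) (hA.eigenvectorBasis i).ofLp (hA.eigenvectorBasis i).ofLp =
      ∑ j, w i j * (hB.eigenvalues j - hA.eigenvalues i) := by
    intro i
    have h6 : qf (B - A) (hA.eigenvectorBasis i).ofLp (hA.eigenvectorBasis i).ofLp =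
        qf B (hA.eigenvectorBasis i).ofLp (hA.eigenvectorBasis i).ofLp -
          qf A (hA.eigenvectorBasis i).ofLp (hA.eigenvectorBasis i).ofLp := by
      unfold qf
      rw [← Finset.sum_sub_distrib]
      refine Finset.sum_congr rfl fun x _ => ?_
      rw [← Finset.sum_sub_distrib]
      refine Finset.sum_congr rfl fun y _ => ?_
      rw [Matrix.sub_apply]
      ring
    rw [h6, h3, h4]
    have h7 : ∑ j, w i j * (hB.eigenvalues j - hA.eigenvalues i) =
        ∑ j, hB.eigenvalues j * w i j - hA.eigenvalues i * ∑ j, w i j := by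
      rw [Finset.mul_sum, ← Finset.sum_sub_distrib]
      refine Finset.sum_congr rfl fun j _ => ?_
      ring
    rw [h7, h1, mul_one]
  have h8 : ∑ j, g (hB.eigenvalues j) = ∑ i, ∑ j, w i j * g (hB.eigenvalues j) := by
    rw [Finset.sum_comm]
    refine Finset.sum_congr rfl fun j _ => ?_
    rw [← Finset.sum_mul, h2, one_mul]
  have h9 : ∀ i, g (hA.eigenvalues i) = ∑ j, w i j * g (hA.eigenvalues i) := by
    intro i
    rw [← Finset.sum_mul, h1, one_mul]
  have h10 : ∑ i, g (hA.eigenvalues i) = ∑ i, ∑ j, w i j * g (hA.eigenvalues i) :=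
    Finset.sum_congr rfl fun i _ => h9 i
  rw [h8, h10, ← Finset.sum_sub_distrib, ← Finset.sum_sub_distrib]
  refine Finset.sum_congr rfl fun i _ => ?_
  rw [h5, Finset.mul_sum, ← Finset.sum_sub_distrib, ← Finset.sum_sub_distrib]
  refine Finset.sum_congr rfl fun j _ => ?_
  ring

/-- `∑ j, ⟨a i, b j⟩ ^ 2 (β j - α i) ^ 2 = ‖(B - A) a i‖ ^ 2`: indeed
`⟨(B - A) a i, b j⟩ = ⟨a i, B b j⟩ - α i ⟨a i, b j⟩ = (β j - α i) ⟨a i, b j⟩` by
`Matrix.IsHermitian.mulVec_eigenvectorBasis`, and Parseval. -/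
theorem PotA_left (A B : Matrix V V ℝ) (hA : A.IsHermitian) (hB : B.IsHermitian) (i : V) :
    ∑ j, (∑ x, (hA.eigenvectorBasis i).ofLp x * (hB.eigenvectorBasis j).ofLp x) ^ 2 *
      (hB.eigenvalues j - hA.eigenvalues i) ^ 2 =
    ∑ x, ((B - A).mulVec (hA.eigenvectorBasis i).ofLp x) ^ 2 := by
  rw [← PotA_parseval B hB ((B - A).mulVec (hA.eigenvectorBasis i).ofLp)]
  refine Finset.sum_congr rfl fun j _ => ?_
  rw [← mul_pow]
  congr 1
  have h1 : ∑ x, (B - A).mulVec (hA.eigenvectorBasis i).ofLp x *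
      (hB.eigenvectorBasis j).ofLp x =
      ∑ x, (∑ y, B x y * (hA.eigenvectorBasis i).ofLp y) * (hB.eigenvectorBasis j).ofLp x -
      ∑ x, (∑ y, A x y * (hA.eigenvectorBasis i).ofLp y) * (hB.eigenvectorBasis j).ofLp x := by
    rw [← Finset.sum_sub_distrib]
    refine Finset.sum_congr rfl fun x _ => ?_
    rw [Matrix.sub_mulVec]
    simp only [Pi.sub_apply, Matrix.mulVec, dotProduct]
    ring
  have h2 : ∑ x, (∑ y, B x y * (hA.eigenvectorBasis i).ofLp y) *
      (hB.eigenvectorBasis j).ofLp x =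
      hB.eigenvalues j * ∑ y, (hA.eigenvectorBasis i).ofLp y *
        (hB.eigenvectorBasis j).ofLp y := by
    calc _ = ∑ x, ∑ y, B x y * (hA.eigenvectorBasis i).ofLp y *
          (hB.eigenvectorBasis j).ofLp x := by
          refine Finset.sum_congr rfl fun x _ => ?_
          rw [Finset.sum_mul]
      _ = ∑ y, ∑ x, B x y * (hA.eigenvectorBasis i).ofLp y *
          (hB.eigenvectorBasis j).ofLp x := Finset.sum_comm
      _ = ∑ y, (hA.eigenvectorBasis i).ofLp y * (∑ x, B x y *
          (hB.eigenvectorBasis j).ofLp x) := by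
          refine Finset.sum_congr rfl fun y _ => ?_
          rw [Finset.mul_sum]
          refine Finset.sum_congr rfl fun x _ => ?_
          ring
      _ = _ := by
          rw [Finset.mul_sum]
          refine Finset.sum_congr rfl fun y _ => ?_
          rw [PotA_eig' B hB j y]
          ring
  have h3 : ∑ x, (∑ y, A x y * (hA.eigenvectorBasis i).ofLp y) *
      (hB.eigenvectorBasis j).ofLp x =
      hA.eigenvalues i * ∑ y, (hA.eigenvectorBasis i).ofLp y *
        (hB.eigenvectorBasis j).ofLp y := by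
    rw [Finset.mul_sum]
    refine Finset.sum_congr rfl fun x _ => ?_
    rw [PotA_eig A hA i x]
    ring
  rw [h1, h2, h3]
  ring

/-- The same with the roles exchanged. -/
theorem PotA_right (A B : Matrix V V ℝ) (hA : A.IsHermitian) (hB : B.IsHermitian) (j : V) :
    ∑ i, (∑ x, (hA.eigenvectorBasis i).ofLp x * (hB.eigenvectorBasis j).ofLp x) ^ 2 *
      (hB.eigenvalues j - hA.eigenvalues i) ^ 2 =
    ∑ x, ((B - A).mulVec (hB.eigenvectorBasis j).ofLp x) ^ 2 := by
  have h := PotA_left B A hB hA j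
  have h1 : ∀ x, ((B - A).mulVec (hB.eigenvectorBasis j).ofLp x) ^ 2 =
      ((A - B).mulVec (hB.eigenvectorBasis j).ofLp x) ^ 2 := by
    intro x
    rw [Matrix.sub_mulVec, Matrix.sub_mulVec]
    simp only [Pi.sub_apply]
    ring
  rw [Finset.sum_congr rfl fun x _ => h1 x, ← h]
  refine Finset.sum_congr rfl fun i _ => ?_
  have h2 : ∑ x, (hA.eigenvectorBasis i).ofLp x * (hB.eigenvectorBasis j).ofLp x =
      ∑ x, (hB.eigenvectorBasis j).ofLp x * (hA.eigenvectorBasis i).ofLp x :=
    Finset.sum_congr rfl fun x _ => mul_comm _ _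
  rw [h2]
  ring

end Pool.Agent.W_cd7020_h81b
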