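import Pool.Agent.W_cd7020_h81b.PotA

/-!
# One step of the potential
-/

set_option autoImplicit false

namespace Pool.Agent.W_cd7020_h81b

open Finset

variable {V : Type*} [Fintype V] [DecidableEq V]

theorem PotB_sinh_le (h : ℝ) (h0 : 0 ≤ h) : Real.sinh h ≤ h * Real.cosh h := by
  have hd : ∀ x : ℝ, HasDerivAt (fun x : ℝ => x * Real.cosh x - Real.sinh x) (x * Real.sinh x) x := by
    intro x
    have h1 := ((hasDerivAt_id x).mul (Real.hasDerivAt_cosh x)).sub (Real.hasDerivAt_sinh x)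
    refine h1.congr_deriv ?_
    simp only [id]
    ring
  have hm : MonotoneOn (fun x : ℝ => x * Real.cosh x - Real.sinh x) (Set.Ici 0) := by
    refine monotoneOn_of_deriv_nonneg (convex_Ici 0)
      (fun x _ => (hd x).continuousAt.continuousWithinAt)
      (fun x _ => (hd x).differentiableAt.differentiableWithinAt) fun x hx => ?_
    rw [interior_Ici] at hx
    rw [(hd x).deriv]
    exact mul_nonneg (le_of_lt hx) (Real.sinh_nonneg_iff.2 (le_of_lt hx))
  have h2 := hm (Set.mem_Ici.2 le_rfl) (Set.mem_Ici.2 h0) h0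
  simp only [zero_mul, Real.sinh_zero, sub_zero] at h2
  linarith

theorem PotB_cosh_le (h : ℝ) : Real.cosh h - 1 ≤ h * Real.sinh h := by
  have h1 := Real.add_one_le_exp h
  have h2 := Real.add_one_le_exp (-h)
  have e1 : Real.exp h * Real.exp (-h) = 1 := by rw [← Real.exp_add, add_neg_cancel, Real.exp_zero]
  have p1 := Real.exp_pos h
  have p2 := Real.exp_pos (-h)
  rw [Real.cosh_eq, Real.sinh_eq]
  nlinarith [mul_le_mul_of_nonneg_left h1 p2.le, mul_le_mul_of_nonneg_left h2 p1.le]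

/-- The inequality for nonnegative `h`. -/
theorem PotB_half (h : ℝ) (h0 : 0 ≤ h) :
    |Real.sinh h - h * Real.cosh h| + h * Real.sinh h ≤ 2 * h ^ 2 * Real.cosh h := by
  have h1 := PotB_sinh_le h h0
  have h2 := PotB_cosh_le h
  have h3 := Real.self_le_sinh_iff.2 h0
  have hc := Real.cosh_pos h
  rw [abs_of_nonpos (by linarith)]
  have h4 : h * Real.sinh h ≤ h * (h * Real.cosh h) := mul_le_mul_of_nonneg_left h1 h0
  have h5 : h * (Real.cosh h - 1) ≤ h * (h * Real.sinh h) := mul_le_mul_of_nonneg_left h2 h0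
  have h6 : h * (h * Real.sinh h) ≤ h * (h * Real.cosh h) :=
    mul_le_mul_of_nonneg_left (mul_le_mul_of_nonneg_left (Real.sinh_lt_cosh h).le h0) h0
  nlinarith

theorem PotB_abs (h : ℝ) :
    |Real.sinh h - h * Real.cosh h| + h * Real.sinh h ≤ 2 * h ^ 2 * Real.cosh h := by
  rcases le_total 0 h with h0 | h0
  · exact PotB_half h h0
  · have h1 := PotB_half (-h) (by linarith)
    rw [Real.sinh_neg, Real.cosh_neg] at h1
    have e1 : -Real.sinh h - -h * Real.cosh h = -(Real.sinh h - h * Real.cosh h) := by ring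
    rw [e1, abs_neg] at h1
    have e2 : -h * -Real.sinh h = h * Real.sinh h := by ring
    have e3 : 2 * (-h) ^ 2 * Real.cosh h = 2 * h ^ 2 * Real.cosh h := by ring
    rw [e2, e3] at h1
    exact h1

theorem PotB_uv (u v : ℝ) :
    Real.cosh v - Real.cosh u - Real.sinh u * (v - u) ≤
      (v - u) ^ 2 / 2 * (Real.cosh u + Real.cosh v) := by
  obtain ⟨m, hm⟩ : ∃ m : ℝ, m = (u + v) / 2 := ⟨_, rfl⟩
  obtain ⟨h, hh⟩ : ∃ h : ℝ, h = (v - u) / 2 := ⟨_, rfl⟩
  have hv : v = m + h := by rw [hm, hh]; ring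
  have hu : u = m - h := by rw [hm, hh]; ring
  rw [hv, hu, Real.cosh_add, Real.cosh_sub, Real.sinh_sub]
  have e1 : m + h - (m - h) = 2 * h := by ring
  rw [e1]
  have h1 := PotB_abs h
  have hcm := Real.cosh_pos m
  have h2 : |Real.sinh m| ≤ Real.cosh m := by
    rw [abs_le]
    constructor
    · have := Real.sinh_lt_cosh (-m)
      rw [Real.sinh_neg, Real.cosh_neg] at this
      linarith
    · exact (Real.sinh_lt_cosh m).le
  have h3 : Real.sinh m * (Real.sinh h - h * Real.cosh h) ≤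
      Real.cosh m * |Real.sinh h - h * Real.cosh h| := by
    calc Real.sinh m * (Real.sinh h - h * Real.cosh h)
        ≤ |Real.sinh m * (Real.sinh h - h * Real.cosh h)| := le_abs_self _
      _ = |Real.sinh m| * |Real.sinh h - h * Real.cosh h| := abs_mul _ _
      _ ≤ _ := mul_le_mul_of_nonneg_right h2 (abs_nonneg _)
  have h4 := mul_le_mul_of_nonneg_left h1 hcm.le
  nlinarith

/-- Taylor: for `g t = cosh (lam t)`,
`g b - g a - g' a (b - a) ≤ lam ^ 2 / 2 * (g a + g b) * (b - a) ^ 2`.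
With `s = lam (b - a)` and `u = lam a`: `cosh (u + s) - cosh u - s sinh u` is the integral of
`(s - r) cosh (u + r)` over `r` from `0` to `s`, and `cosh (u + r) ≤ max (cosh u) (cosh (u + s))`
by convexity. (Alternatively: put `F s = s ^ 2 / 2 * (cosh u + cosh (u + s)) - cosh (u + s) + cosh u +
s sinh u`; `F 0 = 0`, `F' s = s (cosh u + cosh (u + s)) + s ^ 2 / 2 sinh (u + s) - sinh (u + s) +
sinh u`; `F' 0 = 0` and `F'' s = cosh u + 2 s sinh (u + s) + s ^ 2 / 2 cosh (u + s) ≥ ...`; the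
integral or the mean value form with `cosh ξ ≤ cosh a + cosh b` for `ξ` between `a` and `b` is
easier: `Real.cosh_abs`, monotonicity of `cosh` on `[0, ∞)`.) -/
theorem PotB_taylor (lam a b : ℝ) :
    Real.cosh (lam * b) - Real.cosh (lam * a) - lam * Real.sinh (lam * a) * (b - a) ≤
      lam ^ 2 / 2 * (Real.cosh (lam * a) + Real.cosh (lam * b)) * (b - a) ^ 2 := by
  have h1 := PotB_uv (lam * a) (lam * b)
  have e1 : (lam * b - lam * a) ^ 2 / 2 * (Real.cosh (lam * a) + Real.cosh (lam * b)) =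
      lam ^ 2 / 2 * (Real.cosh (lam * a) + Real.cosh (lam * b)) * (b - a) ^ 2 := by ring
  have e2 : Real.sinh (lam * a) * (lam * b - lam * a) = lam * Real.sinh (lam * a) * (b - a) := by ring
  rw [e1, e2] at h1
  exact h1

/-- `PotA_diff` for `g t = cosh (lam t)`, `g' t = lam sinh (lam t)`; estimate every term by
`PotB_taylor`; then `∑ i, g (α i) ∑ j, w i j (β j - α i) ^ 2 ≤ x ^ 2 ∑ i, g (α i)` by `PotA_left`,
`hx` and `PotA_unit`, and in the same way for `g (β j)` by `PotA_right`. -/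
theorem pot_step (A B : Matrix V V ℝ) (hA : A.IsHermitian) (hB : B.IsHermitian) (lam x : ℝ)
    (hx : ∀ v : V → ℝ, ∑ a, ((B - A).mulVec v a) ^ 2 ≤ x ^ 2 * ∑ a, v a ^ 2) :
    pot B lam * (1 - lam ^ 2 * x ^ 2 / 2) ≤
      pot A lam * (1 + lam ^ 2 * x ^ 2 / 2) + lin A (B - A) lam := by
  obtain ⟨w, hw⟩ : ∃ w : V → V → ℝ, ∀ i j, w i j =
      (∑ x, (hA.eigenvectorBasis i).ofLp x * (hB.eigenvectorBasis j).ofLp x) ^ 2 := ⟨_, fun _ _ => rfl⟩
  have hw0 : ∀ i j, 0 ≤ w i j := fun i j => by rw [hw]; positivity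
  have hdiff := PotA_diff A B hA hB (fun t => Real.cosh (lam * t)) (fun t => lam * Real.sinh (lam * t))
  have hpA : pot A lam = ∑ i, Real.cosh (lam * hA.eigenvalues i) := by
    unfold pot
    rw [dif_pos hA]
  have hpB : pot B lam = ∑ i, Real.cosh (lam * hB.eigenvalues i) := by
    unfold pot
    rw [dif_pos hB]
  have hl : lin A (B - A) lam = ∑ i, lam * Real.sinh (lam * hA.eigenvalues i) *
      qf (B - A) (hA.eigenvectorBasis i).ofLp (hA.eigenvectorBasis i).ofLp := by
    unfold lin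
    rw [dif_pos hA]
  simp only [← hw] at hdiff
  rw [← hpA, ← hpB, ← hl] at hdiff
  have hL : ∀ i, ∑ j, w i j * (hB.eigenvalues j - hA.eigenvalues i) ^ 2 ≤ x ^ 2 := by
    intro i
    simp only [hw]
    rw [PotA_left A B hA hB i]
    refine (hx _).trans ?_
    rw [PotA_unit A hA i, mul_one]
  have hR : ∀ j, ∑ i, w i j * (hB.eigenvalues j - hA.eigenvalues i) ^ 2 ≤ x ^ 2 := by
    intro j
    simp only [hw]
    rw [PotA_right A B hA hB j]
    refine (hx _).trans ?_
    rw [PotA_unit B hB j, mul_one]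
  have hbd : ∑ i, ∑ j, w i j * (Real.cosh (lam * hB.eigenvalues j) - Real.cosh (lam * hA.eigenvalues i) -
      lam * Real.sinh (lam * hA.eigenvalues i) * (hB.eigenvalues j - hA.eigenvalues i)) ≤
      lam ^ 2 / 2 * (x ^ 2 * pot A lam + x ^ 2 * pot B lam) := by
    have h1 : ∑ i, ∑ j, w i j * (Real.cosh (lam * hB.eigenvalues j) - Real.cosh (lam * hA.eigenvalues i) -
        lam * Real.sinh (lam * hA.eigenvalues i) * (hB.eigenvalues j - hA.eigenvalues i)) ≤
        ∑ i, ∑ j, w i j * (lam ^ 2 / 2 * (Real.cosh (lam * hA.eigenvalues i) +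
          Real.cosh (lam * hB.eigenvalues j)) * (hB.eigenvalues j - hA.eigenvalues i) ^ 2) :=
      Finset.sum_le_sum fun i _ => Finset.sum_le_sum fun j _ =>
        mul_le_mul_of_nonneg_left (PotB_taylor lam _ _) (hw0 i j)
    have h2 : ∑ i, ∑ j, w i j * (lam ^ 2 / 2 * (Real.cosh (lam * hA.eigenvalues i) +
          Real.cosh (lam * hB.eigenvalues j)) * (hB.eigenvalues j - hA.eigenvalues i) ^ 2) =
        lam ^ 2 / 2 * ((∑ i, Real.cosh (lam * hA.eigenvalues i) *
          ∑ j, w i j * (hB.eigenvalues j - hA.eigenvalues i) ^ 2) +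
          ∑ j, Real.cosh (lam * hB.eigenvalues j) *
            ∑ i, w i j * (hB.eigenvalues j - hA.eigenvalues i) ^ 2) := by
      have e1 : ∑ j, Real.cosh (lam * hB.eigenvalues j) *
            ∑ i, w i j * (hB.eigenvalues j - hA.eigenvalues i) ^ 2 =
          ∑ i, ∑ j, Real.cosh (lam * hB.eigenvalues j) *
            (w i j * (hB.eigenvalues j - hA.eigenvalues i) ^ 2) := by
        rw [Finset.sum_comm]
        exact Finset.sum_congr rfl fun j _ => Finset.mul_sum _ _ _
      rw [e1, ← Finset.sum_add_distrib, Finset.mul_sum]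
      refine Finset.sum_congr rfl fun i _ => ?_
      rw [Finset.mul_sum, ← Finset.sum_add_distrib, Finset.mul_sum]
      exact Finset.sum_congr rfl fun j _ => by ring
    have h3 : (∑ i, Real.cosh (lam * hA.eigenvalues i) *
          ∑ j, w i j * (hB.eigenvalues j - hA.eigenvalues i) ^ 2) ≤ x ^ 2 * pot A lam := by
      rw [hpA, Finset.mul_sum]
      refine Finset.sum_le_sum fun i _ => ?_
      rw [mul_comm (x ^ 2)]
      exact mul_le_mul_of_nonneg_left (hL i) (Real.cosh_pos _).le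
    have h4 : (∑ j, Real.cosh (lam * hB.eigenvalues j) *
            ∑ i, w i j * (hB.eigenvalues j - hA.eigenvalues i) ^ 2) ≤ x ^ 2 * pot B lam := by
      rw [hpB, Finset.mul_sum]
      refine Finset.sum_le_sum fun j _ => ?_
      rw [mul_comm (x ^ 2)]
      exact mul_le_mul_of_nonneg_left (hR j) (Real.cosh_pos _).le
    rw [h2] at h1
    refine h1.trans ?_
    exact mul_le_mul_of_nonneg_left (add_le_add h3 h4) (by positivity)
  rw [← hdiff] at hbd
  linarith

end Pool.Agent.W_cd7020_h81b
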