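import Pool.Agent.W_cd7020_h81b.PotB

/-!
# The potential: averages and norms
-/

set_option autoImplicit false

namespace Pool.Agent.W_cd7020_h81b

open Finset

variable {V : Type*} [Fintype V] [DecidableEq V]

theorem pot_pos (A : Matrix V V ℝ) (lam : ℝ) : 0 ≤ pot A lam := by
  unfold pot
  split_ifs with h
  · exact Finset.sum_nonneg fun i _ => (Real.cosh_pos _).le
  · exact le_rfl

theorem PotC_eig (A : Matrix V V ℝ) (hA : A.IsHermitian) (i : V) :
    qf A (hA.eigenvectorBasis i).ofLp (hA.eigenvectorBasis i).ofLp = hA.eigenvalues i := by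
  have h1 := hA.mulVec_eigenvectorBasis i
  have h2 : qf A (hA.eigenvectorBasis i).ofLp (hA.eigenvectorBasis i).ofLp =
      ∑ x, (hA.eigenvectorBasis i).ofLp x * (A.mulVec (hA.eigenvectorBasis i).ofLp) x := by
    unfold qf
    refine Finset.sum_congr rfl fun x _ => ?_
    rw [Matrix.mulVec, dotProduct, Finset.mul_sum]
    exact Finset.sum_congr rfl fun y _ => by ring
  rw [h2, h1]
  have h3 := PotA_unit A hA i
  calc ∑ x, (hA.eigenvectorBasis i).ofLp x * (hA.eigenvalues i • (hA.eigenvectorBasis i).ofLp) x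
      = hA.eigenvalues i * ∑ x, (hA.eigenvectorBasis i).ofLp x ^ 2 := by
        rw [Finset.mul_sum]
        refine Finset.sum_congr rfl fun x _ => ?_
        rw [Pi.smul_apply, smul_eq_mul]
        ring
    _ = hA.eigenvalues i := by rw [h3, mul_one]

theorem PotC_sinh_abs (y : ℝ) : |Real.sinh y| ≤ Real.cosh y := by
  rw [abs_le]
  constructor
  · have := Real.sinh_lt_cosh (-y)
    rw [Real.sinh_neg, Real.cosh_neg] at this
    linarith
  · exact (Real.sinh_lt_cosh y).le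

theorem PotC_sinh_mul (lam a : ℝ) (hlam : 0 ≤ lam) : 0 ≤ Real.sinh (lam * a) * a := by
  rcases le_total 0 a with h | h
  · exact mul_nonneg (Real.sinh_nonneg_iff.2 (mul_nonneg hlam h)) h
  · exact mul_nonneg_of_nonpos_of_nonpos
      (Real.sinh_nonpos_iff.2 (mul_nonpos_of_nonneg_of_nonpos hlam h)) h

/-- The average of the potential over a finite family of symmetric steps `X ω` of norm at most `x`
whose sum is `|S| (-γ A + Y)` with `|⟨v, Y v⟩| ≤ d ‖v‖ ^ 2`.

By `pot_step` (with `B = A + X ω`), summed over `ω`,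
`(1 - s/2) ∑ pot (A + X ω) ≤ |S| pot A (1 + s/2) + ∑ ω, lin A (X ω)`, `s = lam ^ 2 x ^ 2 ≤ 1`.
The last sum is `∑ i, lam sinh (lam α i) ∑ ω, qf (X ω) (a i) (a i)`, and by `hm` with `v = a i`
(`PotA_unit`, and `qf A (a i) (a i) = α i` by `PotA_qf`/`mulVec_eigenvectorBasis`)
`∑ ω, qf (X ω) (a i) (a i) = - |S| γ α i + err`, `|err| ≤ |S| d`. As `t sinh (lam t) ≥ 0` and
`|sinh| ≤ cosh` the sum is at most `|S| lam d pot A`. Finally
`(1 + s/2 + lam d) ≤ (1 - s/2) (1 + 2 s + 2 lam d)` as `s ≤ 1`. -/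
theorem pot_avg {Ω : Type*} (S : Finset Ω) (A : Matrix V V ℝ) (hA : A.IsHermitian)
    (X : Ω → Matrix V V ℝ) (hX : ∀ w ∈ S, (X w).IsHermitian) (lam x d γ : ℝ) (hlam : 0 ≤ lam)
    (hx0 : 0 ≤ x) (hγ : 0 ≤ γ) (hd : 0 ≤ d) (hlx : lam * x ≤ 1)
    (hn : ∀ w ∈ S, ∀ v : V → ℝ, ∑ a, ((X w).mulVec v a) ^ 2 ≤ x ^ 2 * ∑ a, v a ^ 2)
    (hm : ∀ v : V → ℝ, |∑ w ∈ S, qf (X w) v v + S.card * γ * qf A v v| ≤
      S.card * d * ∑ a, v a ^ 2) :
    ∑ w ∈ S, pot (A + X w) lam ≤
      S.card * pot A lam * (1 + 2 * (lam ^ 2 * x ^ 2) + 2 * (lam * d)) := by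
  obtain ⟨s, hs⟩ : ∃ s : ℝ, s = lam ^ 2 * x ^ 2 := ⟨_, rfl⟩
  have hs0 : 0 ≤ s := by rw [hs]; positivity
  have hs1 : s ≤ 1 := by
    rw [hs, ← mul_pow]
    exact pow_le_one₀ (mul_nonneg hlam hx0) hlx
  obtain ⟨T, hT⟩ : ∃ T : ℝ, T = ∑ w ∈ S, pot (A + X w) lam := ⟨_, rfl⟩
  obtain ⟨P, hP⟩ : ∃ P : ℝ, P = pot A lam := ⟨_, rfl⟩
  have hP0 : 0 ≤ P := by rw [hP]; exact pot_pos A lam
  have hld : 0 ≤ lam * d := mul_nonneg hlam hd
  -- the linear part
  have hlin : ∑ w ∈ S, lin A (X w) lam ≤ S.card * P * (lam * d) := by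
    have h1 : ∑ w ∈ S, lin A (X w) lam = ∑ i, lam * Real.sinh (lam * hA.eigenvalues i) *
        ∑ w ∈ S, qf (X w) (hA.eigenvectorBasis i).ofLp (hA.eigenvectorBasis i).ofLp := by
      have h2 : ∀ w, lin A (X w) lam = ∑ i, lam * Real.sinh (lam * hA.eigenvalues i) *
          qf (X w) (hA.eigenvectorBasis i).ofLp (hA.eigenvectorBasis i).ofLp := by
        intro w
        unfold lin
        rw [dif_pos hA]
      simp only [h2]
      rw [Finset.sum_comm]
      exact Finset.sum_congr rfl fun i _ => (Finset.mul_sum _ _ _).symm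
    have hpA : P = ∑ i, Real.cosh (lam * hA.eigenvalues i) := by
      rw [hP]
      unfold pot
      rw [dif_pos hA]
    rw [h1, hpA, Finset.mul_sum, Finset.sum_mul]
    refine Finset.sum_le_sum fun i _ => ?_
    obtain ⟨Z, hZ⟩ : ∃ Z : ℝ, Z = ∑ w ∈ S, qf (X w) (hA.eigenvectorBasis i).ofLp
      (hA.eigenvectorBasis i).ofLp := ⟨_, rfl⟩
    have h3 := hm (hA.eigenvectorBasis i).ofLp
    rw [PotC_eig A hA i, PotA_unit A hA i, mul_one, ← hZ] at h3
    rw [← hZ]
    obtain ⟨E, hE⟩ : ∃ E : ℝ, E = Z + S.card * γ * hA.eigenvalues i := ⟨_, rfl⟩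
    rw [← hE] at h3
    have h4 : Z = E - S.card * γ * hA.eigenvalues i := by rw [hE]; ring
    have h5 := PotC_sinh_mul lam (hA.eigenvalues i) hlam
    have h6 := PotC_sinh_abs (lam * hA.eigenvalues i)
    have h7 : Real.sinh (lam * hA.eigenvalues i) * E ≤ Real.cosh (lam * hA.eigenvalues i) * (S.card * d) := by
      calc Real.sinh (lam * hA.eigenvalues i) * E ≤ |Real.sinh (lam * hA.eigenvalues i) * E| := le_abs_self _
        _ = |Real.sinh (lam * hA.eigenvalues i)| * |E| := abs_mul _ _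
        _ ≤ Real.cosh (lam * hA.eigenvalues i) * (S.card * d) :=
          mul_le_mul h6 h3 (abs_nonneg _) (Real.cosh_pos _).le
    have h8 : 0 ≤ (S.card : ℝ) * γ := mul_nonneg (Nat.cast_nonneg _) hγ
    have h9 : lam * (Real.sinh (lam * hA.eigenvalues i) * E) ≤
        lam * (Real.cosh (lam * hA.eigenvalues i) * (S.card * d)) := mul_le_mul_of_nonneg_left h7 hlam
    have h10 : 0 ≤ lam * (S.card * γ * (Real.sinh (lam * hA.eigenvalues i) * hA.eigenvalues i)) :=
      mul_nonneg hlam (mul_nonneg h8 h5)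
    rw [h4]
    calc lam * Real.sinh (lam * hA.eigenvalues i) * (E - S.card * γ * hA.eigenvalues i)
        = lam * (Real.sinh (lam * hA.eigenvalues i) * E) -
          lam * (S.card * γ * (Real.sinh (lam * hA.eigenvalues i) * hA.eigenvalues i)) := by ring
      _ ≤ lam * (Real.cosh (lam * hA.eigenvalues i) * (S.card * d)) := by linarith
      _ = S.card * Real.cosh (lam * hA.eigenvalues i) * (lam * d) := by ring
  -- the steps
  have hstep : T * (1 - s / 2) ≤ S.card * P * (1 + s / 2 + lam * d) := by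
    have h1 : ∀ w ∈ S, pot (A + X w) lam * (1 - s / 2) ≤ P * (1 + s / 2) + lin A (X w) lam := by
      intro w hw
      have h2 := pot_step A (A + X w) hA (hA.add (hX w hw)) lam x (fun v => by
        rw [add_sub_cancel_left]
        exact hn w hw v)
      rw [add_sub_cancel_left, ← hs, ← hP] at h2
      exact h2
    have h3 := Finset.sum_le_sum h1
    rw [← Finset.sum_mul, ← hT, Finset.sum_add_distrib, Finset.sum_const, nsmul_eq_mul] at h3
    calc T * (1 - s / 2) ≤ _ := h3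
      _ ≤ S.card * (P * (1 + s / 2)) + S.card * P * (lam * d) := by linarith
      _ = _ := by ring
  have hfin : (1 + s / 2 + lam * d) ≤ (1 + 2 * s + 2 * (lam * d)) * (1 - s / 2) := by
    nlinarith [mul_nonneg hs0 (sub_nonneg.2 hs1), mul_nonneg hld (sub_nonneg.2 hs1)]
  have hSP : 0 ≤ (S.card : ℝ) * P := mul_nonneg (Nat.cast_nonneg _) hP0
  have h1 : T * (1 - s / 2) ≤ (S.card * P * (1 + 2 * s + 2 * (lam * d))) * (1 - s / 2) := by
    refine hstep.trans ?_
    calc _ ≤ S.card * P * ((1 + 2 * s + 2 * (lam * d)) * (1 - s / 2)) := mul_le_mul_of_nonneg_left hfin hSP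
      _ = _ := by ring
  have h2 : 0 < 1 - s / 2 := by linarith
  rw [← hT, ← hP, ← hs]
  exact le_of_mul_le_mul_right h1 h2

end Pool.Agent.W_cd7020_h81b
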