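import Pool.Agent.W_cd7020_h81b.ColB

/-!
# Rotations: definitions
-/

set_option autoImplicit false

namespace Pool.Agent.W_cd7020_h81b

open Finset Pool.Agent.W_cd7020_h81

variable {V κ : Type*} [DecidableEq V] [DecidableEq κ]

/-- The list `P` with the set of edges `F` is obtained from `P₀`, `F₀` by at most `j` rotations
which keep the last vertex and whose new edges have colours in `B`. -/
structure Rot (col : Sym2 V → κ) (B : Finset κ) (P₀ : List V) (F₀ : Finset (Sym2 V)) (j : ℕ)
    (P : List V) (F : Finset (Sym2 V)) : Prop where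
  perm : P.Perm P₀
  last : P.getLast? = P₀.getLast?
  real : ∀ e ∈ F, e ∈ pe P
  card : F.card = F₀.card
  rb : Rb col F
  cols : ∀ e ∈ F, e ∉ F₀ → col e ∈ B
  few : (F \ F₀).card ≤ j
  new : ∀ e ∈ pe P, e ∉ pe P₀ → e ∈ F \ F₀
  lost : ((pe P₀).toFinset \ (pe P).toFinset).card ≤ j

/-- An improvement: one more edge. -/
def Suc (col : Sym2 V → κ) (B : Finset κ) (P₀ : List V) (F₀ : Finset (Sym2 V)) (j : ℕ) : Prop :=
  ∃ P F, P.Perm P₀ ∧ P.getLast? = P₀.getLast? ∧ (∀ e ∈ F, e ∈ pe P) ∧
    F.card = F₀.card + 1 ∧ Rb col F ∧ (∀ e ∈ F, e ∉ F₀ → col e ∈ B) ∧ (F \ F₀).card ≤ j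

/-- The elements of a list other than the first and the last. -/
def inner (C : List V) : List V := C.tail.dropLast

/-- The `i`-th block of length `s` of a list. -/
def blk (Q : List V) (s i : ℕ) : List V := (Q.drop (i * s)).take s

end Pool.Agent.W_cd7020_h81b
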