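import Pool.Agent.W_cd7020_h81b.RDefs

/-!
# One rotation
-/

set_option autoImplicit false

namespace Pool.Agent.W_cd7020_h81b

open Finset Pool.Agent.W_cd7020_h81

variable {V κ : Type*} [DecidableEq V] [DecidableEq κ]

/-- No rotation. -/
theorem Rot_refl (col : Sym2 V → κ) (B : Finset κ) (P₀ : List V) (F₀ : Finset (Sym2 V))
    (hF : ∀ e ∈ F₀, e ∈ pe P₀) (hFr : Rb col F₀) (j : ℕ) : Rot col B P₀ F₀ j P₀ F₀ where
  perm := List.Perm.refl _
  last := rfl
  real := hF
  card := rfl
  rb := hFr
  cols := fun e h h' => absurd h h'
  few := by simp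
  new := fun e h h' => absurd h h'
  lost := by simp

theorem Rot_mono (col : Sym2 V → κ) (B : Finset κ) (P₀ P : List V) (F₀ F : Finset (Sym2 V))
    (i j : ℕ) (hij : i ≤ j) (h : Rot col B P₀ F₀ i P F) : Rot col B P₀ F₀ j P F where
  perm := h.perm
  last := h.last
  real := h.real
  card := h.card
  rb := h.rb
  cols := h.cols
  few := h.few.trans hij
  new := h.new
  lost := h.lost.trans hij

/-- The pairs after a rotation. The list is `A ++ u :: y :: D` with first vertex `x`; the new list
is `u :: A.reverse ++ y :: D = (A ++ [u]).reverse ++ y :: D`; its pairs are the old ones without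
`s(u, y)` and with `s(x, y)`. (`pe_append`, `mem_pe_reverse`; for `←` use that the list has no
repetition, so `s(u, y)` occurs only once. For `A = []` we have `u = x` and both sides are the
pairs of the same list.) -/
theorem pe_rot (A D : List V) (u y x : V) (hx : (A ++ u :: y :: D).head? = some x)
    (hnd : (A ++ u :: y :: D).Nodup) (e : Sym2 V) :
    e ∈ pe (u :: A.reverse ++ y :: D) ↔
      (e ∈ pe (A ++ u :: y :: D) ∧ e ≠ s(u, y)) ∨ e = s(x, y) := by
  cases A with
  | nil =>
    have hux : u = x := by simpa using hx
    subst hux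
    have h1 : (u :: ([] : List V).reverse ++ y :: D) = [] ++ u :: y :: D := rfl
    rw [h1]
    have h2 : s(u, y) ∈ pe ([] ++ u :: y :: D) := by
      change s(u, y) ∈ pe (u :: y :: D)
      rw [pe_cons_cons]
      exact List.mem_cons_self
    by_cases he : e = s(u, y)
    · subst he
      simp only [h2, true_iff]
      right
      trivial
    · simp only [he, or_false, ne_eq, not_false_eq_true, and_true]
  | cons z A' =>
    have hz : z = x := by simpa using hx
    subst hz
    have h1 : (u :: (z :: A').reverse ++ y :: D) = (u :: A'.reverse) ++ z :: y :: D := by simp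
    have h2 : (u :: A'.reverse) ++ [z] = (z :: A' ++ [u]).reverse := by simp
    rw [h1, pe_append, h2, pe_append]
    simp only [List.mem_append, List.mem_cons, mem_pe_reverse]
    have h3 : s(u, y) ∉ pe (z :: A' ++ [u]) := by
      intro h
      have h4 := Pe_mem _ _ h y (Sym2.mem_mk_right u y)
      rw [List.nodup_append] at hnd
      rw [List.mem_append, List.mem_singleton] at h4
      rcases h4 with h4 | h4
      · exact hnd.2.2 y h4 y (by simp) rfl
      · subst h4
        simp at hnd
    have h5 : s(u, y) ∉ pe (y :: D) := by
      intro h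
      have h4 := Pe_mem _ _ h u (Sym2.mem_mk_left u y)
      rw [List.nodup_append] at hnd
      have h6 := hnd.2.1
      rw [List.nodup_cons] at h6
      exact h6.1 h4
    constructor
    · rintro (h | h | h)
      · left
        refine ⟨Or.inl h, ?_⟩
        rintro rfl
        exact h3 h
      · right
        exact h
      · left
        refine ⟨Or.inr (Or.inr h), ?_⟩
        rintro rfl
        exact h5 h
    · rintro (⟨h | h | h, h'⟩ | h)
      · exact Or.inl h
      · exact absurd h h'
      · exact Or.inr (Or.inr h)
      · exact Or.inr (Or.inl h)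

/-- One rotation. If `s(u, y)` is not in `F`, then `insert s(x, y) F` is an improvement on the
rotated list `u :: A.reverse ++ y :: D` (`s(x, y)` is not in `F` because its colour is not used;
if `A = []` then `u = x` and `s(x, y) = s(u, y)` is a pair of the same list). Otherwise take
`F' = insert s(x, y) (F.erase s(u, y))` on the rotated list. The edge `s(x, y)` is not in `F₀` because
the colours of `F₀` are not in `B`. -/
theorem rot_step (col : Sym2 V → κ) (B : Finset κ) (P₀ : List V) (F₀ : Finset (Sym2 V)) (j : ℕ)
    (F : Finset (Sym2 V)) (A D : List V) (u y x : V) (hP₀ : P₀.Nodup)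
    (hFB : ∀ e ∈ F₀, col e ∉ B)
    (h : Rot col B P₀ F₀ j (A ++ u :: y :: D) F)
    (hx : (A ++ u :: y :: D).head? = some x) (hb : col s(x, y) ∈ B)
    (hnew : ∀ e ∈ F, col e ≠ col s(x, y)) (hold : s(u, y) ∈ pe P₀) :
    Suc col B P₀ F₀ (j + 1) ∨
      ∃ F', Rot col B P₀ F₀ (j + 1) (u :: A.reverse ++ y :: D) F' := by
  have hnd : (A ++ u :: y :: D).Nodup := h.perm.nodup_iff.mpr hP₀
  have hpe := pe_rot A D u y x hx hnd
  have hperm : (u :: A.reverse ++ y :: D).Perm P₀ := by
    refine List.Perm.trans ?_ h.perm
    have h1 : A ++ u :: y :: D = (A ++ [u]) ++ y :: D := by simp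
    have h2 : u :: A.reverse ++ y :: D = (A ++ [u]).reverse ++ y :: D := by simp
    rw [h1, h2]
    exact List.Perm.append_right _ (List.reverse_perm _)
  have hlast : (u :: A.reverse ++ y :: D).getLast? = P₀.getLast? := by
    rw [← h.last]
    have h1 : A ++ u :: y :: D = (A ++ [u]) ++ y :: D := by simp
    rw [h1, List.getLast?_append_of_ne_nil _ (by simp), List.getLast?_append_of_ne_nil _ (by simp)]
  have he0F : s(x, y) ∉ F := fun h1 => hnew _ h1 rfl
  have he0F₀ : s(x, y) ∉ F₀ := fun h1 => hFB _ h1 hb
  by_cases huy : s(u, y) ∈ F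
  · right
    refine ⟨insert s(x, y) (F.erase s(u, y)), ?_⟩
    have hne : s(x, y) ∉ F.erase s(u, y) := fun h1 => he0F (Finset.mem_of_mem_erase h1)
    refine ⟨hperm, hlast, ?_, ?_, ?_, ?_, ?_, ?_, ?_⟩
    · intro e he
      rw [hpe]
      rw [Finset.mem_insert, Finset.mem_erase] at he
      rcases he with he | ⟨he1, he2⟩
      · exact Or.inr he
      · exact Or.inl ⟨h.real e he2, he1⟩
    · rw [Finset.card_insert_of_notMem hne, Finset.card_erase_add_one huy, h.card]
    · intro e he e' he' hee
      rw [Finset.mem_insert, Finset.mem_erase] at he he'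
      rcases he with rfl | ⟨he1, he2⟩
      · rcases he' with rfl | ⟨he1', he2'⟩
        · rfl
        · exact absurd hee.symm (hnew _ he2')
      · rcases he' with rfl | ⟨he1', he2'⟩
        · exact absurd hee (hnew _ he2)
        · exact h.rb _ he2 _ he2' hee
    · intro e he he'
      rw [Finset.mem_insert, Finset.mem_erase] at he
      rcases he with rfl | ⟨he1, he2⟩
      · exact hb
      · exact h.cols e he2 he'
    · have hsub : insert s(x, y) (F.erase s(u, y)) \ F₀ ⊆ insert s(x, y) (F \ F₀) := by
        intro e he
        rw [Finset.mem_sdiff, Finset.mem_insert, Finset.mem_erase] at he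
        rw [Finset.mem_insert, Finset.mem_sdiff]
        rcases he with ⟨he | he, he'⟩
        · exact Or.inl he
        · exact Or.inr ⟨he.2, he'⟩
      refine (Finset.card_le_card hsub).trans ((Finset.card_insert_le _ _).trans ?_)
      have := h.few
      omega
    · intro e he he'
      rw [hpe] at he
      rw [Finset.mem_sdiff, Finset.mem_insert, Finset.mem_erase]
      rcases he with ⟨h1, h2⟩ | rfl
      · have h3 := h.new e h1 he'
        rw [Finset.mem_sdiff] at h3
        exact ⟨Or.inr ⟨h2, h3.1⟩, h3.2⟩
      · exact ⟨Or.inl rfl, he0F₀⟩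
    · have hsub : (pe P₀).toFinset \ (pe (u :: A.reverse ++ y :: D)).toFinset ⊆
          insert s(u, y) ((pe P₀).toFinset \ (pe (A ++ u :: y :: D)).toFinset) := by
        intro e he
        rw [Finset.mem_sdiff, List.mem_toFinset, List.mem_toFinset] at he
        rw [Finset.mem_insert, Finset.mem_sdiff, List.mem_toFinset, List.mem_toFinset]
        by_cases h1 : e = s(u, y)
        · exact Or.inl h1
        · refine Or.inr ⟨he.1, fun h2 => he.2 ?_⟩
          rw [hpe]
          exact Or.inl ⟨h2, h1⟩
      refine (Finset.card_le_card hsub).trans ((Finset.card_insert_le _ _).trans ?_)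
      have := h.lost
      omega
  · left
    refine ⟨u :: A.reverse ++ y :: D, insert s(x, y) F, hperm, hlast, ?_, ?_, ?_, ?_, ?_⟩
    · intro e he
      rw [hpe]
      rw [Finset.mem_insert] at he
      rcases he with he | he
      · exact Or.inr he
      · refine Or.inl ⟨h.real e he, ?_⟩
        rintro rfl
        exact huy he
    · rw [Finset.card_insert_of_notMem he0F, h.card]
    · intro e he e' he' hee
      rw [Finset.mem_insert] at he he'
      rcases he with rfl | he2
      · rcases he' with rfl | he2'
        · rfl
        · exact absurd hee.symm (hnew _ he2')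
      · rcases he' with rfl | he2'
        · exact absurd hee (hnew _ he2)
        · exact h.rb _ he2 _ he2' hee
    · intro e he he'
      rw [Finset.mem_insert] at he
      rcases he with rfl | he2
      · exact hb
      · exact h.cols e he2 he'
    · have hsub : insert s(x, y) F \ F₀ ⊆ insert s(x, y) (F \ F₀) := by
        intro e he
        rw [Finset.mem_sdiff, Finset.mem_insert] at he
        rw [Finset.mem_insert, Finset.mem_sdiff]
        rcases he with ⟨he | he, he'⟩
        · exact Or.inl he
        · exact Or.inr ⟨he, he'⟩
      refine (Finset.card_le_card hsub).trans ((Finset.card_insert_le _ _).trans ?_)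
      have := h.few
      omega

end Pool.Agent.W_cd7020_h81b
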