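import Pool.Agent.W_cd7020_h81b.RotA

/-!
# Expansion from the mixing property
-/

set_option autoImplicit false

namespace Pool.Agent.W_cd7020_h81b

open Finset Pool.Agent.W_cd7020_h81

variable {V κ : Type*} [DecidableEq V] [DecidableEq κ] [Fintype V]

/-- Expansion from the mixing property: if every `x ∈ X` has at least `d` joined vertices in `N`
and `4 a ≤ d`, then `|N| ≥ min (d n / (2 |B|), 4 |X|)`.
`d |X| ≤ eB B X N ≤ |B|/n |X| |N| + a √(|X| |N|)`; one of the two terms is at least `d |X| / 2`. -/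
theorem RotB_exp (col : Sym2 V → κ) (B : Finset κ) (a : ℝ) (ha : 0 ≤ a) (hB : Mix col B a)
    (X N : Finset V) (d : ℕ) (hd1 : 1 ≤ d) (hd : 4 * a ≤ d)
    (hX : ∀ x ∈ X, d ≤ (N.filter (fun y => x ≠ y ∧ col s(x, y) ∈ B)).card) :
    (d : ℝ) * Fintype.card V ≤ 2 * B.card * N.card ∨ 4 * X.card ≤ N.card := by
  by_contra hcon
  rw [not_or] at hcon
  obtain ⟨h1, h2⟩ := hcon
  rw [not_le] at h1 h2
  have hXpos : 0 < X.card := by omega
  have hXne : X.Nonempty := Finset.card_pos.1 hXpos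
  obtain ⟨x₀, hx₀⟩ := hXne
  have hn : 0 < Fintype.card V := Fintype.card_pos_iff.2 ⟨x₀⟩
  have hnR : (0 : ℝ) < Fintype.card V := by exact_mod_cast hn
  have hdR : (0 : ℝ) < d := by exact_mod_cast hd1
  have hXR : (0 : ℝ) < X.card := by exact_mod_cast hXpos
  have h3 : (d : ℝ) * X.card ≤ eB col B X N := by
    rw [eB_eq_sum]
    have h4 : X.card * d ≤ ∑ x ∈ X, (N.filter (fun y => x ≠ y ∧ col s(x, y) ∈ B)).card := by
      rw [← smul_eq_mul, ← Finset.sum_const]
      exact Finset.sum_le_sum hX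
    have h5 : ((X.card * d : ℕ) : ℝ) ≤
        ((∑ x ∈ X, (N.filter (fun y => x ≠ y ∧ col s(x, y) ∈ B)).card : ℕ) : ℝ) := by
      exact_mod_cast h4
    rw [Nat.cast_mul, mul_comm] at h5
    exact h5
  have h6 := (abs_le.1 (hB X N)).2
  set r := Real.sqrt ((X.card : ℝ) * (N.card : ℝ)) with hr
  have hr0 : 0 ≤ r := Real.sqrt_nonneg _
  have hrr : r * r = (X.card : ℝ) * (N.card : ℝ) := Real.mul_self_sqrt (by positivity)
  have h7 : (B.card : ℝ) / (Fintype.card V : ℝ) * ((X.card : ℝ) * (N.card : ℝ)) ≤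
      (d : ℝ) * X.card / 2 := by
    rw [div_mul_eq_mul_div, div_le_div_iff₀ hnR (by norm_num)]
    have : 2 * (B.card : ℝ) * N.card * X.card ≤ (d : ℝ) * Fintype.card V * X.card :=
      mul_le_mul_of_nonneg_right h1.le hXR.le
    linarith
  have h8 : (d : ℝ) * X.card / 2 ≤ a * r := by linarith
  have h9 : a * r ≤ (d : ℝ) / 4 * r := mul_le_mul_of_nonneg_right (by linarith) hr0
  have h10 : 2 * (X.card : ℝ) ≤ r := by
    have h11 : (d : ℝ) * (2 * X.card) ≤ d * r := by linarith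
    exact le_of_mul_le_mul_left h11 hdR
  have h12 : (2 * (X.card : ℝ)) * (2 * X.card) ≤ (X.card : ℝ) * N.card := by
    rw [← hrr]
    exact mul_self_le_mul_self (by positivity) h10
  have h13 : 4 * (X.card : ℝ) ≤ N.card := by
    have h14 : (X.card : ℝ) * (4 * X.card) ≤ X.card * N.card := by linarith
    exact le_of_mul_le_mul_left h14 hXR
  have h15 : 4 * X.card ≤ N.card := by exact_mod_cast h13
  omega

end Pool.Agent.W_cd7020_h81b
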