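import Pool.Agent.W_cd7020_h81b.RotE
import Pool.Agent.W_cd7020_h81b.RotO

/-!
# Expansion of the set of first vertices
-/

set_option autoImplicit false

namespace Pool.Agent.W_cd7020_h81b

open Finset Pool.Agent.W_cd7020_h81

variable {V κ : Type*} [DecidableEq V] [DecidableEq κ] [Fintype V]

/-- The expansion lemma. Suppose there is no improvement with at most `J` new edges. Show by
induction on `j ≤ J` that there is a set `X` of first vertices in `Gd` of lists reachable with at
most `j` rotations with `d n ≤ 4 |B| |X|` or `2 ^ j ≤ |X|`. Step: choose for every `x ∈ X` a list, let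
`O x` be its options (`RotB_options`), `N = ⋃ O x`; `RotB_exp` gives
`d n ≤ 2 |B| |N|` or `4 |X| ≤ |N|`. The map which sends `y ∈ N` to (one of) its `u` is at most
two-to-one as `s(u, y) ∈ pe P₀` (`pe_deg`), its values are in `Gd` (`hYG`) and are first vertices of
lists reachable with `j + 1` rotations. So `|X'| ≥ |N| / 2`. At the end `2 ^ J ≥ n ≥ |X|`; if
`2 ^ J ≤ |X|`, then `d n ≤ |B| n ≤ 4 |B| |X|`. -/
theorem rot_expand (col : Sym2 V → κ) (hcol : Proper col) (B : Finset κ) (a : ℝ) (ha : 0 ≤ a)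
    (hB : Mix col B a) (P₀ : List V) (F₀ : Finset (Sym2 V)) (hP₀ : P₀.Nodup)
    (hF : ∀ e ∈ F₀, e ∈ pe P₀) (hFr : Rb col F₀) (hFB : ∀ e ∈ F₀, col e ∉ B) (J d : ℕ)
    (hJ : Fintype.card V ≤ 2 ^ J) (Gd Y : Finset V) (x₀ : V) (hx₀ : P₀.head? = some x₀)
    (hx₀G : x₀ ∈ Gd) (hY : ∀ y ∈ Y, y ∈ P₀) (hYG : ∀ y ∈ Y, ∀ x, s(x, y) ∈ pe P₀ → x ∈ Gd)
    (hd : ∀ x ∈ Gd, d + 2 * J ≤ (Y.filter (fun y => y ≠ x ∧ col s(x, y) ∈ B)).card)
    (hd1 : 1 ≤ d) (had : 4 * a ≤ d) (hdB : d ≤ B.card) :
    Suc col B P₀ F₀ J ∨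
      ∃ X : Finset V, (d : ℝ) * Fintype.card V ≤ 4 * B.card * X.card ∧
        ∀ x ∈ X, x ∈ Gd ∧ ∃ P F, Rot col B P₀ F₀ J P F ∧ P.head? = some x := by
  classical
  by_cases hSJ : Suc col B P₀ F₀ J
  · exact Or.inl hSJ
  right
  have key : ∀ j : ℕ, j ≤ J → ∃ X : Finset V,
      ((d : ℝ) * Fintype.card V ≤ 4 * B.card * X.card ∨ 2 ^ j ≤ X.card) ∧
        ∀ x ∈ X, x ∈ Gd ∧ ∃ P F, Rot col B P₀ F₀ j P F ∧ P.head? = some x := by
    intro j
    induction j with
    | zero =>
      intro _
      refine ⟨{x₀}, Or.inr (by simp), ?_⟩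
      intro x hx
      rw [Finset.mem_singleton] at hx
      subst hx
      exact ⟨hx₀G, P₀, F₀, Rot_refl col B P₀ F₀ hF hFr 0, hx₀⟩
    | succ j ih =>
      intro hj
      obtain ⟨X, hX1, hX2⟩ := ih (by omega)
      rcases hX1 with hX1 | hX1
      · refine ⟨X, Or.inl hX1, ?_⟩
        intro x hx
        obtain ⟨h1, P, F, h2, h3⟩ := hX2 x hx
        exact ⟨h1, P, F, Rot_mono col B P₀ P F₀ F j (j + 1) (by omega) h2, h3⟩
      · have hns : ¬ Suc col B P₀ F₀ (j + 1) := by
          rintro ⟨P, F, h1, h2, h3, h4, h5, h6, h7⟩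
          exact hSJ ⟨P, F, h1, h2, h3, h4, h5, h6, h7.trans hj⟩
        have hO : ∀ x : V, ∃ O : Finset V, x ∈ X → O ⊆ Y ∧ d ≤ O.card ∧
            ∀ y ∈ O, x ≠ y ∧ col s(x, y) ∈ B ∧ ∃ u P' F', s(u, y) ∈ pe P₀ ∧
              P'.head? = some u ∧ Rot col B P₀ F₀ (j + 1) P' F' := by
          intro x
          by_cases hx : x ∈ X
          · obtain ⟨h1, P, F, h2, h3⟩ := hX2 x hx
            obtain ⟨O, hO⟩ := RotB_options col hcol B P₀ F₀ hP₀ hFB J d j (by omega) Y hY P F x h3
              h2 (hd x h1) hns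
            exact ⟨O, fun _ => hO⟩
          · exact ⟨∅, fun hc => absurd hc hx⟩
        choose O hO using hO
        set N := X.biUnion O with hN
        have hNu : ∀ y : V, ∃ u : V, y ∈ N → s(u, y) ∈ pe P₀ ∧ u ∈ Gd ∧
            ∃ P F, Rot col B P₀ F₀ (j + 1) P F ∧ P.head? = some u := by
          intro y
          by_cases hy : y ∈ N
          · obtain ⟨x, hx, hyx⟩ := Finset.mem_biUnion.1 hy
            obtain ⟨hOY, _, hO3⟩ := hO x hx
            obtain ⟨_, _, u, P', F', hu, hPh, hR⟩ := hO3 y hyx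
            exact ⟨u, fun _ => ⟨hu, hYG y (hOY hyx) u hu, P', F', hR, hPh⟩⟩
          · exact ⟨y, fun hc => absurd hc hy⟩
        choose u hu using hNu
        have hcard : N.card ≤ 2 * (N.image u).card := by
          apply Finset.card_le_mul_card_image
          intro v _
          refine le_trans (Finset.card_le_card_of_injOn (fun y => s(v, y)) ?_ ?_)
            (pe_deg P₀ hP₀ v)
          · intro y hy
            have hy0 : y ∈ N.filter (fun y => u y = v) := hy
            obtain ⟨hy1, hy2⟩ := Finset.mem_filter.1 hy0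
            have h1 := (hu y hy1).1
            rw [hy2] at h1
            change s(v, y) ∈ (pe P₀).toFinset.filter (fun e => v ∈ e)
            exact Finset.mem_filter.2 ⟨List.mem_toFinset.2 h1, Sym2.mem_mk_left v y⟩
          · intro y _ z _ hyz
            exact Sym2.congr_right.1 hyz
        have hexp : ∀ x ∈ X, d ≤ (N.filter (fun y => x ≠ y ∧ col s(x, y) ∈ B)).card := by
          intro x hx
          obtain ⟨_, hO2, hO3⟩ := hO x hx
          refine hO2.trans (Finset.card_le_card ?_)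
          intro y hy
          obtain ⟨h1, h2, _⟩ := hO3 y hy
          exact Finset.mem_filter.2 ⟨Finset.mem_biUnion.2 ⟨x, hx, hy⟩, h1, h2⟩
        refine ⟨N.image u, ?_, ?_⟩
        · rcases RotB_exp col B a ha hB X N d hd1 had hexp with h1 | h1
          · left
            refine h1.trans ?_
            have h2 : (N.card : ℝ) ≤ 2 * (N.image u).card := by exact_mod_cast hcard
            have h3 : 2 * (B.card : ℝ) * N.card ≤ 2 * (B.card : ℝ) * (2 * (N.image u).card) :=
              mul_le_mul_of_nonneg_left h2 (by positivity)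
            linarith
          · right
            have h2 : 2 ^ (j + 1) = 2 * 2 ^ j := by ring
            omega
        · intro x hx
          obtain ⟨y, hy, rfl⟩ := Finset.mem_image.1 hx
          exact (hu y hy).2
  obtain ⟨X, hX1, hX2⟩ := key J le_rfl
  refine ⟨X, ?_, hX2⟩
  rcases hX1 with hX1 | hX1
  · exact hX1
  · have h1 : (Fintype.card V : ℝ) ≤ X.card := by exact_mod_cast hJ.trans hX1
    have h2 : (d : ℝ) ≤ B.card := by exact_mod_cast hdB
    have h3 : (d : ℝ) * Fintype.card V ≤ B.card * X.card :=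
      mul_le_mul h2 h1 (by positivity) (by positivity)
    have h4 : (0 : ℝ) ≤ (B.card : ℝ) * X.card := by positivity
    linarith

end Pool.Agent.W_cd7020_h81b
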