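import Pool.Agent.W_cd7020_h81b.FDefs
import Pool.Agent.W_cd7020_h81b.ColY

/-!
# Averages over a group: the old pool
-/

set_option autoImplicit false

namespace Pool.Agent.W_cd7020_h81b

open Finset Pool.Agent.W_cd7020_h81

variable {V κ : Type*} [DecidableEq V] [DecidableEq κ] [Fintype V]

theorem SelA2_sdiff (col : Sym2 V → κ) (R : Finset κ) (w : ℕ → κ) (m : ℕ)
    (hmem : ∀ i < m, w i ∈ R) (hinj : ∀ i < m, ∀ j < m, w i = w j → i = j) :
    SM col (R \ (range m).image w) = SM col R + -(∑ i ∈ range m, YM col (w i)) := by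
  unfold SM
  have h1 : (range m).image w ⊆ R := by
    intro k hk
    obtain ⟨i, hi, rfl⟩ := Finset.mem_image.1 hk
    exact hmem i (Finset.mem_range.1 hi)
  have h2 : ∑ k ∈ (range m).image w, YM col k = ∑ i ∈ range m, YM col (w i) := by
    apply Finset.sum_image
    intro i hi j hj h
    exact hinj i (Finset.mem_range.1 hi) j (Finset.mem_range.1 hj) h
  rw [← Finset.sum_sdiff h1, h2]
  abel

theorem SelA2_qf_neg (A : Matrix V V ℝ) (f g : V → ℝ) : qf (-A) f g = -qf A f g := by
  have h : -A = (-1 : ℝ) • A := by simp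
  rw [h, qf_smul]
  ring

theorem SelA2_qf_zero (f g : V → ℝ) : qf (0 : Matrix V V ℝ) f g = 0 := by
  unfold qf
  simp

theorem SelA2_qf_le (col : Sym2 V → κ) (hcol : Proper col) (k : κ) (v : V → ℝ) :
    |qf (YM col k) v v| ≤ 2 * ∑ a, v a ^ 2 := by
  have h := YM_qf col hcol k v v
  rw [← nr_sq]
  calc |qf (YM col k) v v| ≤ 2 * nr v * nr v := h
    _ = 2 * nr v ^ 2 := by ring

open Classical in
theorem SelA2_fib {Ω : Type*} (al : Finset Ω) (R : Finset κ) (w : Ω → κ)
    (hmem : ∀ o ∈ al, w o ∈ R) (y : κ → ℝ) :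
    ∑ o ∈ al, y (w o) = ∑ k ∈ R, ((al.filter (fun o => w o = k)).card : ℝ) * y k := by
  rw [← Finset.sum_fiberwise_of_maps_to hmem]
  refine Finset.sum_congr rfl fun k _ => ?_
  rw [Finset.sum_congr rfl (g := fun _ => y k)]
  · rw [Finset.sum_const, nsmul_eq_mul]
  · intro o ho
    rw [(Finset.mem_filter.1 ho).2]

open Classical in
/-- The old pool: `X o = - ∑ i < m, YM (ub o i)` for `o ∈ al` and `0` otherwise. Here
`∑ o, qf (X o) v v = - ∑ i < m, ∑ k ∈ R, c i k qf (YM k) v v` and `|R| c i k ≤ |Om|`, so `pot_avg` applies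
with `γ = m / |R|`, `d = 2 m loss`, `x = 2 m`. -/
theorem avg_del (col : Sym2 V → κ) (hcol : Proper col) {Ω : Type*} (Om al : Finset Ω)
    (hsub : al ⊆ Om) (loss : ℝ) (hdead : ((Om.card : ℝ) - al.card) ≤ loss * Om.card)
    (R : Finset κ) (hR1 : 1 ≤ R.card) (ub : Ω → ℕ → κ) (m : ℕ)
    (hflat : ∀ i < m, ∀ k, (R.card : ℝ) * (al.filter (fun o => ub o i = k)).card ≤ Om.card)
    (hmem : ∀ o ∈ al, ∀ i < m, ub o i ∈ R)
    (hinj : ∀ o ∈ al, ∀ i < m, ∀ j < m, ub o i = ub o j → i = j)
    (lam : ℝ) (hlam : 0 ≤ lam) (hx : lam * (2 * m) ≤ 1) :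
    ∑ o ∈ Om, pot (SM col (if o ∈ al then R \ (range m).image (ub o) else R)) lam ≤
      Om.card * pot (SM col R) lam * (1 + 2 * (lam ^ 2 * (2 * m) ^ 2) +
        2 * (lam * (m * (2 * loss)))) := by
  rcases Finset.eq_empty_or_nonempty Om with hO | hO
  · subst hO
    simp
  have hOc : (0 : ℝ) < Om.card := by exact_mod_cast hO.card_pos
  have hRc : (0 : ℝ) < R.card := by exact_mod_cast hR1
  have hal : (al.card : ℝ) ≤ Om.card := by exact_mod_cast Finset.card_le_card hsub
  have hloss : 0 ≤ loss := by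
    by_contra hneg
    push Not at hneg
    have := mul_neg_of_neg_of_pos hneg hOc
    linarith
  obtain ⟨X, hX⟩ : ∃ X : Ω → Matrix V V ℝ,
      X = fun o => if o ∈ al then -(∑ i ∈ range m, YM col (ub o i)) else 0 := ⟨_, rfl⟩
  have hX1 : ∀ o ∈ al, X o = -(∑ i ∈ range m, YM col (ub o i)) := by
    intro o ho
    rw [hX]
    simp only
    rw [if_pos ho]
  have hX0 : ∀ o, o ∉ al → X o = 0 := by
    intro o ho
    rw [hX]
    simp only
    rw [if_neg ho]
  have hsum : ∑ o ∈ Om, pot (SM col (if o ∈ al then R \ (range m).image (ub o) else R)) lam =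
      ∑ o ∈ Om, pot (SM col R + X o) lam := by
    refine Finset.sum_congr rfl fun o _ => ?_
    by_cases ho : o ∈ al
    · rw [if_pos ho, hX1 o ho, SelA2_sdiff col R (ub o) m (hmem o ho) (hinj o ho)]
    · rw [if_neg ho, hX0 o ho, add_zero]
  rw [hsum]
  refine pot_avg Om (SM col R) (SM_herm col R) X ?_ lam (2 * m) (m * (2 * loss)) (m / R.card) hlam
    (by positivity) (by positivity) (by positivity) hx ?_ ?_
  · intro o _
    by_cases ho : o ∈ al
    · rw [hX1 o ho]
      exact (sumYM_herm col (range m) (ub o)).neg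
    · rw [hX0 o ho]
      exact Matrix.isHermitian_zero
  · intro o _ v
    by_cases ho : o ∈ al
    · rw [hX1 o ho]
      have h := sumYM_norm col hcol (range m) (ub o) v
      rw [Finset.card_range] at h
      refine le_trans (le_of_eq ?_) h
      refine Finset.sum_congr rfl fun a _ => ?_
      rw [Matrix.neg_mulVec, Pi.neg_apply, neg_sq]
    · rw [hX0 o ho]
      simp only [Matrix.zero_mulVec, Pi.zero_apply]
      have h0 : 0 ≤ ∑ a, v a ^ 2 := Finset.sum_nonneg fun a _ => sq_nonneg _
      have : ∑ _a : V, (0 : ℝ) ^ 2 = 0 := by simp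
      rw [this]
      positivity
  · intro v
    obtain ⟨y, hy⟩ : ∃ y : κ → ℝ, y = fun k => qf (YM col k) v v := ⟨_, rfl⟩
    obtain ⟨N, hN⟩ : ∃ N : ℝ, N = ∑ a, v a ^ 2 := ⟨_, rfl⟩
    have hyN : ∀ k, |y k| ≤ 2 * N := by
      intro k
      rw [hy, hN]
      exact SelA2_qf_le col hcol k v
    have hN0 : 0 ≤ N := by
      rw [hN]
      exact Finset.sum_nonneg fun a _ => sq_nonneg _
    rw [← hN]
    -- the first sum
    have h1 : ∑ o ∈ Om, qf (X o) v v = -∑ i ∈ range m, ∑ k ∈ R,
        ((al.filter (fun o => ub o i = k)).card : ℝ) * y k := by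
      have h2 : ∑ o ∈ Om, qf (X o) v v = ∑ o ∈ al, qf (X o) v v := by
        symm
        apply Finset.sum_subset hsub
        intro o _ ho
        rw [hX0 o ho, SelA2_qf_zero]
      have h3 : ∑ o ∈ al, qf (X o) v v = ∑ o ∈ al, -∑ i ∈ range m, y (ub o i) := by
        refine Finset.sum_congr rfl fun o ho => ?_
        rw [hX1 o ho, SelA2_qf_neg, qf_sum, hy]
      rw [h2, h3, Finset.sum_neg_distrib, Finset.sum_comm]
      congr 1
      refine Finset.sum_congr rfl fun i hi => ?_
      exact SelA2_fib al R (fun o => ub o i) (fun o ho => hmem o ho i (Finset.mem_range.1 hi)) y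
    have h2 : (Om.card : ℝ) * (m / R.card) * qf (SM col R) v v =
        ∑ _i ∈ range m, ∑ k ∈ R, ((Om.card : ℝ) / R.card) * y k := by
      have h3 : qf (SM col R) v v = ∑ k ∈ R, y k := by
        unfold SM
        rw [qf_sum, hy]
      rw [h3, Finset.sum_const, Finset.card_range, nsmul_eq_mul, ← Finset.mul_sum]
      ring
    have h3 : ∑ o ∈ Om, qf (X o) v v + (Om.card : ℝ) * (m / R.card) * qf (SM col R) v v =
        ∑ i ∈ range m, ∑ k ∈ R,
          ((Om.card : ℝ) / R.card - ((al.filter (fun o => ub o i = k)).card : ℝ)) * y k := by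
      rw [h1, h2, neg_add_eq_sub, ← Finset.sum_sub_distrib]
      refine Finset.sum_congr rfl fun i _ => ?_
      rw [← Finset.sum_sub_distrib]
      refine Finset.sum_congr rfl fun k _ => ?_
      ring
    have h4 : ∀ i ∈ range m, |∑ k ∈ R,
        ((Om.card : ℝ) / R.card - ((al.filter (fun o => ub o i = k)).card : ℝ)) * y k| ≤
        loss * Om.card * (2 * N) := by
      intro i hi
      have him := Finset.mem_range.1 hi
      have hc0 : ∀ k, 0 ≤ (Om.card : ℝ) / R.card -
          ((al.filter (fun o => ub o i = k)).card : ℝ) := by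
        intro k
        rw [sub_nonneg, le_div_iff₀ hRc]
        have := hflat i him k
        linarith
      have hcs : ∑ k ∈ R, ((Om.card : ℝ) / R.card -
          ((al.filter (fun o => ub o i = k)).card : ℝ)) = Om.card - al.card := by
        rw [Finset.sum_sub_distrib, Finset.sum_const, nsmul_eq_mul, mul_div_cancel₀ _ hRc.ne']
        congr 1
        have h5 := SelA2_fib al R (fun o => ub o i) (fun o ho => hmem o ho i him) (fun _ => (1 : ℝ))
        simp only [mul_one, Finset.sum_const, nsmul_eq_mul] at h5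
        exact h5.symm
      calc |∑ k ∈ R, ((Om.card : ℝ) / R.card -
            ((al.filter (fun o => ub o i = k)).card : ℝ)) * y k|
          ≤ ∑ k ∈ R, |((Om.card : ℝ) / R.card -
            ((al.filter (fun o => ub o i = k)).card : ℝ)) * y k| := Finset.abs_sum_le_sum_abs _ _
        _ ≤ ∑ k ∈ R, ((Om.card : ℝ) / R.card -
            ((al.filter (fun o => ub o i = k)).card : ℝ)) * (2 * N) := by
            refine Finset.sum_le_sum fun k _ => ?_
            rw [abs_mul, abs_of_nonneg (hc0 k)]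
            exact mul_le_mul_of_nonneg_left (hyN k) (hc0 k)
        _ = ((Om.card : ℝ) - al.card) * (2 * N) := by rw [← Finset.sum_mul, hcs]
        _ ≤ loss * Om.card * (2 * N) := mul_le_mul_of_nonneg_right hdead (by positivity)
    rw [h3]
    calc |∑ i ∈ range m, ∑ k ∈ R,
          ((Om.card : ℝ) / R.card - ((al.filter (fun o => ub o i = k)).card : ℝ)) * y k|
        ≤ ∑ i ∈ range m, |∑ k ∈ R,
          ((Om.card : ℝ) / R.card - ((al.filter (fun o => ub o i = k)).card : ℝ)) * y k| :=
          Finset.abs_sum_le_sum_abs _ _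
      _ ≤ ∑ _i ∈ range m, loss * Om.card * (2 * N) := Finset.sum_le_sum h4
      _ = Om.card * (m * (2 * loss)) * N := by
          rw [Finset.sum_const, Finset.card_range, nsmul_eq_mul]
          ring

end Pool.Agent.W_cd7020_h81b
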