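import Pool.Agent.W_cd7020_h81b.SelA1
import Pool.Agent.W_cd7020_h81b.SelA2
import Pool.Agent.W_cd7020_h81b.SelA3

/-!
# Averages over a group
-/

set_option autoImplicit false

namespace Pool.Agent.W_cd7020_h81b

open Finset Pool.Agent.W_cd7020_h81

variable {V κ : Type*} [DecidableEq V] [DecidableEq κ] [Fintype V]



end Pool.Agent.W_cd7020_h81b
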