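import Pool.Agent.W_cd7020_h81b.FDefs
import Pool.Agent.W_cd7020_h81b.ColF

/-!
# Averages over a group: the new pools
-/

set_option autoImplicit false

namespace Pool.Agent.W_cd7020_h81b

open Finset Pool.Agent.W_cd7020_h81

variable {V κ : Type*} [DecidableEq V] [DecidableEq κ] [Fintype V]

theorem sela_qf_sum {ι : Type*} (I : Finset ι) (M : ι → Matrix V V ℝ) (f g : V → ℝ) :
    qf (∑ i ∈ I, M i) f g = ∑ i ∈ I, qf (M i) f g := by
  unfold qf
  rw [Finset.sum_comm (s := I)]
  refine Finset.sum_congr rfl (fun x _ => ?_)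
  rw [Finset.sum_comm (s := I)]
  refine Finset.sum_congr rfl (fun y _ => ?_)
  rw [Matrix.sum_apply, Finset.mul_sum, Finset.sum_mul]

theorem sela_qf_zero (f g : V → ℝ) : qf (0 : Matrix V V ℝ) f g = 0 := by
  unfold qf
  simp

theorem sela_YM (col : Sym2 V → κ) (hcol : Proper col) (k : κ) (v : V → ℝ) :
    |qf (YM col k) v v| ≤ 2 * ∑ x, v x ^ 2 := by
  refine (YM_qf col hcol k v v).trans (le_of_eq ?_)
  unfold nr
  rw [mul_assoc, Real.mul_self_sqrt (Finset.sum_nonneg (fun x _ => sq_nonneg _))]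

/-- The sum over a group of the form of one released colour. -/
theorem sela_one (col : Sym2 V → κ) (Q : Finset κ) (μ : ℕ) (hQ : GoodQ col Q μ) (U : Finset V)
    (E : Finset (Sym2 V)) (hU1 : 1 ≤ U.card) (hEU : (cE col E).card = U.card)
    (hEQ : cE col E ⊆ Q) (vv : ℕ) (hv : Fintype.card V ≤ U.card + vv) {Ω : Type*}
    (Om al : Finset Ω) (loss : ℝ)
    (hdead : ((Om.card : ℝ) - al.card) ≤ loss * Om.card) (r : Ω → κ)
    (hflat : ∀ k, (U.card : ℝ) * (al.filter (fun o => r o = k)).card ≤ Om.card)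
    (hmem : ∀ o ∈ al, r o ∈ cE col E) (v : V → ℝ) :
    |∑ o ∈ al, qf (YM col (r o)) v v| ≤
      Om.card * ((2 * vv + μ) / (U.card : ℝ) + 2 * loss) * ∑ x, v x ^ 2 := by
  classical
  have hUpos : (0 : ℝ) < U.card := by exact_mod_cast hU1
  set N : ℝ := ∑ x, v x ^ 2 with hN
  have hN0 : 0 ≤ N := Finset.sum_nonneg (fun x _ => sq_nonneg _)
  set c : κ → ℝ := fun k => ((al.filter (fun o => r o = k)).card : ℝ) with hc
  set q : κ → ℝ := fun k => qf (YM col k) v v with hq
  have h1 : ∑ o ∈ al, qf (YM col (r o)) v v = ∑ k ∈ cE col E, c k * q k := by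
    rw [← Finset.sum_fiberwise_of_maps_to (s := al) (t := cE col E) (g := r) hmem]
    refine Finset.sum_congr rfl (fun k _ => ?_)
    rw [Finset.sum_congr rfl (fun o ho => by rw [(Finset.mem_filter.1 ho).2]),
      Finset.sum_const, nsmul_eq_mul]
  have h2 : ∑ k ∈ cE col E, c k = al.card := by
    have := Finset.card_eq_sum_card_fiberwise (s := al) (t := cE col E) (f := r) hmem
    rw [this]
    push_cast
    rfl
  set ρ : ℝ := (Om.card : ℝ) / U.card with hρ
  have hρ0 : 0 ≤ ρ := by positivity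
  have hd0 : ∀ k, 0 ≤ ρ - c k := by
    intro k
    have h := hflat k
    rw [sub_nonneg, hρ, le_div_iff₀ hUpos]
    linarith
  have h3 : ∑ k ∈ cE col E, (ρ - c k) ≤ loss * Om.card := by
    rw [Finset.sum_sub_distrib, h2, Finset.sum_const, nsmul_eq_mul, hEU, hρ,
      mul_div_cancel₀ _ hUpos.ne']
    exact hdead
  have h4 : ∑ k ∈ cE col E, c k * q k =
      ρ * ∑ k ∈ cE col E, q k - ∑ k ∈ cE col E, (ρ - c k) * q k := by
    rw [Finset.mul_sum, ← Finset.sum_sub_distrib]
    refine Finset.sum_congr rfl (fun k _ => ?_)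
    ring
  have h5 : |∑ k ∈ cE col E, q k| ≤ (2 * vv + μ) * N := by
    have h6 : ∑ k ∈ cE col E, q k = qf (SM col (cE col E)) v v := by
      unfold SM
      rw [sela_qf_sum]
    rw [h6]
    have hle : (cE col E).card ≤ Fintype.card V := by
      rw [hEU]
      exact Finset.card_le_univ U
    have hmiss : ∀ x, ((cE col E).filter (fun k => par col k x = x)).card ≤ μ := fun x =>
      (Finset.card_le_card (Finset.filter_subset_filter _ hEQ)).trans (hQ.missv x)
    refine (full_qf col hQ.proper (cE col E) μ hle hmiss v).trans ?_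
    refine mul_le_mul_of_nonneg_right ?_ hN0
    rw [hEU]
    have hv' : (Fintype.card V : ℝ) ≤ U.card + vv := by exact_mod_cast hv
    linarith
  have h6 : |∑ k ∈ cE col E, (ρ - c k) * q k| ≤ loss * Om.card * (2 * N) := by
    refine (Finset.abs_sum_le_sum_abs _ _).trans ?_
    refine (Finset.sum_le_sum (fun k _ => ?_)).trans
      (?_ : ∑ k ∈ cE col E, (ρ - c k) * (2 * N) ≤ _)
    · rw [abs_mul, abs_of_nonneg (hd0 k)]
      exact mul_le_mul_of_nonneg_left (sela_YM col hQ.proper k v) (hd0 k)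
    · rw [← Finset.sum_mul]
      exact mul_le_mul_of_nonneg_right h3 (by positivity)
  rw [h1, h4]
  refine (abs_sub _ _).trans ?_
  rw [abs_mul, abs_of_nonneg hρ0]
  have h7 : ρ * |∑ k ∈ cE col E, q k| ≤ ρ * ((2 * vv + μ) * N) :=
    mul_le_mul_of_nonneg_left h5 hρ0
  refine (add_le_add h7 h6).trans (le_of_eq ?_)
  rw [hρ]
  ring

open Classical in
/-- The new pool: `X o = ∑ i ∈ I, YM (rel o i)` for `o ∈ al` and `0` otherwise. For every `v`
`∑ o, qf (X o) v v = ∑ i ∈ I, ∑ k ∈ cE E, c i k qf (YM k) v v`, `c i k = #{o ∈ al | rel o i = k}`,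
`|U| c i k ≤ |Om|`, `∑ k, c i k = |al|`. Write `c i k = |Om|/|U| - (|Om|/|U| - c i k)`, the deficits are
nonnegative and their sum over `k` is `|Om| - |al| ≤ loss |Om|` (`|cE E| = |U|`). So with `full_qf`
(`S = cE E`) and `YM_qf` the hypothesis `hm` of `pot_avg` holds with `γ = 0` and
`d = |I| ((2 v + μ) / |U| + 2 loss)`, `v ≥ n - |U|`; `x = 2 |I|` (`sumYM_norm`). -/
theorem avg_new (col : Sym2 V → κ) (Q : Finset κ) (μ : ℕ) (hQ : GoodQ col Q μ) (U : Finset V)
    (E : Finset (Sym2 V)) (hU1 : 1 ≤ U.card) (hEU : (cE col E).card = U.card)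
    (hEQ : cE col E ⊆ Q) (vv : ℕ) (hv : Fintype.card V ≤ U.card + vv) {Ω : Type*}
    (Om al : Finset Ω) (hsub : al ⊆ Om) (loss : ℝ)
    (hdead : ((Om.card : ℝ) - al.card) ≤ loss * Om.card) (rel : Ω → ℕ → κ) (I : Finset ℕ)
    (hflat : ∀ i ∈ I, ∀ k, (U.card : ℝ) * (al.filter (fun o => rel o i = k)).card ≤ Om.card)
    (hmem : ∀ o ∈ al, ∀ i ∈ I, rel o i ∈ cE col E) (A : Finset κ) (lam : ℝ) (hlam : 0 ≤ lam)
    (hx : lam * (2 * I.card) ≤ 1) (hinj : ∀ o ∈ al, ∀ i ∈ I, ∀ j ∈ I, rel o i = rel o j → i = j)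
    (hA : Disjoint A (cE col E)) :
    ∑ o ∈ Om, pot (SM col (if o ∈ al then A ∪ I.image (rel o) else A)) lam ≤
      Om.card * pot (SM col A) lam * (1 + 2 * (lam ^ 2 * (2 * I.card) ^ 2) +
        2 * (lam * (I.card * ((2 * vv + μ) / (U.card : ℝ) + 2 * loss)))) := by
  have hUpos : (0 : ℝ) < U.card := by exact_mod_cast hU1
  rcases Finset.eq_empty_or_nonempty Om with hOm | hOm
  · subst hOm
    simp
  have hOmpos : (0 : ℝ) < Om.card := by exact_mod_cast hOm.card_pos
  have hloss : 0 ≤ loss := by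
    have h1 : (al.card : ℝ) ≤ Om.card := by exact_mod_cast Finset.card_le_card hsub
    by_contra h
    push Not at h
    have h2 : loss * Om.card < 0 := mul_neg_of_neg_of_pos h hOmpos
    linarith
  set X : Ω → Matrix V V ℝ := fun o => if o ∈ al then ∑ i ∈ I, YM col (rel o i) else 0 with hX
  have hSM : ∀ o ∈ Om, SM col (if o ∈ al then A ∪ I.image (rel o) else A) =
      SM col A + X o := by
    intro o _
    by_cases ho : o ∈ al
    · rw [if_pos ho, hX]
      simp only [if_pos ho]
      have hdisj : Disjoint A (I.image (rel o)) := by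
        refine Finset.disjoint_of_subset_right ?_ hA
        intro k hk
        obtain ⟨i, hi, rfl⟩ := Finset.mem_image.1 hk
        exact hmem o ho i hi
      unfold SM
      rw [Finset.sum_union hdisj, Finset.sum_image]
      intro i hi j hj hij
      exact hinj o ho i hi j hj hij
    · rw [if_neg ho, hX]
      simp only [if_neg ho, add_zero]
  rw [Finset.sum_congr rfl (fun o ho => by rw [hSM o ho])]
  have hherm : ∀ w ∈ Om, (X w).IsHermitian := by
    intro o _
    by_cases ho : o ∈ al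
    · rw [hX]
      simp only [if_pos ho]
      exact sumYM_herm col I (rel o)
    · rw [hX]
      simp only [if_neg ho]
      exact Matrix.isHermitian_zero
  refine pot_avg Om (SM col A) (SM_herm col A) X hherm lam (2 * I.card)
    (I.card * ((2 * vv + μ) / (U.card : ℝ) + 2 * loss)) 0 hlam (by positivity) le_rfl
    (by positivity) hx ?_ ?_
  · intro o _ v
    by_cases ho : o ∈ al
    · rw [hX]
      simp only [if_pos ho]
      exact sumYM_norm col hQ.proper I (rel o) v
    · rw [hX]
      simp only [if_neg ho, Matrix.zero_mulVec, Pi.zero_apply]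
      have h0 : ∑ a : V, (0 : ℝ) ^ 2 = 0 := by simp
      rw [h0]
      positivity
  · intro v
    have h1 : ∑ w ∈ Om, qf (X w) v v = ∑ i ∈ I, ∑ o ∈ al, qf (YM col (rel o i)) v v := by
      rw [Finset.sum_comm]
      have h2 : ∀ w ∈ Om, qf (X w) v v =
          if w ∈ al then ∑ i ∈ I, qf (YM col (rel w i)) v v else 0 := by
        intro w _
        by_cases hw : w ∈ al
        · rw [hX]
          simp only [if_pos hw]
          exact sela_qf_sum I _ v v
        · rw [hX]
          simp only [if_neg hw]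
          exact sela_qf_zero v v
      rw [Finset.sum_congr rfl h2, ← Finset.sum_filter, Finset.filter_mem_eq_inter,
        Finset.inter_eq_right.2 hsub]
    rw [h1, mul_zero, zero_mul, add_zero]
    refine (Finset.abs_sum_le_sum_abs _ _).trans ?_
    refine (Finset.sum_le_sum (fun i hi => sela_one col Q μ hQ U E hU1 hEU hEQ vv hv Om al loss
      hdead (fun o => rel o i) (hflat i hi) (fun o ho => hmem o ho i hi) v)).trans
      (le_of_eq ?_)
    rw [Finset.sum_const, nsmul_eq_mul]
    ring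

end Pool.Agent.W_cd7020_h81b
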