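import Pool.Agent.W_cd7020_h81b.FDefs

/-!
# The indices
-/

set_option autoImplicit false

namespace Pool.Agent.W_cd7020_h81b

open Finset Pool.Agent.W_cd7020_h81

variable {V κ : Type*} [DecidableEq V] [DecidableEq κ] [Fintype V]

theorem SelI_r₀ {n : ℕ} (P : Prm n) : P.r₀ + 5 * P.u = P.t + P.m + 1 := by
  unfold Prm.r₀
  have := P.tu
  omega

theorem IX_sub {n : ℕ} (P : Prm n) (i : Fin 6) : P.IX i ⊆ range (P.t + P.m + 1) := by
  have h := SelI_r₀ P
  intro x hx
  rw [mem_range, ← h]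
  unfold Prm.IX at hx
  split_ifs at hx with h0
  · rw [mem_range] at hx
    omega
  · rw [mem_Ico] at hx
    have h5 : (i : ℕ) ≤ 5 := by omega
    have : (i : ℕ) * P.u ≤ 5 * P.u := Nat.mul_le_mul_right _ h5
    omega

theorem IX_disj {n : ℕ} (P : Prm n) (i j : Fin 6) (h : i ≠ j) : Disjoint (P.IX i) (P.IX j) := by
  have key : ∀ i j : Fin 6, i < j → Disjoint (P.IX i) (P.IX j) := by
    intro i j hij
    have hij' : (i : ℕ) < j := hij
    rw [Finset.disjoint_left]
    intro x hx hy
    unfold Prm.IX at hx hy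
    rw [if_neg (by omega), mem_Ico] at hy
    split_ifs at hx with h0
    · rw [mem_range] at hx
      omega
    · rw [mem_Ico] at hx
      have h1 : (i : ℕ) * P.u ≤ ((j : ℕ) - 1) * P.u := Nat.mul_le_mul_right _ (by omega)
      omega
  rcases lt_or_gt_of_ne h with h | h
  · exact key i j h
  · exact (key j i h).symm

theorem IX_zero {n : ℕ} (P : Prm n) : (P.IX 0).card = P.r₀ := by
  unfold Prm.IX
  rw [if_pos (by simp), card_range]

theorem IX_succ {n : ℕ} (P : Prm n) (i : Fin 5) : (P.IX i.succ).card = P.u := by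
  unfold Prm.IX
  rw [if_neg (by simp), Nat.card_Ico, Fin.val_succ, Nat.add_sub_cancel]
  have : ((i : ℕ) + 1) * P.u = (i : ℕ) * P.u + P.u := by ring
  omega

end Pool.Agent.W_cd7020_h81b
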