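import Pool.Agent.W_cd7020_h81b.SelA
import Pool.Agent.W_cd7020_h81b.SelI

/-!
# The average of the potential
-/

set_option autoImplicit false

namespace Pool.Agent.W_cd7020_h81b

open Finset Pool.Agent.W_cd7020_h81

variable {V κ : Type*} [DecidableEq V] [DecidableEq κ] [Fintype V]

theorem SelB_U {V : Type*} [DecidableEq V] [Fintype V] (V' U : Finset V) (v : ℕ)
    (hV' : V'.card ≤ v) (h : univ \ V' ⊆ U) : Fintype.card V ≤ U.card + v := by
  have h1 := card_le_card h
  have h2 : (univ \ V').card + V'.card = Fintype.card V := by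
    rw [card_sdiff_add_card_eq_card (subset_univ _), card_univ]
  omega

theorem SelB_loss {n : ℕ} (P : Prm n) : 0 ≤ P.loss := by
  refine le_trans ?_ P.hloss
  have h1 : (5 * P.u : ℝ) ≤ P.t := by exact_mod_cast P.tu
  have h2 : (0 : ℝ) ≤ P.t + 1 - 5 * P.u := by linarith
  exact add_nonneg (by positivity) (div_nonneg (by positivity)
    (mul_nonneg (by positivity) h2))

theorem SelB_IX {n : ℕ} (P : Prm n) (i : Fin 6) : (P.IX i).card ≤ P.t + P.m + 1 := by
  simpa using card_le_card (IX_sub P i)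

theorem SelB_fac {n : ℕ} (P : Prm n) (c : ℕ) (hc : c ≤ P.t + P.m + 1) (β : ℝ)
    (hβ : β ≤ 2 * (2 * P.v + P.μ) / (n : ℝ) + 2 * P.loss) (h0 : 0 ≤ β) :
    1 + 2 * (P.lam ^ 2 * (2 * c) ^ 2) + 2 * (P.lam * (c * β)) ≤
      1 + 8 * (P.lam ^ 2 * (P.t + P.m + 1) ^ 2) + 2 * (P.lam * ((P.t + P.m + 1) *
        (2 * (2 * P.v + P.μ) / (n : ℝ) + 2 * P.loss))) := by
  have hc' : (c : ℝ) ≤ P.t + P.m + 1 := by exact_mod_cast hc
  have hl := P.lam0.le
  have hc0 : (0 : ℝ) ≤ c := Nat.cast_nonneg c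
  have h1 : P.lam ^ 2 * (c : ℝ) ^ 2 ≤ P.lam ^ 2 * (P.t + P.m + 1) ^ 2 :=
    mul_le_mul_of_nonneg_left (pow_le_pow_left₀ hc0 hc' 2) (by positivity)
  have h2 : (c : ℝ) * β ≤ (P.t + P.m + 1) *
      (2 * (2 * P.v + P.μ) / (n : ℝ) + 2 * P.loss) :=
    mul_le_mul hc' hβ h0 (by positivity)
  have h3 := mul_le_mul_of_nonneg_left h2 hl
  have h4 : P.lam ^ 2 * (2 * (c : ℝ)) ^ 2 = 4 * (P.lam ^ 2 * (c : ℝ) ^ 2) := by ring
  rw [h4]
  linarith

open Classical in
/-- The average of `Phi` over the group: sum of `avg_del`, `avg_new` and `avg_deg` (for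
`I = P.IX i`), all factors are at most `1 + 8 lam² (t+m+1)² + 2 lam (t+m+1) (2 (2v+μ)/n + 2 loss)`
(`n ≤ 2 |U|`, `m ≤ t + m + 1`, `|I| ≤ t + m + 1`). -/
theorem phi_avg (col : Sym2 V → κ) (Q : Finset κ) (P : Prm (Fintype.card V))
    (hQ : GoodQ col Q P.μ) (V' : Finset V) (hV' : V'.card ≤ P.v) (U : Finset V)
    (hV'U : univ \ V' ⊆ U) (E : Finset (Sym2 V))
    (hEU : E.card = U.card) (hEr : Rb col E) (hEQ : cE col E ⊆ Q) (R : Finset κ)
    (hR1 : 1 ≤ R.card) (w : ℕ → κ) (Mx : ℝ) {Ω : Type*} (Om al : Finset Ω)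
    (rel ub : Ω → ℕ → κ) (N : Ω → ℕ) (F : Ω → Finset (Sym2 V))
    (hG : Group col U E R w P.t P.m P.loss Mx Om al rel ub N F) (A : Fin 6 → Finset κ)
    (hAE : ∀ i, Disjoint (A i) (cE col E)) :
    ∑ o ∈ Om, Phi col V' P (if o ∈ al then R \ (range P.m).image (ub o) else R)
      (fun i => if o ∈ al then A i ∪ (P.IX i).image (rel o) else A i) ≤
    Om.card * Phi col V' P R A *
      (1 + 8 * (P.lam ^ 2 * (P.t + P.m + 1) ^ 2) + 2 * (P.lam * ((P.t + P.m + 1) *
        (2 * (2 * P.v + P.μ) / (Fintype.card V : ℝ) + 2 * P.loss)))) := by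
  have hUv := SelB_U V' U P.v hV' hV'U
  have hn3 := P.n3
  have hvn := P.vn
  have hnU : Fintype.card V ≤ 2 * U.card := by omega
  have hU1 : 1 ≤ U.card := by omega
  have hcE : (cE col E).card = U.card := by
    rw [cE, card_image_of_injOn (fun e he e' he' h => hEr e he e' he' h), hEU]
  have hlam := P.lam0.le
  have hloss := SelB_loss P
  have hn0 : (0 : ℝ) < (Fintype.card V : ℝ) := by
    have : 0 < Fintype.card V := by omega
    exact_mod_cast this
  have hU0 : (0 : ℝ) < (U.card : ℝ) := by exact_mod_cast hU1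
  have hnU' : (Fintype.card V : ℝ) ≤ 2 * U.card := by exact_mod_cast hnU
  have hmemE : ∀ o ∈ al, ∀ i ≤ P.t + P.m, rel o i ∈ cE col E := by
    intro o ho i hi
    obtain ⟨e, he, h⟩ := hG.relmem o ho i hi
    exact mem_image.2 ⟨e, he, h⟩
  have hIXle : ∀ i : Fin 6, ∀ j ∈ P.IX i, j ≤ P.t + P.m := by
    intro i j hj
    have := mem_range.1 (IX_sub P i hj)
    omega
  have hstep : ∀ c : ℕ, c ≤ P.t + P.m + 1 → P.lam * (2 * c) ≤ 1 := by
    intro c hc
    have hc' : (c : ℝ) ≤ P.t + P.m + 1 := by exact_mod_cast hc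
    refine le_trans ?_ P.lamx
    exact mul_le_mul_of_nonneg_left (by linarith) hlam
  have hdivU : ∀ r : ℝ, 0 ≤ r → r / (U.card : ℝ) ≤ 2 * r / (Fintype.card V : ℝ) := by
    intro r hr
    rw [div_le_div_iff₀ hU0 hn0]
    nlinarith
  set FF : ℝ := 1 + 8 * (P.lam ^ 2 * (P.t + P.m + 1) ^ 2) + 2 * (P.lam * ((P.t + P.m + 1) *
        (2 * (2 * P.v + P.μ) / (Fintype.card V : ℝ) + 2 * P.loss))) with hFF
  have hdel : ∑ o ∈ Om, pot (SM col (if o ∈ al then R \ (range P.m).image (ub o) else R)) P.lam ≤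
      Om.card * pot (SM col R) P.lam * FF := by
    refine (avg_del col hQ.proper Om al hG.sub P.loss hG.dead R hR1 ub P.m hG.ubflat hG.ubmem
      hG.ubinj P.lam hlam (hstep P.m (by omega))).trans ?_
    refine mul_le_mul_of_nonneg_left ?_ (mul_nonneg (Nat.cast_nonneg _) (pot_pos _ _))
    refine SelB_fac P P.m (by omega) _ ?_ (by positivity)
    have : 0 ≤ 2 * (2 * P.v + P.μ) / (Fintype.card V : ℝ) := by positivity
    linarith
  have hnew : ∀ i, ∑ o ∈ Om, pot (SM col
      (if o ∈ al then A i ∪ (P.IX i).image (rel o) else A i)) P.lam ≤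
      Om.card * pot (SM col (A i)) P.lam * FF := by
    intro i
    refine (avg_new col Q P.μ hQ U E hU1 hcE hEQ P.v hUv Om al hG.sub P.loss hG.dead rel (P.IX i)
      (fun j hj => hG.relflat j (hIXle i j hj)) (fun o ho j hj => hmemE o ho j (hIXle i j hj))
      (A i) P.lam hlam (hstep _ (SelB_IX P i))
      (fun o ho j hj j' hj' => hG.relinj o ho j (hIXle i j hj) j' (hIXle i j' hj'))
      (hAE i)).trans ?_
    refine mul_le_mul_of_nonneg_left ?_ (mul_nonneg (Nat.cast_nonneg _) (pot_pos _ _))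
    refine SelB_fac P _ (SelB_IX P i) _ ?_ (by positivity)
    have := hdivU (2 * P.v + P.μ) (by positivity)
    linarith
  have hdeg : ∀ i x, ∑ o ∈ Om, Real.exp (P.lam * cntB col V'
      (if o ∈ al then A i ∪ (P.IX i).image (rel o) else A i) x) ≤
      Om.card * Real.exp (P.lam * cntB col V' (A i) x) * FF := by
    intro i x
    refine (avg_deg col Q P.μ hQ V' U E hU1 hEQ P.v hV' Om al hG.sub rel (P.IX i)
      (fun j hj => hG.relflat j (hIXle i j hj)) (fun o ho j hj => hmemE o ho j (hIXle i j hj))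
      (A i) P.lam hlam (hstep _ (SelB_IX P i)) x).trans ?_
    refine mul_le_mul_of_nonneg_left ?_ (mul_nonneg (Nat.cast_nonneg _) (Real.exp_pos _).le)
    have h1 := SelB_fac P _ (SelB_IX P i) ((P.μ + P.v) / (U.card : ℝ)) ?_ (by positivity)
    · have h2 : 0 ≤ 2 * (P.lam ^ 2 * (2 * ((P.IX i).card : ℝ)) ^ 2) := by positivity
      linarith
    · have h2 := hdivU (P.μ + P.v) (by positivity)
      have h3 : 2 * ((P.μ : ℝ) + P.v) / (Fintype.card V : ℝ) ≤
          2 * (2 * P.v + P.μ) / (Fintype.card V : ℝ) := by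
        refine div_le_div_of_nonneg_right ?_ hn0.le
        have : (0 : ℝ) ≤ P.v := Nat.cast_nonneg _
        linarith
      linarith
  unfold Phi
  rw [sum_add_distrib, sum_add_distrib, ← sum_div, sum_comm, sum_comm (s := Om)]
  have e1 : ∀ a b c : ℝ, (Om.card : ℝ) * (a + b + c) * FF =
      Om.card * a * FF + Om.card * b * FF + Om.card * c * FF := by intros; ring
  rw [e1]
  refine add_le_add (add_le_add ?_ ?_) ?_
  · refine (div_le_div_of_nonneg_right hdel (by positivity)).trans (le_of_eq ?_)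
    ring
  · rw [mul_sum, sum_mul]
    refine sum_le_sum (fun i _ => ?_)
    rw [← sum_div]
    refine (div_le_div_of_nonneg_right (hnew i) (by positivity)).trans (le_of_eq ?_)
    ring
  · rw [mul_sum, sum_mul]
    refine sum_le_sum (fun i _ => ?_)
    rw [← sum_div, sum_comm]
    have h1 : ∑ x, ∑ o ∈ Om, Real.exp (P.lam * cntB col V'
      (if o ∈ al then A i ∪ (P.IX i).image (rel o) else A i) x) ≤
        Om.card * (∑ x, Real.exp (P.lam * cntB col V' (A i) x)) * FF := by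
      rw [mul_sum, sum_mul]
      exact sum_le_sum (fun x _ => hdeg i x)
    refine (div_le_div_of_nonneg_right h1 (by positivity)).trans (le_of_eq ?_)
    ring

end Pool.Agent.W_cd7020_h81b
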