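import Pool.Agent.W_cd7020_h81b.FDefs
import Pool.Agent.W_cd7020_h81b.ColF

/-!
# One new pool colour
-/

set_option autoImplicit false

namespace Pool.Agent.W_cd7020_h81b

open Finset Pool.Agent.W_cd7020_h81

variable {V κ : Type*} [DecidableEq V] [DecidableEq κ] [Fintype V]

/-- The potential of six pools. -/
noncomputable def Psi (col : Sym2 V → κ) (V' : Finset V) (lam : ℝ) (A : Fin 6 → Finset κ) : ℝ :=
  ∑ i, pot (SM col (A i)) lam / Fintype.card V +
    ∑ i, (∑ x, Real.exp (lam * cntB col V' (A i) x)) / Fintype.card V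

theorem SmpA_bad (col : Sym2 V → κ) (S : Finset κ) (μ : ℕ) (x : V)
    (hμ : (S.filter (fun k => par col k x = x)).card ≤ μ) (V' : Finset V) :
    (S.filter (fun k => par col k x = x ∨ par col k x ∈ V')).card ≤ μ + V'.card := by
  have h1 : S.filter (fun k => par col k x = x ∨ par col k x ∈ V') ⊆
      S.filter (fun k => par col k x = x) ∪ S.filter (fun k => par col k x ≠ x ∧ par col k x ∈ V') := by
    intro k hk
    rw [Finset.mem_filter] at hk
    rw [Finset.mem_union, Finset.mem_filter, Finset.mem_filter]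
    by_cases h : par col k x = x
    · exact Or.inl ⟨hk.1, h⟩
    · exact Or.inr ⟨hk.1, h, hk.2.resolve_left h⟩
  have h2 : (S.filter (fun k => par col k x ≠ x ∧ par col k x ∈ V')).card ≤ V'.card := by
    refine Finset.card_le_card_of_injOn (fun k => par col k x) (fun k hk => ?_) (fun k hk k' hk' h => ?_)
    · exact (Finset.mem_filter.1 hk).2.2
    · exact par_colour_inj col k k' x (Finset.mem_filter.1 hk).2.1 h
  exact (Finset.card_le_card h1).trans ((Finset.card_union_le _ _).trans (Nat.add_le_add hμ h2))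

theorem SmpA_exp (lam : ℝ) (h0 : 0 ≤ lam) (h1 : 2 * lam ≤ 1) : Real.exp lam ≤ 1 + 2 * lam := by
  have h2 := Real.exp_bound_div_one_sub_of_interval h0 (by linarith)
  refine h2.trans ?_
  rw [div_le_iff₀ (by linarith)]
  nlinarith [mul_nonneg h0 (sub_nonneg.2 h1)]

/-- The average of the exponentials. -/
theorem SmpA_expsum {ι : Type*} (S : Finset ι) (bad : ι → Prop) [DecidablePred bad] (lam a M : ℝ)
    (h0 : 0 ≤ lam) (h1 : 2 * lam ≤ 1) (t : ι → ℝ) (ht : ∀ c ∈ S, t c ≤ a + if bad c then 1 else 0)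
    (hM : ((S.filter bad).card : ℝ) ≤ M) :
    ∑ c ∈ S, Real.exp (lam * t c) ≤ Real.exp (lam * a) * (S.card + 2 * lam * M) := by
  have h2 : ∀ c ∈ S, Real.exp (lam * t c) ≤ Real.exp (lam * a) * (1 + if bad c then 2 * lam else 0) := by
    intro c hc
    have h3 : Real.exp (lam * t c) ≤ Real.exp (lam * (a + if bad c then 1 else 0)) :=
      Real.exp_le_exp.2 (mul_le_mul_of_nonneg_left (ht c hc) h0)
    refine h3.trans ?_
    rw [mul_add, Real.exp_add]
    refine mul_le_mul_of_nonneg_left ?_ (Real.exp_pos _).le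
    split_ifs
    · rw [mul_one]
      exact SmpA_exp lam h0 h1
    · rw [mul_zero, Real.exp_zero, add_zero]
  refine (Finset.sum_le_sum h2).trans ?_
  rw [← Finset.mul_sum]
  refine mul_le_mul_of_nonneg_left ?_ (Real.exp_pos _).le
  rw [Finset.sum_add_distrib, Finset.sum_const, nsmul_eq_mul, mul_one, ← Finset.sum_filter,
    Finset.sum_const, nsmul_eq_mul]
  have : ((S.filter bad).card : ℝ) * (2 * lam) ≤ M * (2 * lam) := mul_le_mul_of_nonneg_right hM (by linarith)
  linarith

/-- One new colour for the pool number `i`. `S ⊆ Q` is a set of `n - 1` colours (`GoodQ.large`), at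
most `k` colours are already used (`G`). The average over `c ∈ S` (`X c = YM c` if `c ∉ G`, `0`
otherwise) of `pot (SM (A i) + X c)` is at most `pot (SM (A i)) (1 + 8 lam² + 2 lam (2 + μ + 2 k) / (n - 1))`
by `pot_avg` with `x = 2`, `γ = 0`: `|∑ c ∈ S, qf (YM c) v v| ≤ (2 + μ) ‖v‖ ^ 2` by `full_qf`, and
the at most `k` colours in `G` contribute at most `2 k ‖v‖ ^ 2`. For the exponentials: the factor is
`1 + 2 lam (μ + |V'|) / (n - 1)` (`lam ≤ 1 / 2`). So some `c ∈ S \ G` satisfies the inequality with the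
additional factor `(n - 1) / (n - 1 - k) ≤ 1 + 2 k / (n - 1)`. -/
theorem sample_one (col : Sym2 V → κ) (Q : Finset κ) (μ : ℕ) (hQ : GoodQ col Q μ)
    (V' : Finset V) (lam : ℝ) (hlam : 0 ≤ lam) (hlam1 : 2 * lam ≤ 1) (A : Fin 6 → Finset κ)
    (i : Fin 6) (G : Finset κ) (k : ℕ) (hG : G.card ≤ k) (hk : 4 * k + 4 ≤ Fintype.card V)
    (hAG : ∀ j, A j ⊆ G) (δ : ℝ)
    (hδ : (1 + 4 * (k : ℝ) / Fintype.card V) * (1 + 8 * lam ^ 2 +
      2 * lam * (2 * (2 + μ + V'.card + 2 * k) / Fintype.card V)) ≤ 1 + δ) :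
    ∃ c ∈ Q, c ∉ G ∧ Psi col V' lam (Function.update A i (insert c (A i))) ≤
      Psi col V' lam A * (1 + δ) := by
  classical
  obtain ⟨n, hn⟩ : ∃ n : ℝ, n = Fintype.card V := ⟨_, rfl⟩
  have hkn : 4 * (k : ℝ) + 4 ≤ n := by rw [hn]; exact_mod_cast hk
  have hk0 : (0 : ℝ) ≤ k := Nat.cast_nonneg k
  have hn0 : 0 < n := by linarith
  have hcol := hQ.proper
  -- the set `S`
  obtain ⟨S, hSQ, hSc⟩ : ∃ S ⊆ Q, S.card = Fintype.card V - 1 := by
    refine Finset.exists_subset_card_eq ?_
    have := hQ.large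
    omega
  have hScr : (S.card : ℝ) = n - 1 := by
    rw [hSc, hn, Nat.cast_sub (by omega), Nat.cast_one]
  have hμS : ∀ x, (S.filter (fun k => par col k x = x)).card ≤ μ := fun x =>
    (Finset.card_le_card (Finset.filter_subset_filter _ hSQ)).trans (hQ.missv x)
  obtain ⟨D, hD⟩ : ∃ D : ℝ, D = 2 * (2 + μ + V'.card + 2 * k) / n := ⟨_, rfl⟩
  obtain ⟨q, hq⟩ : ∃ q : ℝ, q = 1 + 8 * lam ^ 2 + 2 * lam * D := ⟨_, rfl⟩
  have hD0 : 0 ≤ D := by rw [hD]; positivity
  have hq1 : 1 ≤ q := by
    rw [hq]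
    have : 0 ≤ 2 * lam * D := by positivity
    nlinarith [sq_nonneg lam]
  rw [← hn, ← hD, ← hq] at hδ
  -- the potential
  obtain ⟨X, hX⟩ : ∃ X : κ → Matrix V V ℝ, ∀ c, X c = if c ∈ G then 0 else YM col c := ⟨_, fun _ => rfl⟩
  obtain ⟨d, hd⟩ : ∃ d : ℝ, d = (2 + μ + 2 * k) / (n - 1) := ⟨_, rfl⟩
  have hn1 : 0 < n - 1 := by linarith
  have hd0 : 0 ≤ d := by rw [hd]; positivity
  have hdD : d ≤ D := by
    rw [hd, hD, div_le_div_iff₀ hn1 hn0]
    have h1 : (0 : ℝ) ≤ V'.card := Nat.cast_nonneg _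
    have h2 : (0 : ℝ) ≤ μ := Nat.cast_nonneg _
    nlinarith [mul_nonneg h1 hn1.le, mul_nonneg h2 hn1.le, mul_nonneg hk0 hn1.le]
  have hherm : ∀ c ∈ S, (X c).IsHermitian := by
    intro c _
    rw [hX]
    split_ifs
    · exact Matrix.isHermitian_zero
    · exact YM_herm col c
  have hnorm : ∀ c ∈ S, ∀ v : V → ℝ, ∑ a, ((X c).mulVec v a) ^ 2 ≤ (2 : ℝ) ^ 2 * ∑ a, v a ^ 2 := by
    intro c _ v
    rw [hX]
    split_ifs
    · simp only [Matrix.zero_mulVec, Pi.zero_apply]
      have : 0 ≤ ∑ a, v a ^ 2 := Finset.sum_nonneg fun a _ => sq_nonneg _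
      simp only [ne_eq, OfNat.ofNat_ne_zero, not_false_eq_true, zero_pow, Finset.sum_const_zero]
      positivity
    · have := YM_norm col hcol c v
      norm_num
      exact this
  have hmean : ∀ v : V → ℝ, |∑ c ∈ S, qf (X c) v v + S.card * 0 * qf (SM col (A i)) v v| ≤
      S.card * d * ∑ a, v a ^ 2 := by
    intro v
    have hv0 : 0 ≤ ∑ a, v a ^ 2 := Finset.sum_nonneg fun a _ => sq_nonneg _
    have h1 : ∑ c ∈ S, qf (X c) v v = qf (SM col S) v v - ∑ c ∈ S.filter (fun c => c ∈ G), qf (YM col c) v v := by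
      have h2 : qf (SM col S) v v = ∑ c ∈ S, qf (YM col c) v v := by
        unfold SM
        rw [qf_sum]
      rw [h2, ← Finset.sum_filter_add_sum_filter_not S (fun c => c ∈ G) (fun c => qf (YM col c) v v),
        ← Finset.sum_filter_add_sum_filter_not S (fun c => c ∈ G) (fun c => qf (X c) v v)]
      have h3 : ∑ c ∈ S.filter (fun c => c ∈ G), qf (X c) v v = 0 := by
        refine Finset.sum_eq_zero fun c hc => ?_
        rw [hX, if_pos (Finset.mem_filter.1 hc).2]
        unfold qf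
        simp
      have h4 : ∑ c ∈ S.filter (fun c => ¬ c ∈ G), qf (X c) v v =
          ∑ c ∈ S.filter (fun c => ¬ c ∈ G), qf (YM col c) v v :=
        Finset.sum_congr rfl fun c hc => by rw [hX, if_neg (Finset.mem_filter.1 hc).2]
      rw [h3, h4]
      ring
    have h5 := full_qf col hcol S μ (by omega) hμS v
    have h6 : |∑ c ∈ S.filter (fun c => c ∈ G), qf (YM col c) v v| ≤ 2 * k * ∑ a, v a ^ 2 := by
      calc |∑ c ∈ S.filter (fun c => c ∈ G), qf (YM col c) v v|
          ≤ ∑ c ∈ S.filter (fun c => c ∈ G), |qf (YM col c) v v| := Finset.abs_sum_le_sum_abs _ _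
        _ ≤ ∑ c ∈ S.filter (fun c => c ∈ G), 2 * ∑ a, v a ^ 2 := by
            refine Finset.sum_le_sum fun c _ => ?_
            refine (YM_qf col hcol c v v).trans (le_of_eq ?_)
            rw [mul_assoc, ← sq, nr_sq]
        _ = (S.filter (fun c => c ∈ G)).card * (2 * ∑ a, v a ^ 2) := by
            rw [Finset.sum_const, nsmul_eq_mul]
        _ ≤ k * (2 * ∑ a, v a ^ 2) := by
            refine mul_le_mul_of_nonneg_right ?_ (by positivity)
            have : (S.filter (fun c => c ∈ G)).card ≤ G.card :=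
              Finset.card_le_card fun c hc => (Finset.mem_filter.1 hc).2
            exact_mod_cast this.trans hG
        _ = _ := by ring
    rw [h1, mul_zero, zero_mul, add_zero]
    have h7 : (S.card : ℝ) * d = 2 + μ + 2 * k := by
      rw [hScr, hd, mul_div_cancel₀ _ hn1.ne']
    rw [h7]
    have h8 : (2 * ((Fintype.card V : ℝ) - S.card) + μ) = 2 + μ := by
      rw [← hn, hScr]
      ring
    rw [h8] at h5
    calc |qf (SM col S) v v - ∑ c ∈ S.filter (fun c => c ∈ G), qf (YM col c) v v|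
        ≤ |qf (SM col S) v v| + |∑ c ∈ S.filter (fun c => c ∈ G), qf (YM col c) v v| := abs_sub _ _
      _ ≤ (2 + μ) * (∑ a, v a ^ 2) + 2 * k * ∑ a, v a ^ 2 := add_le_add h5 h6
      _ = _ := by ring
  have hpot := pot_avg S (SM col (A i)) (SM_herm col (A i)) X hherm lam 2 d 0 hlam (by norm_num) le_rfl hd0
    (by linarith) hnorm hmean
  have hpot' : ∑ c ∈ S, pot (SM col (A i) + X c) lam ≤ S.card * pot (SM col (A i)) lam * q := by
    refine hpot.trans (mul_le_mul_of_nonneg_left ?_ (mul_nonneg (Nat.cast_nonneg _) (pot_pos _ _)))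
    rw [hq]
    have : lam * d ≤ lam * D := mul_le_mul_of_nonneg_left hdD hlam
    nlinarith
  -- the exponentials
  obtain ⟨bad, hbad⟩ : ∃ bad : κ → V → Prop, ∀ c x, bad c x ↔ (par col c x = x ∨ par col c x ∈ V') :=
    ⟨fun c x => par col c x = x ∨ par col c x ∈ V', fun _ _ => Iff.rfl⟩
  obtain ⟨N, hN⟩ : ∃ N : κ → V → ℝ, ∀ c x, N c x =
      if c ∈ G then (cntB col V' (A i) x : ℝ) else (cntB col V' (insert c (A i)) x : ℝ) := ⟨_, fun _ _ => rfl⟩
  have hNle : ∀ c x, N c x ≤ cntB col V' (A i) x + if bad c x then 1 else 0 := by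
    intro c x
    rw [hN]
    split_ifs with h1 h2 h2
    · linarith
    · linarith
    · unfold cntB
      rw [Finset.filter_insert]
      split_ifs
      · exact_mod_cast Finset.card_insert_le _ _
      · linarith
    · unfold cntB
      rw [Finset.filter_insert, if_neg (fun h => h2 ((hbad c x).2 h)), add_zero]
  have hexp : ∀ x, ∑ c ∈ S, Real.exp (lam * N c x) ≤ S.card * Real.exp (lam * cntB col V' (A i) x) * q := by
    intro x
    have h1 := SmpA_expsum S (fun c => bad c x) lam (cntB col V' (A i) x) (μ + V'.card) hlam hlam1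
      (fun c => N c x) (fun c _ => hNle c x) (by
        have h2 := SmpA_bad col S μ x (hμS x) V'
        have h3 : S.filter (fun c => bad c x) = S.filter (fun k => par col k x = x ∨ par col k x ∈ V') :=
          Finset.filter_congr fun c _ => hbad c x
        rw [h3]
        exact_mod_cast h2)
    refine h1.trans ?_
    have h4 : (S.card : ℝ) + 2 * lam * (μ + V'.card) ≤ S.card * q := by
      rw [hScr, hq]
      have h5 : (μ + V'.card : ℝ) ≤ (n - 1) * D := by
        rw [hD, mul_div_assoc', le_div_iff₀ hn0]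
        have h1 : (0 : ℝ) ≤ V'.card := Nat.cast_nonneg _
        have h2 : (0 : ℝ) ≤ μ := Nat.cast_nonneg _
        nlinarith [mul_nonneg h1 hn1.le, mul_nonneg h2 hn1.le, mul_nonneg hk0 hn1.le]
      have h6 : 2 * lam * (μ + V'.card) ≤ 2 * lam * ((n - 1) * D) :=
        mul_le_mul_of_nonneg_left h5 (by linarith)
      nlinarith [mul_nonneg hn1.le (sq_nonneg lam)]
    calc Real.exp (lam * cntB col V' (A i) x) * (S.card + 2 * lam * (μ + V'.card))
        ≤ Real.exp (lam * cntB col V' (A i) x) * (S.card * q) :=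
          mul_le_mul_of_nonneg_left h4 (Real.exp_pos _).le
      _ = _ := by ring
  -- the total
  obtain ⟨p, hp⟩ : ∃ p : Finset κ → ℝ, ∀ B, p B = pot (SM col B) lam / n +
      (∑ x, Real.exp (lam * cntB col V' B x)) / n := ⟨_, fun _ => rfl⟩
  have hp0 : ∀ B, 0 ≤ p B := by
    intro B
    rw [hp]
    exact add_nonneg (div_nonneg (pot_pos _ _) hn0.le)
      (div_nonneg (Finset.sum_nonneg fun x _ => (Real.exp_pos _).le) hn0.le)
  have hPsi : ∀ A' : Fin 6 → Finset κ, Psi col V' lam A' = ∑ j, p (A' j) := by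
    intro A'
    unfold Psi
    rw [← Finset.sum_add_distrib]
    refine Finset.sum_congr rfl fun j _ => ?_
    rw [hp, hn]
  obtain ⟨R0, hR0⟩ : ∃ R0 : ℝ, R0 = ∑ j ∈ Finset.univ.erase i, p (A j) := ⟨_, rfl⟩
  have hR00 : 0 ≤ R0 := by rw [hR0]; exact Finset.sum_nonneg fun j _ => hp0 _
  have hPsiA : Psi col V' lam A = p (A i) + R0 := by
    rw [hPsi, hR0, ← Finset.add_sum_erase _ _ (Finset.mem_univ i)]
  have hPsiU : ∀ B, Psi col V' lam (Function.update A i B) = p B + R0 := by
    intro B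
    rw [hPsi, hR0, ← Finset.add_sum_erase _ _ (Finset.mem_univ i), Function.update_self]
    congr 1
    refine Finset.sum_congr rfl fun j hj => ?_
    rw [Function.update_of_ne (Finset.ne_of_mem_erase hj)]
  obtain ⟨F, hF⟩ : ∃ F : κ → ℝ, ∀ c, F c = pot (SM col (A i) + X c) lam / n +
      (∑ x, Real.exp (lam * N c x)) / n := ⟨_, fun _ => rfl⟩
  have hF0 : ∀ c, 0 ≤ F c := by
    intro c
    rw [hF]
    exact add_nonneg (div_nonneg (pot_pos _ _) hn0.le)
      (div_nonneg (Finset.sum_nonneg fun x _ => (Real.exp_pos _).le) hn0.le)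
  have hFs : ∑ c ∈ S, F c ≤ S.card * p (A i) * q := by
    have h1 : ∑ c ∈ S, F c = (∑ c ∈ S, pot (SM col (A i) + X c) lam) / n +
        (∑ x, ∑ c ∈ S, Real.exp (lam * N c x)) / n := by
      simp only [hF]
      rw [Finset.sum_add_distrib, ← Finset.sum_div, ← Finset.sum_div, Finset.sum_comm]
    have h2 : ∑ x, ∑ c ∈ S, Real.exp (lam * N c x) ≤
        S.card * (∑ x, Real.exp (lam * cntB col V' (A i) x)) * q := by
      rw [Finset.mul_sum, Finset.sum_mul]
      exact Finset.sum_le_sum fun x _ => hexp x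
    rw [h1, hp]
    have h3 := div_le_div_of_nonneg_right hpot' hn0.le
    have h4 := div_le_div_of_nonneg_right h2 hn0.le
    calc _ ≤ S.card * pot (SM col (A i)) lam * q / n +
          S.card * (∑ x, Real.exp (lam * cntB col V' (A i) x)) * q / n := add_le_add h3 h4
      _ = _ := by ring
  -- the choice
  obtain ⟨T, hT⟩ : ∃ T : Finset κ, T = S \ G := ⟨_, rfl⟩
  have hTc : n - 1 - k ≤ (T.card : ℝ) := by
    have h1 : S.card ≤ T.card + G.card := by
      rw [hT]
      have := Finset.card_le_card_sdiff_add_card (s := S) (t := G)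
      omega
    have h2 : (S.card : ℝ) ≤ T.card + k := by exact_mod_cast h1.trans (Nat.add_le_add_left hG _)
    rw [hScr] at h2
    linarith
  have hTpos : 0 < (T.card : ℝ) := by linarith
  have hTne : T.Nonempty := Finset.card_pos.1 (by exact_mod_cast hTpos)
  have hsum : ∑ c ∈ T, (F c + R0) ≤ ∑ _c ∈ T, Psi col V' lam A * (1 + δ) := by
    rw [Finset.sum_const, nsmul_eq_mul]
    have h1 : ∑ c ∈ T, (F c + R0) ≤ ∑ c ∈ S, (F c + R0) := by
      refine Finset.sum_le_sum_of_subset_of_nonneg ?_ fun c _ _ => add_nonneg (hF0 c) hR00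
      rw [hT]
      exact Finset.sdiff_subset
    have h2 : ∑ c ∈ S, (F c + R0) ≤ S.card * (q * Psi col V' lam A) := by
      rw [Finset.sum_add_distrib, Finset.sum_const, nsmul_eq_mul, hPsiA]
      have h3 : (S.card : ℝ) * R0 ≤ S.card * (q * R0) :=
        mul_le_mul_of_nonneg_left (le_mul_of_one_le_left hR00 hq1) (Nat.cast_nonneg _)
      calc _ ≤ S.card * p (A i) * q + S.card * (q * R0) := add_le_add hFs h3
        _ = _ := by ring
    have hPsi0 : 0 ≤ Psi col V' lam A := by rw [hPsiA]; exact add_nonneg (hp0 _) hR00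
    have h3 : (S.card : ℝ) ≤ T.card * (1 + 4 * k / n) := by
      have h4 : n - 1 ≤ (n - 1 - k) * (1 + 4 * k / n) := by
        have h5 : (n - 1 - k) * (1 + 4 * k / n) = ((n - 1 - k) * (n + 4 * k)) / n := by
          field_simp
        rw [h5, le_div_iff₀ hn0]
        nlinarith [mul_nonneg hk0 (by linarith : (0 : ℝ) ≤ n - 4 * k - 4), mul_nonneg hk0 hn0.le]
      rw [hScr]
      exact h4.trans (mul_le_mul_of_nonneg_right hTc (by positivity))
    calc ∑ c ∈ T, (F c + R0) ≤ S.card * (q * Psi col V' lam A) := h1.trans h2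
      _ ≤ T.card * (1 + 4 * k / n) * (q * Psi col V' lam A) :=
          mul_le_mul_of_nonneg_right h3 (mul_nonneg (by linarith) hPsi0)
      _ = T.card * ((1 + 4 * k / n) * q * Psi col V' lam A) := by ring
      _ ≤ T.card * (Psi col V' lam A * (1 + δ)) := by
          refine mul_le_mul_of_nonneg_left ?_ hTpos.le
          rw [mul_comm (Psi col V' lam A)]
          exact mul_le_mul_of_nonneg_right hδ hPsi0
  obtain ⟨c, hc, hcle⟩ := Finset.exists_le_of_sum_le hTne hsum
  rw [hT, Finset.mem_sdiff] at hc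
  refine ⟨c, hSQ hc.1, hc.2, ?_⟩
  rw [hPsiU]
  have hcA : c ∉ A i := fun h => hc.2 (hAG i h)
  have h1 : F c = p (insert c (A i)) := by
    rw [hF, hp]
    have h2 : SM col (A i) + X c = SM col (insert c (A i)) := by
      rw [hX, if_neg hc.2]
      unfold SM
      rw [Finset.sum_insert hcA, add_comm]
    rw [h2]
    have h3 : ∀ x, N c x = cntB col V' (insert c (A i)) x := fun x => by rw [hN, if_neg hc.2]
    simp only [h3]
  rw [← h1]
  exact hcle

end Pool.Agent.W_cd7020_h81b
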