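import Pool.Agent.W_cd7020_h81b.SmpA

/-!
# Pools of given sizes
-/

set_option autoImplicit false

namespace Pool.Agent.W_cd7020_h81b

open Finset Pool.Agent.W_cd7020_h81

variable {V κ : Type*} [DecidableEq V] [DecidableEq κ] [Fintype V]

theorem SmpB_pot (lam : ℝ) : pot (0 : Matrix V V ℝ) lam = Fintype.card V := by
  have h : (0 : Matrix V V ℝ).IsHermitian := Matrix.isHermitian_zero
  have h2 : h.eigenvalues = 0 := h.eigenvalues_eq_zero_iff.2 rfl
  unfold pot
  rw [dif_pos h]
  simp [h2]

theorem SmpB_Psi (col : Sym2 V → κ) (V' : Finset V) (lam : ℝ) (h : 0 < Fintype.card V) :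
    Psi col V' lam (fun _ => ∅) = 12 := by
  have hn : (Fintype.card V : ℝ) ≠ 0 := by
    have : (0 : ℝ) < Fintype.card V := by exact_mod_cast h
    exact this.ne'
  unfold Psi
  have h1 : SM col (∅ : Finset κ) = 0 := by simp [SM]
  simp only [h1, SmpB_pot, cntB, Finset.filter_empty, Finset.card_empty, Nat.cast_zero, mul_zero,
    Real.exp_zero, Finset.sum_const, Finset.card_univ, Fintype.card_fin, nsmul_eq_mul, mul_one,
    div_self hn]
  norm_num

/-- Pools of given sizes: iteration of `sample_one` (`G` is the union of the pools). -/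
theorem sample (col : Sym2 V → κ) (Q : Finset κ) (μ : ℕ) (hQ : GoodQ col Q μ)
    (V' : Finset V) (lam : ℝ) (hlam : 0 ≤ lam) (hlam1 : 2 * lam ≤ 1) (sz : Fin 6 → ℕ)
    (k : ℕ) (hsz : ∑ i, sz i ≤ k) (hk : 4 * k + 4 ≤ Fintype.card V) (δ : ℝ) (hδ0 : 0 ≤ δ)
    (hδ : (1 + 4 * (k : ℝ) / Fintype.card V) * (1 + 8 * lam ^ 2 +
      2 * lam * (2 * (2 + μ + V'.card + 2 * k) / Fintype.card V)) ≤ 1 + δ) :
    ∃ A : Fin 6 → Finset κ, (∀ i, A i ⊆ Q) ∧ (∀ i, (A i).card = sz i) ∧
      (∀ i j, i ≠ j → Disjoint (A i) (A j)) ∧
      Psi col V' lam A ≤ 12 * (1 + δ) ^ (∑ i, sz i) := by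
  have key : ∀ j : ℕ, j ≤ ∑ i, sz i → ∃ A : Fin 6 → Finset κ, (∀ i, A i ⊆ Q) ∧
      (∀ i, (A i).card ≤ sz i) ∧ ∑ i, (A i).card = j ∧
      (∀ i l, i ≠ l → Disjoint (A i) (A l)) ∧ Psi col V' lam A ≤ 12 * (1 + δ) ^ j := by
    intro j
    induction j with
    | zero =>
      intro _
      refine ⟨fun _ => ∅, fun _ => by simp, fun _ => by simp, by simp, fun _ _ _ => by simp, ?_⟩
      rw [SmpB_Psi col V' lam (by omega)]
      simp
    | succ j ih =>
      intro hj
      obtain ⟨A, hAQ, hAc, hAs, hAd, hAP⟩ := ih (by omega)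
      obtain ⟨i, hi⟩ : ∃ i, (A i).card < sz i := by
        by_contra hcon
        push Not at hcon
        have := Finset.sum_le_sum (fun i (_ : i ∈ (univ : Finset (Fin 6))) => hcon i)
        omega
      obtain ⟨c, hcQ, hcG, hc⟩ := sample_one col Q μ hQ V' lam hlam hlam1 A i
        (univ.biUnion A) k
        ((Finset.card_biUnion_le).trans (by omega)) hk
        (fun l => Finset.subset_biUnion_of_mem A (mem_univ l)) δ hδ
      have hcA : ∀ l, c ∉ A l := fun l hl => hcG (Finset.mem_biUnion.2 ⟨l, mem_univ l, hl⟩)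
      refine ⟨Function.update A i (insert c (A i)), fun l => ?_, fun l => ?_, ?_, ?_, ?_⟩
      · rcases eq_or_ne l i with rfl | hl
        · rw [Function.update_self]
          exact Finset.insert_subset hcQ (hAQ l)
        · rw [Function.update_of_ne hl]
          exact hAQ l
      · rcases eq_or_ne l i with rfl | hl
        · rw [Function.update_self, Finset.card_insert_of_notMem (hcA l)]
          exact hi
        · rw [Function.update_of_ne hl]
          exact hAc l
      · have e : ∀ l, (Function.update A i (insert c (A i)) l).card =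
            (A l).card + if l = i then 1 else 0 := by
          intro l
          rcases eq_or_ne l i with rfl | hl
          · rw [Function.update_self, Finset.card_insert_of_notMem (hcA l), if_pos rfl]
          · rw [Function.update_of_ne hl, if_neg hl, add_zero]
        simp only [e, Finset.sum_add_distrib, hAs, Finset.sum_ite_eq', mem_univ, if_true]
      · have hins : ∀ l, l ≠ i → Disjoint (insert c (A i)) (A l) := by
          intro l hl
          rw [Finset.disjoint_insert_left]
          exact ⟨hcA l, hAd i l hl.symm⟩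
        intro a b hab
        rcases eq_or_ne a i with rfl | ha
        · rw [Function.update_self, Function.update_of_ne hab.symm]
          exact hins b hab.symm
        · rcases eq_or_ne b i with rfl | hb
          · rw [Function.update_self, Function.update_of_ne ha]
            exact (hins a ha).symm
          · rw [Function.update_of_ne ha, Function.update_of_ne hb]
            exact hAd a b hab
      · calc Psi col V' lam (Function.update A i (insert c (A i)))
            ≤ Psi col V' lam A * (1 + δ) := hc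
          _ ≤ 12 * (1 + δ) ^ j * (1 + δ) := mul_le_mul_of_nonneg_right hAP (by linarith)
          _ = 12 * (1 + δ) ^ (j + 1) := by ring
  obtain ⟨A, hAQ, hAc, hAs, hAd, hAP⟩ := key _ le_rfl
  refine ⟨A, hAQ, fun i => ?_, hAd, hAP⟩
  by_contra hne
  have hlt : (A i).card < sz i := lt_of_le_of_ne (hAc i) hne
  have := Finset.sum_lt_sum (fun l (_ : l ∈ (univ : Finset (Fin 6))) => hAc l)
    ⟨i, mem_univ i, hlt⟩
  omega

end Pool.Agent.W_cd7020_h81b
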