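import Pool.Agent.W_cd7020_h81b.Epoch
import Pool.Agent.W_cd7020_h81b.InB

/-!
# The main theorem in terms of parameters
-/

set_option autoImplicit false

namespace Pool.Agent.W_cd7020_h81b

open Finset Pool.Agent.W_cd7020_h81

variable {V κ : Type*} [DecidableEq V] [DecidableEq κ] [Fintype V]

/-- Take a state with `|U|` maximal (`init_state`, `|U| ≤ n`). If `U ≠ univ` and
`|U| + K ≤ |Q|`, then `epoch` gives a larger one. -/
theorem top (col : Sym2 V → κ) (Q : Finset κ) (P : Prm (Fintype.card V)) (a : ℕ)
    (hI : IPrm P a) (hQ : GoodQ col Q P.μ) :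
    ∃ (U : Finset V) (E : Finset (Sym2 V)), Cyc U E ∧ E.card = U.card ∧ Rb col E ∧
      cE col E ⊆ Q ∧ 3 ≤ U.card ∧ (U = univ ∨ Q.card < U.card + P.K) := by
  have hn := P.n3
  have hv := P.vn
  obtain ⟨V', -, hV'⟩ := Finset.exists_subset_card_eq (s := (univ : Finset V)) (n := P.v)
    (by rw [Finset.card_univ]; omega)
  have key : ∀ (d : ℕ) (U : Finset V) (E : Finset (Sym2 V)) (R : Finset κ)
      (B : Fin 5 → Finset κ), State col Q V' P U E R B → Fintype.card V ≤ U.card + d →
      ∃ (U : Finset V) (E : Finset (Sym2 V)), Cyc U E ∧ E.card = U.card ∧ Rb col E ∧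
      cE col E ⊆ Q ∧ 3 ≤ U.card ∧ (U = univ ∨ Q.card < U.card + P.K) := by
    intro d
    induction d with
    | zero =>
      intro U E R B hS hd
      have h3 : 3 ≤ U.card := by omega
      refine ⟨U, E, hS.cyc, hS.card, hS.rb, hS.cols, h3, Or.inl ?_⟩
      exact Finset.eq_univ_of_card U (le_antisymm (Finset.card_le_univ U) (by omega))
    | succ d ih =>
      intro U E R B hS hd
      have h3 : 3 ≤ U.card := by
        have h1 := Finset.card_le_card hS.V'U
        have h2 := Finset.card_sdiff_add_card_eq_card (Finset.subset_univ V')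
        rw [Finset.card_univ, hV'] at h2
        omega
      by_cases hU : U = univ
      · exact ⟨U, E, hS.cyc, hS.card, hS.rb, hS.cols, h3, Or.inl hU⟩
      · by_cases hK : U.card + P.K ≤ Q.card
        · obtain ⟨x, hx⟩ : ∃ x, x ∉ U := by
            by_contra hcon
            push Not at hcon
            exact hU (Finset.eq_univ_iff_forall.2 hcon)
          obtain ⟨E', R', B', hS'⟩ := epoch col Q P hQ V' hV'.le U E R B hS hK x hx
          refine ih (insert x U) E' R' B' hS' ?_
          rw [Finset.card_insert_of_notMem hx]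
          omega
        · exact ⟨U, E, hS.cyc, hS.card, hS.rb, hS.cols, h3, Or.inr (by omega)⟩
  obtain ⟨U, E, R, B, hS⟩ := init_state col Q P a hI hQ V' hV'
  exact key (Fintype.card V) U E R B hS (by omega)

end Pool.Agent.W_cd7020_h81b
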